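import Pool.Agent.Helper90.CX.K9K

/-!
Row K9 (MP_c75db0), part M: arithmetic of packed 9 x 9 matrices modulo `V ^ 9`.

A slot `(i, j)` has three digits `x i j 0, x i j 1, x i j 2` (integers of any sign); the entry of the
matrix is `(x i j 0 - x i j 2) + x i j 1 * I`. Slot 9 of every row is not used.
-/

set_option autoImplicit false
noncomputable section
namespace Pool.Agent.Helper90.K9

/-- value of a table of digits -/
def val (x : ℕ → ℕ → ℕ → ℤ) : ℤ := pz V 9 (fun i => pz B3 10 (fun j => pz B 3 (x i j)))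

/-- `N` represents the table `x` modulo `V ^ 9` -/
def P9 (N : ℕ) (x : ℕ → ℕ → ℕ → ℤ) : Prop := ∃ k : ℤ, (N : ℤ) = val x + (V : ℤ) ^ 9 * k

theorem val_add (x y : ℕ → ℕ → ℕ → ℤ) : val (fun i j s => x i j s + y i j s) = val x + val y := by
  unfold val
  rw [pz_add]
  refine pz_congr _ _ _ _ fun i _ => ?_
  rw [pz_add]
  refine pz_congr _ _ _ _ fun j _ => ?_
  rw [pz_add]

theorem val_sub (x y : ℕ → ℕ → ℕ → ℤ) : val (fun i j s => x i j s - y i j s) = val x - val y := by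
  unfold val
  rw [pz_sub]
  refine pz_congr _ _ _ _ fun i _ => ?_
  rw [pz_sub]
  refine pz_congr _ _ _ _ fun j _ => ?_
  rw [pz_sub]

theorem val_smul (c : ℤ) (x : ℕ → ℕ → ℕ → ℤ) : val (fun i j s => c * x i j s) = c * val x := by
  unfold val
  rw [pz_smul]
  refine pz_congr _ _ _ _ fun i _ => ?_
  rw [pz_smul]
  refine pz_congr _ _ _ _ fun j _ => ?_
  rw [pz_smul]

theorem val_congr {x y : ℕ → ℕ → ℕ → ℤ} (h : ∀ i < 9, ∀ j < 10, ∀ s < 3, x i j s = y i j s) :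
    val x = val y :=
  pz_congr _ _ _ _ fun i hi => pz_congr _ _ _ _ fun j hj => pz_congr _ _ _ _ fun s hs => h i hi j hj s hs

theorem P9.congr {N : ℕ} {x y : ℕ → ℕ → ℕ → ℤ} (hP : P9 N x)
    (h : ∀ i < 9, ∀ j < 10, ∀ s < 3, x i j s = y i j s) : P9 N y := by
  obtain ⟨k, hk⟩ := hP
  exact ⟨k, by rw [hk, val_congr h]⟩

theorem P9.add {N M : ℕ} {x y : ℕ → ℕ → ℕ → ℤ} (hx : P9 N x) (hy : P9 M y) :
    P9 (N + M) (fun i j s => x i j s + y i j s) := by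
  obtain ⟨k, hk⟩ := hx
  obtain ⟨l, hl⟩ := hy
  exact ⟨k + l, by rw [Nat.cast_add, hk, hl, val_add]; ring⟩

theorem P9.smul {N : ℕ} {x : ℕ → ℕ → ℕ → ℤ} (c : ℕ) (hx : P9 N x) :
    P9 (c * N) (fun i j s => c * x i j s) := by
  obtain ⟨k, hk⟩ := hx
  exact ⟨c * k, by rw [Nat.cast_mul, hk, val_smul]; ring⟩

/-- subtraction modulo `V ^ 9` -/
theorem P9.sub {N M : ℕ} {x y : ℕ → ℕ → ℕ → ℤ} (hx : P9 N x) (hy : P9 M y) :
    P9 (N + V ^ 9 - M % V ^ 9) (fun i j s => x i j s - y i j s) := by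
  obtain ⟨k, hk⟩ := hx
  obtain ⟨l, hl⟩ := hy
  have h1 : M % V ^ 9 ≤ N + V ^ 9 := (Nat.mod_lt _ (pow_pos V_pos 9)).le.trans (Nat.le_add_left _ _)
  refine ⟨k + 1 - l + ((M / V ^ 9 : ℕ) : ℤ), ?_⟩
  have h2 : ((M % V ^ 9 : ℕ) : ℤ) = (M : ℤ) - (V : ℤ) ^ 9 * ((M / V ^ 9 : ℕ) : ℤ) := by
    have h3 := Nat.mod_add_div M (V ^ 9)
    have h4 : ((M % V ^ 9 : ℕ) : ℤ) + ((V ^ 9 : ℕ) : ℤ) * ((M / V ^ 9 : ℕ) : ℤ) = (M : ℤ) := by
      rw [← Nat.cast_mul, ← Nat.cast_add, h3]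
    rw [Nat.cast_pow] at h4
    linarith
  rw [Nat.cast_sub h1, Nat.cast_add, Nat.cast_pow, hk, h2, hl, val_sub]
  ring

theorem P9.mod {N : ℕ} {x : ℕ → ℕ → ℕ → ℤ} (hx : P9 N x) : P9 (N % V ^ 9) x := by
  obtain ⟨k, hk⟩ := hx
  have h3 := Nat.mod_add_div N (V ^ 9)
  have h4 : ((N % V ^ 9 : ℕ) : ℤ) + ((V ^ 9 : ℕ) : ℤ) * ((N / V ^ 9 : ℕ) : ℤ) = (N : ℤ) := by
    rw [← Nat.cast_mul, ← Nat.cast_add, h3]
  rw [Nat.cast_pow] at h4
  exact ⟨k - ((N / V ^ 9 : ℕ) : ℤ), by linarith⟩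

/-! ### products -/

/-- digits of the product of a conjugated column by a row -/
def outD (m a : ℕ → ℤ × ℤ) (i j s : ℕ) : ℤ :=
  if s = 0 then (m i).1 * (a j).1 else if s = 1 then (m i).1 * (a j).2 - (m i).2 * (a j).1
    else -((m i).2 * (a j).2)

/-- packed column, conjugated -/
def ColP (c : ℕ) (m : ℕ → ℤ × ℤ) : Prop :=
  ∃ k : ℤ, (c : ℤ) = pz V 9 (fun i => (m i).1 - B * (m i).2) + (V : ℤ) ^ 9 * k

/-- packed row; slot 9 is not used -/
def RowP (r : ℕ) (a : ℕ → ℤ × ℤ) : Prop := (r : ℤ) = pz B3 10 (fun j => (a j).1 + B * (a j).2)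

/-- OUTER PRODUCT -/
theorem P9.outer {c r : ℕ} {m a : ℕ → ℤ × ℤ} (hc : ColP c m) (hr : RowP r a) :
    P9 (c * r) (outD m a) := by
  obtain ⟨k, hk⟩ := hc
  refine ⟨k * r, ?_⟩
  rw [Nat.cast_mul, hk]
  unfold val
  have h1 : pz V 9 (fun i => pz B3 10 (fun j => pz B 3 (outD m a i j))) =
      pz V 9 (fun i => (r : ℤ) * ((m i).1 - B * (m i).2)) := by
    refine pz_congr _ _ _ _ fun i _ => ?_
    rw [hr, mul_comm, pz_smul]
    refine pz_congr _ _ _ _ fun j _ => ?_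
    show (m i).1 * (a j).1 + B * (((m i).1 * (a j).2 - (m i).2 * (a j).1) +
      B * (-((m i).2 * (a j).2) + B * 0)) = _
    ring
  rw [h1, ← pz_smul]
  ring

theorem pz_split (b : ℤ) : ∀ (m n : ℕ) (f : ℕ → ℤ),
    pz b (m + n) f = pz b m f + b ^ m * pz b n (fun i => f (m + i))
  | 0, n, f => by
    rw [pow_zero, one_mul, Nat.zero_add]
    show _ = 0 + _
    rw [zero_add]
    exact pz_congr b n _ _ fun i _ => by rw [Nat.zero_add]
  | m + 1, n, f => by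
    have e : m + 1 + n = (m + n) + 1 := by omega
    rw [e, pz_succ, pz_split b m n, pz_succ]
    have e2 : (fun i => f (m + 1 + i)) = fun i => f (m + i + 1) := by
      funext i
      congr 1
      omega
    rw [e2, pow_succ]
    ring

theorem pz_nest (b : ℤ) (m : ℕ) : ∀ (n : ℕ) (f : ℕ → ℤ),
    pz b (m * n) f = pz (b ^ m) n (fun i => pz b m (fun j => f (m * i + j)))
  | 0, f => rfl
  | n + 1, f => by
    have e : m * (n + 1) = m + m * n := by ring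
    rw [e, pz_split, pz_nest b m n, pz_succ]
    congr 1
    · exact pz_congr b m _ _ fun i _ => by simp
    · congr 1
      refine pz_congr _ _ _ _ fun i _ => pz_congr _ _ _ _ fun j _ => ?_
      congr 1
      ring

theorem pz_kron (b : ℤ) (m n : ℕ) (f g : ℕ → ℤ) :
    pz (b ^ m) n f * pz b m g = pz b (m * n) (fun i => f (i / m) * g (i % m)) := by
  rw [pz_nest, mul_comm, pz_smul]
  refine pz_congr _ _ _ _ fun i _ => ?_
  rw [mul_comm, pz_smul]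
  refine pz_congr _ _ _ _ fun j hj => ?_
  have hm : 0 < m := lt_of_le_of_lt (Nat.zero_le j) hj
  show f i * g j = f ((m * i + j) / m) * g ((m * i + j) % m)
  rw [Nat.mul_add_div hm, Nat.div_eq_of_lt hj, Nat.add_zero, Nat.mul_add_mod, Nat.mod_eq_of_lt hj]

/-- 3 x 3 matrix in the outer position -/
def OutP (A : ℕ) (a : ℕ → ℕ → ℤ × ℤ) : Prop :=
  ∃ k : ℤ, (A : ℤ) = pz ((V : ℤ) ^ 3) 3 (fun i => pz ((B3 : ℤ) ^ 3) 3 (fun j => (a i j).1 +
    B * (a i j).2)) + (V : ℤ) ^ 9 * k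

/-- 3 x 3 matrix in the inner position -/
def InnP (A : ℕ) (a : ℕ → ℕ → ℤ × ℤ) : Prop :=
  ∃ k : ℤ, (A : ℤ) = pz V 3 (fun i => pz B3 3 (fun j => (a i j).1 + B * (a i j).2)) + (V : ℤ) ^ 9 * k

/-- digits of the Kronecker product -/
def krD (a b : ℕ → ℕ → ℤ × ℤ) (i j s : ℕ) : ℤ :=
  if j < 9 then (if s = 0 then (a (i / 3) (j / 3)).1 * (b (i % 3) (j % 3)).1
    else if s = 1 then (a (i / 3) (j / 3)).1 * (b (i % 3) (j % 3)).2 +
      (a (i / 3) (j / 3)).2 * (b (i % 3) (j % 3)).1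
    else (a (i / 3) (j / 3)).2 * (b (i % 3) (j % 3)).2) else 0

/-- KRONECKER PRODUCT -/
theorem P9.kron {A C : ℕ} {a b : ℕ → ℕ → ℤ × ℤ} (hA : OutP A a) (hC : InnP C b) :
    P9 (A * C) (krD a b) := by
  obtain ⟨k, hk⟩ := hA
  obtain ⟨l, hl⟩ := hC
  have h1 : val (krD a b) = pz ((V : ℤ) ^ 3) 3 (fun i => pz ((B3 : ℤ) ^ 3) 3
      (fun j => (a i j).1 + B * (a i j).2)) *
      pz V 3 (fun i => pz B3 3 (fun j => (b i j).1 + B * (b i j).2)) := by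
    rw [pz_kron]
    unfold val
    refine pz_congr _ _ _ _ fun i _ => ?_
    rw [pz_kron, pz_last]
    have h9 : pz (B : ℤ) 3 (krD a b i 9) = 0 := by
      show (0 : ℤ) + B * (0 + B * (0 + B * 0)) = 0
      ring
    rw [h9, mul_zero, add_zero]
    refine pz_congr _ _ _ _ fun j hj => ?_
    have e : ∀ s, krD a b i j s = (if s = 0 then (a (i / 3) (j / 3)).1 * (b (i % 3) (j % 3)).1
      else if s = 1 then (a (i / 3) (j / 3)).1 * (b (i % 3) (j % 3)).2 +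
        (a (i / 3) (j / 3)).2 * (b (i % 3) (j % 3)).1
      else (a (i / 3) (j / 3)).2 * (b (i % 3) (j % 3)).2) := fun s => if_pos hj
    show krD a b i j 0 + B * (krD a b i j 1 + B * (krD a b i j 2 + B * 0)) = _
    rw [e 0, e 1, e 2, if_pos rfl, if_neg (by norm_num), if_pos rfl, if_neg (by norm_num),
      if_neg (by norm_num)]
    ring
  refine ⟨k * C + pz ((V : ℤ) ^ 3) 3 (fun i => pz ((B3 : ℤ) ^ 3) 3
      (fun j => (a i j).1 + B * (a i j).2)) * l, ?_⟩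
  rw [Nat.cast_mul, hk, h1]
  have hl' : (C : ℤ) = _ := hl
  generalize pz ((V : ℤ) ^ 3) 3 (fun i => pz ((B3 : ℤ) ^ 3) 3 (fun j => (a i j).1 + B * (a i j).2)) = S
  rw [hl']
  ring

end Pool.Agent.Helper90.K9
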