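import Pool.Agent.Helper90.CX.CT1

/-!
Row KMT, part 2: the models of KerT: sum, difference, conjugate, product, reciprocal, `1/z`, `z`.
-/

set_option autoImplicit false
noncomputable section
namespace Pool.Agent.Helper90.KMT

open Pool.Agent.Helper90.C75
open Pool.Agent.Helper86.C75 (Z)
open Pool.Agent.Helper86.CX (Cx cadd csub cmul cconj cq4 cdiv nb mx andB one1 mOK1)
open Pool.Agent.Helper86.CT (N3 DF Alg mxL Mo isz er1 prad resM inv2 inv1 inv0 invM invOK uM zM gM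
  lamM fkM keM addM subM conjM mulM Tst)
open Pool.Agent.Helper90.KMO

variable {α : Type} {D : ℕ} {lf : α → Vt D → ℂ} {A : Alg α} {t : ℕ → ℝ}

/-- the parameters are in `[0,1]`; the depth is at most four -/
structure PT (D : ℕ) (t : ℕ → ℝ) : Prop where
  h0 : ∀ j < D, 0 ≤ t j
  h1 : ∀ j < D, t j ≤ 1
  hD : D ≤ 4

theorem PT.w (h : PT D t) : Wts (wtT D t) := Wts.T h.h0 h.h1

theorem eD_mono {m n : ℕ} (h : m ≤ n) : eD m ≤ eD n := by
  induction h with
  | refl => exact le_rfl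
  | @step k h ih =>
    refine ih.trans ?_
    have := eD_nonneg k
    simp only [eD]
    linarith

theorem PT.e (h : PT D t) : eD D ≤ 13 := (eD_mono h.hD).trans eD_four.1

/-- validity of the sizes -/
structure VT (D : ℕ) (lf : α → Vt D → ℂ) (M : Mo α) : Prop where
  bd : ∀ v, ‖lf M.v v‖ ≤ M.B
  len : M.l.length = D
  dl : DL D (lf M.v) (M.l.map rl)

/-- THE MODEL OF A NUMBER (value of a function at the parameters `t`) -/
structure TOK (D : ℕ) (lf : α → Vt D → ℂ) (t : ℕ → ℝ) (f : ℂ) (M : Mo α) : Prop where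
  val : VT D lf M
  mod : Mod (wtT D t) (UU * f) (lf M.v) M.r

theorem vt_mk (hA : AOK D lf A) (v : α) (r : ℕ) : VT D lf (Pool.Agent.Helper86.CT.mk A v r) :=
  ⟨hA.mag v, hA.len v, hA.szs v⟩

theorem nn_rl (l : List DF) : NN (l.map rl) := by
  intro x hx
  rw [List.mem_map] at hx
  obtain ⟨y, _, rfl⟩ := hx
  exact ⟨Nat.cast_nonneg _, Nat.cast_nonneg _⟩

theorem isz_iff (x : DF) : isz x = true ↔ (x.D : ℝ) + x.F = 0 := by
  unfold isz
  constructor
  · intro h
    have h1 : x.D + x.F = 0 := Nat.eq_of_beq_eq_true h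
    exact_mod_cast h1
  · intro h
    have h1 : x.D + x.F = 0 := by exact_mod_cast h
    show Nat.beq (x.D + x.F) 0 = true
    rw [h1]
    rfl

theorem er1_le (x y : DF) (e : ℕ) (l l' : List (ℝ × ℝ)) (h : erz l l' ≤ (e : ℕ)) :
    erz (rl x :: l) (rl y :: l') ≤ (er1 x y e : ℕ) := by
  unfold er1
  show erz (((x.D : ℝ), (x.F : ℝ)) :: l) (((y.D : ℝ), (y.F : ℝ)) :: l') ≤ _
  simp only [erz]
  have hy := isz_iff y
  have hx := isz_iff x
  cases h1 : isz y with
  | true =>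
    rw [if_pos (hy.1 h1)]
    exact h
  | false =>
    have c1 : ¬ ((y.D : ℝ) + y.F = 0) := fun h2 => by
      rw [← hy, h1] at h2
      cases h2
    rw [if_neg c1]
    cases h3 : isz x with
    | true =>
      rw [if_pos (hx.1 h3)]
      exact h
    | false =>
      have c2 : ¬ ((x.D : ℝ) + x.F = 0) := fun h2 => by
        rw [← hx, h3] at h2
        cases h2
      rw [if_neg c2]
      show _ ≤ ((Nat.add (Nat.add (Nat.add (Nat.div (Nat.add (Nat.mul x.D y.F) (Nat.mul x.F y.D))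
        (nat_lit 10)) (Nat.div (Nat.mul x.F y.F) (nat_lit 4))) (nat_lit 2))
        (Nat.mul (nat_lit 2) e) : ℕ) : ℝ)
      rw [c_add, c_add, c_add, c_mul]
      have h1 := c_div10 (Nat.add (Nat.mul x.D y.F) (Nat.mul x.F y.D))
      have h2 := c_div4 (Nat.mul x.F y.F)
      rw [c_add, c_mul, c_mul] at h1
      rw [c_mul] at h2
      have g2 : ((nat_lit 2 : ℕ) : ℝ) = 2 := by norm_num
      rw [g2]
      linarith

theorem er_le : ∀ l l' : List DF, erz (l.map rl) (l'.map rl) ≤ (Pool.Agent.Helper86.CT.er l l' : ℕ)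
  | [], _ => by
    show erz [] _ ≤ _
    simp [erz]
  | _ :: _, [] => by
    show erz (_ :: _) [] ≤ _
    simp [erz]
  | x :: l, y :: l' => er1_le x y _ _ _ (er_le l l')

/-! ### sums -/

theorem DL_star : ∀ {D : ℕ} {F H : Vt D → ℂ} {l : List (ℝ × ℝ)}, DL D F l →
    (∀ v, H v = star (F v)) → DL D H l
  | 0, _, _, _, _, _ => trivial
  | D + 1, F, H, [], hF, _ => hF.elim
  | D + 1, F, H, x :: l, hF, hH => by
    obtain ⟨a1, a2, a3⟩ := hF
    refine ⟨fun v => ?_, fun v => ?_, fun i => DL_star (a3 i) (fun v => hH (v, i))⟩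
    · have e : H (v, 2) - H (v, 0) = star (F (v, 2) - F (v, 0)) := by
        rw [star_sub]
        exact congrArg₂ (· - ·) (hH (v, 2)) (hH (v, 0))
      refine (le_of_eq (congrArg norm e)).trans ?_
      rw [norm_star]
      exact a1 v
    · have e0 := hH (v, 0)
      have e1 := hH (v, 1)
      have e2 := hH (v, 2)
      have e : H (v, 1) - (H (v, 0) + H (v, 2)) / 2
          = star (F (v, 1) - (F (v, 0) + F (v, 2)) / 2) := by
        have e3 : star (F (v, 1) - (F (v, 0) + F (v, 2)) / 2)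
            = star (F (v, 1)) - (star (F (v, 0)) + star (F (v, 2))) / 2 := by simp
        refine Eq.trans ?_ e3.symm
        linear_combination e1 - e0 / 2 - e2 / 2
      refine (le_of_eq (congrArg norm e)).trans ?_
      rw [norm_star]
      exact a2 v

theorem TOK.add (hA : AOK D lf A) {f g : ℂ} {M N : Mo α} (hf : TOK D lf t f M)
    (hg : TOK D lf t g N) : TOK D lf t (f + g) (addM A M N) := by
  have e1 : ∀ v, lf (A.add M.v N.v) v = lf M.v v + lf N.v v := hA.law.hadd _ _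
  refine ⟨vt_mk hA _ _, ?_⟩
  show ‖(UU : ℂ) * (f + g) - avg (wtT D t) (lf (A.add M.v N.v))‖ ≤ ((Nat.add M.r N.r : ℕ) : ℝ)
  have e2 : lf (A.add M.v N.v) = fun v => lf M.v v + lf N.v v := funext e1
  rw [e2, avg_add, c_add, mul_add]
  have e3 : (UU : ℂ) * f + UU * g - (avg (wtT D t) (lf M.v) + avg (wtT D t) (lf N.v))
      = (UU * f - avg (wtT D t) (lf M.v)) + (UU * g - avg (wtT D t) (lf N.v)) := by ring
  rw [e3]
  exact (norm_add_le _ _).trans (add_le_add hf.mod hg.mod)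

theorem TOK.sub (hA : AOK D lf A) {f g : ℂ} {M N : Mo α} (hf : TOK D lf t f M)
    (hg : TOK D lf t g N) : TOK D lf t (f - g) (subM A M N) := by
  have e1 : ∀ v, lf (A.sub M.v N.v) v = lf M.v v - lf N.v v := hA.law.hsub _ _
  refine ⟨vt_mk hA _ _, ?_⟩
  show ‖(UU : ℂ) * (f - g) - avg (wtT D t) (lf (A.sub M.v N.v))‖ ≤ ((Nat.add M.r N.r : ℕ) : ℝ)
  have e2 : lf (A.sub M.v N.v) = fun v => lf M.v v - lf N.v v := funext e1
  rw [e2, avg_sub, c_add, mul_sub]
  have e3 : (UU : ℂ) * f - UU * g - (avg (wtT D t) (lf M.v) - avg (wtT D t) (lf N.v))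
      = (UU * f - avg (wtT D t) (lf M.v)) - (UU * g - avg (wtT D t) (lf N.v)) := by ring
  rw [e3]
  exact (norm_sub_le _ _).trans (add_le_add hf.mod hg.mod)

theorem TOK.conj (hA : AOK D lf A) {f : ℂ} {M : Mo α} (hf : TOK D lf t f M) :
    TOK D lf t (star f) (conjM A M) := by
  have e1 : ∀ v, lf (A.cj M.v) v = star (lf M.v v) := hA.law.hconj _
  refine ⟨⟨fun v => ?_, hf.val.len, DL_star hf.val.dl e1⟩, ?_⟩
  · show ‖lf (A.cj M.v) v‖ ≤ (M.B : ℝ)
    rw [e1, norm_star]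
    exact hf.val.bd v
  · show ‖(UU : ℂ) * star f - avg (wtT D t) (lf (A.cj M.v))‖ ≤ (M.r : ℝ)
    have e2 : lf (A.cj M.v) = fun v => star (lf M.v v) := funext e1
    have e4 : star (UU : ℂ) = UU := Complex.conj_ofReal _
    rw [e2, avg_star]
    have e3 : (UU : ℂ) * star f - star (avg (wtT D t) (lf M.v))
        = star (UU * f - avg (wtT D t) (lf M.v)) := by
      rw [star_sub, star_mul, e4, mul_comm]
    rw [e3, norm_star]
    exact hf.mod

/-! ### products -/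

theorem vt_cov (hP : PT D t) {M N : Mo α} (hM : VT D lf M) (hN : VT D lf N) :
    ‖avg (wtT D t) (mulT D (lf M.v) (lf N.v)) - avg (wtT D t) (lf M.v) * avg (wtT D t) (lf N.v)‖
      ≤ (Pool.Agent.Helper86.CT.er M.l N.l : ℕ) :=
  (cov_leL hP.h0 hP.h1 hM.dl hN.dl (by rw [List.length_map, hM.len])
    (by rw [List.length_map, hN.len]) (nn_rl _) (nn_rl _)).trans (er_le _ _)

theorem avg_mul (hA : AOK D lf A) (hP : PT D t) (x y : α) :
    ‖avg (wtT D t) (lf (A.mul x y)) - avg (wtT D t) (mulT D (lf x) (lf y)) / UU‖ ≤ 13 := by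
  have e : avg (wtT D t) (lf (A.mul x y)) - avg (wtT D t) (mulT D (lf x) (lf y)) / UU
      = avg (wtT D t) (fun v => lf (A.mul x y) v - mulT D (lf x) (lf y) v / UU) := by
    rw [avg_sub, div_eq_inv_mul, ← avg_smul]
    congr 2
    funext v
    rw [div_eq_inv_mul]
  rw [e]
  exact norm_avg_le hP.w fun v => (hA.law.hmul x y v).trans hP.e

theorem TOK.mul (hA : AOK D lf A) (hP : PT D t) {f g : ℂ} {M N : Mo α} (hf : TOK D lf t f M)
    (hg : TOK D lf t g N) : TOK D lf t (f * g) (mulM A M N) := by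
  have hU := UU_pos
  have hUc := UUc_ne
  have hq := hP.w
  refine ⟨vt_mk hA _ _, ?_⟩
  show ‖(UU : ℂ) * (f * g) - avg (wtT D t) (lf (A.mul M.v N.v))‖ ≤
    ((Nat.add (Nat.shiftRight (Nat.add (Nat.add (Nat.add (Nat.mul M.r N.B) (Nat.mul N.r M.B))
    (Nat.mul M.r N.r)) (Pool.Agent.Helper86.CT.er M.l N.l)) (nat_lit 48)) (nat_lit 17) : ℕ) : ℝ)
  have hs := (shr_le (Nat.add (Nat.add (Nat.add (Nat.mul M.r N.B) (Nat.mul N.r M.B))
    (Nat.mul M.r N.r)) (Pool.Agent.Helper86.CT.er M.l N.l))).2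
  rw [c_add, c_add, c_add, c_mul, c_mul, c_mul] at hs
  rw [c_add]
  have g1 : ((nat_lit 17 : ℕ) : ℝ) = 17 := by norm_num
  rw [g1]
  set F := avg (wtT D t) (lf M.v)
  set G := avg (wtT D t) (lf N.v)
  have h1 := vt_cov hP hf.val hg.val
  have h2 := avg_mul hA hP M.v N.v
  set P := avg (wtT D t) (mulT D (lf M.v) (lf N.v))
  set Q := avg (wtT D t) (lf (A.mul M.v N.v))
  have hF : ‖F‖ ≤ M.B := norm_avg_le hq hf.val.bd
  have hG : ‖G‖ ≤ N.B := norm_avg_le hq hg.val.bd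
  have m1 : ‖(UU : ℂ) * f - F‖ ≤ M.r := hf.mod
  have m2 : ‖(UU : ℂ) * g - G‖ ≤ N.r := hg.mod
  have e : (UU : ℂ) * (f * g) - Q = (((UU * f - F) * G + (UU * g - G) * F
      + (UU * f - F) * (UU * g - G)) - (P - F * G)) / UU - (Q - P / UU) := by
    field_simp
    ring
  rw [e]
  refine (norm_sub_le _ _).trans ?_
  have h3 : ‖(((UU : ℂ) * f - F) * G + (UU * g - G) * F
      + (UU * f - F) * (UU * g - G)) - (P - F * G)‖ ≤
      (M.r * N.B + N.r * M.B + M.r * N.r) + (Pool.Agent.Helper86.CT.er M.l N.l : ℕ) := by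
    refine (norm_sub_le _ _).trans (add_le_add ?_ h1)
    refine (norm_add_le _ _).trans (add_le_add ((norm_add_le _ _).trans (add_le_add ?_ ?_)) ?_)
    · rw [norm_mul]; exact mul_le_mul m1 hG (norm_nonneg _) (Nat.cast_nonneg _)
    · rw [norm_mul]; exact mul_le_mul m2 hF (norm_nonneg _) (Nat.cast_nonneg _)
    · rw [norm_mul]; exact mul_le_mul m1 m2 (norm_nonneg _) (Nat.cast_nonneg _)
  rw [norm_div, norm_UU]
  have h4 := div_le_div_of_nonneg_right h3 hU.le
  linarith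

/-! ### constants -/

theorem TOK.cst (hA : AOK D lf A) (hP : PT D t) {f : ℂ} (c r : ℕ)
    (h : ‖(UU : ℂ) * f - c‖ ≤ r) : TOK D lf t f (Pool.Agent.Helper86.CT.cst A c r) := by
  refine ⟨vt_mk hA _ _, ?_⟩
  show ‖(UU : ℂ) * f - avg (wtT D t) (lf (A.cs ⟨Z.p c, Z.p (nat_lit 0)⟩))‖ ≤ (r : ℝ)
  have e : lf (A.cs ⟨Z.p c, Z.p (nat_lit 0)⟩) = fun _ => (c : ℂ) := by
    funext v
    rw [hA.cst]
    apply Complex.ext
    · show ((zv (Z.p c) : ℤ) : ℝ) = _
      rw [zv_p]; simp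
    · show ((zv (Z.p (nat_lit 0)) : ℤ) : ℝ) = _
      rw [zv_p]; simp
  rw [e, avg_const hP.w]
  exact h

theorem TOK.cst' (hA : AOK D lf A) (hP : PT D t) {f : ℂ} {c : ℕ} (h : (UU : ℂ) * f = c) :
    TOK D lf t f (Pool.Agent.Helper86.CT.cst A c (nat_lit 0)) :=
  TOK.cst hA hP c (nat_lit 0) (by rw [h, sub_self, norm_zero]; simp)

/-! ### the residual of a product -/

/-- the residual -/
def resT (A : Alg α) (x y : α) : ℕ :=
  Nat.add (A.nb (A.sub (A.mul x y) (A.cs one1))) (nat_lit 16)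

theorem resT_le (hA : AOK D lf A) (hP : PT D t) {M N : Mo α} (hM : VT D lf M) (hN : VT D lf N) :
    ‖avg (wtT D t) (lf M.v) * avg (wtT D t) (lf N.v) / UU - UU‖ ≤
      (resT A M.v N.v : ℕ) + (Pool.Agent.Helper86.CT.er M.l N.l : ℕ) / UU := by
  have hU := UU_pos
  have hUc := UUc_ne
  have h1 := vt_cov hP hM hN
  have h2 := avg_mul hA hP M.v N.v
  set F := avg (wtT D t) (lf M.v)
  set G := avg (wtT D t) (lf N.v)
  set P := avg (wtT D t) (mulT D (lf M.v) (lf N.v))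
  set Q := avg (wtT D t) (lf (A.mul M.v N.v)) with hQ
  have h3 : ‖Q - UU‖ ≤ (A.nb (A.sub (A.mul M.v N.v) (A.cs one1)) : ℕ) := by
    have e : Q - UU = avg (wtT D t) (lf (A.sub (A.mul M.v N.v) (A.cs one1))) := by
      have e1 : lf (A.sub (A.mul M.v N.v) (A.cs one1))
          = fun v => lf (A.mul M.v N.v) v - UU := by
        funext v
        rw [hA.law.hsub, hA.cst, cz_one1]
      rw [e1, avg_sub, avg_const hP.w]
    rw [e]
    exact norm_avg_le hP.w (hA.mag _)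
  have e : F * G / UU - UU = (Q - UU) - (Q - P / UU) - (P - F * G) / UU := by
    field_simp
    ring
  rw [e]
  have h4 : ((resT A M.v N.v : ℕ) : ℝ) = (A.nb (A.sub (A.mul M.v N.v) (A.cs one1)) : ℕ) + 16 := by
    unfold resT
    rw [c_add]
    norm_num
  rw [h4]
  have h5 := norm_sub_le ((Q - UU) - (Q - P / UU)) ((P - F * G) / UU)
  have h6 := norm_sub_le (Q - UU) (Q - P / UU)
  have h7 : ‖(P - F * G) / UU‖ ≤ (Pool.Agent.Helper86.CT.er M.l N.l : ℕ) / UU := by
    rw [norm_div, norm_UU]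
    exact div_le_div_of_nonneg_right h1 hU.le
  linarith

/-! ### the reciprocal -/

theorem etaT_le (M N : Mo α) : (resT A M.v N.v : ℝ) + ((Pool.Agent.Helper86.CT.er M.l N.l : ℕ) + M.r * N.B) / UU
    ≤ resM A M N := by
  have e : ((resM A M N : ℕ) : ℝ) = resT A M.v N.v + (Nat.shiftRight (Nat.add (Pool.Agent.Helper86.CT.er M.l N.l)
      (Nat.mul M.r N.B)) (nat_lit 48) : ℕ) + 1 := by
    show ((Nat.add (Nat.add (resT A M.v N.v) (Nat.shiftRight (Nat.add (Pool.Agent.Helper86.CT.er M.l N.l)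
      (Nat.mul M.r N.B)) (nat_lit 48))) (nat_lit 1) : ℕ) : ℝ) = _
    rw [c_add, c_add]
    norm_num
  have h := (shr_le (Nat.add (Pool.Agent.Helper86.CT.er M.l N.l) (Nat.mul M.r N.B))).2
  rw [c_add, c_mul] at h
  rw [e]
  linarith

theorem TOK.inv (hA : AOK D lf A) (hP : PT D t) {f : ℂ} {M : Mo α}
    (hf : TOK D lf t f M) (hok : invOK A M = true) :
    TOK D lf t f⁻¹ (invM A M) ∧ f ≠ 0 := by
  have hU := UU_pos
  have hUc := UUc_ne
  have hq := hP.w
  set N := inv0 A M with hN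
  have hNv : VT D lf N := vt_mk hA _ _
  have hη : resM A M N ≤ 140737488355328 := Nat.le_of_ble_eq_true hok
  have hη' : ((resM A M N : ℕ) : ℝ) ≤ UU / 2 := by
    have : ((resM A M N : ℕ) : ℝ) ≤ 140737488355328 := by exact_mod_cast hη
    unfold UU
    linarith
  set F := avg (wtT D t) (lf M.v)
  set G := avg (wtT D t) (lf N.v)
  have hGB : ‖G‖ ≤ N.B := norm_avg_le hq hNv.bd
  have hm : ‖(UU : ℂ) * f - F‖ ≤ M.r := hf.mod
  have k1 : ‖f * G - UU‖ ≤ resM A M N := by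
    have h2 := resT_le hA hP hf.val hNv
    have e : f * G - UU = (F * G / UU - UU) + ((UU : ℂ) * f - F) * G / UU := by
      field_simp
      ring
    rw [e]
    refine (norm_add_le _ _).trans ?_
    have h3 : ‖((UU : ℂ) * f - F) * G / UU‖ ≤ M.r * N.B / UU := by
      rw [norm_div, norm_UU, norm_mul]
      exact div_le_div_of_nonneg_right (mul_le_mul hm hGB (norm_nonneg _) (Nat.cast_nonneg _))
        hU.le
    have h4 := etaT_le (A := A) M N
    have e5 : (((Pool.Agent.Helper86.CT.er M.l N.l : ℕ) : ℝ) + M.r * N.B) / UU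
        = (Pool.Agent.Helper86.CT.er M.l N.l : ℕ) / UU + M.r * N.B / UU := by ring
    rw [e5] at h4
    linarith
  have hpos : 0 < UU - resM A M N := by linarith
  have hfG : UU - resM A M N ≤ ‖f * G‖ := by
    have h3 := norm_sub_norm_le (UU : ℂ) (f * G)
    rw [norm_sub_rev, norm_UU] at h3
    linarith
  have hf0 : f ≠ 0 := by
    rintro rfl
    rw [zero_mul, norm_zero] at hfG
    linarith
  refine ⟨⟨⟨hNv.bd, hNv.len, hNv.dl⟩, ?_⟩, hf0⟩
  show ‖(UU : ℂ) * f⁻¹ - G‖ ≤ ((Nat.add (Nat.div (Nat.mul (resM A M N) N.B)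
    (Nat.sub (nat_lit 281474976710656) (resM A M N))) (nat_lit 1) : ℕ) : ℝ)
  have hG0 : G ≠ 0 := by
    intro h
    rw [h, mul_zero, norm_zero] at hfG
    linarith
  have e : (UU : ℂ) * f⁻¹ - G = -((f * G - UU) * G / (f * G)) := by
    field_simp
    ring
  have hsub : ((Nat.sub (nat_lit 281474976710656) (resM A M N) : ℕ) : ℝ) = UU - resM A M N := by
    show ((281474976710656 - resM A M N : ℕ) : ℝ) = _
    rw [Nat.cast_sub (by omega)]
    unfold UU
    norm_num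
  have hsubpos : 0 < Nat.sub (nat_lit 281474976710656) (resM A M N) := by
    show 0 < 281474976710656 - resM A M N
    omega
  have h6 := div_ub (Nat.mul (resM A M N) N.B) hsubpos
  rw [hsub, c_mul] at h6
  rw [e, norm_neg, c_add]
  have h7 : ‖(f * G - UU) * G / (f * G)‖ ≤ resM A M N * N.B / (UU - resM A M N) := by
    rw [norm_div, norm_mul]
    exact div_le_div₀ (by positivity) (mul_le_mul k1 hGB (norm_nonneg _) (Nat.cast_nonneg _)) hpos
      hfG
  have g1 : ((nat_lit 1 : ℕ) : ℝ) = 1 := by norm_num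
  rw [g1]
  exact h7.trans h6

/-! ### `z` and `1/z` -/

/-- MODELS OF `1/z` AND `z` -/
theorem TOK.z (hA : AOK D lf A) (hP : PT D t) {z x : ℂ} (hz : z ≠ 0)
    (hx : z + z⁻¹ = x) (hi : (z⁻¹).im ≤ 0) {X : Mo α} {us : α}
    (hxm : Mod (wtT D t) (UU * x) (lf X.v) X.r)
    (hxi : (avg (wtT D t) (lf X.v)).im = UU * x.im) (hx0 : ∀ v, 0 ≤ (lf X.v v).im)
    {m : ℕ} (hm : 0 < m) {T : Tst α} (hT : TLW D lf T) (hok : T.t m X.v us = true) :
    TOK D lf t z⁻¹ (uM A m X (Pool.Agent.Helper86.CT.mk A us (nat_lit 0))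
      (Pool.Agent.Helper86.CT.mk A (A.sub X.v us) (nat_lit 0))) ∧
    TOK D lf t z (zM X (uM A m X (Pool.Agent.Helper86.CT.mk A us (nat_lit 0))
      (Pool.Agent.Helper86.CT.mk A (A.sub X.v us) (nat_lit 0)))
      (Pool.Agent.Helper86.CT.mk A (A.sub X.v us) (nat_lit 0))) := by
  have hU := UU_pos
  have hUc := UUc_ne
  have hq := hP.w
  set Um := Pool.Agent.Helper86.CT.mk A us (nat_lit 0) with hUm
  set Zm := Pool.Agent.Helper86.CT.mk A (A.sub X.v us) (nat_lit 0) with hZm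
  have vU : VT D lf Um := vt_mk hA _ _
  have vZ : VT D lf Zm := vt_mk hA _ _
  have hm' : (0 : ℝ) < m := by exact_mod_cast hm
  set η := avg (wtT D t) (lf us) with hη
  set ξ := avg (wtT D t) (lf X.v) with hξ
  set ζ := avg (wtT D t) (lf (A.sub X.v us)) with hζ
  have eζ : ζ = ξ - η := by
    rw [hζ, hξ, hη, ← avg_sub]
    congr 1
    funext v
    exact hA.law.hsub X.v us v
  have c := resT_le hA hP vZ vU
  change ‖ζ * η / UU - UU‖ ≤ _ at c
  have hηB : ‖η‖ ≤ Um.B := norm_avg_le hq vU.bd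
  have hxr : ‖(UU : ℂ) * x - ξ‖ ≤ X.r := hxm
  have him : (m : ℝ) ≤ ζ.im := by
    rw [hζ, avg_im]
    calc (m : ℝ) = ∑ v, wtT D t v * m := by rw [← Finset.sum_mul, hq.sum, one_mul]
      _ ≤ ∑ v, wtT D t v * (lf (A.sub X.v us) v).im := by
        refine Finset.sum_le_sum fun v _ => ?_
        refine mul_le_mul_of_nonneg_left ?_ (hq.nonneg v)
        rw [hA.law.hsub, Complex.sub_im]
        exact hT m _ _ hok hx0 v
  have him' : (m : ℝ) ≤ ξ.im - η.im := by
    rw [eζ, Complex.sub_im] at him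
    exact him
  have hun := u_near hz hx hi (v := η / UU) (m := m / UU) (div_pos hm' hU) (by
    rw [Complex.div_ofReal_im]
    have : x.im = ξ.im / UU := by
      rw [hxi]; field_simp
    rw [this, ← sub_div]
    exact div_le_div_of_nonneg_right him' hU.le)
  have hres : ‖(η / UU) ^ 2 - x * (η / UU) + 1‖ ≤
      ((resT A Zm.v Um.v : ℕ) + ((Pool.Agent.Helper86.CT.er Zm.l Um.l : ℕ) + Um.B * X.r) / UU) / UU := by
    have e : (η / UU) ^ 2 - x * (η / UU) + 1 = -((ζ * η / UU - UU) + ((UU : ℂ) * x - ξ) * η / UU) /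
        UU := by
      rw [eζ]
      field_simp
      ring
    rw [e, norm_div, norm_UU, norm_neg]
    refine div_le_div_of_nonneg_right ((norm_add_le _ _).trans ?_) hU.le
    have h3 : ‖((UU : ℂ) * x - ξ) * η / UU‖ ≤ Um.B * X.r / UU := by
      rw [norm_div, norm_UU, norm_mul, mul_comm (Um.B : ℝ)]
      exact div_le_div_of_nonneg_right (mul_le_mul hxr hηB (norm_nonneg _) (Nat.cast_nonneg _))
        hU.le
    have e5 : (((Pool.Agent.Helper86.CT.er Zm.l Um.l : ℕ) : ℝ) + Um.B * X.r) / UU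
        = (Pool.Agent.Helper86.CT.er Zm.l Um.l : ℕ) / UU + Um.B * X.r / UU := by ring
    rw [e5]
    linarith
  have hfin : ‖(UU : ℂ) * z⁻¹ - η‖ ≤ ((Nat.add (Nat.div (Nat.mul (Nat.add (Nat.add
      (resT A Zm.v Um.v) (Nat.shiftRight (Nat.add (Pool.Agent.Helper86.CT.er Zm.l Um.l) (Nat.mul Um.B X.r)) (nat_lit 48)))
      (nat_lit 1)) (nat_lit 281474976710656)) m) (nat_lit 1) : ℕ) : ℝ) := by
    have e : (UU : ℂ) * z⁻¹ - η = UU * (z⁻¹ - η / UU) := by field_simp
    rw [e, norm_mul, norm_UU]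
    have h3 := mul_le_mul_of_nonneg_left hun hU.le
    refine h3.trans ?_
    have h4 := div_ub (Nat.mul (Nat.add (Nat.add
      (resT A Zm.v Um.v) (Nat.shiftRight (Nat.add (Pool.Agent.Helper86.CT.er Zm.l Um.l) (Nat.mul Um.B X.r)) (nat_lit 48)))
      (nat_lit 1)) (nat_lit 281474976710656)) hm
    rw [c_mul, c_add, c_add] at h4
    have h5 := (shr_le (Nat.add (Pool.Agent.Helper86.CT.er Zm.l Um.l) (Nat.mul Um.B X.r))).2
    rw [c_add, c_mul] at h5
    have g1 : ((nat_lit 1 : ℕ) : ℝ) = 1 := by norm_num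
    have g2 : ((nat_lit 281474976710656 : ℕ) : ℝ) = UU := by unfold UU; norm_num
    rw [c_add, g1]
    rw [g1, g2] at h4
    refine le_trans ?_ h4
    have e6 : UU * (‖(η / UU) ^ 2 - x * (η / UU) + 1‖ / (m / UU))
        = ‖(η / UU) ^ 2 - x * (η / UU) + 1‖ * UU * UU / m := by field_simp
    rw [e6]
    refine div_le_div_of_nonneg_right ?_ hm'.le
    refine mul_le_mul_of_nonneg_right ?_ hU.le
    have h7 : ‖(η / UU) ^ 2 - x * (η / UU) + 1‖ * UU ≤
        (resT A Zm.v Um.v : ℕ) + ((Pool.Agent.Helper86.CT.er Zm.l Um.l : ℕ) + Um.B * X.r) / UU := by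
      have := mul_le_mul_of_nonneg_right hres hU.le
      rw [div_mul_cancel₀ _ hU.ne'] at this
      exact this
    linarith
  refine ⟨⟨⟨vU.bd, vU.len, vU.dl⟩, hfin⟩, ⟨⟨vZ.bd, vZ.len, vZ.dl⟩, ?_⟩⟩
  show ‖(UU : ℂ) * z - ζ‖ ≤ ((Nat.add (uM A m X Um Zm).r X.r : ℕ) : ℝ)
  rw [c_add]
  have e : (UU : ℂ) * z - ζ = (UU * x - ξ) - (UU * z⁻¹ - η) := by
    rw [eζ, ← hx]; ring
  rw [e]
  have h8 := norm_sub_le ((UU : ℂ) * x - ξ) (UU * z⁻¹ - η)
  have h9 : ((uM A m X Um Zm).r : ℝ) = ((Nat.add (Nat.div (Nat.mul (Nat.add (Nat.add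
      (resT A Zm.v Um.v) (Nat.shiftRight (Nat.add (Pool.Agent.Helper86.CT.er Zm.l Um.l) (Nat.mul Um.B X.r)) (nat_lit 48)))
      (nat_lit 1)) (nat_lit 281474976710656)) m) (nat_lit 1) : ℕ) : ℝ) := rfl
  rw [h9]
  linarith

/-! ### the derived functions -/

/-- `2 (1 + λ z)` -/
theorem TOK.g (hA : AOK D lf A) (hP : PT D t) {l z : ℂ} {L Zm : Mo α}
    (hl : TOK D lf t l L) (hz : TOK D lf t z Zm) :
    TOK D lf t (2 * (1 + l * z)) (gM A L Zm) := by
  have h2 : TOK D lf t 2 (Pool.Agent.Helper86.CT.cst A (nat_lit 562949953421312) (nat_lit 0)) :=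
    TOK.cst' hA hP (by unfold UU; norm_num)
  have h3 := hl.mul hA hP hz
  have h4 := h2.add hA (h3.add hA h3)
  have e : 2 * (1 + l * z) = 2 + (l * z + l * z) := by ring
  rw [e]
  exact h4

theorem TOK.lam (hA : AOK D lf A) (hP : PT D t) {a b c : ℂ} {Ma Mb Mc : Mo α}
    (ha : TOK D lf t a Ma) (hb : TOK D lf t b Mb) (hc : TOK D lf t c Mc)
    (hok : invOK A (mulM A Ma Mb) = true) : TOK D lf t (2 * c / (a * b)) (lamM A Mc Ma Mb) := by
  have h1 := (hc.add hA hc).mul hA hP (TOK.inv hA hP (ha.mul hA hP hb) hok).1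
  have e : 2 * c / (a * b) = (c + c) * (a * b)⁻¹ := by rw [div_eq_mul_inv]; ring
  rw [e]
  exact h1

theorem TOK.fk (hA : AOK D lf A) (hP : PT D t) {k : ℂ} {K : Mo α} (hk : TOK D lf t k K) :
    TOK D lf t (4 * (2 + k)) (fkM A K) := by
  have h2 : TOK D lf t 8 (Pool.Agent.Helper86.CT.cst A (nat_lit 2251799813685248) (nat_lit 0)) :=
    TOK.cst' hA hP (by unfold UU; norm_num)
  have h3 := h2.add hA ((hk.add hA hk).add hA (hk.add hA hk))
  have e : 4 * (2 + k) = 8 + (k + k + (k + k)) := by ring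
  rw [e]
  exact h3

theorem TOK.ke (hA : AOK D lf A) (hP : PT D t) {k : ℂ} {K : Mo α} (hk : TOK D lf t k K)
    (hok : invOK A (fkM A K) = true) : TOK D lf t (k ^ 2 / (4 * (2 + k))) (keM A K) := by
  have h1 := (hk.mul hA hP hk).mul hA hP (TOK.inv hA hP (hk.fk hA hP) hok).1
  have e : k ^ 2 / (4 * (2 + k)) = k * k * (4 * (2 + k))⁻¹ := by rw [div_eq_mul_inv]; ring
  rw [e]
  exact h1

theorem TOK.half (hA : AOK D lf A) (hP : PT D t) {k : ℂ} {K : Mo α} (hk : TOK D lf t k K) :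
    TOK D lf t (k / 2) (mulM A (Pool.Agent.Helper86.CT.cst A (nat_lit 140737488355328) (nat_lit 0)) K) := by
  have h2 : TOK D lf t (1 / 2) (Pool.Agent.Helper86.CT.cst A (nat_lit 140737488355328) (nat_lit 0)) :=
    TOK.cst' hA hP (by unfold UU; norm_num)
  have h3 := h2.mul hA hP hk
  have e : k / 2 = 1 / 2 * k := by ring
  rw [e]
  exact h3

theorem TOK.quarter (hA : AOK D lf A) (hP : PT D t) {k : ℂ} {K : Mo α} (hk : TOK D lf t k K) :
    TOK D lf t (k / 4) (mulM A (Pool.Agent.Helper86.CT.cst A (nat_lit 70368744177664) (nat_lit 0)) K) := by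
  have h2 : TOK D lf t (1 / 4) (Pool.Agent.Helper86.CT.cst A (nat_lit 70368744177664) (nat_lit 0)) :=
    TOK.cst' hA hP (by unfold UU; norm_num)
  have h3 := h2.mul hA hP hk
  have e : k / 4 = 1 / 4 * k := by ring
  rw [e]
  exact h3

end Pool.Agent.Helper90.KMT
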