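import Pool.Agent.Helper90.CX.KCT2

/-!
Row KCT, part 3: the rows of the control matrices; the polarised form; the error `eN`.
-/

set_option autoImplicit false
noncomputable section
namespace Pool.Agent.Helper90.KMT

open Pool.Agent.Helper90.C75
open Pool.Agent.Helper86.CX (Hm ev mkH)
open Pool.Agent.Helper86.CT (DF Alg Rw rr2 ePV eN1 eN mxRw mxL Mo Qd KM mkQd row0 rw0 rw1 rw2 addM subM
  mulM VO)
open Pool.Agent.Helper90.KMO
open Complex ComplexConjugate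

variable {α : Type} {D : ℕ} {lf : α → Vt D → ℂ} {A : Alg α} {t : ℕ → ℝ}

theorem RK.sig {ρ : Rw} {σ σ' : ℝ} (hs : σ ≤ σ') {w : ℂ} {F : Vt D → ℂ}
    (h : RK D t ρ σ w F) : RK D t ρ σ' w F := by
  refine ⟨fun v => (h.bd v).trans (mul_le_mul_of_nonneg_left hs (Nat.cast_nonneg _)),
    h.err.trans (mul_le_mul_of_nonneg_left hs (Nat.cast_nonneg _)), DL_mono ?_ h.dl, h.len⟩
  have : ∀ l : List DF, List.Forall₂ (fun x y : ℝ × ℝ => x.1 ≤ y.1 ∧ x.2 ≤ y.2)
      (l.map (rls σ)) (l.map (rls σ')) := by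
    intro l
    induction l with
    | nil => exact List.Forall₂.nil
    | cons x l ih =>
      exact List.Forall₂.cons ⟨mul_le_mul_of_nonneg_left hs (Nat.cast_nonneg _),
        mul_le_mul_of_nonneg_left hs (Nat.cast_nonneg _)⟩ ih
  exact this _

theorem RK.neg {ρ : Rw} {σ : ℝ} {w : ℂ} {F : Vt D → ℂ} (h : RK D t ρ σ w F) :
    RK D t ρ σ (-w) (fun v => -F v) := by
  refine ⟨fun v => by rw [norm_neg]; exact h.bd v, ?_, ?_, h.len⟩
  · have e : avg (wtT D t) (fun v => -F v) = -avg (wtT D t) F := by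
      have : (fun v => -F v) = fun v => (-1 : ℂ) * F v := by funext v; ring
      rw [this, avg_smul]; ring
    rw [e]
    have e2 : (UU : ℂ) * -w - -avg (wtT D t) F = -(UU * w - avg (wtT D t) F) := by ring
    rw [e2, norm_neg]
    exact h.err
  · have h1 := DL_scale (-1 : ℂ) h.dl
    have e1 : (fun v => (-1 : ℂ) * F v) = fun v => -F v := by funext v; ring
    rw [e1] at h1
    have e2 : (ρ.l.map (rls σ)).map (fun x => (‖(-1 : ℂ)‖ * x.1, ‖(-1 : ℂ)‖ * x.2))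
        = ρ.l.map (rls σ) := by
      rw [List.map_map]
      refine List.map_congr_left fun x _ => ?_
      show (‖(-1 : ℂ)‖ * _, ‖(-1 : ℂ)‖ * _) = _
      rw [norm_neg, norm_one, one_mul, one_mul]
    rw [e2] at h1
    exact h1

/-! ### matrices of models -/

/-- the models of a run matrix -/
structure QOK (D : ℕ) (lf : α → Vt D → ℂ) (t : ℕ → ℝ) (r a w τ : ℝ) (X : Qd α) : Prop where
  R : TOK D lf t (r : ℂ) X.R
  A : TOK D lf t (a : ℂ) X.A
  W : TOK D lf t (w : ℂ) X.W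
  T : TOK D lf t (τ : ℂ) X.T

theorem QOK.mk' (hA : AOK D lf A) (hP : PT D t) {r ρ s : ℝ} {R RR S : Mo α}
    (h1 : TOK D lf t (r : ℂ) R) (h2 : TOK D lf t (ρ : ℂ) RR) (h3 : TOK D lf t (s : ℂ) S) :
    QOK D lf t r (ρ - s) (ρ + s) (2 * r * s) (mkQd A R RR S) := by
  refine ⟨h1, (h2.sub hA h3).congr (by push_cast; ring), (h2.add hA h3).congr (by push_cast; ring),
    ((h1.add hA h1).mul hA hP h3).congr (by push_cast; ring)⟩

/-- the row functions: the controls of `B z` -/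
def yF (lf : α → Vt D → ℂ) (X : Qd α) (z : Fin 3 → ℂ) (i : Fin 3) (v : Vt D) : ℂ :=
  match i with
  | 0 => (UU : ℂ) * z 0 + 2 * ((lf X.R.v v).re : ℂ) * z 1 + ((lf X.A.v v).re : ℂ) * z 2
  | 1 => ((lf X.R.v v).re : ℂ) * z 0 + ((lf X.A.v v).re : ℂ) * z 1 - ((lf X.T.v v).re : ℂ) * z 2
  | 2 => ((lf X.W.v v).re : ℂ) * z 0

/-- `B z` -/
def yW (r a w τ : ℝ) (z : Fin 3 → ℂ) (i : Fin 3) : ℂ :=
  match i with
  | 0 => z 0 + 2 * r * z 1 + a * z 2
  | 1 => r * z 0 + a * z 1 - τ * z 2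
  | 2 => w * z 0

def sg1 (z : Fin 3 → ℂ) : ℝ := ‖z 0‖ + ‖z 1‖ + ‖z 2‖

theorem sg1_nonneg (z : Fin 3 → ℂ) : 0 ≤ sg1 z := by unfold sg1; positivity

theorem sg1_sq (z : Fin 3 → ℂ) :
    sg1 z * sg1 z ≤ 3 * (normSq (z 0) + normSq (z 1) + normSq (z 2)) := by
  rw [Complex.normSq_eq_norm_sq, Complex.normSq_eq_norm_sq, Complex.normSq_eq_norm_sq]
  unfold sg1
  nlinarith [sq_nonneg (‖z 0‖ - ‖z 1‖), sq_nonneg (‖z 0‖ - ‖z 2‖), sq_nonneg (‖z 1‖ - ‖z 2‖)]

theorem QOK.row0 (hA : AOK D lf A) (hP : PT D t) {r a w τ : ℝ} {X : Qd α}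
    (h : QOK D lf t r a w τ X) (z : Fin 3 → ℂ) :
    RK D t (rw0 A X) (sg1 z) (yW r a w τ z 0) (yF lf X z 0) := by
  have h1 : TOK D lf t ((1 : ℝ) : ℂ) (Pool.Agent.Helper86.CT.cst A (nat_lit 281474976710656)
      (nat_lit 0)) := TOK.cst' hA hP (by unfold UU; norm_num)
  have h2 : TOK D lf t ((2 * r : ℝ) : ℂ) (Pool.Agent.Helper86.CT.row0 A X) :=
    (h.R.add hA h.R).congr (by push_cast; ring)
  have r1 := RK.ent h1 (z 0)
  have r2 := RK.ent h2 (z 1)
  have r3 := RK.ent h.A (z 2)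
  have l1 := r1.len
  have l2 := r2.len
  have l3 := r3.len
  have s2 := (r2.mxl (norm_nonneg _) l3)
  have s3 := (r3.mxr (norm_nonneg _) l2)
  have l4 := s2.len
  have t1 := r1.mxl (norm_nonneg _) l4
  have t2 := s2.mxr (norm_nonneg _) l1
  have t3 := s3.mxr (norm_nonneg _) l1
  have k := (t1.add t2).add t3
  have e1 : (((1 : ℝ) : ℂ) * z 0 + ((2 * r : ℝ) : ℂ) * z 1 + (a : ℂ) * z 2) = yW r a w τ z 0 := by
    show _ = z 0 + 2 * r * z 1 + a * z 2
    push_cast; ring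
  have e2 : (fun v => ((lf (Pool.Agent.Helper86.CT.cst A (nat_lit 281474976710656) (nat_lit 0)).v v).re : ℂ) * z 0
      + ((lf (Pool.Agent.Helper86.CT.row0 A X).v v).re : ℂ) * z 1 + ((lf X.A.v v).re : ℂ) * z 2)
      = yF lf X z 0 := by
    funext v
    have g1 : (lf (Pool.Agent.Helper86.CT.cst A (nat_lit 281474976710656) (nat_lit 0)).v v).re = UU := by
      show (lf (A.cs ⟨Pool.Agent.Helper86.C75.Z.p _, Pool.Agent.Helper86.C75.Z.p _⟩) v).re = UU
      rw [hA.cst]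
      show ((zv (Pool.Agent.Helper86.C75.Z.p _) : ℤ) : ℝ) = UU
      rw [zv_p]
      unfold UU
      norm_num
    have g2 : (lf (Pool.Agent.Helper86.CT.row0 A X).v v).re = 2 * (lf X.R.v v).re := by
      show (lf (A.add X.R.v X.R.v) v).re = _
      rw [hA.law.hadd, Complex.add_re]
      ring
    rw [g1, g2]
    show _ = (UU : ℂ) * z 0 + 2 * ((lf X.R.v v).re : ℂ) * z 1 + ((lf X.A.v v).re : ℂ) * z 2
    push_cast
    ring
  rw [e1, e2] at k
  exact k

theorem QOK.row1 {r a w τ : ℝ} {X : Qd α} (h : QOK D lf t r a w τ X) (z : Fin 3 → ℂ) :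
    RK D t (rw1 X) (sg1 z) (yW r a w τ z 1) (yF lf X z 1) := by
  have r1 := RK.ent h.R (z 0)
  have r2 := RK.ent h.A (z 1)
  have r3 := (RK.ent h.T (z 2)).neg
  have l1 := r1.len
  have l2 := r2.len
  have l3 := r3.len
  have s2 := (r2.mxl (norm_nonneg _) l3)
  have s3 := (r3.mxr (norm_nonneg _) l2)
  have l4 := s2.len
  have t1 := r1.mxl (norm_nonneg _) l4
  have t2 := s2.mxr (norm_nonneg _) l1
  have t3 := s3.mxr (norm_nonneg _) l1
  have k := (t1.add t2).add t3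
  have e1 : ((r : ℂ) * z 0 + (a : ℂ) * z 1 + -((τ : ℂ) * z 2)) = yW r a w τ z 1 := by
    show _ = r * z 0 + a * z 1 - τ * z 2
    ring
  have e2 : (fun v => ((lf X.R.v v).re : ℂ) * z 0
      + ((lf X.A.v v).re : ℂ) * z 1 + -(((lf X.T.v v).re : ℂ) * z 2))
      = yF lf X z 1 := by
    funext v
    show _ = ((lf X.R.v v).re : ℂ) * z 0 + ((lf X.A.v v).re : ℂ) * z 1
      - ((lf X.T.v v).re : ℂ) * z 2
    ring
  rw [e1, e2] at k
  exact k

theorem QOK.row2 {r a w τ : ℝ} {X : Qd α} (h : QOK D lf t r a w τ X) (z : Fin 3 → ℂ) :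
    RK D t (rw2 X) (sg1 z) (yW r a w τ z 2) (yF lf X z 2) := by
  have r1 := RK.ent h.W (z 0)
  refine r1.sig ?_
  unfold sg1
  have := norm_nonneg (z 1)
  have := norm_nonneg (z 2)
  linarith

/-! ### bilinearity of the control product -/

theorem mulT_add_left : ∀ (D : ℕ) (F F' G : Vt D → ℂ),
    mulT D (fun v => F v + F' v) G = fun v => mulT D F G v + mulT D F' G v
  | 0, F, F', G => by
    funext v
    simp only [mulT]
    ring
  | D + 1, F, F', G => by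
    funext v
    simp only [mulT]
    by_cases h : v.2 = 1
    · rw [if_pos h, if_pos h, if_pos h]
      have e1 := mulT_add_left D (fun u => F (u, 1)) (fun u => F' (u, 1)) (fun u => G (u, 1))
      have e2 := mulT_add_left D (fun u => F (u, 2) - F (u, 0)) (fun u => F' (u, 2) - F' (u, 0))
        (fun u => G (u, 2) - G (u, 0))
      have e3 : (fun u : Vt D => F (u, 2) + F' (u, 2) - (F (u, 0) + F' (u, 0)))
          = fun u => (F (u, 2) - F (u, 0)) + (F' (u, 2) - F' (u, 0)) := by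
        funext u; ring
      rw [e1, e3, e2]
      ring
    · rw [if_neg h, if_neg h, if_neg h]
      rw [mulT_add_left D (fun u => F (u, v.2)) (fun u => F' (u, v.2)) (fun u => G (u, v.2))]

theorem mulT_comm : ∀ (D : ℕ) (F G : Vt D → ℂ), mulT D F G = mulT D G F
  | 0, F, G => by
    funext v
    simp only [mulT]
    ring
  | D + 1, F, G => by
    funext v
    simp only [mulT]
    by_cases h : v.2 = 1
    · rw [if_pos h, if_pos h, mulT_comm D (fun u => F (u, 1)),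
        mulT_comm D (fun u => F (u, 2) - F (u, 0))]
    · rw [if_neg h, if_neg h, mulT_comm D (fun u => F (u, v.2))]

theorem mulT_add_right (D : ℕ) (F G G' : Vt D → ℂ) :
    mulT D F (fun v => G v + G' v) = fun v => mulT D F G v + mulT D F G' v := by
  rw [mulT_comm, mulT_add_left, mulT_comm D G, mulT_comm D G']

theorem mulT_smul_left : ∀ (D : ℕ) (c : ℂ) (F G : Vt D → ℂ),
    mulT D (fun v => c * F v) G = fun v => c * mulT D F G v
  | 0, c, F, G => by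
    funext v
    simp only [mulT]
    ring
  | D + 1, c, F, G => by
    funext v
    simp only [mulT]
    by_cases h : v.2 = 1
    · rw [if_pos h, if_pos h]
      have e3 : (fun u : Vt D => c * F (u, 2) - c * F (u, 0))
          = fun u => c * (F (u, 2) - F (u, 0)) := by
        funext u; ring
      rw [e3, mulT_smul_left D c (fun u => F (u, 1)),
        mulT_smul_left D c (fun u => F (u, 2) - F (u, 0))]
      ring
    · rw [if_neg h, if_neg h, mulT_smul_left D c (fun u => F (u, v.2))]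

theorem mulT_smul_right (D : ℕ) (c : ℂ) (F G : Vt D → ℂ) :
    mulT D F (fun v => c * G v) = fun v => c * mulT D F G v := by
  rw [mulT_comm, mulT_smul_left, mulT_comm]

/-! ### the form: leaves with lowered diagonal -/

/-- the leaves of the target form (`zipP`) -/
structure IF (D : ℕ) where
  a : Vt D → ℝ
  b : Vt D → ℝ
  c : Vt D → ℝ
  x : Vt D → ℂ
  y : Vt D → ℂ
  w : Vt D → ℂ

def mkIF (lf : α → Vt D → ℂ) (P : KM α) : IF D :=
  ⟨fun v => (lf P.a.v v).re - (P.a.r + P.x.r + P.y.r),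
    fun v => (lf P.b.v v).re - (P.b.r + P.x.r + P.w.r),
    fun v => (lf P.c.v v).re - (P.c.r + P.y.r + P.w.r), lf P.x.v, lf P.y.v, lf P.w.v⟩

/-- `Re avg (J (conj F G' + conj F' G))` -/
def Nc (D : ℕ) (t : ℕ → ℝ) (J F F' G G' : Vt D → ℂ) : ℝ :=
  (avg (wtT D t) (mulT D J (mulT D (fun v => star (F v)) G'))
    + avg (wtT D t) (mulT D J (mulT D (fun v => star (F' v)) G))).re

/-- the polarised form at the leaves: twice `P(F, F')` -/
def Np (D : ℕ) (t : ℕ → ℝ) (J : IF D) (F F' : Fin 3 → Vt D → ℂ) : ℝ :=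
  Nc D t (fun v => (J.a v : ℂ)) (F 0) (F' 0) (F 0) (F' 0) +
  Nc D t (fun v => (J.b v : ℂ)) (F 1) (F' 1) (F 1) (F' 1) +
  Nc D t (fun v => (J.c v : ℂ)) (F 2) (F' 2) (F 2) (F' 2) +
  2 * (Nc D t J.x (F 0) (F' 0) (F 1) (F' 1) + Nc D t J.y (F 0) (F' 0) (F 2) (F' 2) +
    Nc D t J.w (F 1) (F' 1) (F 2) (F' 2))

/-- the averaged form -/
def Ph (D : ℕ) (t : ℕ → ℝ) (J : IF D) : Hm ℝ :=
  mkH (avg (wtT D t) (fun v => (J.a v : ℂ))).re (avg (wtT D t) (fun v => (J.b v : ℂ))).re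
    (avg (wtT D t) (fun v => (J.c v : ℂ))).re (avg (wtT D t) J.x) (avg (wtT D t) J.y)
    (avg (wtT D t) J.w)

/-- the polarised form, `pol K w w = 2 ev K w` -/
def pol (K : Hm ℝ) (w w' : Fin 3 → ℂ) : ℝ :=
  (K.a * (conj (w 0) * w' 0 + conj (w' 0) * w 0)).re +
  (K.b * (conj (w 1) * w' 1 + conj (w' 1) * w 1)).re +
  (K.c * (conj (w 2) * w' 2 + conj (w' 2) * w 2)).re +
  2 * ((K.x * (conj (w 0) * w' 1 + conj (w' 0) * w 1)).re +
    (K.y * (conj (w 0) * w' 2 + conj (w' 0) * w 2)).re +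
    (K.w * (conj (w 1) * w' 2 + conj (w' 1) * w 2)).re)

theorem pol_self (K : Hm ℝ) (w : Fin 3 → ℂ) : pol K w w = 2 * ev K w := by
  unfold pol ev Hm.x Hm.y Hm.w
  simp only [Complex.normSq_apply, Complex.mul_re, Complex.mul_im, Complex.add_re, Complex.add_im,
    Complex.conj_re, Complex.conj_im, Complex.ofReal_re, Complex.ofReal_im, Complex.I_re,
    Complex.I_im]
  ring

/-- one entry: the error -/
theorem Nc_err (hP : PT D t) {R : ℕ} {P : Mo α} {J : Vt D → ℂ}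
    (hJ : ∀ v, ‖J v‖ ≤ P.B + R) (hJl : DL D J (P.l.map rl)) (hPl : P.l.length = D)
    {ρ ρ' : Rw} {σ : ℝ} (hσ : 0 ≤ σ) {w w' u u' : ℂ} {F F' G G' : Vt D → ℂ}
    (h1 : RK D t ρ σ w F) (h2 : RK D t ρ σ w' F') (h3 : RK D t ρ' σ u G) (h4 : RK D t ρ' σ u' G')
    (hS : Sg ρ.l ρ'.l) :
    |UU ^ 2 * (avg (wtT D t) J * (conj w * u' + conj w' * u)).re - Nc D t J F F' G G'| ≤
      2 * (ePV R P ρ ρ' : ℕ) * (σ * σ) := by
  have k1 := RK.three hP hJ hJl hPl hσ hσ h1.str h4 hS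
  have k2 := RK.three hP hJ hJl hPl hσ hσ h2.str h3 hS
  unfold Nc
  have e : UU ^ 2 * (avg (wtT D t) J * (conj w * u' + conj w' * u)).re
      - (avg (wtT D t) (mulT D J (mulT D (fun v => star (F v)) G'))
        + avg (wtT D t) (mulT D J (mulT D (fun v => star (F' v)) G))).re
      = ((avg (wtT D t) J * ((UU : ℂ) ^ 2 * (star w * u'))
          - avg (wtT D t) (mulT D J (mulT D (fun v => star (F v)) G')))
        + (avg (wtT D t) J * ((UU : ℂ) ^ 2 * (star w' * u))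
          - avg (wtT D t) (mulT D J (mulT D (fun v => star (F' v)) G)))).re := by
    have e1 : ((UU : ℂ) ^ 2 * (avg (wtT D t) J * (conj w * u' + conj w' * u))).re
        = UU ^ 2 * (avg (wtT D t) J * (conj w * u' + conj w' * u)).re := by
      have : ((UU : ℂ) ^ 2) = (((UU ^ 2 : ℝ)) : ℂ) := by push_cast; rfl
      rw [this, Complex.re_ofReal_mul]
    rw [← e1, ← Complex.sub_re]
    congr 1
    have s1 : (star w : ℂ) = conj w := rfl
    have s2 : (star w' : ℂ) = conj w' := rfl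
    rw [s1, s2]
    ring
  rw [e]
  refine (Complex.abs_re_le_norm _).trans ((norm_add_le _ _).trans ?_)
  linarith

theorem DL_shift : ∀ {D : ℕ} {F : Vt D → ℂ} {l : List (ℝ × ℝ)} (c : ℂ), DL D F l →
    DL D (fun v => F v - c) l
  | 0, _, _, _, _ => trivial
  | _ + 1, _, [], _, h => h.elim
  | D + 1, F, x :: l, c, h => by
    obtain ⟨a1, a2, a3⟩ := h
    refine ⟨fun v => ?_, fun v => ?_, fun i => DL_shift c (a3 i)⟩
    · have e : F (v, 2) - c - (F (v, 0) - c) = F (v, 2) - F (v, 0) := by ring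
      exact (le_of_eq (congrArg norm e)).trans (a1 v)
    · have e : F (v, 1) - c - (F (v, 0) - c + (F (v, 2) - c)) / 2
          = F (v, 1) - (F (v, 0) + F (v, 2)) / 2 := by ring
      exact (le_of_eq (congrArg norm e)).trans (a2 v)

/-- leaves of a diagonal entry -/
theorem diag_ok {P : Mo α} (hv : VT D lf P) {R r : ℕ} (hr : r ≤ R) :
    (∀ v, ‖((((lf P.v v).re - (r : ℝ) : ℝ)) : ℂ)‖ ≤ P.B + R) ∧
      DL D (fun v => ((((lf P.v v).re - (r : ℝ) : ℝ)) : ℂ)) (P.l.map rl) := by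
  constructor
  · intro v
    rw [Complex.norm_real, Real.norm_eq_abs]
    have h1 := (Complex.abs_re_le_norm (lf P.v v)).trans (hv.bd v)
    have h2 : (r : ℝ) ≤ R := by exact_mod_cast hr
    have h3 : (0 : ℝ) ≤ r := Nat.cast_nonneg _
    rw [abs_le] at h1 ⊢
    constructor <;> linarith [h1.1, h1.2]
  · have h1 := DL_shift (r : ℂ) (DL_re hv.dl)
    have e : (fun v => ((lf P.v v).re : ℂ) - (r : ℂ)) = fun v => ((((lf P.v v).re - (r : ℝ) : ℝ)) : ℂ) := by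
      funext v
      push_cast
      ring
    rw [e] at h1
    exact h1

/-- the rows of the vector `w` -/
structure RW (D : ℕ) (t : ℕ → ℝ) (ρ : Fin 3 → Rw) (σ : ℝ) (w : Fin 3 → ℂ) (F : Fin 3 → Vt D → ℂ) :
    Prop where
  r : ∀ i, RK D t (ρ i) σ (w i) (F i)

theorem eN1_eq (R : ℕ) (P : KM α) {β : Type} (V : VO β) : ((eN1 R P V : ℕ) : ℝ) =
    (ePV R P.a V.r0 V.r0 : ℕ) + (ePV R P.b V.r1 V.r1 : ℕ) + (ePV R P.c V.r2 V.r2 : ℕ)
      + 2 * ((ePV R P.x V.r0 V.r1 : ℕ) + (ePV R P.y V.r0 V.r2 : ℕ) + (ePV R P.w V.r1 V.r2 : ℕ)) := by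
  show ((Nat.add (Nat.add (Nat.add (ePV R P.a V.r0 V.r0) (ePV R P.b V.r1 V.r1)) (ePV R P.c V.r2 V.r2))
    (Nat.mul (nat_lit 2) (Nat.add (Nat.add (ePV R P.x V.r0 V.r1) (ePV R P.y V.r0 V.r2))
      (ePV R P.w V.r1 V.r2))) : ℕ) : ℝ) = _
  rw [c_add, c_add, c_add, c_mul, c_add, c_add]
  norm_num

/-- at most one active variable in the three rows -/
structure SgV (ρ : Fin 3 → Rw) : Prop where
  s : ∀ i j, Sg (ρ i).l (ρ j).l

def rws {β : Type} (V : VO β) : Fin 3 → Rw := ![V.r0, V.r1, V.r2]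

/-- THE ERROR OF THE FORM, polarised -/
theorem Np_err (hP : PT D t) {P : KM α} {β : Type} {V : VO β}
    (va : VT D lf P.a) (vb : VT D lf P.b) (vc : VT D lf P.c) (vx : VT D lf P.x)
    (vy : VT D lf P.y) (vw : VT D lf P.w) (hS : SgV (rws V)) {σ : ℝ} (hσ : 0 ≤ σ)
    {w w' : Fin 3 → ℂ} {F F' : Fin 3 → Vt D → ℂ} (h : RW D t (rws V) σ w F)
    (h' : RW D t (rws V) σ w' F') :
    |UU ^ 2 * pol (Ph D t (mkIF lf P)) w w' - Np D t (mkIF lf P) F F'| ≤
      2 * (eN P V : ℕ) * (σ * σ) := by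
  set R : ℕ := Nat.add (Nat.add (Nat.add (Nat.add (Nat.add P.a.r P.b.r) P.c.r) P.x.r) P.y.r) P.w.r
    with hR
  have hR' : R = P.a.r + P.b.r + P.c.r + P.x.r + P.y.r + P.w.r := rfl
  have eN' : eN P V = eN1 R P V := rfl
  rw [eN', eN1_eq]
  have da := diag_ok (R := R) (r := P.a.r + P.x.r + P.y.r) va (by omega)
  have db := diag_ok (R := R) (r := P.b.r + P.x.r + P.w.r) vb (by omega)
  have dc := diag_ok (R := R) (r := P.c.r + P.y.r + P.w.r) vc (by omega)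
  have hx : ∀ v, ‖lf P.x.v v‖ ≤ (P.x.B : ℝ) + R := fun v =>
    (vx.bd v).trans (by linarith [(Nat.cast_nonneg R : (0 : ℝ) ≤ R)])
  have hy : ∀ v, ‖lf P.y.v v‖ ≤ (P.y.B : ℝ) + R := fun v =>
    (vy.bd v).trans (by linarith [(Nat.cast_nonneg R : (0 : ℝ) ≤ R)])
  have hw : ∀ v, ‖lf P.w.v v‖ ≤ (P.w.B : ℝ) + R := fun v =>
    (vw.bd v).trans (by linarith [(Nat.cast_nonneg R : (0 : ℝ) ≤ R)])
  have ea : (fun v => ((((lf P.a.v v).re - ((P.a.r + P.x.r + P.y.r : ℕ) : ℝ) : ℝ)) : ℂ))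
      = fun v => (((mkIF lf P).a v : ℝ) : ℂ) := by
    funext v
    show _ = ((((lf P.a.v v).re - (P.a.r + P.x.r + P.y.r) : ℝ)) : ℂ)
    push_cast; ring
  have eb : (fun v => ((((lf P.b.v v).re - ((P.b.r + P.x.r + P.w.r : ℕ) : ℝ) : ℝ)) : ℂ))
      = fun v => (((mkIF lf P).b v : ℝ) : ℂ) := by
    funext v
    show _ = ((((lf P.b.v v).re - (P.b.r + P.x.r + P.w.r) : ℝ)) : ℂ)
    push_cast; ring
  have ec : (fun v => ((((lf P.c.v v).re - ((P.c.r + P.y.r + P.w.r : ℕ) : ℝ) : ℝ)) : ℂ))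
      = fun v => (((mkIF lf P).c v : ℝ) : ℂ) := by
    funext v
    show _ = ((((lf P.c.v v).re - (P.c.r + P.y.r + P.w.r) : ℝ)) : ℂ)
    push_cast; ring
  have na := fun v => (congrArg norm (congrFun ea v)).symm.le.trans (da.1 v)
  have nb := fun v => (congrArg norm (congrFun eb v)).symm.le.trans (db.1 v)
  have nc := fun v => (congrArg norm (congrFun ec v)).symm.le.trans (dc.1 v)
  have la := da.2
  have lb := db.2
  have lc := dc.2
  rw [ea] at la
  rw [eb] at lb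
  rw [ec] at lc
  have q0 := Nc_err hP na la va.len hσ (h.r 0) (h'.r 0) (h.r 0) (h'.r 0) (hS.s 0 0)
  have q1 := Nc_err hP nb lb vb.len hσ (h.r 1) (h'.r 1) (h.r 1) (h'.r 1) (hS.s 1 1)
  have q2 := Nc_err hP nc lc vc.len hσ (h.r 2) (h'.r 2) (h.r 2) (h'.r 2) (hS.s 2 2)
  have q3 := Nc_err hP hx vx.dl vx.len hσ (h.r 0) (h'.r 0) (h.r 1) (h'.r 1) (hS.s 0 1)
  have q4 := Nc_err hP hy vy.dl vy.len hσ (h.r 0) (h'.r 0) (h.r 2) (h'.r 2) (hS.s 0 2)
  have q5 := Nc_err hP hw vw.dl vw.len hσ (h.r 1) (h'.r 1) (h.r 2) (h'.r 2) (hS.s 1 2)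
  have f0 : rws V 0 = V.r0 := rfl
  have f1 : rws V 1 = V.r1 := rfl
  have f2 : rws V 2 = V.r2 := rfl
  rw [f0] at q0 q3 q4
  rw [f1] at q1 q3 q5
  rw [f2] at q2 q4 q5
  -- the averages of the diagonal entries are real
  have rr : ∀ f : Vt D → ℝ, (((avg (wtT D t) (fun v => (f v : ℂ))).re : ℝ) : ℂ)
      = avg (wtT D t) (fun v => (f v : ℂ)) := by
    intro f
    apply Complex.ext
    · exact Complex.ofReal_re _
    · rw [Complex.ofReal_im, avg_im]
      symm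
      refine Finset.sum_eq_zero fun v _ => ?_
      rw [Complex.ofReal_im, mul_zero]
  have e : UU ^ 2 * pol (Ph D t (mkIF lf P)) w w' - Np D t (mkIF lf P) F F'
      = (UU ^ 2 * (avg (wtT D t) (fun v => (((mkIF lf P).a v : ℝ) : ℂ))
          * (conj (w 0) * w' 0 + conj (w' 0) * w 0)).re
          - Nc D t (fun v => (((mkIF lf P).a v : ℝ) : ℂ)) (F 0) (F' 0) (F 0) (F' 0))
      + (UU ^ 2 * (avg (wtT D t) (fun v => (((mkIF lf P).b v : ℝ) : ℂ))
          * (conj (w 1) * w' 1 + conj (w' 1) * w 1)).re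
          - Nc D t (fun v => (((mkIF lf P).b v : ℝ) : ℂ)) (F 1) (F' 1) (F 1) (F' 1))
      + (UU ^ 2 * (avg (wtT D t) (fun v => (((mkIF lf P).c v : ℝ) : ℂ))
          * (conj (w 2) * w' 2 + conj (w' 2) * w 2)).re
          - Nc D t (fun v => (((mkIF lf P).c v : ℝ) : ℂ)) (F 2) (F' 2) (F 2) (F' 2))
      + 2 * ((UU ^ 2 * (avg (wtT D t) (lf P.x.v) * (conj (w 0) * w' 1 + conj (w' 0) * w 1)).re
          - Nc D t (lf P.x.v) (F 0) (F' 0) (F 1) (F' 1))
      + (UU ^ 2 * (avg (wtT D t) (lf P.y.v) * (conj (w 0) * w' 2 + conj (w' 0) * w 2)).re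
          - Nc D t (lf P.y.v) (F 0) (F' 0) (F 2) (F' 2))
      + (UU ^ 2 * (avg (wtT D t) (lf P.w.v) * (conj (w 1) * w' 2 + conj (w' 1) * w 2)).re
          - Nc D t (lf P.w.v) (F 1) (F' 1) (F 2) (F' 2))) := by
    unfold pol Np Ph
    rw [mkH_x, mkH_y, mkH_w]
    have g1 : (mkH (avg (wtT D t) (fun v => (((mkIF lf P).a v : ℝ) : ℂ))).re
        (avg (wtT D t) (fun v => (((mkIF lf P).b v : ℝ) : ℂ))).re
        (avg (wtT D t) (fun v => (((mkIF lf P).c v : ℝ) : ℂ))).re (avg (wtT D t) (mkIF lf P).x)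
        (avg (wtT D t) (mkIF lf P).y) (avg (wtT D t) (mkIF lf P).w)).a
        = (avg (wtT D t) (fun v => (((mkIF lf P).a v : ℝ) : ℂ))).re := rfl
    have g2 : (mkH (avg (wtT D t) (fun v => (((mkIF lf P).a v : ℝ) : ℂ))).re
        (avg (wtT D t) (fun v => (((mkIF lf P).b v : ℝ) : ℂ))).re
        (avg (wtT D t) (fun v => (((mkIF lf P).c v : ℝ) : ℂ))).re (avg (wtT D t) (mkIF lf P).x)
        (avg (wtT D t) (mkIF lf P).y) (avg (wtT D t) (mkIF lf P).w)).b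
        = (avg (wtT D t) (fun v => (((mkIF lf P).b v : ℝ) : ℂ))).re := rfl
    have g3 : (mkH (avg (wtT D t) (fun v => (((mkIF lf P).a v : ℝ) : ℂ))).re
        (avg (wtT D t) (fun v => (((mkIF lf P).b v : ℝ) : ℂ))).re
        (avg (wtT D t) (fun v => (((mkIF lf P).c v : ℝ) : ℂ))).re (avg (wtT D t) (mkIF lf P).x)
        (avg (wtT D t) (mkIF lf P).y) (avg (wtT D t) (mkIF lf P).w)).c
        = (avg (wtT D t) (fun v => (((mkIF lf P).c v : ℝ) : ℂ))).re := rfl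
    rw [g1, g2, g3, rr, rr, rr]
    have x1 : (mkIF lf P).x = lf P.x.v := rfl
    have x2 : (mkIF lf P).y = lf P.y.v := rfl
    have x3 : (mkIF lf P).w = lf P.w.v := rfl
    rw [x1, x2, x3]
    ring
  rw [e]
  rw [abs_le] at q0 q1 q2 q3 q4 q5 ⊢
  constructor <;> linarith [q0.1, q0.2, q1.1, q1.2, q2.1, q2.2, q3.1, q3.2, q4.1, q4.2, q5.1, q5.2]

end Pool.Agent.Helper90.KMT
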