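import Pool.Agent.Helper90.CX.WIG

/-!
Passing to window coordinates.
-/

set_option autoImplicit false
noncomputable section
namespace Pool.Agent.Helper6.MONO

/-! ### gauge transformations of the numbers game -/

lemma wga_fire_smul (G : Fin 3 → Fin 3 → ℂ) (i : Fin 3) (a : ℂ) (x : V3) :
    fire G i (a • x) = a • fire G i x := by
  funext k
  by_cases hk : k = i
  · simp only [fire, hk, if_true, Pi.smul_apply, smul_eq_mul, mul_add, Finset.mul_sum]
    congr 1
    · ring
    · apply Finset.sum_congr rfl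
      intro j _
      by_cases hj : j = i
      · simp [hj]
      · simp only [hj, if_false]; ring
  · simp [fire, hk]

lemma wga_gact_smul (G : Fin 3 → Fin 3 → ℂ) (w : List (Fin 3)) (a : ℂ) (x : V3) :
    gact G w (a • x) = a • gact G w x := by
  induction w generalizing x with
  | nil => rfl
  | cons i w ih =>
    show gact G w (fire G i (a • x)) = a • gact G w (fire G i x)
    rw [wga_fire_smul, ih]

/-- a diagonal change of coordinates -/
lemma wga_fire_gauge (G G' : Fin 3 → Fin 3 → ℂ) (l : Fin 3 → ℂ)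
    (h : ∀ i j, i ≠ j → G' j i * l j = l i * G j i) (i : Fin 3) (x : V3) :
    fire G' i (fun k => l k * x k) = fun k => l k * fire G i x k := by
  funext k
  by_cases hk : k = i
  · subst hk
    simp only [fire, if_true, mul_add, Finset.mul_sum]
    congr 1
    · ring
    · apply Finset.sum_congr rfl
      intro j _
      by_cases hj : j = k
      · simp [hj]
      · simp only [hj, if_false]
        have := h k j (fun e => hj e.symm)
        calc G' j k * (l j * x j) = (G' j k * l j) * x j := by ring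
          _ = l k * (G j k * x j) := by rw [this]; ring
  · simp [fire, hk]

lemma wga_gact_gauge (G G' : Fin 3 → Fin 3 → ℂ) (l : Fin 3 → ℂ)
    (h : ∀ i j, i ≠ j → G' j i * l j = l i * G j i) (w : List (Fin 3)) (x : V3) :
    gact G' w (fun k => l k * x k) = fun k => l k * gact G w x k := by
  induction w generalizing x with
  | nil => rfl
  | cons i w ih =>
    show gact G' w (fire G' i (fun k => l k * x k)) = fun k => l k * gact G w (fire G i x) k
    rw [wga_fire_gauge G G' l h, ih]

lemma wga_norm_mul (l : Fin 3 → ℂ) (hl : ∀ k, ‖l k‖ = 1) (v : V3) :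
    ‖(fun k => l k * v k : V3)‖ = ‖v‖ := by
  apply le_antisymm
  · rw [pi_norm_le_iff_of_nonneg (norm_nonneg _)]
    intro k
    rw [norm_mul, hl, one_mul]
    exact norm_le_pi_norm v k
  · rw [pi_norm_le_iff_of_nonneg (norm_nonneg _)]
    intro k
    have := norm_le_pi_norm (fun k => l k * v k : V3) k
    rwa [norm_mul, hl, one_mul] at this

lemma wga_nrm_gauge (G G' : Fin 3 → Fin 3 → ℂ) (l : Fin 3 → ℂ) (hl : ∀ k, ‖l k‖ = 1)
    (h : ∀ i j, i ≠ j → G' j i * l j = l i * G j i) (w : List (Fin 3)) :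
    nrm (gact G w) = nrm (gact G' w) := by
  unfold nrm
  apply Finset.sum_congr rfl
  intro i _
  have h1 : (fun k => l k * (Pi.single i 1 : V3) k : V3) = l i • (Pi.single i 1 : V3) := by
    funext k
    by_cases hk : k = i
    · subst hk; simp
    · simp [hk]
  have h2 := wga_gact_gauge G G' l h w (Pi.single i 1)
  rw [h1, wga_gact_smul] at h2
  have h3 : ‖l i • gact G' w (Pi.single i 1)‖ = ‖gact G' w (Pi.single i 1)‖ := by
    rw [norm_smul, hl, one_mul]
  rw [← h3, h2, wga_norm_mul l hl]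

/-! ### the window coordinates -/

lemma wga_hf_star (x y : V3) : hf y x = star (hf x y) := by
  simp only [hf, star_sub, star_add, star_mul', star_star]
  ring

theorem st_WGA : ST_WGA := by
  intro p q r hp hq hr e he
  set G := gram e with hG
  have h0 := wig_Kp_pos p hp
  have h1 := wig_Kp_pos q hq
  have h2 := wig_Kp_pos r hr
  have hc0 : ‖G 0 1‖ = Kp p := by
    simp only [hG, gram, norm_mul, he.ang1, Kp]; norm_num
  have hc1 : ‖G 1 2‖ = Kp q := by
    simp only [hG, gram, norm_mul, he.ang2, Kp]; norm_num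
  have hc2 : ‖G 2 0‖ = Kp r := by
    simp only [hG, gram, norm_mul, he.ang3, Kp]; norm_num
  have hherm : ∀ i j, G j i = star (G i j) := by
    intro i j
    simp only [hG, gram]
    rw [wga_hf_star (e i) (e j)]
    simp
  have hn0 : (Kp p : ℂ) ≠ 0 := by exact_mod_cast h0.ne'
  have hn1 : (Kp q : ℂ) ≠ 0 := by exact_mod_cast h1.ne'
  have hn2 : (Kp r : ℂ) ≠ 0 := by exact_mod_cast h2.ne'
  have hG0 : G 0 1 ≠ 0 := by rw [← norm_pos_iff, hc0]; exact h0
  have hG1 : G 1 2 ≠ 0 := by rw [← norm_pos_iff, hc1]; exact h1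
  have hG2 : G 2 0 ≠ 0 := by rw [← norm_pos_iff, hc2]; exact h2
  have sq0 : G 0 1 * G 1 0 = (Kp p : ℂ) ^ 2 := by
    rw [hherm 0 1]
    have := Complex.mul_conj (G 0 1)
    rw [Complex.normSq_eq_norm_sq, hc0] at this
    simpa using this
  have sq1 : G 1 2 * G 2 1 = (Kp q : ℂ) ^ 2 := by
    rw [hherm 1 2]
    have := Complex.mul_conj (G 1 2)
    rw [Complex.normSq_eq_norm_sq, hc1] at this
    simpa using this
  have sq2 : G 2 0 * G 0 2 = (Kp r : ℂ) ^ 2 := by
    rw [hherm 2 0]
    have := Complex.mul_conj (G 2 0)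
    rw [Complex.normSq_eq_norm_sq, hc2] at this
    simpa using this
  have hG10 : G 1 0 ≠ 0 := by
    intro h; rw [h, mul_zero] at sq0; exact pow_ne_zero 2 hn0 sq0.symm
  have hG21 : G 2 1 ≠ 0 := by
    intro h; rw [h, mul_zero] at sq1; exact pow_ne_zero 2 hn1 sq1.symm
  have hG02 : G 0 2 ≠ 0 := by
    intro h; rw [h, mul_zero] at sq2; exact pow_ne_zero 2 hn2 sq2.symm
  have htr : -trip e = G 0 1 * G 1 2 * G 2 0 / 8 := by
    simp only [trip, hG, gram]; ring
  have hnt : ‖trip e‖ = Kp p * Kp q * Kp r / 8 := by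
    rw [← norm_neg, htr, norm_div, norm_mul, norm_mul, hc0, hc1, hc2]
    norm_num
  set z : ℂ := G 0 1 * G 1 2 * G 2 0 / (Kp p * Kp q * Kp r) with hz
  have hz1 : ‖z‖ = 1 := by
    rw [hz, norm_div, norm_mul, norm_mul, hc0, hc1, hc2, norm_mul, norm_mul]
    simp only [Complex.norm_real, Real.norm_eq_abs, abs_of_pos h0, abs_of_pos h1, abs_of_pos h2]
    exact div_self (by positivity)
  refine ⟨z, hz1, ?_, ?_⟩
  · rw [htr, hnt, hz]
    push_cast
    field_simp
  · intro w
    have hz0 : z ≠ 0 := by rw [← norm_pos_iff, hz1]; norm_num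
    apply wga_nrm_gauge (gram e) (wG (cw p q r) z)
      ![1, Kp p / G 0 1, Kp p / G 0 1 * (Kp q / G 1 2)]
    · intro k
      fin_cases k
      · simp
      · simp [hc0, abs_of_pos h0, h0.ne']
      · simp [hc0, hc1, abs_of_pos h0, abs_of_pos h1, h0.ne', h1.ne']
    · intro i j hij
      rw [← hG]
      have key : ∀ a b : Fin 3, a ≠ b → (a = 0 ∧ b = 1) ∨ (a = 1 ∧ b = 0) ∨ (a = 1 ∧ b = 2) ∨
          (a = 2 ∧ b = 1) ∨ (a = 2 ∧ b = 0) ∨ (a = 0 ∧ b = 2) := by decide
      rcases key i j hij with ⟨hi, hj⟩ | ⟨hi, hj⟩ | ⟨hi, hj⟩ | ⟨hi, hj⟩ | ⟨hi, hj⟩ | ⟨hi, hj⟩ <;>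
        subst hi <;> subst hj <;> simp [wG, cw, kk, mm]
      · field_simp
        linear_combination -sq0
      · field_simp
      · field_simp
        linear_combination -sq1
      · field_simp
      · rw [hz]
        field_simp
        linear_combination -sq2
      · rw [hz]
        field_simp

end Pool.Agent.Helper6.MONO
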