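import Pool.Agent.Helper12.CX.Defs

/-!
Window data with `‖z‖ = 1`, `z ≠ -1` are Gram data.
-/

set_option autoImplicit false
noncomputable section
namespace Pool.Agent.Helper6.MONO

lemma wig_Kp_pos (M : ℕ) (h : 3 ≤ M) : 0 < Kp M := by
  have hM : (0 : ℝ) < M := by positivity
  have h3 : (3 : ℝ) ≤ M := by exact_mod_cast h
  have hlt : Real.pi / M < Real.pi / 2 := by
    apply div_lt_div_of_pos_left Real.pi_pos (by norm_num) (by linarith)
  have h0 : 0 < Real.pi / M := div_pos Real.pi_pos hM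
  have hc : 0 < Real.cos (Real.pi / M) :=
    Real.cos_pos_of_mem_Ioo ⟨by linarith [Real.pi_pos], hlt⟩
  unfold Kp
  linarith

lemma wig_inv (z : ℂ) (h : ‖z‖ = 1) : z⁻¹ = star z := by
  have h1 : z * star z = 1 := by
    have := Complex.mul_conj z
    rw [Complex.normSq_eq_norm_sq, h] at this
    simpa using this
  exact (eq_inv_of_mul_eq_one_right h1).symm

lemma wig_cw0 (p q r : ℕ) : cw p q r 0 = Kp p := by simp [cw, kk, mm]
lemma wig_cw1 (p q r : ℕ) : cw p q r 1 = Kp q := by simp [cw, kk, mm]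
lemma wig_cw2 (p q r : ℕ) : cw p q r 2 = Kp r := by simp [cw, kk, mm]

/-- `(1 + iτ)/(1 - iτ) = z` for `τ = Im z/(1 + Re z)` -/
lemma wig_tau (z : ℂ) (h : ‖z‖ = 1) (hz : z ≠ -1) :
    (1 + ((z.im / (1 + z.re) : ℝ) : ℂ) * Complex.I) /
      (1 - ((z.im / (1 + z.re) : ℝ) : ℂ) * Complex.I) = z := by
  have hn : z.re ^ 2 + z.im ^ 2 = 1 := by
    have h1 : Complex.normSq z = 1 := by rw [Complex.normSq_eq_norm_sq, h]; norm_num
    rw [Complex.normSq_apply] at h1
    linarith [h1]
  have hre : 1 + z.re ≠ 0 := by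
    intro h0
    have h1 : z.re = -1 := by linarith
    have h2 : z.im = 0 := by
      have : z.im ^ 2 = 0 := by rw [h1] at hn; linarith
      exact pow_eq_zero_iff (two_ne_zero) |>.mp this
    exact hz (Complex.ext (by simp [h1]) (by simp [h2]))
  obtain ⟨t, ht⟩ : ∃ t : ℝ, t = z.im / (1 + z.re) := ⟨_, rfl⟩
  rw [← ht]
  have ht1 : t * (1 + z.re) = z.im := by rw [ht]; field_simp
  have ht2 : t * z.im = 1 - z.re := by
    have h1 : (1 + z.re) * (t * z.im) = (1 + z.re) * (1 - z.re) := by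
      calc (1 + z.re) * (t * z.im) = t * (1 + z.re) * z.im := by ring
        _ = z.im * z.im := by rw [ht1]
        _ = (1 + z.re) * (1 - z.re) := by linarith
    exact mul_left_cancel₀ hre h1
  have hd : (1 - (t : ℂ) * Complex.I) ≠ 0 := by
    intro h0
    have h1 := congrArg Complex.re h0
    simp at h1
  rw [div_eq_iff hd]
  apply Complex.ext
  · simp
    linarith
  · simp
    linarith

theorem st_WIG : ST_WIG := by
  intro p q r hp hq hr z hz hz1
  refine ⟨z.im / (1 + z.re), ?_, ?_, ?_⟩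
  · intro i j
    have hi := wig_inv z hz
    fin_cases i <;> fin_cases j <;> simp [wG, hi]
  · intro i j hij
    have h0 := wig_Kp_pos p hp
    have h1 := wig_Kp_pos q hq
    have h2 := wig_Kp_pos r hr
    fin_cases i <;> fin_cases j <;>
      first
      | exact absurd rfl hij
      | simp [wG, cw, kk, mm, hz, abs_of_pos h0, abs_of_pos h1, abs_of_pos h2]
  · rw [wig_tau z hz hz1]
    simp [wG, cw, kk, mm]
    ring

end Pool.Agent.Helper6.MONO
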