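import Pool.Agent.Helper90.CX.KCT4

/-!
Row KCT, part 5: the side condition (one active variable) as a Bool; rows of the families.
-/

set_option autoImplicit false
noncomputable section
namespace Pool.Agent.Helper90.KMT

open Pool.Agent.Helper90.C75
open Pool.Agent.Helper86.CX (andB)
open Pool.Agent.Helper86.CT (DF Alg Rw isz VO Qd rw0 rw1 rw2 mxRw mxL r3x Mo qf qm2 qm3 vo1 vo0 vo1' vo2
  vo3 vo4 Mq voB)
open Pool.Agent.Helper90.KMO

def orB (x y : Bool) : Bool := Bool.rec (motive := fun _ => Bool) y true x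

def azB (l : List DF) : Bool :=
  List.rec (motive := fun _ => Bool) true (fun x _ ih => andB (isz x) ih) l

/-- at most one active variable in two lists -/
def sgB (l : List DF) : List DF → Bool :=
  List.rec (motive := fun _ => List DF → Bool) (fun _ => true)
    (fun x t ih l' => List.rec (motive := fun _ => Bool) true
      (fun y t' _ => orB (andB (isz x) (andB (isz y) (ih t'))) (andB (azB t) (azB t'))) l') l

/-- the side condition for a run -/
def vsg {β : Type} (V : VO β) : Bool :=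
  andB (sgB V.r0.l V.r0.l) (andB (sgB V.r1.l V.r1.l) (andB (sgB V.r2.l V.r2.l)
    (andB (sgB V.r0.l V.r1.l) (andB (sgB V.r0.l V.r2.l) (andB (sgB V.r1.l V.r2.l)
    (andB (sgB V.r1.l V.r0.l) (andB (sgB V.r2.l V.r0.l) (sgB V.r2.l V.r1.l))))))))

theorem isz_t {x : DF} (h : isz x = true) : x.D = 0 ∧ x.F = 0 := by
  have h1 : x.D + x.F = 0 := Nat.eq_of_beq_eq_true h
  omega

theorem azB_ok : ∀ {l : List DF}, azB l = true → AZ l
  | [], _ => fun x hx => by cases hx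
  | x :: l, h => by
    have h' : andB (isz x) (azB l) = true := h
    obtain ⟨h1, h2⟩ := andB_t h'
    intro y hy
    rcases List.mem_cons.1 hy with rfl | hy
    · exact isz_t h1
    · exact azB_ok h2 y hy

theorem orB_t {x y : Bool} (h : orB x y = true) : x = true ∨ y = true := by
  cases x with
  | true => exact Or.inl rfl
  | false => exact Or.inr h

theorem sgB_ok : ∀ {l l' : List DF}, sgB l l' = true → Sg l l'
  | [], _, _ => by simp [Sg]
  | _ :: _, [], _ => by simp [Sg]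
  | x :: l, y :: l', h => by
    have h' : orB (andB (isz x) (andB (isz y) (sgB l l'))) (andB (azB l) (azB l')) = true := h
    rcases orB_t h' with h1 | h1
    · obtain ⟨a1, a2⟩ := andB_t h1
      obtain ⟨a2, a3⟩ := andB_t a2
      exact Or.inl ⟨(isz_t a1).1, (isz_t a1).2, (isz_t a2).1, (isz_t a2).2, sgB_ok a3⟩
    · obtain ⟨a1, a2⟩ := andB_t h1
      exact Or.inr ⟨azB_ok a1, azB_ok a2⟩

theorem vsg_ok {β : Type} {V : VO β} (h : vsg V = true) : SgV (rws V) := by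
  unfold vsg at h
  obtain ⟨h00, h⟩ := andB_t h
  obtain ⟨h11, h⟩ := andB_t h
  obtain ⟨h22, h⟩ := andB_t h
  obtain ⟨h01, h⟩ := andB_t h
  obtain ⟨h02, h⟩ := andB_t h
  obtain ⟨h12, h⟩ := andB_t h
  obtain ⟨h10, h⟩ := andB_t h
  obtain ⟨h20, h21⟩ := andB_t h
  refine ⟨fun i j => ?_⟩
  fin_cases i <;> fin_cases j
  · exact sgB_ok h00
  · exact sgB_ok h01
  · exact sgB_ok h02
  · exact sgB_ok h10
  · exact sgB_ok h11
  · exact sgB_ok h12
  · exact sgB_ok h20
  · exact sgB_ok h21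
  · exact sgB_ok h22

/-! ### rows -/

variable {α v : Type} {D : ℕ} {lf : α → Vt D → ℂ} {A : Alg α} {t : ℕ → ℝ}

/-- the rows of `vo1` -/
theorem vo1_rw {M : Mq α v} (hA : AOK D lf M.A) (hP : PT D t) {r a w τ : ℝ} {X : Qd α}
    (h : QOK D lf t r a w τ X) (z : Fin 3 → ℂ) :
    RW D t (rws (vo1 M X)) (sg1 z) (yW r a w τ z) (yF lf X z) := by
  refine ⟨fun i => ?_⟩
  fin_cases i
  · exact h.row0 hA hP z
  · exact h.row1 z
  · exact h.row2 z

/-- the rows of a family, for its three control matrices -/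
theorem voB_rw {M : Mq α v} (hA : AOK D lf M.A) (hP : PT D t) {r a w τ r' a' w' τ' r'' a'' w'' τ'' : ℝ}
    {X Y Z : Qd α} (h : QOK D lf t r a w τ X) (h' : QOK D lf t r' a' w' τ' Y)
    (h'' : QOK D lf t r'' a'' w'' τ'' Z) (z : Fin 3 → ℂ) (V : v) (sg ca cb : ℕ) :
    RW D t (rws (voB M X Y Z V sg ca cb)) (sg1 z) (yW r a w τ z) (yF lf X z) ∧
    RW D t (rws (voB M X Y Z V sg ca cb)) (sg1 z) (yW r' a' w' τ' z) (yF lf Y z) ∧
    RW D t (rws (voB M X Y Z V sg ca cb)) (sg1 z) (yW r'' a'' w'' τ'' z) (yF lf Z z) := by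
  have s0 := sg1_nonneg z
  have x0 := h.row0 hA hP z
  have y0 := h'.row0 hA hP z
  have z0 := h''.row0 hA hP z
  have x1 := h.row1 z
  have y1 := h'.row1 z
  have z1 := h''.row1 z
  have x2 := h.row2 z
  have y2 := h'.row2 z
  have z2 := h''.row2 z
  have l0 := (y0.mxl s0 z0.len).len
  have l1 := (y1.mxl s0 z1.len).len
  have l2 := (y2.mxl s0 z2.len).len
  refine ⟨⟨fun i => ?_⟩, ⟨fun i => ?_⟩, ⟨fun i => ?_⟩⟩
  · fin_cases i
    · exact x0.mxl s0 l0
    · exact x1.mxl s0 l1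
    · exact x2.mxl s0 l2
  · fin_cases i
    · exact (y0.mxl s0 z0.len).mxr s0 x0.len
    · exact (y1.mxl s0 z1.len).mxr s0 x1.len
    · exact (y2.mxl s0 z2.len).mxr s0 x2.len
  · fin_cases i
    · exact (z0.mxr s0 y0.len).mxr s0 x0.len
    · exact (z1.mxr s0 y1.len).mxr s0 x1.len
    · exact (z2.mxr s0 y2.len).mxr s0 x2.len

/-- a control matrix of a family: `r`, `rr` the rounded `R`, `R R'`, `S` a model -/
theorem qf_ok (hA : AOK D lf A) (hP : PT D t) {R ρ s : ℝ} {r rr : ℕ} {S : Mo α}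
    (h1 : |UU * R - r| ≤ 1) (h2 : |UU * ρ - rr| ≤ 1) (hS : TOK D lf t (s : ℂ) S) :
    QOK D lf t R (ρ - s) (ρ + s) (2 * R * s) (qf A r rr S) := by
  have k : ∀ {x : ℝ} {n : ℕ}, |UU * x - n| ≤ 1 →
      TOK D lf t (x : ℂ) (Pool.Agent.Helper86.CT.cst A n (nat_lit 1)) := by
    intro x n h
    refine TOK.cst hA hP n 1 ?_
    have e : (UU : ℂ) * x - n = ((UU * x - n : ℝ) : ℂ) := by push_cast; rfl
    rw [e, Complex.norm_real, Real.norm_eq_abs]
    simpa using h
  exact QOK.mk' hA hP (k h1) (k h2) hS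

theorem qm2_ok (hA : AOK D lf A) (hP : PT D t) {R s : ℝ} {Rm S : Mo α}
    (h1 : TOK D lf t (R : ℂ) Rm) (hS : TOK D lf t (s : ℂ) S) :
    QOK D lf t R (R ^ 2 - s) (R ^ 2 + s) (2 * R * s) (qm2 A Rm S) :=
  QOK.mk' hA hP h1 ((h1.mul hA hP h1).congr (by push_cast; ring)) hS

theorem qm3_ok (hA : AOK D lf A) (hP : PT D t) {s : ℝ} {S : Mo α} (hS : TOK D lf t (s : ℂ) S) :
    QOK D lf t 1 (1 - s) (1 + s) (2 * 1 * s) (qm3 A S) := by
  have h1 : TOK D lf t ((1 : ℝ) : ℂ) (Pool.Agent.Helper86.CT.cst A (nat_lit 281474976710656)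
      (nat_lit 0)) := TOK.cst' hA hP (by unfold UU; norm_num)
  exact QOK.mk' hA hP h1 h1 hS

/-- `S = 4/k² - 1`, `1 + 2/k` -/
theorem SM_ok (hA : AOK D lf A) (hP : PT D t) {k : ℝ} {K : Mo α} (hk : TOK D lf t (k : ℂ) K)
    (hok : Pool.Agent.Helper86.CT.SOK A K = true) :
    TOK D lf t ((4 / k ^ 2 - 1 : ℝ) : ℂ) (Pool.Agent.Helper86.CT.SM A K) ∧
    TOK D lf t ((1 + 2 / k : ℝ) : ℂ) (Pool.Agent.Helper86.CT.R1M A K) ∧ k ≠ 0 := by
  obtain ⟨o1, o2⟩ := andB_t hok
  have h4 : TOK D lf t 4 (Pool.Agent.Helper86.CT.cst A (nat_lit 1125899906842624) (nat_lit 0)) :=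
    TOK.cst' hA hP (by unfold UU; norm_num)
  have h1 : TOK D lf t 1 (Pool.Agent.Helper86.CT.cst A (nat_lit 281474976710656) (nat_lit 0)) :=
    TOK.cst' hA hP (by unfold UU; norm_num)
  have h2 : TOK D lf t 2 (Pool.Agent.Helper86.CT.cst A (nat_lit 562949953421312) (nat_lit 0)) :=
    TOK.cst' hA hP (by unfold UU; norm_num)
  have i1 := TOK.inv hA hP (hk.mul hA hP hk) o1
  have i2 := TOK.inv hA hP hk o2
  have hk0 : k ≠ 0 := by
    intro h
    exact i2.2 (by rw [h]; simp)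
  refine ⟨((h4.mul hA hP i1.1).sub hA h1).congr ?_, (h1.add hA (h2.mul hA hP i2.1)).congr ?_, hk0⟩
  · push_cast
    rw [div_eq_mul_inv, pow_two]
  · push_cast
    rw [div_eq_mul_inv]

end Pool.Agent.Helper90.KMT
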