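import Pool.Agent.Helper90.CX.KM4
import Pool.Agent.Helper90.C75.MdlT

/-!
Row KMT: nested quadratic models, part 0: the error of the product with list bounds; a variable in
which one of the factors is constant costs nothing.
-/

set_option autoImplicit false
noncomputable section
namespace Pool.Agent.Helper90.KMT

open Pool.Agent.Helper90.C75
open Pool.Agent.Helper90.KMO (UU UU_pos UUc_ne norm_UU)

/-! ### the product with a zero factor -/

theorem mulT_zero_left (D : ℕ) (G : Vt D → ℂ) : mulT D (fun _ => 0) G = fun _ => 0 := by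
  induction D with
  | zero =>
    funext v
    simp [mulT]
  | succ D ih =>
    funext v
    simp only [mulT]
    by_cases h : v.2 = 1
    · rw [if_pos h, sub_self, ih, ih]
      simp
    · rw [if_neg h, ih]

theorem mulT_zero_right (D : ℕ) (F : Vt D → ℂ) : mulT D F (fun _ => 0) = fun _ => 0 := by
  induction D with
  | zero =>
    funext v
    simp [mulT]
  | succ D ih =>
    funext v
    simp only [mulT]
    by_cases h : v.2 = 1
    · rw [if_pos h, sub_self, ih, ih]
      simp
    · rw [if_neg h, ih]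

/-! ### the rounding error of a product -/

/-- rounding error of a product of depth `D`, in units -/
def eD : ℕ → ℝ
  | 0 => 3 / 2
  | D + 1 => 5 / 4 * eD D + 3 / 2

theorem eD_nonneg (D : ℕ) : 0 ≤ eD D := by
  induction D with
  | zero => norm_num [eD]
  | succ D ih => simp only [eD]; linarith

theorem eD_four : eD 4 ≤ 13 ∧ eD 3 ≤ 9 ∧ eD 2 ≤ 6 ∧ eD 1 ≤ 4 := by
  norm_num [eD]

/-- the laws of a level of depth `D`: leaf values `lf` -/
structure LF (D : ℕ) {α : Type} (lf : α → Vt D → ℂ) (add sub mul : α → α → α)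
    (conj q4 : α → α) : Prop where
  hadd : ∀ x y v, lf (add x y) v = lf x v + lf y v
  hsub : ∀ x y v, lf (sub x y) v = lf x v - lf y v
  hconj : ∀ x v, lf (conj x) v = star (lf x v)
  hq4 : ∀ x v, ‖lf (q4 x) v - lf x v / 4‖ ≤ 3 / 2
  hmul : ∀ x y v, ‖lf (mul x y) v - mulT D (lf x) (lf y) v / UU‖ ≤ eD D

/-! ### bounds in lists -/

/-- error of the product of two interpolants, outermost variable first; the lists contain bounds of
`b - a` and of `c - (a + b)/2` -/
def erz : List (ℝ × ℝ) → List (ℝ × ℝ) → ℝ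
  | (D, F) :: l, (D', F') :: l' =>
    if D' + F' = 0 then erz l l'
    else if D + F = 0 then erz l l'
    else (D * F' + F * D') / 10 + F * F' / 4 + 2 * erz l l'
  | _, _ => 0

/-- bounds of the first and second differences, outermost variable first -/
def DL : (D : ℕ) → (Vt D → ℂ) → List (ℝ × ℝ) → Prop
  | 0, _, _ => True
  | _ + 1, _, [] => False
  | D + 1, F, (d, φ) :: l => (∀ v : Vt D, ‖F (v, 2) - F (v, 0)‖ ≤ d) ∧
      (∀ v : Vt D, ‖F (v, 1) - (F (v, 0) + F (v, 2)) / 2‖ ≤ φ) ∧
      ∀ i : Fin 3, DL D (fun v => F (v, i)) l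

/-- all entries are nonnegative -/
def NN (l : List (ℝ × ℝ)) : Prop := ∀ x ∈ l, 0 ≤ x.1 ∧ 0 ≤ x.2

theorem NN.tail {x : ℝ × ℝ} {l : List (ℝ × ℝ)} (h : NN (x :: l)) : NN l :=
  fun y hy => h y (List.mem_cons_of_mem _ hy)

def tw (x : ℝ × ℝ) : ℝ × ℝ := (2 * x.1, 2 * x.2)

theorem NN.tw {l : List (ℝ × ℝ)} (h : NN l) : NN (l.map tw) := by
  intro x hx
  rw [List.mem_map] at hx
  obtain ⟨y, hy, rfl⟩ := hx
  have := h y hy
  exact ⟨by show 0 ≤ 2 * y.1; linarith [this.1], by show 0 ≤ 2 * y.2; linarith [this.2]⟩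

theorem erz_tw : ∀ l l' : List (ℝ × ℝ), erz (l.map tw) (l'.map tw) = 4 * erz l l'
  | [], _ => by simp [erz]
  | _ :: _, [] => by simp [erz]
  | (D, F) :: l, (D', F') :: l' => by
    have ih := erz_tw l l'
    show erz ((2 * D, 2 * F) :: l.map tw) ((2 * D', 2 * F') :: l'.map tw) = _
    simp only [erz]
    have h1 : 2 * D' + 2 * F' = 0 ↔ D' + F' = 0 := by
      constructor <;> intro h <;> linarith
    have h2 : 2 * D + 2 * F = 0 ↔ D + F = 0 := by
      constructor <;> intro h <;> linarith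
    by_cases c1 : D' + F' = 0
    · rw [if_pos (h1.2 c1), if_pos c1, ih]
    · rw [if_neg (fun h => c1 (h1.1 h)), if_neg c1]
      by_cases c2 : D + F = 0
      · rw [if_pos (h2.2 c2), if_pos c2, ih]
      · rw [if_neg (fun h => c2 (h2.1 h)), if_neg c2, ih]
        ring

theorem erz_nonneg : ∀ {l l' : List (ℝ × ℝ)}, NN l → NN l' → 0 ≤ erz l l'
  | [], _, _, _ => by simp [erz]
  | _ :: _, [], _, _ => by simp [erz]
  | (D, F) :: l, (D', F') :: l', h, h' => by
    have h1 := h (D, F) (List.mem_cons_self ..)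
    have h2 := h' (D', F') (List.mem_cons_self ..)
    have h3 := erz_nonneg h.tail h'.tail
    have a1 : 0 ≤ D := h1.1
    have a2 : 0 ≤ F := h1.2
    have a3 : 0 ≤ D' := h2.1
    have a4 : 0 ≤ F' := h2.2
    simp only [erz]
    split_ifs
    · exact h3
    · exact h3
    · have : 0 ≤ (D * F' + F * D') / 10 + F * F' / 4 := by positivity
      linarith

theorem DL_sub : ∀ {D : ℕ} {F G : Vt D → ℂ} {l : List (ℝ × ℝ)}, DL D F l → DL D G l →
    DL D (fun v => F v - G v) (l.map tw)
  | 0, _, _, _, _, _ => trivial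
  | _ + 1, _, _, [], hF, _ => hF.elim
  | D + 1, F, G, (d, φ) :: l, hF, hG => by
    obtain ⟨a1, a2, a3⟩ := hF
    obtain ⟨b1, b2, b3⟩ := hG
    refine ⟨fun v => ?_, fun v => ?_, fun i => DL_sub (a3 i) (b3 i)⟩
    · have e : F (v, 2) - G (v, 2) - (F (v, 0) - G (v, 0))
          = (F (v, 2) - F (v, 0)) - (G (v, 2) - G (v, 0)) := by ring
      have h := (norm_sub_le (F (v, 2) - F (v, 0)) (G (v, 2) - G (v, 0))).trans
        (add_le_add (a1 v) (b1 v))
      rw [← e] at h
      exact h.trans (le_of_eq (by show d + d = 2 * d; ring))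
    · have e : F (v, 1) - G (v, 1) - (F (v, 0) - G (v, 0) + (F (v, 2) - G (v, 2))) / 2
          = (F (v, 1) - (F (v, 0) + F (v, 2)) / 2) - (G (v, 1) - (G (v, 0) + G (v, 2)) / 2) := by
        ring
      have h := (norm_sub_le (F (v, 1) - (F (v, 0) + F (v, 2)) / 2)
        (G (v, 1) - (G (v, 0) + G (v, 2)) / 2)).trans (add_le_add (a2 v) (b2 v))
      rw [← e] at h
      exact h.trans (le_of_eq (by show φ + φ = 2 * φ; ring))

/-- one more variable: the general step -/
theorem cov_step {D : ℕ} {t : ℕ → ℝ} (h0 : ∀ j < D + 1, 0 ≤ t j) (h1 : ∀ j < D + 1, t j ≤ 1)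
    {F G : Vt (D + 1) → ℂ} {d φ d' φ' ε : ℝ}
    (a1 : ∀ v : Vt D, ‖F (v, 2) - F (v, 0)‖ ≤ d)
    (a2 : ∀ v : Vt D, ‖F (v, 1) - (F (v, 0) + F (v, 2)) / 2‖ ≤ φ)
    (b1 : ∀ v : Vt D, ‖G (v, 2) - G (v, 0)‖ ≤ d')
    (b2 : ∀ v : Vt D, ‖G (v, 1) - (G (v, 0) + G (v, 2)) / 2‖ ≤ φ')
    (q1 : ∀ i : Fin 3, ‖avg (wtT D t) (mulT D (fun u => F (u, i)) (fun u => G (u, i)))
      - avg (wtT D t) (fun u => F (u, i)) * avg (wtT D t) (fun u => G (u, i))‖ ≤ ε)
    (q2 : ‖avg (wtT D t) (mulT D (fun u => F (u, 2) - F (u, 0)) (fun u => G (u, 2) - G (u, 0)))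
      - avg (wtT D t) (fun u => F (u, 2) - F (u, 0))
        * avg (wtT D t) (fun u => G (u, 2) - G (u, 0))‖ ≤ 4 * ε) :
    ‖avg (wtT (D + 1) t) (mulT (D + 1) F G) - avg (wtT (D + 1) t) F * avg (wtT (D + 1) t) G‖ ≤
      (d * φ' + φ * d') / 10 + φ * φ' / 4 + 3 / 2 * ε := by
  have t0 := h0 D (by omega)
  have t1 := h1 D (by omega)
  have hw : Wts (wtT D t) := Wts.T (fun j hj => h0 j (by omega)) (fun j hj => h1 j (by omega))
  have hb := Wts.bt t0 t1
  set f : Fin 3 → ℂ := fun i => avg (wtT D t) (fun v => F (v, i)) with hf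
  set g : Fin 3 → ℂ := fun i => avg (wtT D t) (fun v => G (v, i)) with hg
  -- one direction
  have e1 := bt_err t0 t1 f g (df := d) (dg := d') (φf := φ) (φg := φ')
    (by simp only [hf]; rw [← avg_sub]; exact norm_avg_le hw a1)
    (by simp only [hg]; rw [← avg_sub]; exact norm_avg_le hw b1)
    (by
      have : avg (wtT D t) (fun v => F (v, 1)) - (avg (wtT D t) (fun v => F (v, 0))
          + avg (wtT D t) (fun v => F (v, 2))) / 2
          = avg (wtT D t) (fun v => F (v, 1) - (F (v, 0) + F (v, 2)) / 2) := by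
        have e2 : (fun v => F (v, 1) - (F (v, 0) + F (v, 2)) / 2)
            = fun v => F (v, 1) - (1 / 2 : ℂ) * (F (v, 0) + F (v, 2)) := by
          funext v; ring
        rw [e2, avg_sub, avg_smul, avg_add]
        ring
      simp only [hf]
      rw [this]
      exact norm_avg_le hw a2)
    (by
      have : avg (wtT D t) (fun v => G (v, 1)) - (avg (wtT D t) (fun v => G (v, 0))
          + avg (wtT D t) (fun v => G (v, 2))) / 2
          = avg (wtT D t) (fun v => G (v, 1) - (G (v, 0) + G (v, 2)) / 2) := by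
        have e2 : (fun v => G (v, 1) - (G (v, 0) + G (v, 2)) / 2)
            = fun v => G (v, 1) - (1 / 2 : ℂ) * (G (v, 0) + G (v, 2)) := by
          funext v; ring
        rw [e2, avg_sub, avg_smul, avg_add]
        ring
      simp only [hg]
      rw [this]
      exact norm_avg_le hw b2)
  -- the inner products
  set M : Fin 3 → ℂ := fun i => avg (wtT D t) (mulT D (fun u => F (u, i)) (fun u => G (u, i)))
    with hM
  set Δ : ℂ := avg (wtT D t) (mulT D (fun u => F (u, 2) - F (u, 0)) (fun u => G (u, 2) - G (u, 0)))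
    with hΔ
  have k1 : ∀ i, ‖M i - f i * g i‖ ≤ ε := q1
  have k2 : ‖Δ - (f 2 - f 0) * (g 2 - g 0)‖ ≤ 4 * ε := by
    have h := q2
    have e2 : avg (wtT D t) (fun v => F (v, 2) - F (v, 0)) = f 2 - f 0 := avg_sub _ _ _
    have e3 : avg (wtT D t) (fun v => G (v, 2) - G (v, 0)) = g 2 - g 0 := avg_sub _ _ _
    rw [e2, e3] at h
    exact h
  have e4 : avg (wtT (D + 1) t) (mulT (D + 1) F G)
      = avg (bt (t D)) (fun i => if i = 1 then M i - Δ / 4 else M i) := by
    rw [avg_T_succ]
    congr 1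
    funext i
    by_cases hi : i = 1
    · subst hi
      rw [if_pos rfl]
      have e5 : (fun v => mulT (D + 1) F G (v, 1)) = fun v => mulT D (fun u => F (u, 1))
          (fun u => G (u, 1)) v - (1 / 4 : ℂ) * mulT D (fun u => F (u, 2) - F (u, 0))
          (fun u => G (u, 2) - G (u, 0)) v := by
        funext v
        simp only [mulT, if_true]
        ring
      rw [e5, avg_sub, avg_smul]
      simp only [hM, hΔ]
      ring
    · rw [if_neg hi]
      have e5 : (fun v => mulT (D + 1) F G (v, i)) = fun v => mulT D (fun u => F (u, i))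
          (fun u => G (u, i)) v := by
        funext v
        simp only [mulT, hi, if_false]
      rw [e5]
  have e6 : avg (wtT (D + 1) t) F = avg (bt (t D)) f := avg_T_succ D t F
  have e7 : avg (wtT (D + 1) t) G = avg (bt (t D)) g := avg_T_succ D t G
  rw [e4, e6, e7]
  have e8 : avg (bt (t D)) (fun i => if i = 1 then M i - Δ / 4 else M i)
      - avg (bt (t D)) f * avg (bt (t D)) g
      = (avg (bt (t D)) (fun i => if i = 1 then f i * g i - (f 2 - f 0) * (g 2 - g 0) / 4
          else f i * g i) - avg (bt (t D)) f * avg (bt (t D)) g)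
        + avg (bt (t D)) (fun i => M i - f i * g i)
        - (bt (t D) 1 : ℂ) * ((Δ - (f 2 - f 0) * (g 2 - g 0)) / 4) := by
    have n0 : ¬ ((0 : Fin 3) = 1) := by decide
    have n2 : ¬ ((2 : Fin 3) = 1) := by decide
    simp only [avg, Fin.sum_univ_three, n0, n2, if_false, if_true]
    ring
  rw [e8]
  have hb1 : bt (t D) 1 ≤ 1 / 2 := by
    show 2 * t D * (1 - t D) ≤ 1 / 2
    nlinarith [sq_nonneg (t D - 1 / 2)]
  have hb0 : 0 ≤ bt (t D) 1 := hb.nonneg 1
  have hε0 : 0 ≤ ε := (norm_nonneg _).trans (k1 0)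
  have h3 : ‖(bt (t D) 1 : ℂ) * ((Δ - (f 2 - f 0) * (g 2 - g 0)) / 4)‖ ≤ ε / 2 := by
    rw [norm_mul, Complex.norm_real, Real.norm_of_nonneg hb0, norm_div]
    have h4 : ‖(4 : ℂ)‖ = 4 := by norm_num
    rw [h4]
    have h5 : ‖Δ - (f 2 - f 0) * (g 2 - g 0)‖ / 4 ≤ ε := by linarith
    calc bt (t D) 1 * (‖Δ - (f 2 - f 0) * (g 2 - g 0)‖ / 4) ≤ 1 / 2 * ε :=
          mul_le_mul hb1 h5 (by positivity) (by norm_num)
      _ = ε / 2 := by ring
  have h6 : ‖avg (bt (t D)) (fun i => M i - f i * g i)‖ ≤ ε := norm_avg_le hb k1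
  refine (norm_sub_le _ _).trans ?_
  have h7 := norm_add_le (avg (bt (t D)) (fun i => if i = 1 then f i * g i
    - (f 2 - f 0) * (g 2 - g 0) / 4 else f i * g i) - avg (bt (t D)) f * avg (bt (t D)) g)
    (avg (bt (t D)) (fun i => M i - f i * g i))
  linarith

/-- one more variable, one factor constant in it -/
theorem cov_const {D : ℕ} {t : ℕ → ℝ} (h0 : ∀ j < D + 1, 0 ≤ t j) (h1 : ∀ j < D + 1, t j ≤ 1)
    {F G : Vt (D + 1) → ℂ} {ε : ℝ}
    (hc : (∀ (i : Fin 3) (v : Vt D), F (v, i) = F (v, 0)) ∨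
      (∀ (i : Fin 3) (v : Vt D), G (v, i) = G (v, 0)))
    (q1 : ∀ i : Fin 3, ‖avg (wtT D t) (mulT D (fun u => F (u, i)) (fun u => G (u, i)))
      - avg (wtT D t) (fun u => F (u, i)) * avg (wtT D t) (fun u => G (u, i))‖ ≤ ε) :
    ‖avg (wtT (D + 1) t) (mulT (D + 1) F G) - avg (wtT (D + 1) t) F * avg (wtT (D + 1) t) G‖ ≤
      ε := by
  have t0 := h0 D (by omega)
  have t1 := h1 D (by omega)
  have hb := Wts.bt t0 t1
  set f : Fin 3 → ℂ := fun i => avg (wtT D t) (fun v => F (v, i)) with hf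
  set g : Fin 3 → ℂ := fun i => avg (wtT D t) (fun v => G (v, i)) with hg
  set M : Fin 3 → ℂ := fun i => avg (wtT D t) (mulT D (fun u => F (u, i)) (fun u => G (u, i)))
    with hM
  have k1 : ∀ i, ‖M i - f i * g i‖ ≤ ε := q1
  have e4 : avg (wtT (D + 1) t) (mulT (D + 1) F G) = avg (bt (t D)) M := by
    rw [avg_T_succ]
    congr 1
    funext i
    by_cases hi : i = 1
    · subst hi
      have e5 : (fun v => mulT (D + 1) F G (v, 1)) = fun v => mulT D (fun u => F (u, 1))
          (fun u => G (u, 1)) v := by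
        funext v
        simp only [mulT, if_true]
        have e9 : mulT D (fun u => F (u, 2) - F (u, 0)) (fun u => G (u, 2) - G (u, 0)) v = 0 := by
          rcases hc with hc | hc
          · have e2 : (fun u => F (u, 2) - F (u, 0)) = fun _ : Vt D => (0 : ℂ) := by
              funext u
              rw [hc 2 u, sub_self]
            rw [e2, mulT_zero_left]
          · have e2 : (fun u => G (u, 2) - G (u, 0)) = fun _ : Vt D => (0 : ℂ) := by
              funext u
              rw [hc 2 u, sub_self]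
            rw [e2, mulT_zero_right]
        rw [e9, zero_div, sub_zero]
      rw [e5]
    · have e5 : (fun v => mulT (D + 1) F G (v, i)) = fun v => mulT D (fun u => F (u, i))
          (fun u => G (u, i)) v := by
        funext v
        simp only [mulT, hi, if_false]
      rw [e5]
  have e6 : avg (wtT (D + 1) t) F = avg (bt (t D)) f := avg_T_succ D t F
  have e7 : avg (wtT (D + 1) t) G = avg (bt (t D)) g := avg_T_succ D t G
  rw [e4, e6, e7]
  have e8 : avg (bt (t D)) M - avg (bt (t D)) f * avg (bt (t D)) g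
      = avg (bt (t D)) (fun i => M i - f i * g i) := by
    have e9 : avg (bt (t D)) (fun i => f i * g i) = avg (bt (t D)) f * avg (bt (t D)) g := by
      rcases hc with hc | hc
      · have e2 : ∀ i, f i = f 0 := by
          intro i
          simp only [hf]
          congr 1
          funext v
          exact hc i v
        have e3 : f = fun _ => f 0 := funext e2
        have e10 : (fun i => f i * g i) = fun i => f 0 * g i := by
          funext i; rw [e2 i]
        rw [e10, avg_smul]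
        conv_rhs => rw [e3]
        rw [avg_const hb]
      · have e2 : ∀ i, g i = g 0 := by
          intro i
          simp only [hg]
          congr 1
          funext v
          exact hc i v
        have e3 : g = fun _ => g 0 := funext e2
        have e10 : (fun i => f i * g i) = fun i => g 0 * f i := by
          funext i; rw [e2 i, mul_comm]
        rw [e10, avg_smul]
        conv_rhs => rw [e3]
        rw [avg_const hb, mul_comm]
    rw [avg_sub, e9]
  rw [e8]
  exact norm_avg_le hb k1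

theorem const_of_zero {D : ℕ} {F : Vt (D + 1) → ℂ} {d φ : ℝ} (h : d + φ = 0) (hd : 0 ≤ d)
    (hφ : 0 ≤ φ) (a1 : ∀ v : Vt D, ‖F (v, 2) - F (v, 0)‖ ≤ d)
    (a2 : ∀ v : Vt D, ‖F (v, 1) - (F (v, 0) + F (v, 2)) / 2‖ ≤ φ) :
    ∀ (i : Fin 3) (v : Vt D), F (v, i) = F (v, 0) := by
  intro i v
  have h1 : d = 0 := by linarith
  have h2 : φ = 0 := by linarith
  have e1 : F (v, 2) = F (v, 0) := by
    have := (a1 v).trans_eq h1
    have h3 := norm_eq_zero.1 (le_antisymm this (norm_nonneg _))
    exact sub_eq_zero.1 h3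
  have e2 : F (v, 1) = F (v, 0) := by
    have := (a2 v).trans_eq h2
    have h3 := norm_eq_zero.1 (le_antisymm this (norm_nonneg _))
    have h4 := sub_eq_zero.1 h3
    rw [h4, e1]
    ring
  fin_cases i
  · rfl
  · exact e2
  · exact e1

/-- THE PRODUCT OF TWO INTERPOLANTS, with list bounds -/
theorem cov_leL : ∀ {D : ℕ} {t : ℕ → ℝ}, (∀ j < D, 0 ≤ t j) → (∀ j < D, t j ≤ 1) →
    ∀ {F G : Vt D → ℂ} {l l' : List (ℝ × ℝ)}, DL D F l → DL D G l' → l.length = D →
    l'.length = D → NN l → NN l' →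
    ‖avg (wtT D t) (mulT D F G) - avg (wtT D t) F * avg (wtT D t) G‖ ≤ erz l l'
  | 0, t, _, _, F, G, [], [], _, _, _, _, _, _ => by
    have e : ∀ f : Vt 0 → ℂ, avg (wtT 0 t) f = f () := by
      intro f
      show ∑ v : Unit, (((1 : ℝ) : ℂ)) * f v = f ()
      simp only [Complex.ofReal_one, one_mul]
      exact Finset.sum_singleton _ _
    rw [e, e, e]
    show ‖F () * G () - F () * G ()‖ ≤ erz [] []
    rw [sub_self, norm_zero]
    simp [erz]
  | D + 1, t, h0, h1, F, G, (d, φ) :: l, (d', φ') :: l', hF, hG, hl, hl', hn, hn' => by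
    obtain ⟨a1, a2, a3⟩ := hF
    obtain ⟨b1, b2, b3⟩ := hG
    have m0 := hn (d, φ) (List.mem_cons_self ..)
    have m0' := hn' (d', φ') (List.mem_cons_self ..)
    have hl1 : l.length = D := by simpa using hl
    have hl1' : l'.length = D := by simpa using hl'
    have g0 : ∀ j < D, 0 ≤ t j := fun j hj => h0 j (by omega)
    have g1 : ∀ j < D, t j ≤ 1 := fun j hj => h1 j (by omega)
    have q1 : ∀ i : Fin 3, ‖avg (wtT D t) (mulT D (fun u => F (u, i)) (fun u => G (u, i)))
      - avg (wtT D t) (fun u => F (u, i)) * avg (wtT D t) (fun u => G (u, i))‖ ≤ erz l l' :=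
      fun i => cov_leL g0 g1 (a3 i) (b3 i) hl1 hl1' hn.tail hn'.tail
    simp only [erz]
    split_ifs with c1 c2
    · exact cov_const h0 h1 (Or.inr (const_of_zero c1 m0'.1 m0'.2 b1 b2)) q1
    · exact cov_const h0 h1 (Or.inl (const_of_zero c2 m0.1 m0.2 a1 a2)) q1
    · have q2 := cov_leL g0 g1 (DL_sub (a3 2) (a3 0)) (DL_sub (b3 2) (b3 0))
        (by rw [List.length_map, hl1]) (by rw [List.length_map, hl1']) hn.tail.tw hn'.tail.tw
      rw [erz_tw] at q2
      have h2 := cov_step h0 h1 a1 a2 b1 b2 q1 q2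
      have h3 := erz_nonneg hn.tail hn'.tail
      linarith
  | 0, _, _, _, _, _, _ :: _, _, _, _, hl, _, _, _ => by cases hl
  | 0, _, _, _, _, _, [], _ :: _, _, _, _, hl', _, _ => by cases hl'
  | _ + 1, _, _, _, _, _, [], _, hF, _, _, _, _, _ => hF.elim
  | _ + 1, _, _, _, _, _, _ :: _, [], _, hG, _, _, _, _ => hG.elim

end Pool.Agent.Helper90.KMT
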