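import Pool.Agent.Helper86.CX.Ker
import Pool.Agent.Helper90.C75.MdlQ

/-!
Row KMO: soundness of the models of `Ker.lean`. Part 1: signed integers, complex integers, lists.
-/

set_option autoImplicit false
noncomputable section
namespace Pool.Agent.Helper90.KMO

open Pool.Agent.Helper86.CX
open Pool.Agent.Helper86.C75 (Z)
open Pool.Agent.Helper90.C75

/-! ### signed integers -/

/-- the value -/
def zv : Z → ℤ
  | Z.p n => n
  | Z.m n => -n

theorem zv_p (n : ℕ) : zv (Z.p n) = n := rfl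
theorem zv_m (n : ℕ) : zv (Z.m n) = -n := rfl

theorem zv_opp (x : Z) : zv (Z.opp x) = -zv x := by
  cases x with
  | p n => rfl
  | m n => simp [Z.opp, zv]

theorem zv_br (a b : ℕ) : zv (Bool.rec (motive := fun _ => Nat → Nat → Z) Z.subF Z.subT
    (Nat.ble b a) a b) = a - b := by
  cases h : Nat.ble b a with
  | true =>
    have h1 : b ≤ a := Nat.le_of_ble_eq_true h
    show ((a - b : ℕ) : ℤ) = _
    push_cast [h1]
    rfl
  | false =>
    have h1 : a ≤ b := by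
      by_contra h2
      rw [Nat.ble_eq_true_of_le (by omega)] at h
      cases h
    show -((b - a : ℕ) : ℤ) = _
    push_cast [h1]
    ring

theorem zv_add (x y : Z) : zv (Z.add x y) = zv x + zv y := by
  cases x with
  | p a =>
    cases y with
    | p b =>
      show ((b + a : ℕ) : ℤ) = _
      push_cast
      simp only [zv]
      ring
    | m b =>
      show zv (Bool.rec (motive := fun _ => Nat → Nat → Z) Z.subF Z.subT (Nat.ble b a) a b) = _
      rw [zv_br]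
      simp only [zv]
      ring
  | m a =>
    cases y with
    | p b =>
      show zv (Bool.rec (motive := fun _ => Nat → Nat → Z) Z.subF Z.subT (Nat.ble a b) b a) = _
      rw [zv_br]
      simp only [zv]
      ring
    | m b =>
      show -((b + a : ℕ) : ℤ) = _
      push_cast
      simp only [zv]
      ring

theorem zv_sub (x y : Z) : zv (Z.sub x y) = zv x - zv y := by
  unfold Z.sub
  rw [zv_add, zv_opp]
  ring

theorem zv_mul (x y : Z) : zv (Z.mul x y) = zv x * zv y := by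
  cases x <;> cases y <;>
    (show (_ : ℤ) = _
     simp only [Z.mul, Z.mulP, Z.mulM, Z.mulPP, Z.mulPM, zv, Nat.mul_eq]
     push_cast
     ring)

theorem ab_eq (x : Z) : ((ab x : ℕ) : ℤ) = |zv x| := by
  cases x with
  | p n => simp [ab, zv]
  | m n => simp [ab, zv]

theorem ab_cast (x : Z) : ((ab x : ℕ) : ℝ) = |(zv x : ℝ)| := by
  have h := ab_eq x
  have h2 : (((ab x : ℕ) : ℤ) : ℝ) = ((|zv x| : ℤ) : ℝ) := by rw [h]
  simpa using h2

/-- the unit `2 ^ 48` -/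
def UU : ℝ := 281474976710656

theorem UU_pos : 0 < UU := by unfold UU; norm_num

theorem shr_le (n : ℕ) : ((Nat.shiftRight n (nat_lit 48) : ℕ) : ℝ) ≤ n / UU ∧
    (n : ℝ) / UU ≤ (Nat.shiftRight n (nat_lit 48) : ℕ) + 1 := by
  have e : Nat.shiftRight n (nat_lit 48) = n / 281474976710656 := by
    show n >>> 48 = _
    rw [Nat.shiftRight_eq_div_pow]
  rw [e]
  have h1 : n / 281474976710656 * 281474976710656 ≤ n := Nat.div_mul_le_self _ _
  have h2 : n < (n / 281474976710656 + 1) * 281474976710656 := by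
    have := Nat.lt_div_mul_add (a := n) (b := 281474976710656) (by norm_num)
    linarith
  have h1' : ((n / 281474976710656 : ℕ) : ℝ) * 281474976710656 ≤ n := by exact_mod_cast h1
  have h2' : (n : ℝ) < (((n / 281474976710656 : ℕ) : ℝ) + 1) * 281474976710656 := by
    exact_mod_cast h2
  unfold UU
  constructor
  · rw [le_div_iff₀ (by norm_num)]; exact h1'
  · rw [div_le_iff₀ (by norm_num)]; exact h2'.le

/-- division by `2 ^ 48`: error below one, no growth -/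
theorem zv_rsh (x : Z) : |(zv (rsh x) : ℝ) - zv x / UU| ≤ 1 ∧ |(zv (rsh x) : ℝ)| ≤ |(zv x : ℝ)| / UU := by
  have hU := UU_pos
  cases x with
  | p n =>
    obtain ⟨h1, h2⟩ := shr_le n
    have e1 : ((zv (rsh (Z.p n)) : ℤ) : ℝ) = (Nat.shiftRight n (nat_lit 48) : ℕ) := rfl
    have e2 : ((zv (Z.p n) : ℤ) : ℝ) = n := rfl
    rw [e1, e2]
    constructor
    · rw [abs_le]
      constructor <;> linarith
    · rw [abs_of_nonneg (Nat.cast_nonneg _), abs_of_nonneg (Nat.cast_nonneg _)]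
      exact h1
  | m n =>
    obtain ⟨h1, h2⟩ := shr_le n
    have e1 : ((zv (rsh (Z.m n)) : ℤ) : ℝ) = -(Nat.shiftRight n (nat_lit 48) : ℕ) := by
      show ((-((Nat.shiftRight n (nat_lit 48) : ℕ) : ℤ) : ℤ) : ℝ) = _
      push_cast
      rfl
    have e2 : ((zv (Z.m n) : ℤ) : ℝ) = -n := by
      show ((-(n : ℤ) : ℤ) : ℝ) = _
      push_cast
      rfl
    rw [e1, e2]
    constructor
    · rw [abs_le, neg_div]
      constructor <;> linarith
    · rw [abs_neg, abs_neg, abs_of_nonneg (Nat.cast_nonneg _), abs_of_nonneg (Nat.cast_nonneg _)]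
      exact h1

theorem zv_rs2 (x : Z) : |(zv (rs2 x) : ℝ) - zv x / 4| ≤ 1 ∧ |(zv (rs2 x) : ℝ)| ≤ |(zv x : ℝ)| / 4 := by
  have key : ∀ n : ℕ, ((Nat.shiftRight n (nat_lit 2) : ℕ) : ℝ) ≤ n / 4 ∧
      (n : ℝ) / 4 ≤ (Nat.shiftRight n (nat_lit 2) : ℕ) + 1 := by
    intro n
    have e : Nat.shiftRight n (nat_lit 2) = n / 4 := by
      show n >>> 2 = _
      rw [Nat.shiftRight_eq_div_pow]
    rw [e]
    have h1 : n / 4 * 4 ≤ n := Nat.div_mul_le_self _ _
    have h2 : n < (n / 4 + 1) * 4 := by omega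
    have h1' : ((n / 4 : ℕ) : ℝ) * 4 ≤ n := by exact_mod_cast h1
    have h2' : (n : ℝ) < (((n / 4 : ℕ) : ℝ) + 1) * 4 := by exact_mod_cast h2
    constructor <;> linarith
  cases x with
  | p n =>
    obtain ⟨h1, h2⟩ := key n
    have e1 : ((zv (rs2 (Z.p n)) : ℤ) : ℝ) = (Nat.shiftRight n (nat_lit 2) : ℕ) := rfl
    have e2 : ((zv (Z.p n) : ℤ) : ℝ) = n := rfl
    rw [e1, e2]
    constructor
    · rw [abs_le]
      constructor <;> linarith
    · rw [abs_of_nonneg (Nat.cast_nonneg _), abs_of_nonneg (Nat.cast_nonneg _)]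
      exact h1
  | m n =>
    obtain ⟨h1, h2⟩ := key n
    have e1 : ((zv (rs2 (Z.m n)) : ℤ) : ℝ) = -(Nat.shiftRight n (nat_lit 2) : ℕ) := by
      show ((-((Nat.shiftRight n (nat_lit 2) : ℕ) : ℤ) : ℤ) : ℝ) = _
      push_cast
      rfl
    have e2 : ((zv (Z.m n) : ℤ) : ℝ) = -n := by
      show ((-(n : ℤ) : ℤ) : ℝ) = _
      push_cast
      rfl
    rw [e1, e2]
    constructor
    · rw [abs_le, neg_div]
      constructor <;> linarith
    · rw [abs_neg, abs_neg, abs_of_nonneg (Nat.cast_nonneg _), abs_of_nonneg (Nat.cast_nonneg _)]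
      exact h1

theorem mx_eq (a b : ℕ) : mx a b = max a b := by
  show a + (b - a) = _
  omega

/-! ### complex integers -/

/-- the value, unit `1` -/
def cz (x : Cx) : ℂ := ⟨(zv x.re : ℝ), (zv x.im : ℝ)⟩

theorem cz_add (x y : Cx) : cz (cadd x y) = cz x + cz y := by
  apply Complex.ext
  · show ((zv (Z.add x.re y.re) : ℤ) : ℝ) = _
    rw [zv_add]; push_cast; rfl
  · show ((zv (Z.add x.im y.im) : ℤ) : ℝ) = _
    rw [zv_add]; push_cast; rfl

theorem cz_sub (x y : Cx) : cz (csub x y) = cz x - cz y := by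
  apply Complex.ext
  · show ((zv (Z.sub x.re y.re) : ℤ) : ℝ) = _
    rw [zv_sub]; push_cast; rfl
  · show ((zv (Z.sub x.im y.im) : ℤ) : ℝ) = _
    rw [zv_sub]; push_cast; rfl

theorem cz_conj (x : Cx) : cz (cconj x) = star (cz x) := by
  apply Complex.ext
  · rfl
  · show ((zv (Z.opp x.im) : ℤ) : ℝ) = _
    rw [zv_opp]
    push_cast
    rfl

theorem cz_csc (n : ℕ) (x : Cx) : cz (csc n x) = (n : ℂ) * cz x := by
  apply Complex.ext
  · show ((zv (Z.mul (Z.p n) x.re) : ℤ) : ℝ) = _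
    rw [zv_mul]; push_cast
    simp [zv, cz]
  · show ((zv (Z.mul (Z.p n) x.im) : ℤ) : ℝ) = _
    rw [zv_mul]; push_cast
    simp [zv, cz]

theorem norm_le_of_comp {a : ℂ} (h1 : |a.re| ≤ 1) (h2 : |a.im| ≤ 1) : ‖a‖ ≤ 3 / 2 := by
  have h : ‖a‖ ^ 2 = a.re ^ 2 + a.im ^ 2 := by
    rw [← Complex.normSq_eq_norm_sq, Complex.normSq_apply]; ring
  have h3 : a.re ^ 2 ≤ 1 := by rw [← sq_abs]; nlinarith [abs_nonneg a.re]
  have h4 : a.im ^ 2 ≤ 1 := by rw [← sq_abs]; nlinarith [abs_nonneg a.im]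
  nlinarith [norm_nonneg a]

theorem norm_le_of_comp' {a b : ℂ} (h1 : |a.re| ≤ |b.re|) (h2 : |a.im| ≤ |b.im|) : ‖a‖ ≤ ‖b‖ := by
  have h : ∀ a : ℂ, ‖a‖ ^ 2 = |a.re| ^ 2 + |a.im| ^ 2 := by
    intro a
    rw [← Complex.normSq_eq_norm_sq, Complex.normSq_apply, sq_abs, sq_abs]; ring
  have h3 : ‖a‖ ^ 2 ≤ ‖b‖ ^ 2 := by
    rw [h, h]
    exact add_le_add (pow_le_pow_left₀ (abs_nonneg _) h1 2) (pow_le_pow_left₀ (abs_nonneg _) h2 2)
  exact le_of_sq_le_sq h3 (norm_nonneg _)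

theorem cz_cmul (x y : Cx) : ‖cz (cmul x y) - cz x * cz y / UU‖ ≤ 3 / 2 ∧
    ‖cz (cmul x y)‖ ≤ ‖cz x‖ * ‖cz y‖ / UU := by
  have hU := UU_pos
  have r1 := zv_rsh (Z.sub (Z.mul x.re y.re) (Z.mul x.im y.im))
  have r2 := zv_rsh (Z.add (Z.mul x.re y.im) (Z.mul x.im y.re))
  rw [zv_sub, zv_mul, zv_mul] at r1
  rw [zv_add, zv_mul, zv_mul] at r2
  push_cast at r1 r2
  have e1 : (cz x * cz y / (UU : ℂ)).re = (zv x.re * zv y.re - zv x.im * zv y.im) / UU := by
    rw [Complex.div_ofReal_re]; simp [cz]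
  have e2 : (cz x * cz y / (UU : ℂ)).im = (zv x.re * zv y.im + zv x.im * zv y.re) / UU := by
    rw [Complex.div_ofReal_im]; simp [cz]
  have e3 : (cz (cmul x y)).re = zv (rsh (Z.sub (Z.mul x.re y.re) (Z.mul x.im y.im))) := rfl
  have e4 : (cz (cmul x y)).im = zv (rsh (Z.add (Z.mul x.re y.im) (Z.mul x.im y.re))) := rfl
  constructor
  · apply norm_le_of_comp
    · rw [Complex.sub_re, e1, e3]; exact r1.1
    · rw [Complex.sub_im, e2, e4]; exact r2.1
  · have e5 : ‖cz x‖ * ‖cz y‖ / UU = ‖cz x * cz y / (UU : ℂ)‖ := by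
      rw [norm_div, norm_mul, Complex.norm_real, Real.norm_of_nonneg hU.le]
    rw [e5]
    apply norm_le_of_comp'
    · rw [e1, e3, abs_div, abs_of_pos hU]; exact r1.2
    · rw [e2, e4, abs_div, abs_of_pos hU]; exact r2.2

theorem cz_cq4 (x : Cx) : ‖cz (cq4 x) - cz x / 4‖ ≤ 3 / 2 ∧ ‖cz (cq4 x)‖ ≤ ‖cz x‖ / 4 := by
  have r1 := zv_rs2 x.re
  have r2 := zv_rs2 x.im
  have e0 : (4 : ℂ) = ((4 : ℝ) : ℂ) := by norm_num
  have e1 : (cz x / 4).re = zv x.re / 4 := by rw [e0, Complex.div_ofReal_re]; rfl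
  have e2 : (cz x / 4).im = zv x.im / 4 := by rw [e0, Complex.div_ofReal_im]; rfl
  have e3 : (cz (cq4 x)).re = zv (rs2 x.re) := rfl
  have e4 : (cz (cq4 x)).im = zv (rs2 x.im) := rfl
  constructor
  · apply norm_le_of_comp
    · rw [Complex.sub_re, e1, e3]; exact r1.1
    · rw [Complex.sub_im, e2, e4]; exact r2.1
  · have e5 : ‖cz x‖ / 4 = ‖cz x / 4‖ := by rw [norm_div]; norm_num
    rw [e5]
    apply norm_le_of_comp'
    · rw [e1, e3, abs_div]; norm_num; exact r1.2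
    · rw [e2, e4, abs_div]; norm_num; exact r2.2

theorem nb2_le {a b : ℕ} {x : ℂ} (h1 : |x.re| ≤ a) (h2 : |x.im| ≤ b) : ‖x‖ ≤ nb2 a b := by
  have e : nb2 a b = (a + b + max a b) / 2 + 1 := by
    unfold nb2
    rw [mx_eq]
    rfl
  have h3 : (a + b + max a b : ℕ) ≤ 2 * ((a + b + max a b) / 2 + 1) := by omega
  have h3' : (a : ℝ) + b + max (a : ℝ) b ≤ 2 * (nb2 a b : ℝ) := by
    rw [e]
    exact_mod_cast h3
  have h : ‖x‖ ^ 2 = |x.re| ^ 2 + |x.im| ^ 2 := by
    rw [← Complex.normSq_eq_norm_sq, Complex.normSq_apply, sq_abs, sq_abs]; ring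
  have ha : (0 : ℝ) ≤ a := Nat.cast_nonneg _
  have hb : (0 : ℝ) ≤ b := Nat.cast_nonneg _
  have h4 : ‖x‖ ^ 2 ≤ a ^ 2 + b ^ 2 := by
    rw [h]
    exact add_le_add (pow_le_pow_left₀ (abs_nonneg _) h1 2) (pow_le_pow_left₀ (abs_nonneg _) h2 2)
  have h5 : (a : ℝ) ^ 2 + b ^ 2 ≤ ((a + b + max (a : ℝ) b) / 2) ^ 2 := by
    rcases le_total (a : ℝ) b with h6 | h6
    · rw [max_eq_right h6]; nlinarith
    · rw [max_eq_left h6]; nlinarith
  have h7 : ‖x‖ ≤ (a + b + max (a : ℝ) b) / 2 := by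
    apply le_of_sq_le_sq (h4.trans h5)
    have := le_max_left (a : ℝ) b
    positivity
  linarith

theorem nb_le (x : Cx) : ‖cz x‖ ≤ nb x := by
  apply nb2_le
  · rw [ab_cast]; exact le_rfl
  · rw [ab_cast]; exact le_rfl

end Pool.Agent.Helper90.KMO
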