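import Pool.Agent.Helper90.CX.CT2
import Pool.Agent.Helper86.CX.Fmt

/-!
Row KMT, part 3: class constants, `x_A`, the six `om`, coefficient sets, table forms, `C^* K C`.
-/

set_option autoImplicit false
noncomputable section
namespace Pool.Agent.Helper90.KMT

open Pool.Agent.Helper90.C75
open Pool.Agent.Helper86.C75 (Z)
open Pool.Agent.Helper86.CX (Cx cadd csub cmul cconj cq4 cdiv nb mx andB one1 mOK1 Hm mkH CK u32 kf)
open Pool.Agent.Helper86.CT (N3 Pr DF Alg mxL Mo isz er1 prad resM inv2 inv1 inv0 invM invOK uM zM gM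
  lamM fkM keM addM subM conjM mulM Tst Cls mkCls clsOK xA1 xAM xAOK CE mkE2 mkE mkR mkL CO
  mkO2 mkO1 mkO Up U0 upN1 nxU sgP reE cxE KM mkKM PE PO re2)
open Pool.Agent.Helper90.KMO
open Complex ComplexConjugate

variable {α : Type} {D : ℕ} {lf : α → Vt D → ℂ} {A : Alg α} {t : ℕ → ℝ}

/-! ### class constants -/

/-- the models of the class constants, `κ` = the three weights -/
structure CLT (D : ℕ) (lf : α → Vt D → ℂ) (t : ℕ → ℝ) (κ : Fin 3 → ℂ) (C : Cls α) : Prop where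
  l0 : TOK D lf t (2 * κ 1 / (κ 0 * κ 2)) C.l0
  l1 : TOK D lf t (2 * κ 2 / (κ 1 * κ 0)) C.l1
  l2 : TOK D lf t (2 * κ 0 / (κ 2 * κ 1)) C.l2
  h0 : TOK D lf t (κ 0 / 2) C.h0
  h1 : TOK D lf t (κ 1 / 2) C.h1
  h2 : TOK D lf t (κ 2 / 2) C.h2
  q0 : TOK D lf t (κ 0 / 4) C.q0
  q1 : TOK D lf t (κ 1 / 4) C.q1
  q2 : TOK D lf t (κ 2 / 4) C.q2
  e0 : TOK D lf t (κ 0 ^ 2 / (4 * (2 + κ 0))) C.e0
  e1 : TOK D lf t (κ 1 ^ 2 / (4 * (2 + κ 1))) C.e1
  e2 : TOK D lf t (κ 2 ^ 2 / (4 * (2 + κ 2))) C.e2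

/-- THE CLASS CONSTANTS -/
theorem CLT.mk' (hA : AOK D lf A) (hP : PT D t) {κ : Fin 3 → ℂ}
    {k0 k1 k2 : Mo α} (a0 : TOK D lf t (κ 0) k0) (a1 : TOK D lf t (κ 1) k1)
    (a2 : TOK D lf t (κ 2) k2) (hok : clsOK A k0 k1 k2 = true) :
    CLT D lf t κ (mkCls A k0 k1 k2) := by
  obtain ⟨b0, h⟩ := andB_t hok
  obtain ⟨b1, h⟩ := andB_t h
  obtain ⟨b2, h⟩ := andB_t h
  obtain ⟨b3, h⟩ := andB_t h
  obtain ⟨b4, b5⟩ := andB_t h
  exact ⟨TOK.lam hA hP a0 a2 a1 b0, TOK.lam hA hP a1 a0 a2 b1, TOK.lam hA hP a2 a1 a0 b2,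
    a0.half hA hP, a1.half hA hP, a2.half hA hP,
    a0.quarter hA hP, a1.quarter hA hP, a2.quarter hA hP,
    a0.ke hA hP b3, a1.ke hA hP b4, a2.ke hA hP b5⟩

/-- `(4 - (k k')² - h²)/(k k' h)` -/
theorem TOK.xA (hA : AOK D lf A) (hP : PT D t) {k k' h : ℂ} {K K' H : Mo α}
    (hk : TOK D lf t k K) (hk' : TOK D lf t k' K') (hh : TOK D lf t h H)
    (hok : xAOK A K K' H = true) :
    TOK D lf t ((4 - (k * k') ^ 2 - h ^ 2) / (k * k' * h)) (xAM A K K' H) ∧ k * k' * h ≠ 0 := by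
  have hg := hk.mul hA hP hk'
  have h4 : TOK D lf t 4 (Pool.Agent.Helper86.CT.cst A (nat_lit 1125899906842624) (nat_lit 0)) :=
    TOK.cst' hA hP (by unfold UU; norm_num)
  have hi := TOK.inv hA hP (hg.mul hA hP hh) hok
  have h1 := ((h4.sub hA (hg.mul hA hP hg)).sub hA (hh.mul hA hP hh)).mul hA hP hi.1
  refine ⟨?_, hi.2⟩
  have e : (4 - (k * k') ^ 2 - h ^ 2) / (k * k' * h)
      = (4 - k * k' * (k * k') - h * h) * (k * k' * h)⁻¹ := by
    rw [div_eq_mul_inv]; ring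
  rw [e]
  exact h1

/-! ### the six `om` -/

/-- the models of the six `om` -/
structure OMT (D : ℕ) (lf : α → Vt D → ℂ) (t : ℕ → ℝ) (κ : Fin 3 → ℂ) (z : ℂ)
    (m0 m1 m2 m3 m4 m5 : Mo α) : Prop where
  m0 : TOK D lf t (2 * (1 + 2 * κ 1 / (κ 0 * κ 2) * z⁻¹))⁻¹ m0
  m1 : TOK D lf t (2 * (1 + 2 * κ 2 / (κ 1 * κ 0) * z⁻¹))⁻¹ m1
  m2 : TOK D lf t (2 * (1 + 2 * κ 0 / (κ 2 * κ 1) * z⁻¹))⁻¹ m2
  m3 : TOK D lf t (2 * (1 + 2 * κ 1 / (κ 0 * κ 2) * z))⁻¹ m3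
  m4 : TOK D lf t (2 * (1 + 2 * κ 2 / (κ 1 * κ 0) * z))⁻¹ m4
  m5 : TOK D lf t (2 * (1 + 2 * κ 0 / (κ 2 * κ 1) * z))⁻¹ m5
  n0 : 2 * (1 + 2 * κ 1 / (κ 0 * κ 2) * z⁻¹) ≠ 0
  n1 : 2 * (1 + 2 * κ 2 / (κ 1 * κ 0) * z⁻¹) ≠ 0
  n2 : 2 * (1 + 2 * κ 0 / (κ 2 * κ 1) * z⁻¹) ≠ 0
  n3 : 2 * (1 + 2 * κ 1 / (κ 0 * κ 2) * z) ≠ 0
  n4 : 2 * (1 + 2 * κ 2 / (κ 1 * κ 0) * z) ≠ 0
  n5 : 2 * (1 + 2 * κ 0 / (κ 2 * κ 1) * z) ≠ 0

theorem OMT.mk' (hA : AOK D lf A) (hP : PT D t) {κ : Fin 3 → ℂ} {C : Cls α}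
    (hC : CLT D lf t κ C) {z : ℂ} {Um Zm : Mo α} (hu : TOK D lf t z⁻¹ Um) (hz : TOK D lf t z Zm)
    (b0 : invOK A (gM A C.l0 Um) = true) (b1 : invOK A (gM A C.l1 Um) = true)
    (b2 : invOK A (gM A C.l2 Um) = true) (b3 : invOK A (gM A C.l0 Zm) = true)
    (b4 : invOK A (gM A C.l1 Zm) = true) (b5 : invOK A (gM A C.l2 Zm) = true) :
    OMT D lf t κ z (invM A (gM A C.l0 Um)) (invM A (gM A C.l1 Um)) (invM A (gM A C.l2 Um))
      (invM A (gM A C.l0 Zm)) (invM A (gM A C.l1 Zm)) (invM A (gM A C.l2 Zm)) := by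
  have r0 := TOK.inv hA hP (TOK.g hA hP hC.l0 hu) b0
  have r1 := TOK.inv hA hP (TOK.g hA hP hC.l1 hu) b1
  have r2 := TOK.inv hA hP (TOK.g hA hP hC.l2 hu) b2
  have r3 := TOK.inv hA hP (TOK.g hA hP hC.l0 hz) b3
  have r4 := TOK.inv hA hP (TOK.g hA hP hC.l1 hz) b4
  have r5 := TOK.inv hA hP (TOK.g hA hP hC.l2 hz) b5
  exact ⟨r0.1, r1.1, r2.1, r3.1, r4.1, r5.1, r0.2, r1.2, r2.2, r3.2, r4.2, r5.2⟩

/-! ### coefficient sets -/

/-- even set: `diag(1, x, y)` -/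
structure CET (D : ℕ) (lf : α → Vt D → ℂ) (t : ℕ → ℝ) (x y : ℂ) (C : CE α) : Prop where
  c2 : TOK D lf t x C.c2
  c3 : TOK D lf t y C.c3
  n22 : TOK D lf t (x * star x) C.n22
  n33 : TOK D lf t (y * star y) C.n33
  m : TOK D lf t (star x * y) C.m

theorem CET.mk' (hA : AOK D lf A) (hP : PT D t) {x y : ℂ} {c2 c3 : Mo α}
    (hx : TOK D lf t x c2) (hy : TOK D lf t y c3) : CET D lf t x y (mkE2 A c2 c3) :=
  ⟨hx, hy, hx.mul hA hP (hx.conj hA), hy.mul hA hP (hy.conj hA), (hx.conj hA).mul hA hP hy⟩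

/-- odd set: `[[1,0,e],[0,x,0],[0,0,y]]` -/
structure COT (D : ℕ) (lf : α → Vt D → ℂ) (t : ℕ → ℝ) (x y e : ℂ) (C : CO α) : Prop where
  c2 : TOK D lf t x C.c2
  c3 : TOK D lf t y C.c3
  fe : TOK D lf t e C.e
  n22 : TOK D lf t (x * star x) C.n22
  n33 : TOK D lf t (y * star y) C.n33
  nee : TOK D lf t (e * star e) C.nee
  m : TOK D lf t (star x * y) C.m
  p : TOK D lf t (star x * e) C.p
  q : TOK D lf t (star e * y) C.q

theorem COT.mk' (hA : AOK D lf A) (hP : PT D t) {x y e : ℂ} {c2 c3 ce : Mo α}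
    (hx : TOK D lf t x c2) (hy : TOK D lf t y c3) (he : TOK D lf t e ce) :
    COT D lf t x y e (mkO2 A c2 c3 ce) :=
  ⟨hx, hy, he, hx.mul hA hP (hx.conj hA), hy.mul hA hP (hy.conj hA), he.mul hA hP (he.conj hA),
    (hx.conj hA).mul hA hP hy, (hx.conj hA).mul hA hP he, (he.conj hA).mul hA hP hy⟩

/-- `mkE A c2 s`: `diag(1, o', o o')` -/
theorem mkE_ok (hA : AOK D lf A) (hP : PT D t) {o o' : ℂ} {c2 s : Mo α}
    (h : TOK D lf t o' c2) (hs : TOK D lf t o s) : CET D lf t o' (o * o') (mkE A c2 s) :=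
  CET.mk' hA hP h (hs.mul hA hP h)

/-- `mkR A o`: `diag(1, o, o (1/2 - o))` -/
theorem mkR_ok (hA : AOK D lf A) (hP : PT D t) {o : ℂ} {s : Mo α} (hs : TOK D lf t o s) :
    CET D lf t o (o * (1 / 2 - o)) (mkR A s) := by
  have h2 : TOK D lf t (1 / 2) (Pool.Agent.Helper86.CT.cst A (nat_lit 140737488355328)
      (nat_lit 0)) := TOK.cst' hA hP (by unfold UU; norm_num)
  exact CET.mk' hA hP hs (hs.mul hA hP (h2.sub hA hs))

/-- `mkL A o`: `diag(1, 1/5 + o/10, 1/5 - 2 o/5)` -/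
theorem mkL_ok (hA : AOK D lf A) (hP : PT D t) {o : ℂ} {s : Mo α} (hs : TOK D lf t o s) :
    CET D lf t (1 / 5 + o / 10) (1 / 5 - 2 * o / 5) (mkL A s) := by
  have k : ∀ {x : ℝ} {n : ℕ}, |UU * x - n| ≤ 1 →
      TOK D lf t (x : ℂ) (Pool.Agent.Helper86.CT.cst A n (nat_lit 1)) := by
    intro x n h
    refine TOK.cst hA hP n 1 ?_
    have e : (UU : ℂ) * x - n = ((UU * x - n : ℝ) : ℂ) := by push_cast; rfl
    rw [e, Complex.norm_real, Real.norm_eq_abs]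
    simpa using h
  have h1 : TOK D lf t ((1 / 5 : ℝ) : ℂ) (Pool.Agent.Helper86.CT.cst A (nat_lit 56294995342131)
      (nat_lit 1)) := k (by unfold UU; rw [abs_le]; constructor <;> norm_num)
  have h2 : TOK D lf t ((1 / 10 : ℝ) : ℂ) (Pool.Agent.Helper86.CT.cst A (nat_lit 28147497671066)
      (nat_lit 1)) := k (by unfold UU; rw [abs_le]; constructor <;> norm_num)
  have h3 : TOK D lf t ((2 / 5 : ℝ) : ℂ) (Pool.Agent.Helper86.CT.cst A (nat_lit 112589990684262)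
      (nat_lit 1)) := k (by unfold UU; rw [abs_le]; constructor <;> norm_num)
  have h4 := h1.add hA (h2.mul hA hP hs)
  have h5 := h1.sub hA (h3.mul hA hP hs)
  have e1 : 1 / 5 + o / 10 = ((1 / 5 : ℝ) : ℂ) + ((1 / 10 : ℝ) : ℂ) * o := by push_cast; ring
  have e2 : 1 / 5 - 2 * o / 5 = ((1 / 5 : ℝ) : ℂ) - ((2 / 5 : ℝ) : ℂ) * o := by push_cast; ring
  rw [e1, e2]
  exact CET.mk' hA hP h4 h5

/-- `mkO A c2 s h q ke` -/
theorem mkO_ok (hA : AOK D lf A) (hP : PT D t) {o o' k : ℂ}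
    {c2 s h q ke : Mo α} (h2 : TOK D lf t o' c2) (hs : TOK D lf t o s)
    (hh : TOK D lf t (k / 2) h) (hq : TOK D lf t (k / 4) q)
    (hke : TOK D lf t (k ^ 2 / (4 * (2 + k))) ke) :
    COT D lf t o' (o' * (k / 2) * (1 / 2 - o)) (k * o / 2 - k ^ 2 / (4 * (2 + k)))
      (mkO A c2 s h q ke) := by
  have ht := hh.mul hA hP hs
  have h3 := h2.mul hA hP (hq.sub hA ht)
  have e : o' * (k / 2) * (1 / 2 - o) = o' * (k / 4 - k / 2 * o) := by ring
  have h4 := ht.sub hA hke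
  have e' : k * o / 2 - k ^ 2 / (4 * (2 + k)) = k / 2 * o - k ^ 2 / (4 * (2 + k)) := by ring
  rw [e, e']
  exact COT.mk' hA hP h2 h3 h4

/-! ### forms -/

/-- the six entries of a Hermitian form are modelled -/
structure KMK (D : ℕ) (lf : α → Vt D → ℂ) (t : ℕ → ℝ) (K : Hm ℝ) (P : KM α) : Prop where
  a : TOK D lf t (K.a : ℂ) P.a
  b : TOK D lf t (K.b : ℂ) P.b
  c : TOK D lf t (K.c : ℂ) P.c
  x : TOK D lf t K.x P.x
  y : TOK D lf t K.y P.y
  w : TOK D lf t K.w P.w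

theorem mkH_x (a b c : ℝ) (x y w : ℂ) : (mkH a b c x y w).x = x := Complex.re_add_im x
theorem mkH_y (a b c : ℝ) (x y w : ℂ) : (mkH a b c x y w).y = y := Complex.re_add_im y
theorem mkH_w (a b c : ℝ) (x y w : ℂ) : (mkH a b c x y w).w = w := Complex.re_add_im w

theorem TOK.congr {f g : ℂ} {M : Mo α} (h : TOK D lf t f M) (e : f = g) : TOK D lf t g M := e ▸ h

/-- THE EVEN CONGRUENCE -/
theorem PE_ok (hA : AOK D lf A) (hP : PT D t) {x y : ℂ} {C : CE α} {K : Hm ℝ} {P : KM α}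
    (hC : CET D lf t x y C) (hK : KMK D lf t K P) : KMK D lf t (CK K 0 x y) (PE A C P) := by
  refine ⟨hK.a, ?_, ?_, ?_, ?_, ?_⟩
  · refine (hC.n22.mul hA hP hK.b).congr ?_
    show _ = ((K.b * normSq x : ℝ) : ℂ)
    have : (normSq x : ℂ) = x * star x := (Complex.mul_conj x).symm
    rw [Complex.ofReal_mul, this]
    ring
  · refine (hC.n33.mul hA hP hK.c).congr ?_
    show _ = ((K.a * normSq 0 + K.c * normSq y + 2 * (conj 0 * K.y * y).re : ℝ) : ℂ)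
    have : (normSq y : ℂ) = y * star y := (Complex.mul_conj y).symm
    simp only [map_zero, mul_zero, zero_mul, Complex.zero_re, add_zero, zero_add]
    rw [Complex.ofReal_mul, this]
    ring
  · refine (hC.c2.mul hA hP hK.x).congr ?_
    unfold CK
    rw [mkH_x]
    ring
  · refine (hC.c3.mul hA hP hK.y).congr ?_
    unfold CK
    rw [mkH_y]
    ring
  · refine (hC.m.mul hA hP hK.w).congr ?_
    unfold CK
    rw [mkH_w]
    show star x * y * K.w = conj K.x * 0 * conj x + K.w * conj x * y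
    have : (star x : ℂ) = conj x := rfl
    rw [this]
    ring

/-- THE ODD CONGRUENCE -/
theorem PO_ok (hA : AOK D lf A) (hP : PT D t) {x y e : ℂ} {C : CO α} {K : Hm ℝ} {P : KM α}
    (hC : COT D lf t x y e C) (hK : KMK D lf t K P) : KMK D lf t (CK K e x y) (PO A C P) := by
  have sx : (star x : ℂ) = conj x := rfl
  have se : (star e : ℂ) = conj e := rfl
  refine ⟨hK.a, ?_, ?_, ?_, ?_, ?_⟩
  · refine (hC.n22.mul hA hP hK.b).congr ?_
    show _ = ((K.b * normSq x : ℝ) : ℂ)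
    have : (normSq x : ℂ) = x * star x := (Complex.mul_conj x).symm
    rw [Complex.ofReal_mul, this]
    ring
  · have h1 := (hC.nee.mul hA hP hK.a).add hA (hC.n33.mul hA hP hK.c)
    have h2 := hC.q.mul hA hP hK.y
    have h3 := h1.add hA (h2.add hA (h2.conj hA))
    refine h3.congr ?_
    show _ = ((K.a * normSq e + K.c * normSq y + 2 * (conj e * K.y * y).re : ℝ) : ℂ)
    have e1 : (normSq y : ℂ) = y * star y := (Complex.mul_conj y).symm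
    have e2 : (normSq e : ℂ) = e * star e := (Complex.mul_conj e).symm
    have e3 : star e * y * K.y + star (star e * y * K.y)
        = ((2 * (conj e * K.y * y).re : ℝ) : ℂ) := by
      have e4 : star e * y * K.y = conj e * K.y * y := by rw [se]; ring
      rw [e4]
      exact Complex.add_conj _
    rw [e3]
    push_cast
    rw [e1, e2]
    ring
  · refine (hC.c2.mul hA hP hK.x).congr ?_
    unfold CK
    rw [mkH_x]
    ring
  · refine ((hC.fe.mul hA hP hK.a).add hA (hC.c3.mul hA hP hK.y)).congr ?_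
    unfold CK
    rw [mkH_y]
    ring
  · refine ((hC.p.mul hA hP (hK.x.conj hA)).add hA (hC.m.mul hA hP hK.w)).congr ?_
    unfold CK
    rw [mkH_w, sx]
    show conj x * e * conj K.x + conj x * y * K.w = _
    ring

/-! ### tables -/

/-- evaluation of the multi-affine function given by a table of vertices -/
def mf0 (g : ℕ → ℝ) (x : ℕ) (_ : ℕ → ℝ) : ℝ := g x
def nmf {β : Type} (D : ℕ) (mf : (ℕ → ℝ) → β → (ℕ → ℝ) → ℝ) (g : ℕ → ℝ) (T : Pr β)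
    (t : ℕ → ℝ) : ℝ := (1 - t D) * mf g T.a t + t D * mf g T.b t

/-- the laws of the vertex trees -/
structure UOK (D : ℕ) {α β : Type} (lf : α → Vt D → ℂ) (mf : (ℕ → ℝ) → β → (ℕ → ℝ) → ℝ)
    (U : Up β α) : Prop where
  up : ∀ (f : ℕ → Cx) (T : β) (t : ℕ → ℝ), avg (wtT D t) (lf (U.up f T)) =
    2 ^ D * ((mf (fun x => (cz (f x)).re) T t : ℂ) + (mf (fun x => (cz (f x)).im) T t : ℂ) * I)
  lin : ∀ (c : ℝ) (g : ℕ → ℝ) (T : β) (t : ℕ → ℝ), mf (fun x => c * g x) T t = c * mf g T t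
  mul0 : ∀ (T : β) (t : ℕ → ℝ), mf (fun _ => 0) T t = 0

theorem U0_ok : UOK 0 lf0 mf0 U0 := by
  refine ⟨fun f T t => ?_, fun c g T t => rfl, fun T t => rfl⟩
  have e : ∀ f : Vt 0 → ℂ, avg (wtT 0 t) f = f () := by
    intro f
    show ∑ v : Unit, (((1 : ℝ) : ℂ)) * f v = f ()
    simp only [Complex.ofReal_one, one_mul]
    exact Finset.sum_singleton _ _
  rw [e, pow_zero, one_mul]
  exact (Complex.re_add_im _).symm

theorem UOK.nx {α β : Type} {D : ℕ} {lf : α → Vt D → ℂ} {A : Alg α} (hA : AOK D lf A)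
    {mf : (ℕ → ℝ) → β → (ℕ → ℝ) → ℝ} {U : Up β α} (h : UOK D lf mf U) :
    UOK (D + 1) (nlf lf) (nmf D mf) (nxU A U) := by
  refine ⟨fun f T t => ?_, fun c g T t => ?_, fun T t => ?_⟩
  · rw [avg_T_succ]
    set X := U.up f T.a
    set Y := U.up f T.b
    have g0 : (fun v : Vt D => nlf lf ((nxU A U).up f T) (v, 0)) = fun v => lf X v + lf X v := by
      funext v
      exact hA.law.hadd X X v
    have g1 : (fun v : Vt D => nlf lf ((nxU A U).up f T) (v, 1)) = fun v => lf X v + lf Y v := by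
      funext v
      exact hA.law.hadd X Y v
    have g2 : (fun v : Vt D => nlf lf ((nxU A U).up f T) (v, 2)) = fun v => lf Y v + lf Y v := by
      funext v
      exact hA.law.hadd Y Y v
    have e : avg (bt (t D)) (fun i => avg (wtT D t) (fun v => nlf lf ((nxU A U).up f T) (v, i)))
        = (1 - t D : ℂ) ^ 2 * avg (wtT D t) (fun v => nlf lf ((nxU A U).up f T) (v, 0))
          + 2 * t D * (1 - t D) * avg (wtT D t) (fun v => nlf lf ((nxU A U).up f T) (v, 1))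
          + (t D : ℂ) ^ 2 * avg (wtT D t) (fun v => nlf lf ((nxU A U).up f T) (v, 2)) := by
      rw [avg_bt]
      ring
    rw [e, g0, g1, g2, avg_add, avg_add, avg_add, h.up, h.up]
    simp only [nmf]
    push_cast
    ring
  · simp only [nmf, h.lin]
    ring
  · simp only [nmf, h.mul0]
    ring

theorem U1_ok : UOK 1 (nlf lf0) (nmf 0 mf0) Pool.Agent.Helper86.CT.U1 := U0_ok.nx A0_ok
theorem U2_ok : UOK 2 (nlf (nlf lf0)) (nmf 1 (nmf 0 mf0)) Pool.Agent.Helper86.CT.U2 :=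
  U1_ok.nx A1_ok
theorem U3_ok : UOK 3 (nlf (nlf (nlf lf0))) (nmf 2 (nmf 1 (nmf 0 mf0)))
    Pool.Agent.Helper86.CT.U3 := U2_ok.nx A2_ok
theorem U4_ok : UOK 4 (nlf (nlf (nlf (nlf lf0)))) (nmf 3 (nmf 2 (nmf 1 (nmf 0 mf0))))
    Pool.Agent.Helper86.CT.U4 := U3_ok.nx A3_ok

/-- signed entry number `i` of the form number `k` -/
def sgv (k i : ℕ) (T : ℕ) : ℝ := (u32 (kf T k) i : ℕ) - 2147483648

theorem zv_sgP (w n : ℕ) : ((zv (sgP w n) : ℤ) : ℝ) = w * ((n : ℝ) - 2147483648) := by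
  have h0 : ((2147483648 : ℕ) : ℝ) = 2147483648 := by norm_num
  unfold sgP
  cases h : Nat.ble (nat_lit 2147483648) n with
  | true =>
    show ((zv (Z.p (Nat.mul w (Nat.sub n (nat_lit 2147483648)))) : ℤ) : ℝ) = _
    have h1 : 2147483648 ≤ n := Nat.le_of_ble_eq_true h
    rw [zv_p]
    show (((w * (n - 2147483648) : ℕ) : ℤ) : ℝ) = _
    rw [Int.cast_natCast, Nat.cast_mul, Nat.cast_sub h1, h0]
  | false =>
    show ((zv (Z.m (Nat.mul w (Nat.sub (nat_lit 2147483648) n))) : ℤ) : ℝ) = _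
    have h1 : n ≤ 2147483648 := by
      by_contra h2
      have h3 : 2147483648 ≤ n := by omega
      have h4 : Nat.ble 2147483648 n = true := Nat.ble_eq_true_of_le h3
      have h5 : Nat.ble (nat_lit 2147483648) n = true := h4
      rw [h] at h5
      cases h5
    rw [zv_m]
    show ((-((w * (2147483648 - n) : ℕ) : ℤ) : ℤ) : ℝ) = _
    rw [Int.cast_neg, Int.cast_natCast, Nat.cast_mul, Nat.cast_sub h1, h0]
    ring

/-- the form number `k` of the table at the parameters, true units -/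
def KTab {β : Type} (mf : (ℕ → ℝ) → β → (ℕ → ℝ) → ℝ) (T : β) (k : ℕ) (t : ℕ → ℝ) : Hm ℝ :=
  ⟨mf (sgv k 0) T t / 1048576, mf (sgv k 32) T t / 1048576, mf (sgv k 64) T t / 1048576,
    mf (sgv k 96) T t / 1048576, mf (sgv k 128) T t / 1048576, mf (sgv k 160) T t / 1048576,
    mf (sgv k 192) T t / 1048576, mf (sgv k 224) T t / 1048576, mf (sgv k 256) T t / 1048576⟩

theorem reE_ok (hA : AOK D lf A) {β : Type} {mf : (ℕ → ℝ) → β → (ℕ → ℝ) → ℝ} {U : Up β α}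
    (hU : UOK D lf mf U) {w : ℕ} (hw : w * 2 ^ D = 2 ^ 28) (T : β) (k i : ℕ) :
    TOK D lf t ((mf (sgv k i) T t / 1048576 : ℝ) : ℂ)
      (Pool.Agent.Helper86.CT.mk A (U.up (reE w k i) T) (nat_lit 0)) := by
  refine ⟨vt_mk hA _ _, ?_⟩
  show ‖(UU : ℂ) * ((mf (sgv k i) T t / 1048576 : ℝ) : ℂ)
    - avg (wtT D t) (lf (U.up (reE w k i) T))‖ ≤ ((nat_lit 0 : ℕ) : ℝ)
  have e1 : (fun x => (cz (reE w k i x)).re) = fun x => (w : ℝ) * sgv k i x := by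
    funext x
    exact zv_sgP w _
  have e2 : (fun x => (cz (reE w k i x)).im) = fun _ => (0 : ℝ) := by
    funext x
    show ((zv (Z.p (nat_lit 0)) : ℤ) : ℝ) = 0
    rw [zv_p]
    simp
  rw [hU.up, e1, e2, hU.lin, hU.mul0]
  have hw' : (w : ℂ) * 2 ^ D = 268435456 := by
    have : ((w * 2 ^ D : ℕ) : ℂ) = ((2 ^ 28 : ℕ) : ℂ) := by rw [hw]
    push_cast at this
    rw [this]
  have hU' : (UU : ℂ) = 1048576 * 268435456 := by unfold UU; norm_num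
  have e3 : (UU : ℂ) * ((mf (sgv k i) T t / 1048576 : ℝ) : ℂ)
      - 2 ^ D * ((((w : ℝ) * mf (sgv k i) T t : ℝ) : ℂ) + ((0 : ℝ) : ℂ) * I) = 0 := by
    push_cast
    rw [hU', ← hw']
    ring
  rw [e3, norm_zero]
  simp

theorem cxE_ok (hA : AOK D lf A) {β : Type} {mf : (ℕ → ℝ) → β → (ℕ → ℝ) → ℝ} {U : Up β α}
    (hU : UOK D lf mf U) {w : ℕ} (hw : w * 2 ^ D = 2 ^ 28) (T : β) (k i j : ℕ) :
    TOK D lf t (((mf (sgv k i) T t / 1048576 : ℝ) : ℂ) + ((mf (sgv k j) T t / 1048576 : ℝ) : ℂ) * I)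
      (Pool.Agent.Helper86.CT.mk A (U.up (cxE w k i j) T) (nat_lit 0)) := by
  refine ⟨vt_mk hA _ _, ?_⟩
  show ‖(UU : ℂ) * (((mf (sgv k i) T t / 1048576 : ℝ) : ℂ)
    + ((mf (sgv k j) T t / 1048576 : ℝ) : ℂ) * I)
    - avg (wtT D t) (lf (U.up (cxE w k i j) T))‖ ≤ ((nat_lit 0 : ℕ) : ℝ)
  have e1 : (fun x => (cz (cxE w k i j x)).re) = fun x => (w : ℝ) * sgv k i x := by
    funext x
    exact zv_sgP w _
  have e2 : (fun x => (cz (cxE w k i j x)).im) = fun x => (w : ℝ) * sgv k j x := by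
    funext x
    exact zv_sgP w _
  rw [hU.up, e1, e2, hU.lin, hU.lin]
  have hw' : (w : ℂ) * 2 ^ D = 268435456 := by
    have : ((w * 2 ^ D : ℕ) : ℂ) = ((2 ^ 28 : ℕ) : ℂ) := by rw [hw]
    push_cast at this
    rw [this]
  have hU' : (UU : ℂ) = 1048576 * 268435456 := by unfold UU; norm_num
  have e3 : (UU : ℂ) * (((mf (sgv k i) T t / 1048576 : ℝ) : ℂ)
      + ((mf (sgv k j) T t / 1048576 : ℝ) : ℂ) * I)
      - 2 ^ D * ((((w : ℝ) * mf (sgv k i) T t : ℝ) : ℂ)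
      + (((w : ℝ) * mf (sgv k j) T t : ℝ) : ℂ) * I) = 0 := by
    push_cast
    rw [hU', ← hw']
    ring
  rw [e3, norm_zero]
  simp

/-- THE MODELS OF A TABLE FORM -/
theorem mkKM_ok (hA : AOK D lf A) {β : Type} {mf : (ℕ → ℝ) → β → (ℕ → ℝ) → ℝ} {U : Up β α}
    (hU : UOK D lf mf U) {w : ℕ} (hw : w * 2 ^ D = 2 ^ 28) (T : β) (k : ℕ) :
    KMK D lf t (KTab mf T k t) (mkKM A U w T k) :=
  ⟨reE_ok hA hU hw T k 0, reE_ok hA hU hw T k 32, reE_ok hA hU hw T k 64,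
    cxE_ok hA hU hw T k 96 128, cxE_ok hA hU hw T k 160 192, cxE_ok hA hU hw T k 224 256⟩

end Pool.Agent.Helper90.KMT
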