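import Pool.Agent.Helper90.CX.KCT3

/-!
Row KCT, part 4: lowered diagonal; one run; families of runs `R ∈ [Ra, Rb]` (Bernstein).
-/

set_option autoImplicit false
noncomputable section
namespace Pool.Agent.Helper90.KMT

open Pool.Agent.Helper90.C75
open Pool.Agent.Helper86.CX (Hm ev mkH BA)
open Pool.Agent.Helper86.CT (DF Alg Rw rr2 ePV eN1 eN mxRw mxL Mo Qd KM mkQd row0 rw0 rw1 rw2 addM subM
  mulM VO qf qm2 qm3 r3x)
open Pool.Agent.Helper90.KMO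
open Complex ComplexConjugate

variable {α : Type} {D : ℕ} {lf : α → Vt D → ℂ} {A : Alg α} {t : ℕ → ℝ}

theorem off_low {d w w' : ℂ} {r : ℝ} (h : ‖d‖ ≤ r) :
    -(r * (normSq w + normSq w')) ≤ 2 * (conj w * d * w').re := by
  have h1 : |(conj w * d * w').re| ≤ ‖w‖ * r * ‖w'‖ := by
    refine (Complex.abs_re_le_norm _).trans ?_
    rw [norm_mul, norm_mul, Complex.norm_conj]
    exact mul_le_mul_of_nonneg_right (mul_le_mul_of_nonneg_left h (norm_nonneg _)) (norm_nonneg _)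
  have h2 := (abs_le.1 h1).1
  have h3 : 0 ≤ r := (norm_nonneg _).trans h
  rw [Complex.normSq_eq_norm_sq, Complex.normSq_eq_norm_sq]
  nlinarith [mul_nonneg h3 (sq_nonneg (‖w‖ - ‖w'‖))]

/-- THE LOWERED FORM IS BELOW THE TRUE FORM -/
theorem low_ok (hP : PT D t) {K : Hm ℝ} {P : KM α} (h : KMK D lf t K P) (w : Fin 3 → ℂ) :
    ev (Ph D t (mkIF lf P)) w ≤ UU * ev K w := by
  have dg : ∀ {k : ℝ} {M : Mo α} {s : ℝ}, TOK D lf t (k : ℂ) M → ∀ hw : Wts (wtT D t),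
      (avg (wtT D t) (fun v => (((lf M.v v).re - (M.r + s) : ℝ) : ℂ))).re ≤ UU * k - s := by
    intro k M s hM hw
    have e1 : (fun v => (((lf M.v v).re - (M.r + s) : ℝ) : ℂ))
        = fun v => ((lf M.v v).re : ℂ) - (((M.r + s : ℝ)) : ℂ) := by
      funext v; push_cast; ring
    rw [e1, avg_sub, avg_const hw, Complex.sub_re, Complex.ofReal_re]
    have e2 : (avg (wtT D t) (fun v => ((lf M.v v).re : ℂ))).re = (avg (wtT D t) (lf M.v)).re := by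
      unfold avg
      rw [Complex.re_sum, Complex.re_sum]
      refine Finset.sum_congr rfl fun v _ => ?_
      rw [Complex.re_ofReal_mul, Complex.re_ofReal_mul, Complex.ofReal_re]
    rw [e2]
    have h1 : ‖(UU : ℂ) * k - avg (wtT D t) (lf M.v)‖ ≤ M.r := hM.mod
    have h2 := (Complex.abs_re_le_norm _).trans h1
    rw [Complex.sub_re, ← Complex.ofReal_mul, Complex.ofReal_re] at h2
    have h3 := (abs_le.1 h2).1
    linarith
  have hw := hP.w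
  have ga : (Ph D t (mkIF lf P)).a ≤ UU * K.a - (P.x.r + P.y.r) := by
    have := dg (s := P.x.r + P.y.r) h.a hw
    have e : (fun v => (((lf P.a.v v).re - (P.a.r + (P.x.r + P.y.r)) : ℝ) : ℂ))
        = fun v => (((mkIF lf P).a v : ℝ) : ℂ) := by
      funext v
      show _ = ((((lf P.a.v v).re - (P.a.r + P.x.r + P.y.r) : ℝ)) : ℂ)
      congr 1; ring
    rw [e] at this
    exact this
  have gb : (Ph D t (mkIF lf P)).b ≤ UU * K.b - (P.x.r + P.w.r) := by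
    have := dg (s := P.x.r + P.w.r) h.b hw
    have e : (fun v => (((lf P.b.v v).re - (P.b.r + (P.x.r + P.w.r)) : ℝ) : ℂ))
        = fun v => (((mkIF lf P).b v : ℝ) : ℂ) := by
      funext v
      show _ = ((((lf P.b.v v).re - (P.b.r + P.x.r + P.w.r) : ℝ)) : ℂ)
      congr 1; ring
    rw [e] at this
    exact this
  have gc : (Ph D t (mkIF lf P)).c ≤ UU * K.c - (P.y.r + P.w.r) := by
    have := dg (s := P.y.r + P.w.r) h.c hw
    have e : (fun v => (((lf P.c.v v).re - (P.c.r + (P.y.r + P.w.r)) : ℝ) : ℂ))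
        = fun v => (((mkIF lf P).c v : ℝ) : ℂ) := by
      funext v
      show _ = ((((lf P.c.v v).re - (P.c.r + P.y.r + P.w.r) : ℝ)) : ℂ)
      congr 1; ring
    rw [e] at this
    exact this
  have gx : ‖(UU : ℂ) * K.x - avg (wtT D t) (lf P.x.v)‖ ≤ P.x.r := h.x.mod
  have gy : ‖(UU : ℂ) * K.y - avg (wtT D t) (lf P.y.v)‖ ≤ P.y.r := h.y.mod
  have gw : ‖(UU : ℂ) * K.w - avg (wtT D t) (lf P.w.v)‖ ≤ P.w.r := h.w.mod
  have ox := off_low (w := w 0) (w' := w 1) gx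
  have oy := off_low (w := w 0) (w' := w 2) gy
  have ow := off_low (w := w 1) (w' := w 2) gw
  have n0 := Complex.normSq_nonneg (w 0)
  have n1 := Complex.normSq_nonneg (w 1)
  have n2 := Complex.normSq_nonneg (w 2)
  have k0 := mul_le_mul_of_nonneg_right ga n0
  have k1 := mul_le_mul_of_nonneg_right gb n1
  have k2 := mul_le_mul_of_nonneg_right gc n2
  have split : ∀ (u u' k p : ℂ), (conj u * ((UU : ℂ) * k - p) * u').re
      = UU * (conj u * k * u').re - (conj u * p * u').re := by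
    intro u u' k p
    have e : conj u * ((UU : ℂ) * k - p) * u' = (UU : ℂ) * (conj u * k * u') - conj u * p * u' := by
      ring
    rw [e, Complex.sub_re, Complex.re_ofReal_mul]
  rw [split] at ox oy ow
  have e1 : ev (Ph D t (mkIF lf P)) w = (Ph D t (mkIF lf P)).a * normSq (w 0)
      + (Ph D t (mkIF lf P)).b * normSq (w 1) + (Ph D t (mkIF lf P)).c * normSq (w 2)
      + 2 * (conj (w 0) * avg (wtT D t) (lf P.x.v) * w 1).re
      + 2 * (conj (w 0) * avg (wtT D t) (lf P.y.v) * w 2).re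
      + 2 * (conj (w 1) * avg (wtT D t) (lf P.w.v) * w 2).re := by
    have f1 : (Ph D t (mkIF lf P)).x = avg (wtT D t) (lf P.x.v) := mkH_x _ _ _ _ _ _
    have f2 : (Ph D t (mkIF lf P)).y = avg (wtT D t) (lf P.y.v) := mkH_y _ _ _ _ _ _
    have f3 : (Ph D t (mkIF lf P)).w = avg (wtT D t) (lf P.w.v) := mkH_w _ _ _ _ _ _
    rw [← f1, ← f2, ← f3]
    rfl
  have e2 : ev K w = K.a * normSq (w 0) + K.b * normSq (w 1) + K.c * normSq (w 2)
      + 2 * (conj (w 0) * K.x * w 1).re + 2 * (conj (w 0) * K.y * w 2).re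
      + 2 * (conj (w 1) * K.w * w 2).re := rfl
  rw [e1, e2]
  linarith

/-! ### one run -/

theorem BA_yW (r a w τ : ℝ) (z : Fin 3 → ℂ) : (BA r a w τ).mulVec z = yW r a w τ z := by
  funext i
  fin_cases i
  · show (BA r a w τ).mulVec z 0 = z 0 + 2 * r * z 1 + a * z 2
    simp [BA, Matrix.mulVec, dotProduct, Fin.sum_univ_three]
  · show (BA r a w τ).mulVec z 1 = r * z 0 + a * z 1 - τ * z 2
    simp [BA, Matrix.mulVec, dotProduct, Fin.sum_univ_three]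
    ring
  · show (BA r a w τ).mulVec z 2 = w * z 0
    simp [BA, Matrix.mulVec, dotProduct, Fin.sum_univ_three]

def nsq (z : Fin 3 → ℂ) : ℝ := normSq (z 0) + normSq (z 1) + normSq (z 2)

/-- the three rows of a matrix of models below the rows of `V` -/
theorem QOK.rw' (hA : AOK D lf A) (hP : PT D t) {r a w τ : ℝ} {X : Qd α} {β : Type} {V : VO β}
    (h : QOK D lf t r a w τ X) (z : Fin 3 → ℂ)
    (m0 : ∀ {w : ℂ} {F : Vt D → ℂ}, RK D t (rw0 A X) (sg1 z) w F → RK D t V.r0 (sg1 z) w F)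
    (m1 : ∀ {w : ℂ} {F : Vt D → ℂ}, RK D t (rw1 X) (sg1 z) w F → RK D t V.r1 (sg1 z) w F)
    (m2 : ∀ {w : ℂ} {F : Vt D → ℂ}, RK D t (rw2 X) (sg1 z) w F → RK D t V.r2 (sg1 z) w F) :
    RW D t (rws V) (sg1 z) (yW r a w τ z) (yF lf X z) := by
  refine ⟨fun i => ?_⟩
  fin_cases i
  · exact m0 (h.row0 hA hP z)
  · exact m1 (h.row1 z)
  · exact m2 (h.row2 z)

/-- the error in terms of `|z|²` -/
theorem Np_err' (hP : PT D t) {K : Hm ℝ} {P : KM α} (hK : KMK D lf t K P) {β : Type} {V : VO β}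
    (hS : SgV (rws V)) {z w w' : Fin 3 → ℂ} {F F' : Fin 3 → Vt D → ℂ}
    (h : RW D t (rws V) (sg1 z) w F) (h' : RW D t (rws V) (sg1 z) w' F') :
    Np D t (mkIF lf P) F F' ≤ UU ^ 2 * pol (Ph D t (mkIF lf P)) w w' + 6 * (eN P V : ℕ) * nsq z := by
  have h1 := Np_err hP hK.a.val hK.b.val hK.c.val hK.x.val hK.y.val hK.w.val hS (sg1_nonneg z) h h'
  have h2 := (abs_le.1 h1).1
  have h3 := mul_le_mul_of_nonneg_left (sg1_sq z) (Nat.cast_nonneg (α := ℝ) (eN P V))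
  unfold nsq
  linarith

/-- ONE RUN -/
theorem run_ok (hP : PT D t) {K : Hm ℝ} {P : KM α} (hK : KMK D lf t K P) {β : Type} {V : VO β}
    (hS : SgV (rws V)) {z w : Fin 3 → ℂ} {F : Fin 3 → Vt D → ℂ}
    (h : RW D t (rws V) (sg1 z) w F) :
    Np D t (mkIF lf P) F F ≤ 2 * UU ^ 3 * ev K w + 6 * (eN P V : ℕ) * nsq z := by
  have h1 := Np_err' hP hK hS h h
  rw [pol_self] at h1
  have h2 := low_ok hP hK w
  have hU := UU_pos
  have h3 := mul_le_mul_of_nonneg_left h2 (by positivity : (0 : ℝ) ≤ 2 * UU ^ 2)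
  have e1 : UU ^ 2 * (2 * ev (Ph D t (mkIF lf P)) w) = 2 * UU ^ 2 * ev (Ph D t (mkIF lf P)) w := by
    ring
  have e2 : 2 * UU ^ 2 * (UU * ev K w) = 2 * UU ^ 3 * ev K w := by ring
  rw [e1] at h1
  rw [e2] at h3
  linarith

/-! ### families of runs -/

/-- the vector of the family -/
def fam (s : ℝ) (w0 w1 w2 : Fin 3 → ℂ) (i : Fin 3) : ℂ :=
  ((1 - s) ^ 2 : ℝ) * w0 i + (2 * s * (1 - s) : ℝ) * w1 i + (s ^ 2 : ℝ) * w2 i

theorem pol_fam (K : Hm ℝ) (s : ℝ) (w0 w1 w2 : Fin 3 → ℂ) :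
    pol K (fam s w0 w1 w2) (fam s w0 w1 w2) =
      (1 - s) ^ 4 * pol K w0 w0 + 4 * s * (1 - s) ^ 3 * pol K w0 w1
        + 6 * s ^ 2 * (1 - s) ^ 2 * ((pol K w0 w2 + 2 * pol K w1 w1) / 3)
        + 4 * s ^ 3 * (1 - s) * pol K w1 w2 + s ^ 4 * pol K w2 w2 := by
  unfold pol fam Hm.x Hm.y Hm.w
  simp only [Complex.mul_re, Complex.mul_im, Complex.add_re, Complex.add_im,
    Complex.conj_re, Complex.conj_im, Complex.ofReal_re, Complex.ofReal_im, Complex.I_re,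
    Complex.I_im]
  ring

/-- FAMILY OF RUNS -/
theorem fam_ok (hP : PT D t) {K : Hm ℝ} {P : KM α} (hK : KMK D lf t K P) {β : Type} {V : VO β}
    (hS : SgV (rws V)) {z w0 w1 w2 : Fin 3 → ℂ} {F0 F1 F2 : Fin 3 → Vt D → ℂ}
    (h0 : RW D t (rws V) (sg1 z) w0 F0) (h1 : RW D t (rws V) (sg1 z) w1 F1)
    (h2 : RW D t (rws V) (sg1 z) w2 F2) {s : ℝ} (hs0 : 0 ≤ s) (hs1 : s ≤ 1)
    {n0 n1 n2 n3 n4 : ℝ}
    (k0 : n0 ≤ Np D t (mkIF lf P) F0 F0 - 6 * (eN P V : ℕ) * nsq z)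
    (k1 : n1 ≤ Np D t (mkIF lf P) F0 F1 - 6 * (eN P V : ℕ) * nsq z)
    (k2 : 3 * n2 ≤ Np D t (mkIF lf P) F0 F2 + 2 * Np D t (mkIF lf P) F1 F1
      - 18 * (eN P V : ℕ) * nsq z)
    (k3 : n3 ≤ Np D t (mkIF lf P) F1 F2 - 6 * (eN P V : ℕ) * nsq z)
    (k4 : n4 ≤ Np D t (mkIF lf P) F2 F2 - 6 * (eN P V : ℕ) * nsq z) :
    (1 - s) ^ 4 * n0 + 4 * s * (1 - s) ^ 3 * n1 + 6 * s ^ 2 * (1 - s) ^ 2 * n2
      + 4 * s ^ 3 * (1 - s) * n3 + s ^ 4 * n4 ≤ 2 * UU ^ 3 * ev K (fam s w0 w1 w2) := by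
  have hU := UU_pos
  have q00 := Np_err' hP hK hS h0 h0
  have q01 := Np_err' hP hK hS h0 h1
  have q02 := Np_err' hP hK hS h0 h2
  have q11 := Np_err' hP hK hS h1 h1
  have q12 := Np_err' hP hK hS h1 h2
  have q22 := Np_err' hP hK hS h2 h2
  have l := low_ok hP hK (fam s w0 w1 w2)
  have e1 := pol_self (Ph D t (mkIF lf P)) (fam s w0 w1 w2)
  rw [pol_fam] at e1
  set Q := Ph D t (mkIF lf P)
  have m0 : n0 ≤ UU ^ 2 * pol Q w0 w0 := by linarith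
  have m1 : n1 ≤ UU ^ 2 * pol Q w0 w1 := by linarith
  have m2 : n2 ≤ UU ^ 2 * ((pol Q w0 w2 + 2 * pol Q w1 w1) / 3) := by linarith
  have m3 : n3 ≤ UU ^ 2 * pol Q w1 w2 := by linarith
  have m4 : n4 ≤ UU ^ 2 * pol Q w2 w2 := by linarith
  have hs2 : 0 ≤ 1 - s := by linarith
  have b0 := mul_le_mul_of_nonneg_left m0 (by positivity : 0 ≤ (1 - s) ^ 4)
  have b1 := mul_le_mul_of_nonneg_left m1 (by positivity : 0 ≤ 4 * s * (1 - s) ^ 3)
  have b2 := mul_le_mul_of_nonneg_left m2 (by positivity : 0 ≤ 6 * s ^ 2 * (1 - s) ^ 2)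
  have b3 := mul_le_mul_of_nonneg_left m3 (by positivity : 0 ≤ 4 * s ^ 3 * (1 - s))
  have b4 := mul_le_mul_of_nonneg_left m4 (by positivity : 0 ≤ s ^ 4)
  have e2 : UU ^ 2 * (2 * ev Q (fam s w0 w1 w2)) = (1 - s) ^ 4 * (UU ^ 2 * pol Q w0 w0)
      + 4 * s * (1 - s) ^ 3 * (UU ^ 2 * pol Q w0 w1)
      + 6 * s ^ 2 * (1 - s) ^ 2 * (UU ^ 2 * ((pol Q w0 w2 + 2 * pol Q w1 w1) / 3))
      + 4 * s ^ 3 * (1 - s) * (UU ^ 2 * pol Q w1 w2) + s ^ 4 * (UU ^ 2 * pol Q w2 w2) := by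
    rw [← e1]; ring
  have l2 := mul_le_mul_of_nonneg_left l (by positivity : (0 : ℝ) ≤ 2 * UU ^ 2)
  have e3 : 2 * UU ^ 2 * (UU * ev K (fam s w0 w1 w2)) = 2 * UU ^ 3 * ev K (fam s w0 w1 w2) := by
    ring
  rw [e3] at l2
  linarith

/-- the matrices of a family: `R ∈ [Ra, Rb]` -/
theorem fam_BA (s Ra Rb S : ℝ) (z : Fin 3 → ℂ) :
    fam s (yW Ra (Ra ^ 2 - S) (Ra ^ 2 + S) (2 * Ra * S) z)
      (yW ((Ra + Rb) / 2) (Ra * Rb - S) (Ra * Rb + S) (2 * ((Ra + Rb) / 2) * S) z)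
      (yW Rb (Rb ^ 2 - S) (Rb ^ 2 + S) (2 * Rb * S) z) =
    yW ((1 - s) * Ra + s * Rb) (((1 - s) * Ra + s * Rb) ^ 2 - S) (((1 - s) * Ra + s * Rb) ^ 2 + S)
      (2 * ((1 - s) * Ra + s * Rb) * S) z := by
  funext i
  fin_cases i
  · simp only [fam, yW]
    push_cast
    ring
  · simp only [fam, yW]
    push_cast
    ring
  · simp only [fam, yW]
    push_cast
    ring

end Pool.Agent.Helper90.KMT
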