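import Pool.Agent.C75W.Im

/-!
Row K9 (MP_c75db0), part B: numbers as lists of digits.
-/

set_option autoImplicit false
noncomputable section
namespace Pool.Agent.Helper90.K9

/-- `∑_{i < n} f i * b ^ i` -/
def pk (b : ℕ) : ℕ → (ℕ → ℕ) → ℕ
  | 0, _ => 0
  | n + 1, f => f 0 + b * pk b n (fun i => f (i + 1))

/-- the same for integers -/
def pz (b : ℤ) : ℕ → (ℕ → ℤ) → ℤ
  | 0, _ => 0
  | n + 1, f => f 0 + b * pz b n (fun i => f (i + 1))

theorem pk_zero (b : ℕ) (f : ℕ → ℕ) : pk b 0 f = 0 := rfl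
theorem pk_succ (b n : ℕ) (f : ℕ → ℕ) : pk b (n + 1) f = f 0 + b * pk b n (fun i => f (i + 1)) := rfl
theorem pz_succ (b : ℤ) (n : ℕ) (f : ℕ → ℤ) :
    pz b (n + 1) f = f 0 + b * pz b n (fun i => f (i + 1)) := rfl

theorem pk_cast (b : ℕ) : ∀ (n : ℕ) (f : ℕ → ℕ), ((pk b n f : ℕ) : ℤ) = pz b n (fun i => (f i : ℤ))
  | 0, f => rfl
  | n + 1, f => by
    rw [pk_succ, pz_succ]
    push_cast
    rw [pk_cast b n]

theorem pk_congr (b : ℕ) : ∀ (n : ℕ) (f g : ℕ → ℕ), (∀ i < n, f i = g i) → pk b n f = pk b n g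
  | 0, f, g, _ => rfl
  | n + 1, f, g, h => by
    rw [pk_succ, pk_succ, h 0 (Nat.succ_pos n),
      pk_congr b n _ _ (fun i hi => h (i + 1) (Nat.succ_lt_succ hi))]

theorem pz_congr (b : ℤ) : ∀ (n : ℕ) (f g : ℕ → ℤ), (∀ i < n, f i = g i) → pz b n f = pz b n g
  | 0, f, g, _ => rfl
  | n + 1, f, g, h => by
    rw [pz_succ, pz_succ, h 0 (Nat.succ_pos n),
      pz_congr b n _ _ (fun i hi => h (i + 1) (Nat.succ_lt_succ hi))]

theorem pk_add (b : ℕ) : ∀ (n : ℕ) (f g : ℕ → ℕ), pk b n f + pk b n g = pk b n (fun i => f i + g i)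
  | 0, f, g => rfl
  | n + 1, f, g => by
    rw [pk_succ, pk_succ, pk_succ, ← pk_add b n]
    ring

theorem pz_add (b : ℤ) : ∀ (n : ℕ) (f g : ℕ → ℤ), pz b n f + pz b n g = pz b n (fun i => f i + g i)
  | 0, f, g => rfl
  | n + 1, f, g => by
    rw [pz_succ, pz_succ, pz_succ, ← pz_add b n]
    ring

theorem pz_sub (b : ℤ) : ∀ (n : ℕ) (f g : ℕ → ℤ), pz b n f - pz b n g = pz b n (fun i => f i - g i)
  | 0, f, g => rfl
  | n + 1, f, g => by
    rw [pz_succ, pz_succ, pz_succ, ← pz_sub b n]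
    ring

theorem pz_smul (b c : ℤ) : ∀ (n : ℕ) (f : ℕ → ℤ), c * pz b n f = pz b n (fun i => c * f i)
  | 0, f => mul_zero c
  | n + 1, f => by
    rw [pz_succ, pz_succ, ← pz_smul b c n]
    ring

theorem pk_smul (b c : ℕ) : ∀ (n : ℕ) (f : ℕ → ℕ), c * pk b n f = pk b n (fun i => c * f i)
  | 0, f => mul_zero c
  | n + 1, f => by
    rw [pk_succ, pk_succ, ← pk_smul b c n]
    ring

theorem pz_last (b : ℤ) : ∀ (n : ℕ) (f : ℕ → ℤ), pz b (n + 1) f = pz b n f + b ^ n * f n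
  | 0, f => by
    rw [pz_succ]
    show f 0 + b * 0 = 0 + b ^ 0 * f 0
    ring
  | n + 1, f => by
    rw [pz_succ, pz_last b n, pz_succ]
    ring

theorem pk_last (b : ℕ) : ∀ (n : ℕ) (f : ℕ → ℕ), pk b (n + 1) f = pk b n f + b ^ n * f n
  | 0, f => by
    rw [pk_succ]
    show f 0 + b * 0 = 0 + b ^ 0 * f 0
    ring
  | n + 1, f => by
    rw [pk_succ, pk_last b n, pk_succ]
    ring

theorem pk_split (b : ℕ) : ∀ (m n : ℕ) (f : ℕ → ℕ),
    pk b (m + n) f = pk b m f + b ^ m * pk b n (fun i => f (m + i))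
  | 0, n, f => by
    rw [pk_zero, pow_zero, one_mul, zero_add, Nat.zero_add]
    exact pk_congr b n _ _ fun i _ => by rw [Nat.zero_add]
  | m + 1, n, f => by
    have e : m + 1 + n = (m + n) + 1 := by omega
    rw [e, pk_succ, pk_split b m n, pk_succ]
    have e2 : (fun i => f (m + 1 + i)) = fun i => f (m + i + 1) := by
      funext i
      congr 1
      omega
    rw [e2, pow_succ]
    ring

theorem pk_nest (b m : ℕ) : ∀ (n : ℕ) (f : ℕ → ℕ),
    pk b (m * n) f = pk (b ^ m) n (fun i => pk b m (fun j => f (m * i + j)))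
  | 0, f => rfl
  | n + 1, f => by
    have e : m * (n + 1) = m + m * n := by ring
    rw [e, pk_split, pk_nest b m n, pk_succ]
    congr 1
    · exact pk_congr b m _ _ fun i _ => by simp
    · congr 1
      refine pk_congr _ _ _ _ fun i _ => pk_congr _ _ _ _ fun j _ => ?_
      congr 1
      ring

theorem pk_lt {b : ℕ} (hb : 0 < b) : ∀ (n : ℕ) (f : ℕ → ℕ), (∀ i < n, f i < b) → pk b n f < b ^ n
  | 0, f, _ => by rw [pk_zero, pow_zero]; exact Nat.one_pos
  | n + 1, f, h => by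
    have h1 := pk_lt hb n (fun i => f (i + 1)) (fun i hi => h (i + 1) (Nat.succ_lt_succ hi))
    have h0 := h 0 (Nat.succ_pos n)
    rw [pk_succ, pow_succ]
    have h2 : b * pk b n (fun i => f (i + 1)) + b ≤ b * b ^ n := by
      have := Nat.mul_le_mul_left b (Nat.succ_le_of_lt h1)
      rw [Nat.mul_succ] at this
      exact this
    have e : b ^ n * b = b * b ^ n := Nat.mul_comm _ _
    omega

theorem pk_inj {b : ℕ} (hb : 0 < b) : ∀ (n : ℕ) (f g : ℕ → ℕ), (∀ i < n, f i < b) →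
    (∀ i < n, g i < b) → pk b n f = pk b n g → ∀ i < n, f i = g i
  | 0, f, g, _, _, _ => fun i hi => absurd hi (Nat.not_lt_zero i)
  | n + 1, f, g, hf, hg, h => by
    rw [pk_succ, pk_succ] at h
    have f0 := hf 0 (Nat.succ_pos n)
    have g0 := hg 0 (Nat.succ_pos n)
    have h0 : f 0 = g 0 := by
      have := congrArg (· % b) h
      simp only [Nat.add_mul_mod_self_left, Nat.mod_eq_of_lt f0, Nat.mod_eq_of_lt g0] at this
      exact this
    have h1 : pk b n (fun i => f (i + 1)) = pk b n (fun i => g (i + 1)) := by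
      rw [h0] at h
      exact Nat.eq_of_mul_eq_mul_left hb (Nat.add_left_cancel h)
    have ih := pk_inj hb n _ _ (fun i hi => hf (i + 1) (Nat.succ_lt_succ hi))
      (fun i hi => hg (i + 1) (Nat.succ_lt_succ hi)) h1
    intro i hi
    cases i with
    | zero => exact h0
    | succ i => exact ih i (Nat.lt_of_succ_lt_succ hi)

/-- `land` splits at a power of two -/
theorem land_split (e a c m n : ℕ) (ha : a < 2 ^ e) (hm : m < 2 ^ e) :
    (a + 2 ^ e * c) &&& (m + 2 ^ e * n) = (a &&& m) + 2 ^ e * (c &&& n) := by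
  have ham : a &&& m < 2 ^ e := lt_of_le_of_lt Nat.and_le_left ha
  apply Nat.eq_of_testBit_eq
  intro j
  rw [Nat.testBit_and, Nat.add_comm a, Nat.add_comm m, Nat.add_comm (a &&& m),
    Nat.testBit_two_pow_mul_add c ha, Nat.testBit_two_pow_mul_add n hm,
    Nat.testBit_two_pow_mul_add (c &&& n) ham]
  by_cases h : j < e
  · rw [if_pos h, if_pos h, if_pos h, Nat.testBit_and]
  · rw [if_neg h, if_neg h, if_neg h, Nat.testBit_and]

/-- SHIFT AND MASK, digitwise -/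
theorem shl_pk {e k : ℕ} (hk : k ≤ e) : ∀ (n : ℕ) (f g : ℕ → ℕ) (R : ℕ), (∀ i < n, f i < 2 ^ e) →
    (∀ i < n, g i < 2 ^ (e - k)) →
    ((pk (2 ^ e) n f + (2 ^ e) ^ n * R) >>> k) &&& pk (2 ^ e) n g =
      pk (2 ^ e) n (fun i => (f i >>> k) &&& g i)
  | 0, f, g, R, _, _ => by
    rw [pk_zero, pk_zero, pk_zero]
    exact Nat.and_zero _
  | n + 1, f, g, R, hf, hg => by
    have f0 := hf 0 (Nat.succ_pos n)
    have g0 := hg 0 (Nat.succ_pos n)
    have ih := shl_pk hk n (fun i => f (i + 1)) (fun i => g (i + 1)) R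
      (fun i hi => hf (i + 1) (Nat.succ_lt_succ hi)) (fun i hi => hg (i + 1) (Nat.succ_lt_succ hi))
    set X := pk (2 ^ e) n (fun i => f (i + 1)) + (2 ^ e) ^ n * R with hX
    have e1 : pk (2 ^ e) (n + 1) f + (2 ^ e) ^ (n + 1) * R = f 0 + 2 ^ e * X := by
      rw [pk_succ, pow_succ, hX]
      ring
    have he : (2 : ℕ) ^ e = 2 ^ k * 2 ^ (e - k) := by
      rw [← pow_add]
      congr 1
      omega
    -- the shifted number
    have q0 : f 0 / 2 ^ k < 2 ^ (e - k) := by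
      rw [Nat.div_lt_iff_lt_mul (by positivity), Nat.mul_comm, ← he]
      exact f0
    have e2 : (f 0 + 2 ^ e * X) >>> k = f 0 / 2 ^ k + 2 ^ (e - k) * X := by
      rw [Nat.shiftRight_eq_div_pow, he, Nat.mul_assoc, Nat.add_mul_div_left _ _ (by positivity)]
    -- split X
    have e3 : f 0 / 2 ^ k + 2 ^ (e - k) * X =
        (f 0 / 2 ^ k + 2 ^ (e - k) * (X % 2 ^ k)) + 2 ^ e * (X / 2 ^ k) := by
      have h1 := Nat.mod_add_div X (2 ^ k)
      calc f 0 / 2 ^ k + 2 ^ (e - k) * X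
          = f 0 / 2 ^ k + 2 ^ (e - k) * (X % 2 ^ k + 2 ^ k * (X / 2 ^ k)) := by rw [h1]
        _ = _ := by rw [he]; ring
    have low : f 0 / 2 ^ k + 2 ^ (e - k) * (X % 2 ^ k) < 2 ^ e := by
      have hm := Nat.mod_lt X (Nat.two_pow_pos k)
      have h3 : 2 ^ (e - k) * (X % 2 ^ k) + 2 ^ (e - k) ≤ 2 ^ (e - k) * 2 ^ k := by
        have := Nat.mul_le_mul_left (2 ^ (e - k)) (Nat.succ_le_of_lt hm)
        rw [Nat.mul_succ] at this
        exact this
      have h4 : 2 ^ (e - k) * 2 ^ k = 2 ^ e := by rw [he, Nat.mul_comm]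
      omega
    have g0' : g 0 < 2 ^ e := lt_of_lt_of_le g0 (Nat.pow_le_pow_right (by norm_num) (Nat.sub_le e k))
    rw [e1, e2, e3, pk_succ, land_split e _ _ _ _ low g0', pk_succ]
    congr 1
    · -- low part
      have h5 := land_split (e - k) (f 0 / 2 ^ k) (X % 2 ^ k) (g 0) 0 q0 g0
      rw [Nat.mul_zero, Nat.add_zero] at h5
      rw [h5, Nat.and_zero, Nat.mul_zero, Nat.add_zero, Nat.shiftRight_eq_div_pow]
    · congr 1
      rw [← ih, Nat.shiftRight_eq_div_pow]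

/-- masks without shift -/
theorem land_pk {e : ℕ} (n : ℕ) (f g : ℕ → ℕ) (R : ℕ) (hf : ∀ i < n, f i < 2 ^ e)
    (hg : ∀ i < n, g i < 2 ^ e) :
    (pk (2 ^ e) n f + (2 ^ e) ^ n * R) &&& pk (2 ^ e) n g = pk (2 ^ e) n (fun i => f i &&& g i) := by
  have h := shl_pk (Nat.zero_le e) n f g R hf (by rw [Nat.sub_zero]; exact hg)
  simp only [Nat.shiftRight_zero] at h
  exact h

/-- dropping the first slot of all rows -/
theorem drop_pk {b : ℕ} (hb : 0 < b) (m : ℕ) : ∀ (n : ℕ) (s t : ℕ → ℕ), (∀ i < n, s i < b) →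
    s n = 0 → (pk (b ^ (m + 1)) n (fun i => s i + b * t i)) / b =
      pk (b ^ (m + 1)) n (fun i => t i + b ^ m * s (i + 1))
  | 0, s, t, _, _ => by
    rw [pk_zero, pk_zero]
    exact Nat.zero_div b
  | 1, s, t, hs, h0 => by
    have e0 : s (0 + 1) = 0 := h0
    rw [pk_succ, pk_succ, pk_zero, pk_zero, Nat.mul_zero, Nat.add_zero, Nat.add_zero, e0,
      Nat.add_mul_div_left _ _ hb, Nat.div_eq_of_lt (hs 0 Nat.one_pos)]
    ring
  | n + 2, s, t, hs, h0 => by
    have ih := drop_pk hb m (n + 1) (fun i => s (i + 1)) (fun i => t (i + 1))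
      (fun i hi => hs (i + 1) (Nat.succ_lt_succ hi)) h0
    have s0 := hs 0 (Nat.succ_pos _)
    have s1 := hs 1 (by omega)
    rw [pk_succ]
    have e1 : s 0 + b * t 0 + b ^ (m + 1) * pk (b ^ (m + 1)) (n + 1)
        (fun i => s (i + 1) + b * t (i + 1)) =
        s 0 + b * (t 0 + b ^ m * pk (b ^ (m + 1)) (n + 1) (fun i => s (i + 1) + b * t (i + 1))) := by
      rw [pow_succ]; ring
    rw [e1, Nat.add_mul_div_left _ _ hb, Nat.div_eq_of_lt s0, Nat.zero_add, pk_succ (b ^ (m + 1)) (n + 1)]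
    -- the number below is s 1 + b * (number / b)
    set Y := pk (b ^ (m + 1)) (n + 1) (fun i => s (i + 1) + b * t (i + 1)) with hY
    have hmod : Y % b = s 1 := by
      rw [hY, pk_succ]
      have : s (0 + 1) + b * t (0 + 1) + b ^ (m + 1) * pk (b ^ (m + 1)) n
          (fun i => s (i + 1 + 1) + b * t (i + 1 + 1)) =
          s 1 + b * (t 1 + b ^ m * pk (b ^ (m + 1)) n
            (fun i => s (i + 1 + 1) + b * t (i + 1 + 1))) := by
        rw [pow_succ]; ring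
      rw [this, Nat.add_mul_mod_self_left, Nat.mod_eq_of_lt s1]
    have hdm := Nat.mod_add_div Y b
    rw [hmod, ih] at hdm
    have e2 : b ^ m * Y = b ^ m * s 1 + b ^ (m + 1) * pk (b ^ (m + 1)) (n + 1)
        (fun i => t (i + 1) + b ^ m * s (i + 1 + 1)) := by
      rw [← hdm, pow_succ]; ring
    rw [e2]
    ring

end Pool.Agent.Helper90.K9
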