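import Pool.Agent.Helper90.CX.KT0
import Pool.Agent.Helper86.CT.KerT

/-!
Row KMT, part 1: the laws of the nested algebras of controls of KerT.
-/

set_option autoImplicit false
noncomputable section
namespace Pool.Agent.Helper90.KMT

open Pool.Agent.Helper90.C75
open Pool.Agent.Helper86.C75 (Z)
open Pool.Agent.Helper86.CX (Cx cadd csub cmul cconj cq4 cdiv nb mx andB one1 mOK1)
open Pool.Agent.Helper86.CT (N3 DF Alg mxL un bi mulN nbN dfN nx Tst tstN nxT)
open Pool.Agent.Helper90.KMO

variable {α : Type}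

/-! ### values of controls -/

/-- controls -/
def c3 : N3 α → Fin 3 → α
  | .k x => fun _ => x
  | .q x y z => ![x, y, z]

/-- leaves -/
def nlf {D : ℕ} (l : α → Vt D → ℂ) (x : N3 α) (v : Vt (D + 1)) : ℂ := l (c3 x v.2) v.1

theorem c3_bi (f : α → α → α) (x y : N3 α) (i : Fin 3) :
    c3 (bi f x y) i = f (c3 x i) (c3 y i) := by
  cases x <;> cases y <;> fin_cases i <;> rfl

theorem c3_un (f : α → α) (x : N3 α) (i : Fin 3) : c3 (un f x) i = f (c3 x i) := by
  cases x <;> fin_cases i <;> rfl

/-- bounds as real numbers -/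
def rl (x : DF) : ℝ × ℝ := (x.D, x.F)

/-- the laws of an algebra of controls -/
structure AOK (D : ℕ) (lf : α → Vt D → ℂ) (A : Alg α) : Prop where
  law : LF D lf A.add A.sub A.mul A.cj A.q4
  cst : ∀ c v, lf (A.cs c) v = cz c
  mag : ∀ x v, ‖lf x v‖ ≤ A.nb x
  len : ∀ x, (A.df x).length = D
  szs : ∀ x, DL D (lf x) ((A.df x).map rl)

/-- the law of a test -/
def TLW (D : ℕ) (lf : α → Vt D → ℂ) (T : Tst α) : Prop :=
  ∀ (m : ℕ) (x u : α), T.t m x u = true → (∀ v, 0 ≤ (lf x v).im) →
    ∀ v, (m : ℝ) ≤ (lf x v).im - (lf u v).im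

/-! ### leaves -/

def lf0 (x : Cx) (_ : Vt 0) : ℂ := cz x

theorem A0_ok : AOK 0 lf0 Pool.Agent.Helper86.CT.A0 := by
  refine ⟨⟨fun x y v => cz_add x y, fun x y v => cz_sub x y, fun x v => cz_conj x,
    fun x v => (cz_cq4 x).1, fun x y v => ?_⟩, fun c v => rfl, fun x v => nb_le x, fun x => rfl,
    fun x => trivial⟩
  simp only [eD, mulT, lf0]
  exact (cz_cmul x y).1

theorem T0_ok : TLW 0 lf0 Pool.Agent.Helper86.CT.T0 :=
  fun _ _ _ h hx v => mOK1_at h (hx v)

/-! ### the next level -/

theorem DL_mono {D : ℕ} {F : Vt D → ℂ} {l l' : List (ℝ × ℝ)}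
    (h : List.Forall₂ (fun x y => x.1 ≤ y.1 ∧ x.2 ≤ y.2) l l') (hl : DL D F l) : DL D F l' := by
  induction D generalizing l l' with
  | zero => trivial
  | succ D ih =>
    cases h with
    | nil => exact hl.elim
    | cons hx ht =>
      obtain ⟨a1, a2, a3⟩ := hl
      exact ⟨fun v => (a1 v).trans hx.1, fun v => (a2 v).trans hx.2, fun i => ih ht (a3 i)⟩

theorem forall2_trans : ∀ {l l' l'' : List (ℝ × ℝ)},
    List.Forall₂ (fun x y : ℝ × ℝ => x.1 ≤ y.1 ∧ x.2 ≤ y.2) l l' →
    List.Forall₂ (fun x y : ℝ × ℝ => x.1 ≤ y.1 ∧ x.2 ≤ y.2) l' l'' →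
    List.Forall₂ (fun x y : ℝ × ℝ => x.1 ≤ y.1 ∧ x.2 ≤ y.2) l l''
  | _, _, _, .nil, .nil => .nil
  | _, _, _, .cons h t, .cons h' t' => .cons ⟨h.1.trans h'.1, h.2.trans h'.2⟩ (forall2_trans t t')

theorem mxL_cons (x y : DF) (l l' : List DF) :
    mxL (x :: l) (y :: l') = ⟨mx x.D y.D, mx x.F y.F⟩ :: mxL l l' := rfl

theorem mxL_len : ∀ {l l' : List DF} {n : ℕ}, l.length = n → l'.length = n →
    (mxL l l').length = n
  | [], l', n, h, _ => by subst h; rfl
  | x :: l, [], n, h, h' => by subst h'; cases h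
  | x :: l, y :: l', n, h, h' => by
    cases n with
    | zero => cases h
    | succ n =>
      rw [mxL_cons, List.length_cons, mxL_len (n := n) (by simpa using h) (by simpa using h')]

theorem mxL_l : ∀ {l l' : List DF}, l.length = l'.length →
    List.Forall₂ (fun x y => x.1 ≤ y.1 ∧ x.2 ≤ y.2) (l.map rl) ((mxL l l').map rl)
  | [], l', _ => List.Forall₂.nil
  | x :: l, [], h => by cases h
  | x :: l, y :: l', h => by
    rw [mxL_cons]
    exact List.Forall₂.cons ⟨mx_l _ _, mx_l _ _⟩ (mxL_l (by simpa using h))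

theorem mxL_r : ∀ {l l' : List DF}, l.length = l'.length →
    List.Forall₂ (fun x y => x.1 ≤ y.1 ∧ x.2 ≤ y.2) (l'.map rl) ((mxL l l').map rl)
  | [], [], _ => List.Forall₂.nil
  | [], y :: l', h => by cases h
  | x :: l, [], h => by cases h
  | x :: l, y :: l', h => by
    rw [mxL_cons]
    exact List.Forall₂.cons ⟨mx_r _ _, mx_r _ _⟩ (mxL_r (by simpa using h))

/-- THE STEP -/
theorem LF.step {D : ℕ} {lf : α → Vt D → ℂ} {A : Alg α}
    (L : LF D lf A.add A.sub A.mul A.cj A.q4) :
    LF (D + 1) (nlf lf) (bi A.add) (bi A.sub) (mulN A) (un A.cj)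
      (un A.q4) := by
  refine ⟨fun x y v => ?_, fun x y v => ?_, fun x v => ?_, fun x v => ?_, fun x y v => ?_⟩
  · simp only [nlf, c3_bi, L.hadd]
  · simp only [nlf, c3_bi, L.hsub]
  · simp only [nlf, c3_un, L.hconj]
  · simp only [nlf, c3_un]
    exact L.hq4 _ _
  · have hU := UU_pos
    have e0 := eD_nonneg D
    have hle : eD D ≤ eD (D + 1) := by simp only [eD]; linarith
    obtain ⟨u, i⟩ := v
    -- the outer controls
    have hout : ∀ a b : α, ‖lf (A.mul a b) u - mulT D (lf a) (lf b) u / UU‖ ≤ eD (D + 1) :=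
      fun a b => (L.hmul a b u).trans hle
    by_cases hi : i = 1
    · subst hi
      have em : mulT (D + 1) (nlf lf x) (nlf lf y) (u, 1) =
          mulT D (lf (c3 x 1)) (lf (c3 y 1)) u -
          mulT D (fun w => lf (c3 x 2) w - lf (c3 x 0) w) (fun w => lf (c3 y 2) w - lf (c3 y 0) w)
            u / 4 := by
        simp only [mulT, if_true]
        rfl
      rw [em]
      cases x with
      | k x =>
        have e1 : (fun w => lf (c3 (N3.k x) 2) w - lf (c3 (N3.k x) 0) w) = fun _ => (0 : ℂ) := by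
          funext w; exact sub_self _
        rw [e1, mulT_zero_left, zero_div, sub_zero]
        cases y with
        | k y => exact hout _ _
        | q a' c' b' => exact hout _ _
      | q a c b =>
        cases y with
        | k y =>
          have e1 : (fun w => lf (c3 (N3.k y) 2) w - lf (c3 (N3.k y) 0) w) = fun _ => (0 : ℂ) := by
            funext w; exact sub_self _
          rw [e1, mulT_zero_right, zero_div, sub_zero]
          exact hout _ _
        | q a' c' b' =>
          have e1 : (fun w => lf (c3 (N3.q a c b) 2) w - lf (c3 (N3.q a c b) 0) w)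
              = lf (A.sub b a) := by
            funext w; exact (L.hsub b a w).symm
          have e2 : (fun w => lf (c3 (N3.q a' c' b') 2) w - lf (c3 (N3.q a' c' b') 0) w)
              = lf (A.sub b' a') := by
            funext w; exact (L.hsub b' a' w).symm
          rw [e1, e2]
          have e3 : nlf lf (mulN A (N3.q a c b) (N3.q a' c' b')) (u, 1)
              = lf (A.mul c c') u - lf (A.q4 (A.mul (A.sub b a) (A.sub b' a'))) u := L.hsub _ _ _
          rw [e3]
          have h1 := L.hmul c c' u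
          have h2 := L.hmul (A.sub b a) (A.sub b' a') u
          have h3 := L.hq4 (A.mul (A.sub b a) (A.sub b' a')) u
          set P := lf (A.mul c c') u
          set Q := lf (A.mul (A.sub b a) (A.sub b' a')) u
          set T := lf (A.q4 (A.mul (A.sub b a) (A.sub b' a'))) u
          set X := mulT D (lf (A.sub b a)) (lf (A.sub b' a')) u
          have e4 : P - T - (mulT D (lf (c3 (N3.q a c b) 1)) (lf (c3 (N3.q a' c' b') 1)) u
              - X / 4) / UU
              = (P - mulT D (lf c) (lf c') u / UU) - ((T - Q / 4) + (Q - X / UU) / 4) := by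
            have : mulT D (lf (c3 (N3.q a c b) 1)) (lf (c3 (N3.q a' c' b') 1)) u
                = mulT D (lf c) (lf c') u := rfl
            rw [this]; ring
          rw [e4]
          have h5 := norm_sub_le (P - mulT D (lf c) (lf c') u / UU) ((T - Q / 4) + (Q - X / UU) / 4)
          have h6 := norm_add_le (T - Q / 4) ((Q - X / UU) / 4)
          have h7 : ‖(Q - X / UU) / 4‖ ≤ eD D / 4 := by
            rw [norm_div]
            have h4 : ‖(4 : ℂ)‖ = 4 := by norm_num
            rw [h4]
            linarith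
          simp only [eD]
          linarith
    · have em : mulT (D + 1) (nlf lf x) (nlf lf y) (u, i) =
          mulT D (lf (c3 x i)) (lf (c3 y i)) u := by
        simp only [mulT, hi, if_false]
        rfl
      rw [em]
      have e1 : c3 (mulN A x y) i = A.mul (c3 x i) (c3 y i) := by
        cases x <;> cases y <;> fin_cases i <;> first | rfl | exact absurd rfl hi
      have e2 : nlf lf (mulN A x y) (u, i) = lf (A.mul (c3 x i) (c3 y i)) u := by
        show lf (c3 (mulN A x y) i) u = _
        rw [e1]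
      rw [e2]
      exact hout _ _

theorem nmag (A : Alg α) {D : ℕ} {lf : α → Vt D → ℂ} (h : ∀ x v, ‖lf x v‖ ≤ A.nb x) (x : N3 α)
    (v : Vt (D + 1)) : ‖nlf lf x v‖ ≤ nbN A x := by
  obtain ⟨u, i⟩ := v
  cases x with
  | k a => exact h a u
  | q a c b =>
    show ‖lf (c3 (N3.q a c b) i) u‖ ≤ ((mx (A.nb a) (mx (A.nb c) (A.nb b)) : ℕ) : ℝ)
    fin_cases i
    · exact (h a u).trans (mx_l _ _)
    · exact (h c u).trans ((mx_l _ _).trans (mx_r _ _))
    · exact (h b u).trans ((mx_r _ _).trans (mx_r _ _))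

/-- THE NEXT LEVEL -/
theorem AOK.nx {D : ℕ} {lf : α → Vt D → ℂ} {A : Alg α} (h : AOK D lf A) :
    AOK (D + 1) (nlf lf) (Pool.Agent.Helper86.CT.nx A) := by
  refine ⟨h.law.step, fun c v => h.cst c v.1, nmag A h.mag, fun x => ?_, fun x => ?_⟩
  · cases x with
    | k a => show (_ :: A.df a).length = D + 1; rw [List.length_cons, h.len]
    | q a c b =>
      show (_ :: mxL (A.df a) (mxL (A.df c) (A.df b))).length = D + 1
      rw [List.length_cons, mxL_len (h.len a) (mxL_len (h.len c) (h.len b))]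
  · cases x with
    | k a =>
      refine ⟨fun v => ?_, fun v => ?_, fun i => h.szs a⟩
      · show ‖lf a v - lf a v‖ ≤ ((nat_lit 0 : ℕ) : ℝ)
        simp
      · show ‖lf a v - (lf a v + lf a v) / 2‖ ≤ ((nat_lit 0 : ℕ) : ℝ)
        have : lf a v - (lf a v + lf a v) / 2 = 0 := by ring
        rw [this]
        simp
    | q a c b =>
      have l1 := h.len a
      have l2 := h.len c
      have l3 := h.len b
      have l4 := mxL_len l2 l3
      refine ⟨fun v => ?_, fun v => ?_, fun i => ?_⟩
      · show ‖lf b v - lf a v‖ ≤ ((A.nb (A.sub b a) : ℕ) : ℝ)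
        rw [← h.law.hsub]
        exact h.mag _ _
      · show ‖lf c v - (lf a v + lf b v) / 2‖ ≤ ((Nat.add (Nat.div (A.nb (A.sub (A.add c c)
          (A.add a b))) (nat_lit 2)) (nat_lit 1) : ℕ) : ℝ)
        have e : lf c v - (lf a v + lf b v) / 2 = lf (A.sub (A.add c c) (A.add a b)) v / 2 := by
          rw [h.law.hsub, h.law.hadd, h.law.hadd]
          ring
        rw [e, norm_div, c_add]
        have h2 : ‖(2 : ℂ)‖ = 2 := by norm_num
        rw [h2]
        have h3 := c_div2 (A.nb (A.sub (A.add c c) (A.add a b)))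
        have h4 := h.mag (A.sub (A.add c c) (A.add a b)) v
        have g1 : ((nat_lit 1 : ℕ) : ℝ) = 1 := by norm_num
        rw [g1]
        linarith
      · show DL D (fun v => lf (c3 (N3.q a c b) i) v)
          ((mxL (A.df a) (mxL (A.df c) (A.df b))).map rl)
        fin_cases i
        · exact DL_mono (mxL_l (l1.trans l4.symm)) (h.szs a)
        · refine DL_mono ?_ (h.szs c)
          have r1 := mxL_l (l2.trans l3.symm)
          have r2 := mxL_r (l1.trans l4.symm)
          exact forall2_trans r1 r2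
        · refine DL_mono ?_ (h.szs b)
          have r1 := mxL_r (l2.trans l3.symm)
          have r2 := mxL_r (l1.trans l4.symm)
          exact forall2_trans r1 r2

theorem TLW.nx {D : ℕ} {lf : α → Vt D → ℂ} {T : Tst α} (h : TLW D lf T) :
    TLW (D + 1) (nlf lf) (nxT T) := by
  intro m x u hxu hx v
  obtain ⟨w, i⟩ := v
  have key : T.t m (c3 x i) (c3 u i) = true := by
    cases x with
    | k x =>
      cases u with
      | k y => exact hxu
      | q a c b =>
        have hxu' : andB (T.t m x a) (andB (T.t m x c) (T.t m x b)) = true := hxu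
        obtain ⟨h1, h2⟩ := andB_t hxu'
        obtain ⟨h2, h3⟩ := andB_t h2
        fin_cases i
        · exact h1
        · exact h2
        · exact h3
    | q a c b =>
      cases u with
      | k y =>
        have hxu' : andB (T.t m a y) (andB (T.t m c y) (T.t m b y)) = true := hxu
        obtain ⟨h1, h2⟩ := andB_t hxu'
        obtain ⟨h2, h3⟩ := andB_t h2
        fin_cases i
        · exact h1
        · exact h2
        · exact h3
      | q a' c' b' =>
        have hxu' : andB (T.t m a a') (andB (T.t m c c') (T.t m b b')) = true := hxu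
        obtain ⟨h1, h2⟩ := andB_t hxu'
        obtain ⟨h2, h3⟩ := andB_t h2
        fin_cases i
        · exact h1
        · exact h2
        · exact h3
  exact h m _ _ key (fun v => hx (v, i)) w

/-! ### the algebras of depth 1 to 4 -/

theorem A1_ok : AOK 1 (nlf lf0) Pool.Agent.Helper86.CT.A1 := A0_ok.nx
theorem A2_ok : AOK 2 (nlf (nlf lf0)) Pool.Agent.Helper86.CT.A2 := A1_ok.nx
theorem A3_ok : AOK 3 (nlf (nlf (nlf lf0))) Pool.Agent.Helper86.CT.A3 := A2_ok.nx
theorem A4_ok : AOK 4 (nlf (nlf (nlf (nlf lf0)))) Pool.Agent.Helper86.CT.A4 := A3_ok.nx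

theorem T1_ok : TLW 1 (nlf lf0) Pool.Agent.Helper86.CT.T1 := T0_ok.nx
theorem T2_ok : TLW 2 (nlf (nlf lf0)) Pool.Agent.Helper86.CT.T2 := T1_ok.nx
theorem T3_ok : TLW 3 (nlf (nlf (nlf lf0))) Pool.Agent.Helper86.CT.T3 := T2_ok.nx
theorem T4_ok : TLW 4 (nlf (nlf (nlf (nlf lf0)))) Pool.Agent.Helper86.CT.T4 := T3_ok.nx

end Pool.Agent.Helper90.KMT
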