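import Pool.Agent.Helper90.CX.KCB1

/-!
Row KCB, part 2: `SN` of a product of two matrix trees is `4 ^ m` times the polarised form `Np`.
-/

set_option autoImplicit false
set_option exponentiation.threshold 4000
noncomputable section
namespace Pool.Agent.Helper90.KMT

open Pool.Agent.Helper90.C75
open Pool.Agent.Helper86.CX (Hm ev mkH Cx)
open Pool.Agent.Helper86.CT (Mo Qd KM)
open Pool.Agent.Helper90.KMO
open Pool.Agent.Helper17.KPT (CL SN PI pI fz fk cf gf c5 e5 un9 toF NBp sum5 sum9 fk_apply cf_apply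
  gf_apply fk_mu2 fz_toF mulZ mu2 FSh and2 cnt eval_mulZ)
open Pool.Agent.Helper17.PAK (sc)
open Complex ComplexConjugate

variable {α : Type} {D : ℕ} {lf : α → Vt D → ℂ} {t : ℕ → ℝ}

/-- the nine real leaf functions of a form -/
def PR (lC : α → Vt D → Cx) (P : KM α) (k : Fin 9) (v : Vt D) : ℝ := ((PI lC P v k : ℤ) : ℝ)
/-- the five real leaf functions of a matrix -/
def XR (lC : α → Vt D → Cx) (X : Qd α) (a : Fin 5) (v : Vt D) : ℝ := ((XI lC X v a : ℤ) : ℝ)

theorem mulT_sum_right {ι : Type} (s : Finset ι) (D : ℕ) (F : Vt D → ℂ) (G : ι → Vt D → ℂ) :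
    mulT D F (fun v => ∑ i ∈ s, G i v) = fun v => ∑ i ∈ s, mulT D F (G i) v := by
  classical
  induction s using Finset.induction_on with
  | empty =>
    simp only [Finset.sum_empty]
    exact mulT_zero_right D F
  | insert a s ha ih =>
    simp only [Finset.sum_insert ha]
    rw [mulT_add_right, ih]

theorem avg_sum' {ι : Type} (s : Finset ι) (w : Vt D → ℝ) (G : ι → Vt D → ℂ) :
    avg w (fun v => ∑ i ∈ s, G i v) = ∑ i ∈ s, avg w (G i) := by
  unfold avg
  rw [Finset.sum_comm]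
  refine Finset.sum_congr rfl fun v _ => ?_
  rw [Finset.mul_sum]

/-- THE LEAF SUM OF A PRODUCT OF TWO MATRICES -/
theorem SN_eq {lC : α → Vt D → Cx} (P : KM α) {X Y : Qd α} {lX lY : List Bool}
    (hX : FSh D lX (XI lC X)) (hY : FSh D lY (XI lC Y)) (w : Fin 3 → ℂ) :
    SN D t (PI lC P) (mulZ mu2 D (and2 lX lY) (XI lC X) (XI lC Y)) w =
      4 ^ cnt (and2 lX lY) * ∑ k, ∑ a, ∑ b, ev (sc 1 (NBp (e5 a) (e5 b) (un9 k))) w *
        tr D t (PR lC P k) (XR lC X a) (XR lC Y b) := by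
  have h1 : ∀ (k : Fin 9), (fun u => fz w (mulZ mu2 D (and2 lX lY) (XI lC X) (XI lC Y) u k)) =
      fun u => (4 ^ cnt (and2 lX lY) : ℂ) * ∑ p : Fin 5 × Fin 5, c5 w k p.1 p.2 *
        mulT D (fun v => (XR lC X p.1 v : ℂ)) (fun v => (XR lC Y p.2 v : ℂ)) u := by
    intro k
    funext u
    have h := eval_mulZ (fk_mu2 w k) hX hY u
    rw [fk_apply] at h
    rw [h]
    congr 1
    refine Finset.sum_congr rfl fun p _ => ?_
    have e1 : (fun v => cf p.1 (XI lC X v)) = fun v => (XR lC X p.1 v : ℂ) := by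
      funext v
      rw [cf_apply]
      unfold XR
      push_cast
      rfl
    have e2 : (fun v => gf (c5 w k p.1 p.2) p.2 (XI lC Y v)) =
        fun v => c5 w k p.1 p.2 * (XR lC Y p.2 v : ℂ) := by
      funext v
      rw [gf_apply]
      unfold XR
      push_cast
      rfl
    rw [e1, e2, mulT_smul_right]
  unfold SN
  have h2 : (fun u => ∑ k, mulT D (fun u => ((PI lC P u k : ℤ) : ℂ)) (fun u => fz w
      (mulZ mu2 D (and2 lX lY) (XI lC X) (XI lC Y) u k)) u) =
      fun u => ∑ k, (4 ^ cnt (and2 lX lY) : ℂ) * ∑ p : Fin 5 × Fin 5, c5 w k p.1 p.2 *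
        mulT D (fun v => (PR lC P k v : ℂ)) (mulT D (fun v => (XR lC X p.1 v : ℂ))
          (fun v => (XR lC Y p.2 v : ℂ))) u := by
    funext u
    refine Finset.sum_congr rfl fun k _ => ?_
    rw [h1, mulT_smul_right, mulT_sum_right]
    simp only [mulT_smul_right]
    rfl
  rw [h2, avg_sum', Complex.re_sum, Finset.mul_sum]
  refine Finset.sum_congr rfl fun k _ => ?_
  rw [avg_smul, avg_sum']
  have h3 : (∑ p : Fin 5 × Fin 5, avg (wtT D t) (fun v => c5 w k p.1 p.2 *
      mulT D (fun v => (PR lC P k v : ℂ)) (mulT D (fun v => (XR lC X p.1 v : ℂ))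
        (fun v => (XR lC Y p.2 v : ℂ))) v)) =
      ((∑ a, ∑ b, ev (sc 1 (NBp (e5 a) (e5 b) (un9 k))) w *
        tr D t (PR lC P k) (XR lC X a) (XR lC Y b) : ℝ) : ℂ) := by
    rw [Fintype.sum_prod_type]
    push_cast
    refine Finset.sum_congr rfl fun a _ => Finset.sum_congr rfl fun b _ => ?_
    rw [avg_smul]
    have := th_real (t := t) (PR lC P k) (XR lC X a) (XR lC Y b)
    unfold th at this
    rw [this]
    have h5 : c5 w k a b = ((ev (sc 1 (NBp (e5 a) (e5 b) (un9 k))) w : ℝ) : ℂ) := by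
      unfold c5
      rw [fz_toF]
    rw [h5]
  rw [h3]
  have h4 : (4 : ℂ) ^ cnt (and2 lX lY) = ((4 ^ cnt (and2 lX lY) : ℝ) : ℂ) := by push_cast; rfl
  rw [h4, ← Complex.ofReal_mul, Complex.ofReal_re]

theorem Bv_e5 (w : Fin 3 → ℂ) (a : Fin 5) : Bv (e5 a) w = fun i => mB w i a := by
  funext i
  unfold Bv e5
  rw [Finset.sum_eq_single a]
  · simp
  · intro b _ hb
    simp [hb]
  · intro h
    exact absurd (Finset.mem_univ a) h

/-- the unit forms -/
theorem pol_un (u v : Fin 3 → ℂ) : (fun k => pol (sc 1 (un9 k)) u v) =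
    ![(conj (u 0) * v 0 + conj (v 0) * u 0).re, (conj (u 1) * v 1 + conj (v 1) * u 1).re,
      (conj (u 2) * v 2 + conj (v 2) * u 2).re, 2 * (conj (u 0) * v 1 + conj (v 0) * u 1).re,
      -(2 * (conj (u 0) * v 1 + conj (v 0) * u 1).im),
      2 * (conj (u 0) * v 2 + conj (v 0) * u 2).re,
      -(2 * (conj (u 0) * v 2 + conj (v 0) * u 2).im),
      2 * (conj (u 1) * v 2 + conj (v 1) * u 2).re,
      -(2 * (conj (u 1) * v 2 + conj (v 1) * u 2).im)] := by
  funext k
  fin_cases k <;>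
  · unfold pol Hm.x Hm.y Hm.w
    simp only [sc, un9, Matrix.cons_val_zero, Matrix.cons_val_one, Matrix.cons_val, Fin.isValue,
      Fin.zero_eta, Fin.mk_one, Fin.reduceFinMk, div_one, Int.cast_one, Int.cast_zero,
      Complex.ofReal_one, Complex.ofReal_zero, Complex.mul_re, Complex.mul_im, Complex.add_re,
      Complex.add_im, Complex.one_re, Complex.one_im, Complex.zero_re, Complex.zero_im,
      Complex.I_re, Complex.I_im]
    ring

theorem mB_def (w : Fin 3 → ℂ) (i : Fin 3) (a : Fin 5) : (fun i => mB w i a) i = mB w i a := rfl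

/-- THE POLARISED FORM, EXPANDED -/
theorem Np_eq {lC : α → Vt D → Cx} (hc : CL D lC lf) (P : KM α) (X Y : Qd α) (w : Fin 3 → ℂ) :
    Np D t (mkIF lf P) (yF lf X w) (yF lf Y w) =
      ∑ a, ∑ b, ∑ k, pol (sc 1 (un9 k)) (fun i => mB w i a) (fun i => mB w i b) *
        tr D t (PR lC P k) (XR lC X a) (XR lC Y b) := by
  have k : ∀ x v, ((lf x v).re : ℝ) = ((zv (lC x v).re : ℤ) : ℝ) := by
    intro x v
    rw [← hc]
    rfl
  have c : ∀ x v, lf x v = (((zv (lC x v).re : ℤ) : ℝ) : ℂ) + I * (((zv (lC x v).im : ℤ) : ℝ) : ℂ) := by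
    intro x v
    rw [← hc]
    apply Complex.ext
    · simp only [Complex.add_re, Complex.mul_re, Complex.I_re, Complex.I_im, Complex.ofReal_re,
        Complex.ofReal_im]
      show ((zv (lC x v).re : ℤ) : ℝ) = _
      ring
    · simp only [Complex.add_im, Complex.mul_im, Complex.I_re, Complex.I_im, Complex.ofReal_re,
        Complex.ofReal_im]
      show ((zv (lC x v).im : ℤ) : ℝ) = _
      ring
  have ea : (fun v => ((mkIF lf P).a v : ℂ)) = fun v => (PR lC P 0 v : ℂ) := by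
    funext v
    have h : (mkIF lf P).a v = PR lC P 0 v := by
      show (lf P.a.v v).re - (P.a.r + P.x.r + P.y.r) = ((zv (lC P.a.v v).re - ((P.a.r + P.x.r + P.y.r : ℕ) : ℤ) : ℤ) : ℝ)
      rw [k]
      push_cast
      ring
    rw [h]
  have eb : (fun v => ((mkIF lf P).b v : ℂ)) = fun v => (PR lC P 1 v : ℂ) := by
    funext v
    have h : (mkIF lf P).b v = PR lC P 1 v := by
      show (lf P.b.v v).re - (P.b.r + P.x.r + P.w.r) = ((zv (lC P.b.v v).re - ((P.b.r + P.x.r + P.w.r : ℕ) : ℤ) : ℤ) : ℝ)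
      rw [k]
      push_cast
      ring
    rw [h]
  have ec : (fun v => ((mkIF lf P).c v : ℂ)) = fun v => (PR lC P 2 v : ℂ) := by
    funext v
    have h : (mkIF lf P).c v = PR lC P 2 v := by
      show (lf P.c.v v).re - (P.c.r + P.y.r + P.w.r) = ((zv (lC P.c.v v).re - ((P.c.r + P.y.r + P.w.r : ℕ) : ℤ) : ℤ) : ℝ)
      rw [k]
      push_cast
      ring
    rw [h]
  have ex : (mkIF lf P).x = fun v => (PR lC P 3 v : ℂ) + I * (PR lC P 4 v : ℂ) := by
    funext v
    exact c P.x.v v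
  have ey : (mkIF lf P).y = fun v => (PR lC P 5 v : ℂ) + I * (PR lC P 6 v : ℂ) := by
    funext v
    exact c P.y.v v
  have ew : (mkIF lf P).w = fun v => (PR lC P 7 v : ℂ) + I * (PR lC P 8 v : ℂ) := by
    funext v
    exact c P.w.v v
  have yx : ∀ i, yF lf X w i = fun v => ∑ a, mB w i a * (XR lC X a v : ℂ) := yF_exp hc X w
  have yy : ∀ i, yF lf Y w i = fun v => ∑ a, mB w i a * (XR lC Y a v : ℂ) := yF_exp hc Y w
  unfold Np
  rw [ea, eb, ec, ex, ey, ew]
  simp only [yx, yy]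
  rw [Nc_re, Nc_re, Nc_re, Nc_cx, Nc_cx, Nc_cx]
  simp only [Finset.mul_sum, ← Finset.sum_add_distrib]
  refine Finset.sum_congr rfl fun a _ => Finset.sum_congr rfl fun b _ => ?_
  have hp := pol_un (fun i => mB w i a) (fun i => mB w i b)
  have hp' : ∀ k, pol (sc 1 (un9 k)) (fun i => mB w i a) (fun i => mB w i b) = _ :=
    fun k => congrFun hp k
  simp only [hp']
  rw [sum9]
  simp only [Matrix.cons_val_zero, Matrix.cons_val_one, Matrix.cons_val]
  ring

/-- **SN = 4 ^ m Np** -/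
theorem SN_Np {lC : α → Vt D → Cx} (hc : CL D lC lf) (P : KM α) {X Y : Qd α} {lX lY : List Bool}
    (hX : FSh D lX (XI lC X)) (hY : FSh D lY (XI lC Y)) (w : Fin 3 → ℂ) :
    SN D t (PI lC P) (mulZ mu2 D (and2 lX lY) (XI lC X) (XI lC Y)) w =
      4 ^ cnt (and2 lX lY) * Np D t (mkIF lf P) (yF lf X w) (yF lf Y w) := by
  rw [SN_eq P hX hY w, Np_eq hc P X Y w]
  congr 1
  rw [Finset.sum_comm]
  refine Finset.sum_congr rfl fun a _ => ?_
  rw [Finset.sum_comm]
  refine Finset.sum_congr rfl fun b _ => Finset.sum_congr rfl fun k _ => ?_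
  rw [NBp_pol, Bv_e5, Bv_e5]

end Pool.Agent.Helper90.KMT
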