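import Pool.Agent.Helper90.CX.KM4

/-!
Row KMO, part 5: class constants, the six `om`, coefficient sets.
-/

set_option autoImplicit false
noncomputable section
namespace Pool.Agent.Helper90.KMO

open Pool.Agent.Helper86.CX
open Pool.Agent.Helper86.C75 (Z)
open Pool.Agent.Helper90.C75

variable {n : ℕ} {wc : Fin n → ℝ} {t : ℝ}

/-! ### class constants -/

/-- the models of the class constants, `κ` = the three weights -/
structure CLK (n : ℕ) (wc : Fin n → ℝ) (t : ℝ) (κ : Fin 3 → ℂ) (C : Cls) : Prop where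
  l0 : MOK n wc t (2 * κ 1 / (κ 0 * κ 2)) C.l0
  l1 : MOK n wc t (2 * κ 2 / (κ 1 * κ 0)) C.l1
  l2 : MOK n wc t (2 * κ 0 / (κ 2 * κ 1)) C.l2
  h0 : MOK n wc t (κ 0 / 2) C.h0
  h1 : MOK n wc t (κ 1 / 2) C.h1
  h2 : MOK n wc t (κ 2 / 2) C.h2
  q0 : MOK n wc t (κ 0 / 4) C.q0
  q1 : MOK n wc t (κ 1 / 4) C.q1
  q2 : MOK n wc t (κ 2 / 4) C.q2
  e0 : MOK n wc t (κ 0 ^ 2 / (4 * (2 + κ 0))) C.e0
  e1 : MOK n wc t (κ 1 ^ 2 / (4 * (2 + κ 1))) C.e1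
  e2 : MOK n wc t (κ 2 ^ 2 / (4 * (2 + κ 2))) C.e2

theorem MOK.lamM (hn : 0 < n) (hw : Wts wc) (h0 : 0 ≤ t) (h1 : t ≤ 1) {a b c : ℂ}
    {A B D : Mo} (hc : MOK n wc t c D) (ha : MOK n wc t a A) (hb : MOK n wc t b B)
    (hok : invOK n (Pool.Agent.Helper86.CX.mulM n A B) = true) :
    MOK n wc t (2 * c / (a * b)) (Pool.Agent.Helper86.CX.lamM n D A B) := by
  have h2 := ((ha.mul hn hw h0 h1 hb).invM hn hw h0 h1 hok).1
  have h3 := (hc.add hc).mul hn hw h0 h1 h2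
  have e : 2 * c / (a * b) = (c + c) * (a * b)⁻¹ := by rw [div_eq_mul_inv]; ring
  rw [e]
  exact h3

theorem MOK.fkM (hn : 0 < n) (hw : Wts wc) (h0 : 0 ≤ t) (h1 : t ≤ 1) {k : ℂ} {K : Mo}
    (hk : MOK n wc t k K) : MOK n wc t (4 * (2 + k)) (Pool.Agent.Helper86.CX.fkM n K) := by
  have h2 : MOK n wc t 8 (cstM n (nat_lit 2251799813685248) (nat_lit 0)) :=
    MOK.cst' hn hw h0 h1 (by unfold UU; norm_num)
  have h3 := h2.add ((hk.add hk).add (hk.add hk))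
  have e : 4 * (2 + k) = 8 + ((k + k) + (k + k)) := by ring
  rw [e]
  exact h3

theorem MOK.keM (hn : 0 < n) (hw : Wts wc) (h0 : 0 ≤ t) (h1 : t ≤ 1) {k : ℂ} {K : Mo}
    (hk : MOK n wc t k K) (hok : invOK n (Pool.Agent.Helper86.CX.fkM n K) = true) :
    MOK n wc t (k ^ 2 / (4 * (2 + k))) (Pool.Agent.Helper86.CX.keM n K) := by
  have h2 := ((hk.fkM hn hw h0 h1).invM hn hw h0 h1 hok).1
  have h3 := (hk.mul hn hw h0 h1 hk).mul hn hw h0 h1 h2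
  have e : k ^ 2 / (4 * (2 + k)) = k * k * (4 * (2 + k))⁻¹ := by rw [div_eq_mul_inv]; ring
  rw [e]
  exact h3

theorem MOK.half (hn : 0 < n) (hw : Wts wc) (h0 : 0 ≤ t) (h1 : t ≤ 1) {k : ℂ} {K : Mo}
    (hk : MOK n wc t k K) :
    MOK n wc t (k / 2) (Pool.Agent.Helper86.CX.mulM n (cstM n (nat_lit 140737488355328)
      (nat_lit 0)) K) := by
  have h2 : MOK n wc t (1 / 2) (cstM n (nat_lit 140737488355328) (nat_lit 0)) :=
    MOK.cst' hn hw h0 h1 (by unfold UU; norm_num)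
  have h3 := h2.mul hn hw h0 h1 hk
  have e : k / 2 = 1 / 2 * k := by ring
  rw [e]
  exact h3

theorem MOK.quarter (hn : 0 < n) (hw : Wts wc) (h0 : 0 ≤ t) (h1 : t ≤ 1) {k : ℂ} {K : Mo}
    (hk : MOK n wc t k K) :
    MOK n wc t (k / 4) (Pool.Agent.Helper86.CX.mulM n (cstM n (nat_lit 70368744177664)
      (nat_lit 0)) K) := by
  have h2 : MOK n wc t (1 / 4) (cstM n (nat_lit 70368744177664) (nat_lit 0)) :=
    MOK.cst' hn hw h0 h1 (by unfold UU; norm_num)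
  have h3 := h2.mul hn hw h0 h1 hk
  have e : k / 4 = 1 / 4 * k := by ring
  rw [e]
  exact h3

/-- THE CLASS CONSTANTS -/
theorem CLK.mk' (hn : 0 < n) (hw : Wts wc) (h0 : 0 ≤ t) (h1 : t ≤ 1) {κ : Fin 3 → ℂ}
    {k0 k1 k2 : Mo} (a0 : MOK n wc t (κ 0) k0) (a1 : MOK n wc t (κ 1) k1)
    (a2 : MOK n wc t (κ 2) k2) (hok : clsOK n k0 k1 k2 = true) :
    CLK n wc t κ (mkCls n k0 k1 k2) := by
  obtain ⟨b0, h⟩ := andB_t hok
  obtain ⟨b1, h⟩ := andB_t h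
  obtain ⟨b2, h⟩ := andB_t h
  obtain ⟨b3, h⟩ := andB_t h
  obtain ⟨b4, b5⟩ := andB_t h
  exact ⟨a1.lamM hn hw h0 h1 a0 a2 b0, a2.lamM hn hw h0 h1 a1 a0 b1, a0.lamM hn hw h0 h1 a2 a1 b2,
    a0.half hn hw h0 h1, a1.half hn hw h0 h1, a2.half hn hw h0 h1,
    a0.quarter hn hw h0 h1, a1.quarter hn hw h0 h1, a2.quarter hn hw h0 h1,
    a0.keM hn hw h0 h1 b3, a1.keM hn hw h0 h1 b4, a2.keM hn hw h0 h1 b5⟩

/-- exact weights (one corner): a constant with radius -/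
theorem MOK.kap (hn : 0 < n) (hw : Wts wc) (h0 : 0 ≤ t) (h1 : t ≤ 1) {k : ℝ} (c r : ℕ)
    (h : |k - c / UU| ≤ r / UU) : MOK n wc t k (cstM n c r) := by
  have hU := UU_pos
  refine MOK.cst hn hw h0 h1 c r ?_
  have e : (UU : ℂ) * k - c = ((UU * (k - c / UU) : ℝ) : ℂ) := by
    push_cast
    have := UUc_ne
    field_simp
  rw [e, Complex.norm_real, Real.norm_eq_abs, abs_mul, abs_of_pos hU]
  calc UU * |k - c / UU| ≤ UU * (r / UU) := mul_le_mul_of_nonneg_left h hU.le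
    _ = r := by field_simp

/-! ### the six `om` -/

/-- the models of the six `om`: `Q₀ Q₁ Q₂` (with `u = 1/z`) and `P₀ P₁ P₂` (with `z`) -/
structure OMK (n : ℕ) (wc : Fin n → ℝ) (t : ℝ) (κ : Fin 3 → ℂ) (z : ℂ)
    (m0 m1 m2 m3 m4 m5 : Mo) : Prop where
  m0 : MOK n wc t (2 * (1 + 2 * κ 1 / (κ 0 * κ 2) * z⁻¹))⁻¹ m0
  m1 : MOK n wc t (2 * (1 + 2 * κ 2 / (κ 1 * κ 0) * z⁻¹))⁻¹ m1
  m2 : MOK n wc t (2 * (1 + 2 * κ 0 / (κ 2 * κ 1) * z⁻¹))⁻¹ m2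
  m3 : MOK n wc t (2 * (1 + 2 * κ 1 / (κ 0 * κ 2) * z))⁻¹ m3
  m4 : MOK n wc t (2 * (1 + 2 * κ 2 / (κ 1 * κ 0) * z))⁻¹ m4
  m5 : MOK n wc t (2 * (1 + 2 * κ 0 / (κ 2 * κ 1) * z))⁻¹ m5
  n0 : 2 * (1 + 2 * κ 1 / (κ 0 * κ 2) * z⁻¹) ≠ 0
  n1 : 2 * (1 + 2 * κ 2 / (κ 1 * κ 0) * z⁻¹) ≠ 0
  n2 : 2 * (1 + 2 * κ 0 / (κ 2 * κ 1) * z⁻¹) ≠ 0
  n3 : 2 * (1 + 2 * κ 1 / (κ 0 * κ 2) * z) ≠ 0
  n4 : 2 * (1 + 2 * κ 2 / (κ 1 * κ 0) * z) ≠ 0
  n5 : 2 * (1 + 2 * κ 0 / (κ 2 * κ 1) * z) ≠ 0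

theorem OMK.mk' (hn : 0 < n) (hw : Wts wc) (h0 : 0 ≤ t) (h1 : t ≤ 1) {κ : Fin 3 → ℂ} {C : Cls}
    (hC : CLK n wc t κ C) {z : ℂ} {Um Zm : Mo} (hu : MOK n wc t z⁻¹ Um) (hz : MOK n wc t z Zm)
    (b0 : invOK n (Pool.Agent.Helper86.CX.gM n C.l0 Um) = true)
    (b1 : invOK n (Pool.Agent.Helper86.CX.gM n C.l1 Um) = true)
    (b2 : invOK n (Pool.Agent.Helper86.CX.gM n C.l2 Um) = true)
    (b3 : invOK n (Pool.Agent.Helper86.CX.gM n C.l0 Zm) = true)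
    (b4 : invOK n (Pool.Agent.Helper86.CX.gM n C.l1 Zm) = true)
    (b5 : invOK n (Pool.Agent.Helper86.CX.gM n C.l2 Zm) = true) :
    OMK n wc t κ z (Pool.Agent.Helper86.CX.invM n (Pool.Agent.Helper86.CX.gM n C.l0 Um))
      (Pool.Agent.Helper86.CX.invM n (Pool.Agent.Helper86.CX.gM n C.l1 Um))
      (Pool.Agent.Helper86.CX.invM n (Pool.Agent.Helper86.CX.gM n C.l2 Um))
      (Pool.Agent.Helper86.CX.invM n (Pool.Agent.Helper86.CX.gM n C.l0 Zm))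
      (Pool.Agent.Helper86.CX.invM n (Pool.Agent.Helper86.CX.gM n C.l1 Zm))
      (Pool.Agent.Helper86.CX.invM n (Pool.Agent.Helper86.CX.gM n C.l2 Zm)) := by
  have r0 := (MOK.gM hn hw h0 h1 hC.l0 hu).invM hn hw h0 h1 b0
  have r1 := (MOK.gM hn hw h0 h1 hC.l1 hu).invM hn hw h0 h1 b1
  have r2 := (MOK.gM hn hw h0 h1 hC.l2 hu).invM hn hw h0 h1 b2
  have r3 := (MOK.gM hn hw h0 h1 hC.l0 hz).invM hn hw h0 h1 b3
  have r4 := (MOK.gM hn hw h0 h1 hC.l1 hz).invM hn hw h0 h1 b4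
  have r5 := (MOK.gM hn hw h0 h1 hC.l2 hz).invM hn hw h0 h1 b5
  exact ⟨r0.1, r1.1, r2.1, r3.1, r4.1, r5.1, r0.2, r1.2, r2.2, r3.2, r4.2, r5.2⟩

/-! ### coefficient sets -/

/-- even set: `diag(1, x, y)` -/
structure EOK (n : ℕ) (wc : Fin n → ℝ) (t : ℝ) (x y : ℂ) (c2 c3 c22 c33 m : Mo) : Prop where
  c2 : MOK n wc t x c2
  c3 : MOK n wc t y c3
  n22 : MOK n wc t (x * star x) c22
  n33 : MOK n wc t (y * star y) c33
  m : MOK n wc t (star x * y) m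

theorem EOK.mk' (hn : 0 < n) (hw : Wts wc) (h0 : 0 ≤ t) (h1 : t ≤ 1) {x y : ℂ} {c2 c3 : Mo}
    (hx : MOK n wc t x c2) (hy : MOK n wc t y c3) :
    EOK n wc t x y c2 c3 (Pool.Agent.Helper86.CX.mulM n c2 (conjM c2))
      (Pool.Agent.Helper86.CX.mulM n c3 (conjM c3))
      (Pool.Agent.Helper86.CX.mulM n (conjM c2) c3) :=
  ⟨hx, hy, hx.mul hn hw h0 h1 hx.conj, hy.mul hn hw h0 h1 hy.conj, hx.conj.mul hn hw h0 h1 hy⟩

/-- odd set: `[[1,0,e],[0,x,0],[0,0,y]]` -/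
structure OOK (n : ℕ) (wc : Fin n → ℝ) (t : ℝ) (x y e : ℂ) (c2 c3 ce c22 c33 cee m p q : Mo) :
    Prop where
  c2 : MOK n wc t x c2
  c3 : MOK n wc t y c3
  fe : MOK n wc t e ce
  n22 : MOK n wc t (x * star x) c22
  n33 : MOK n wc t (y * star y) c33
  nee : MOK n wc t (e * star e) cee
  m : MOK n wc t (star x * y) m
  p : MOK n wc t (star x * e) p
  q : MOK n wc t (star e * y) q

theorem OOK.mk' (hn : 0 < n) (hw : Wts wc) (h0 : 0 ≤ t) (h1 : t ≤ 1) {x y e : ℂ}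
    {c2 c3 ce : Mo} (hx : MOK n wc t x c2) (hy : MOK n wc t y c3) (he : MOK n wc t e ce) :
    OOK n wc t x y e c2 c3 ce (Pool.Agent.Helper86.CX.mulM n c2 (conjM c2))
      (Pool.Agent.Helper86.CX.mulM n c3 (conjM c3)) (Pool.Agent.Helper86.CX.mulM n ce (conjM ce))
      (Pool.Agent.Helper86.CX.mulM n (conjM c2) c3) (Pool.Agent.Helper86.CX.mulM n (conjM c2) ce)
      (Pool.Agent.Helper86.CX.mulM n (conjM ce) c3) :=
  ⟨hx, hy, he, hx.mul hn hw h0 h1 hx.conj, hy.mul hn hw h0 h1 hy.conj, he.mul hn hw h0 h1 he.conj,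
    hx.conj.mul hn hw h0 h1 hy, hx.conj.mul hn hw h0 h1 he, he.conj.mul hn hw h0 h1 hy⟩

/-- the second and the third coefficient of `mkE n c2 s` -/
theorem mkE_c3 (hn : 0 < n) (hw : Wts wc) (h0 : 0 ≤ t) (h1 : t ≤ 1) {o o' : ℂ} {c2 s : Mo}
    (h : MOK n wc t o' c2) (hs : MOK n wc t o s) :
    MOK n wc t (o * o') (Pool.Agent.Helper86.CX.mulM n s c2) := hs.mul hn hw h0 h1 h

/-- the third coefficient of `mkR n o` -/
theorem mkR_c3 (hn : 0 < n) (hw : Wts wc) (h0 : 0 ≤ t) (h1 : t ≤ 1) {o : ℂ} {s : Mo}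
    (hs : MOK n wc t o s) :
    MOK n wc t (o * (1 / 2 - o)) (Pool.Agent.Helper86.CX.mulM n s
      (subM (cstM n (nat_lit 140737488355328) (nat_lit 0)) s)) := by
  have h2 : MOK n wc t (1 / 2) (cstM n (nat_lit 140737488355328) (nat_lit 0)) :=
    MOK.cst' hn hw h0 h1 (by unfold UU; norm_num)
  exact hs.mul hn hw h0 h1 (h2.sub hs)

/-- the two coefficients of `mkL n o` -/
theorem mkL_c (hn : 0 < n) (hw : Wts wc) (h0 : 0 ≤ t) (h1 : t ≤ 1) {o : ℂ} {s : Mo}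
    (hs : MOK n wc t o s) :
    MOK n wc t (1 / 16 + o / 8) (addM (cstM n (nat_lit 17592186044416) (nat_lit 0))
      (Pool.Agent.Helper86.CX.mulM n (cstM n (nat_lit 35184372088832) (nat_lit 0)) s)) ∧
    MOK n wc t (1 / 16 - o / 8) (subM (cstM n (nat_lit 17592186044416) (nat_lit 0))
      (Pool.Agent.Helper86.CX.mulM n (cstM n (nat_lit 35184372088832) (nat_lit 0)) s)) := by
  have h2 : MOK n wc t (1 / 16) (cstM n (nat_lit 17592186044416) (nat_lit 0)) :=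
    MOK.cst' hn hw h0 h1 (by unfold UU; norm_num)
  have h3 : MOK n wc t (1 / 8) (cstM n (nat_lit 35184372088832) (nat_lit 0)) :=
    MOK.cst' hn hw h0 h1 (by unfold UU; norm_num)
  have h4 := h3.mul hn hw h0 h1 hs
  have e : o / 8 = 1 / 8 * o := by ring
  rw [e]
  exact ⟨h2.add h4, h2.sub h4⟩

/-- the coefficients `c3` and `e` of `mkO n c2 s h q ke` -/
theorem mkO_c3 (hn : 0 < n) (hw : Wts wc) (h0 : 0 ≤ t) (h1 : t ≤ 1) {o o' k : ℂ}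
    {c2 s h q ke : Mo} (h2 : MOK n wc t o' c2) (hs : MOK n wc t o s)
    (hh : MOK n wc t (k / 2) h) (hq : MOK n wc t (k / 4) q)
    (hke : MOK n wc t (k ^ 2 / (4 * (2 + k))) ke) :
    MOK n wc t (o' * (k / 2) * (1 / 2 - o)) (Pool.Agent.Helper86.CX.mulM n c2
      (subM q (Pool.Agent.Helper86.CX.mulM n h s))) ∧
    MOK n wc t (k * o / 2 - k ^ 2 / (4 * (2 + k)))
      (subM (Pool.Agent.Helper86.CX.mulM n h s) ke) := by
  have ht := hh.mul hn hw h0 h1 hs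
  constructor
  · have h3 := h2.mul hn hw h0 h1 (hq.sub ht)
    have e : o' * (k / 2) * (1 / 2 - o) = o' * (k / 4 - k / 2 * o) := by ring
    rw [e]
    exact h3
  · have h3 := ht.sub hke
    have e : k * o / 2 - k ^ 2 / (4 * (2 + k)) = k / 2 * o - k ^ 2 / (4 * (2 + k)) := by ring
    rw [e]
    exact h3

/-! ### the line -/

/-- the imaginary part of the interpolation of `x`: heights `Y0, Yc, Y1` at all corners -/
theorem avg_im_line (hw : Wts wc) {l : List C3} (hl : l.length = n) {Y0 Yc Y1 : ℕ}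
    (hY : 2 * Yc = Y0 + Y1)
    (h : ∀ x ∈ l, x.a.im = Z.p Y0 ∧ x.c.im = Z.p Yc ∧ x.b.im = Z.p Y1) :
    (avg (wq wc t) (Fv n l)).im = (1 - t) * Y0 + t * Y1 := by
  rw [avg_im, Fintype.sum_prod_type]
  have e : ∀ i : Fin n, ∑ j : Fin 3, wq wc t (i, j) * (Fv n l (i, j)).im
      = wc i * ((1 - t) * Y0 + t * Y1) := by
    intro i
    obtain ⟨h1, h2, h3⟩ := h (gv l i) (gv_mem (by rw [hl]; exact i.2))
    have a0 : (Fv n l (i, 0)).im = Y0 := by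
      show ((zv (gv l i).a.im : ℤ) : ℝ) = _
      rw [h1]; simp [zv]
    have a1 : (Fv n l (i, 1)).im = Yc := by
      show ((zv (gv l i).c.im : ℤ) : ℝ) = _
      rw [h2]; simp [zv]
    have a2 : (Fv n l (i, 2)).im = Y1 := by
      show ((zv (gv l i).b.im : ℤ) : ℝ) = _
      rw [h3]; simp [zv]
    have hY' : 2 * (Yc : ℝ) = Y0 + Y1 := by exact_mod_cast hY
    rw [Fin.sum_univ_three, a0, a1, a2]
    simp only [wq, bt, Matrix.cons_val_zero, Matrix.cons_val_one, Matrix.cons_val]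
    have hYc : (Yc : ℝ) = (Y0 + Y1) / 2 := by linarith
    rw [hYc]
    ring
  rw [Finset.sum_congr rfl fun i _ => e i, ← Finset.sum_mul, hw.sum, one_mul]

theorem im_nonneg_line {l : List C3} (hl : l.length = n) {Y0 Yc Y1 : ℕ}
    (h : ∀ x ∈ l, x.a.im = Z.p Y0 ∧ x.c.im = Z.p Yc ∧ x.b.im = Z.p Y1) (v : Fin n × Fin 3) :
    0 ≤ (Fv n l v).im := by
  obtain ⟨i, j⟩ := v
  obtain ⟨h1, h2, h3⟩ := h (gv l i) (gv_mem (by rw [hl]; exact i.2))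
  fin_cases j
  · show 0 ≤ ((zv (gv l i).a.im : ℤ) : ℝ)
    rw [h1]; simp [zv]
  · show 0 ≤ ((zv (gv l i).c.im : ℤ) : ℝ)
    rw [h2]; simp [zv]
  · show 0 ≤ ((zv (gv l i).b.im : ℤ) : ℝ)
    rw [h3]; simp [zv]

end Pool.Agent.Helper90.KMO
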