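import Pool.Agent.Helper90.CX.K9N

/-!
Row K9 (MP_c75db0), part O: THE LEAF THEOREM for `tf pd9` (kernel function of helper17), end.
-/

set_option autoImplicit false
noncomputable section
namespace Pool.Agent.Helper90.K9N

open Pool.Agent.Helper90.K9

open Finset hiding val
open Pool.Agent.Helper86.C75 (Z)
open Pool.Agent.Helper90.KMO (zv zv_sub)
open Pool.Agent.Helper17.K9 (OFF9 MV01 MV0 CC9 HI9 PT9 ON9 tN tf2 tf1 tf zoff)

/-- a diagonal form -/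
theorem G_diagR : ∀ (n : ℕ) (D : ℕ → ℕ → ℂ) (c : ℕ → ℝ) (v : ℕ → ℂ),
    (∀ i < n, D i i = c i) → (∀ i < n, ∀ j < n, i < j → D i j = 0) →
    G n D v = ∑ i ∈ range n, c i * ‖v i‖ ^ 2
  | 0, _, c, _, _, _ => by
    show (0 : ℝ) = ∑ i ∈ range 0, _
    simp
  | n + 1, D, c, v, h1, h2 => by
    have ih := G_diagR n (fun i j => D (i + 1) (j + 1)) (fun i => c (i + 1)) (fun i => v (i + 1))
      (fun i hi => h1 (i + 1) (Nat.succ_lt_succ hi))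
      (fun i hi j hj hij => h2 (i + 1) (Nat.succ_lt_succ hi) (j + 1) (Nat.succ_lt_succ hj)
        (Nat.succ_lt_succ hij))
    rw [G_succ, ih, Finset.sum_range_succ', h1 0 (Nat.succ_pos n), Complex.ofReal_re]
    have : ∑ j ∈ range n, D 0 (j + 1) * v (j + 1) = 0 := Finset.sum_eq_zero fun j hj => by
      rw [h2 0 (Nat.succ_pos n) (j + 1) (Nat.succ_lt_succ (Finset.mem_range.mp hj)) (Nat.succ_pos j),
        zero_mul]
    rw [this, mul_zero, Complex.zero_re]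
    ring

/-- offset of a signed number -/
theorem zoff_cast {x : Z} (h : 0 ≤ zv x + (OFF9 : ℤ)) : ((zoff x : ℕ) : ℤ) = zv x + (OFF9 : ℤ) := by
  cases x with
  | p n =>
    show ((OFF9 + n : ℕ) : ℤ) = (n : ℤ) + (OFF9 : ℤ)
    rw [Nat.cast_add]
    ring
  | m n =>
    have h1 : 0 ≤ -(n : ℤ) + (OFF9 : ℤ) := h
    have h2 : n ≤ OFF9 := by
      have : (n : ℤ) ≤ (OFF9 : ℤ) := by linarith
      exact_mod_cast this
    show ((OFF9 - n : ℕ) : ℤ) = -(n : ℤ) + (OFF9 : ℤ)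
    rw [Nat.cast_sub h2]
    ring

theorem val_off_nonneg {D : ℕ → ℕ → ℕ → ℤ} (hD : ∀ i < 9, ∀ j < 10, ∀ s < 3, |D i j s| ≤ 2 ^ 190) :
    0 ≤ val D + (OFF9 : ℤ) := by
  have hA := pk_cast V 9 (fun _ => pk B3 10 (fun _ => pk B 3 (fun _ => 2 ^ 191)))
  have hB := pk_cast V 9 (fun i => pk B3 10 (fun j => ws (fun i j => (D i j 0 + 2 ^ 191).toNat)
    (fun i j => (D i j 1 + 2 ^ 191).toNat) (fun i j => (D i j 2 + 2 ^ 191).toNat) i j))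
  have h : val D + (OFF9 : ℤ) = ((pk V 9 (fun i => pk B3 10 (fun j =>
      ws (fun i j => (D i j 0 + 2 ^ 191).toNat) (fun i j => (D i j 1 + 2 ^ 191).toNat)
        (fun i j => (D i j 2 + 2 ^ 191).toNat) i j)) : ℕ) : ℤ) := by
    rw [OFF9_eq, hA, hB]
    unfold val
    rw [pz_add]
    refine pz_congr _ _ _ _ fun i hi => ?_
    have hA := pk_cast B3 10 (fun _ => pk B 3 (fun _ => 2 ^ 191))
    have hB := pk_cast B3 10 (fun j => ws (fun i j => (D i j 0 + 2 ^ 191).toNat)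
      (fun i j => (D i j 1 + 2 ^ 191).toNat) (fun i j => (D i j 2 + 2 ^ 191).toNat) i j)
    rw [hA, hB, pz_add]
    refine pz_congr _ _ _ _ fun j hj => ?_
    rw [pk_cast, pz_add]
    have e0 := (nat_of (hD i hi j hj 0 (by norm_num))).1
    have e1 := (nat_of (hD i hi j hj 1 (by norm_num))).1
    have e2 := (nat_of (hD i hi j hj 2 (by norm_num))).1
    rw [ws, Nat.cast_add, Nat.cast_mul, Nat.cast_add, Nat.cast_mul, e0, e1, e2]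
    have o : ((2 ^ 191 : ℕ) : ℤ) = 2 ^ 191 := by norm_num
    rw [o]
    show (D i j 0 + 2 ^ 191) + B * ((D i j 1 + 2 ^ 191) + B * ((D i j 2 + 2 ^ 191) + B * 0)) = _
    ring
  rw [h]
  exact Int.natCast_nonneg _

theorem q56_bound {w : ℤ} (h : |w| ≤ 2 ^ 190) : -2 ^ 134 ≤ w / 2 ^ 56 ∧ w / 2 ^ 56 ≤ 2 ^ 134 := by
  obtain ⟨h1, h2⟩ := abs_le.mp h
  constructor
  · rw [Int.le_ediv_iff_mul_le (by norm_num)]
    have : (-2 ^ 134 * 2 ^ 56 : ℤ) = -2 ^ 190 := by norm_num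
    rw [this]; exact h1
  · have h3 : w / 2 ^ 56 ≤ 2 ^ 190 / 2 ^ 56 := Int.ediv_le_ediv (by norm_num) h2
    have h4 : ((2 : ℤ) ^ 190 / 2 ^ 56) = 2 ^ 134 := by norm_num
    rw [h4] at h3
    exact h3

theorem slot_id (A0 A1 A2 C0 C1 : ℕ) (h : A2 ≤ A0 + C0) :
    A0 + B * A1 + (C0 + B * C1) = (A0 + C0 - A2) + B * (A1 + C1) + A2 := by
  obtain ⟨c, hc⟩ := Nat.exists_eq_add_of_le h
  rw [hc, Nat.add_sub_cancel_left]
  calc A0 + B * A1 + (C0 + B * C1) = (A0 + C0) + B * (A1 + C1) := by ring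
    _ = A2 + c + B * (A1 + C1) := by rw [hc]
    _ = _ := by ring

/-- the shifted matrix -/
theorem tN_eq {D : ℕ → ℕ → ℕ → ℤ} (hD : ∀ i < 9, ∀ j < 10, ∀ s < 3, |D i j s| ≤ 2 ^ 190) {Y : ℕ}
    (hY : (Y : ℤ) = val D + (OFF9 : ℤ)) {R : ℕ → ℕ} (hR : ∀ i < 9, R i ≤ 2 ^ 130) :
    ∃ d1 e1 : ℕ → ℕ → ℕ, tN (pk (V * B3) 9 R) Y = pk V 9 (fun i => pk B3 9 (sl d1 e1 i)) ∧
      (∀ i < 9, ∀ j < 9, d1 i j < B ∧ e1 i j < B ∧
        (d1 i j : ℤ) = D i j 0 / 2 ^ 56 - D i j 2 / 2 ^ 56 + 2 ^ 136 + 2 ^ 52 -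
          ((if j = i then R i else 0 : ℕ) : ℤ) ∧
        (e1 i j : ℤ) = D i j 1 / 2 ^ 56 + 2 ^ 136 + 2 ^ 52) := by
  set w0 : ℕ → ℕ → ℕ := fun i j => (D i j 0 + 2 ^ 191).toNat with hw0
  set w1 : ℕ → ℕ → ℕ := fun i j => (D i j 1 + 2 ^ 191).toNat with hw1
  set w2 : ℕ → ℕ → ℕ := fun i j => (D i j 2 + 2 ^ 191).toNat with hw2
  have l0 : ∀ i < 9, ∀ j < 10, w0 i j < B := fun i hi j hj => (nat_of (hD i hi j hj 0 (by norm_num))).2
  have l1 : ∀ i < 9, ∀ j < 10, w1 i j < B := fun i hi j hj => (nat_of (hD i hi j hj 1 (by norm_num))).2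
  have l2 : ∀ i < 9, ∀ j < 10, w2 i j < B := fun i hi j hj => (nat_of (hD i hi j hj 2 (by norm_num))).2
  have hdec := decode hD hY
  have hz : ∀ i < 9, ws w0 w1 w2 i 9 < B3 := fun i hi =>
    ws_lt (l0 i hi 9 (by norm_num)) (l1 i hi 9 (by norm_num)) (l2 i hi 9 (by norm_num))
  have h1 := m56 w0 w1 w2 (fun i => ws w0 w1 w2 i 9) (fun i hi j hj => l0 i hi j (by omega))
    (fun i hi j hj => l1 i hi j (by omega)) (fun i hi j hj => l2 i hi j (by omega)) hz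
  have h2 := m440 w0 w1 w2 (fun i => ws w0 w1 w2 i 9) (fun i hi j hj => l0 i hi j (by omega))
    (fun i hi j hj => l1 i hi j (by omega)) (fun i hi j hj => l2 i hi j (by omega)) hz
  rw [← hdec] at h1 h2
  have s0 : ∀ i < 9, ∀ j < 9, ((w0 i j >>> 56 : ℕ) : ℤ) = D i j 0 / 2 ^ 56 + 2 ^ 135 := fun i hi j hj =>
    sh56_cast (nat_of (hD i hi j (by omega) 0 (by norm_num))).1
  have s1 : ∀ i < 9, ∀ j < 9, ((w1 i j >>> 56 : ℕ) : ℤ) = D i j 1 / 2 ^ 56 + 2 ^ 135 := fun i hi j hj =>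
    sh56_cast (nat_of (hD i hi j (by omega) 1 (by norm_num))).1
  have s2 : ∀ i < 9, ∀ j < 9, ((w2 i j >>> 56 : ℕ) : ℤ) = D i j 2 / 2 ^ 56 + 2 ^ 135 := fun i hi j hj =>
    sh56_cast (nat_of (hD i hi j (by omega) 2 (by norm_num))).1
  set d1 : ℕ → ℕ → ℕ := fun i j => (w0 i j >>> 56) + (2 ^ 136 + 2 ^ 52) -
    ((w2 i j >>> 56) + (if j = i then R i else 0)) with hd1
  set e1 : ℕ → ℕ → ℕ := fun i j => (w1 i j >>> 56) + (2 ^ 135 + 2 ^ 52) with he1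
  have rb : ∀ i < 9, ∀ j < 9, (if j = i then R i else 0 : ℕ) ≤ 2 ^ 130 := fun i hi j _ => by
    split_ifs
    · exact hR i hi
    · exact Nat.zero_le _
  have k0 : ∀ i < 9, ∀ j < 9, (w2 i j >>> 56) + (if j = i then R i else 0) ≤
      (w0 i j >>> 56) + (2 ^ 136 + 2 ^ 52) := by
    intro i hi j hj
    have f0 := (q56_bound (hD i hi j (by omega) 0 (by norm_num))).1
    have f2 := (q56_bound (hD i hi j (by omega) 2 (by norm_num))).2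
    have r := rb i hi j hj
    have r' : ((if j = i then R i else 0 : ℕ) : ℤ) ≤ 2 ^ 130 := by exact_mod_cast r
    have h4 : (((w2 i j >>> 56) + (if j = i then R i else 0) : ℕ) : ℤ) ≤
        (((w0 i j >>> 56) + (2 ^ 136 + 2 ^ 52) : ℕ) : ℤ) := by
      rw [Nat.cast_add, Nat.cast_add, s0 i hi j hj, s2 i hi j hj]
      have : ((2 ^ 136 + 2 ^ 52 : ℕ) : ℤ) = 2 ^ 136 + 2 ^ 52 := by norm_num
      rw [this]
      have e1 : (2 : ℤ) ^ 136 = 64 * 2 ^ 130 := by norm_num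
      have e2 : (2 : ℤ) ^ 134 = 16 * 2 ^ 130 := by norm_num
      have e3 : (2 : ℤ) ^ 135 = 32 * 2 ^ 130 := by norm_num
      have e4 : (0 : ℤ) < 2 ^ 130 := by positivity
      have e5 : (0 : ℤ) < 2 ^ 52 := by positivity
      rw [e2] at f0 f2
      rw [e1, e3]
      linarith
    exact_mod_cast h4
  refine ⟨d1, e1, ?_, ?_⟩
  · show ((Y >>> 56) &&& MV01) + CC9 - (((Y >>> 440) &&& MV0) + pk (V * B3) 9 R) = _
    rw [h1, h2, CC9_eq, diag_pk]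
    have hsum : pk V 9 (fun i => pk B3 9 (fun j => (w0 i j >>> 56) + B * (w1 i j >>> 56))) +
        pk V 9 (fun _ => pk B3 9 (fun _ => (2 ^ 136 + 2 ^ 52) + B * (2 ^ 135 + 2 ^ 52))) =
        pk V 9 (fun i => pk B3 9 (sl d1 e1 i)) +
        (pk V 9 (fun i => pk B3 9 (fun j => w2 i j >>> 56)) +
          pk V 9 (fun i => pk B3 9 (fun j => if j = i then R i else 0))) := by
      rw [pk_add, pk_add, pk_add]
      refine pk_congr _ _ _ _ fun i hi => ?_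
      rw [pk_add, pk_add, pk_add]
      refine pk_congr _ _ _ _ fun j hj => ?_
      exact slot_id _ _ _ _ _ (k0 i hi j hj)
    rw [hsum, Nat.add_sub_cancel]
  · intro i hi j hj
    have g0 := k0 i hi j hj
    have t0 := s0 i hi j hj
    have t1 := s1 i hi j hj
    have t2 := s2 i hi j hj
    have v0 := sh56_lt (l0 i hi j (by omega))
    have v1 := sh56_lt (l1 i hi j (by omega))
    have pB : (2 : ℕ) ^ 136 + (2 ^ 136 + 2 ^ 52) < B := by unfold B; norm_num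
    refine ⟨?_, ?_, ?_, ?_⟩
    · show (w0 i j >>> 56) + (2 ^ 136 + 2 ^ 52) - ((w2 i j >>> 56) + (if j = i then R i else 0)) < B
      have h1 : (w0 i j >>> 56) + (2 ^ 136 + 2 ^ 52) - ((w2 i j >>> 56) + (if j = i then R i else 0)) ≤
        2 ^ 136 + (2 ^ 136 + 2 ^ 52) := by omega
      exact lt_of_le_of_lt h1 pB
    · show (w1 i j >>> 56) + (2 ^ 135 + 2 ^ 52) < B
      have h1 : (w1 i j >>> 56) + (2 ^ 135 + 2 ^ 52) ≤ 2 ^ 136 + (2 ^ 136 + 2 ^ 52) := by omega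
      exact lt_of_le_of_lt h1 pB
    · show (((w0 i j >>> 56) + (2 ^ 136 + 2 ^ 52) - ((w2 i j >>> 56) + (if j = i then R i else 0)) : ℕ)
        : ℤ) = _
      have o : ((2 ^ 136 + 2 ^ 52 : ℕ) : ℤ) = 2 ^ 136 + 2 ^ 52 := by norm_num
      rw [Nat.cast_sub g0, Nat.cast_add, Nat.cast_add (w2 i j >>> 56), o, t0, t2]
      ring
    · show (((w1 i j >>> 56) + (2 ^ 135 + 2 ^ 52) : ℕ) : ℤ) = _
      have o : ((2 ^ 135 + 2 ^ 52 : ℕ) : ℤ) = 2 ^ 136 - 2 ^ 135 + 2 ^ 52 := by norm_num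
      rw [Nat.cast_add, o, t1]
      ring

/-- floor division -/
theorem fl56 (w : ℤ) : ((w / 2 ^ 56 : ℤ) : ℝ) ≤ (w : ℝ) / 2 ^ 56 ∧
    (w : ℝ) / 2 ^ 56 < ((w / 2 ^ 56 : ℤ) : ℝ) + 1 := by
  constructor
  · rw [le_div_iff₀ (by positivity)]
    have h : w / 2 ^ 56 * 2 ^ 56 ≤ w := Int.ediv_mul_le w (by norm_num)
    exact_mod_cast h
  · rw [div_lt_iff₀ (by positivity)]
    have h : w < (w / 2 ^ 56 + 1) * 2 ^ 56 := Int.lt_ediv_add_one_mul_self w (by norm_num)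
    exact_mod_cast h

theorem norm_le_of {z : ℂ} (h1 : -1 ≤ z.re ∧ z.re ≤ 1) (h2 : -1 ≤ z.im ∧ z.im ≤ 1) :
    ‖z‖ ≤ 3 / 2 := by
  have h : ‖z‖ ^ 2 ≤ (3 / 2) ^ 2 := by
    rw [← Complex.normSq_eq_norm_sq, Complex.normSq_apply]
    nlinarith [h1.1, h1.2, h2.1, h2.2]
  exact (sq_le_sq₀ (norm_nonneg _) (by norm_num)).mp h

/-- LEAF THEOREM -/
theorem leaf_sound {x : Z} {D : ℕ → ℕ → ℕ → ℤ}
    (hD : ∀ i < 9, ∀ j < 10, ∀ s < 3, |D i j s| ≤ 2 ^ 190) (hz : zv x = val D)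
    {R : ℕ → ℕ} (hR : ∀ i < 9, R i ≤ 2 ^ 130) {RD : ℕ} (hRD : RD = pk (V * B3) 9 R)
    (h : tf pd9 RD x = true) (v : ℕ → ℂ) :
    ∑ i ∈ range 9, ((R i : ℝ) - 14) * ‖v i‖ ^ 2 ≤
      G 9 (fun i j => ⟨((D i j 0 : ℝ) - D i j 2) / 2 ^ 56, (D i j 1 : ℝ) / 2 ^ 56⟩) v := by
  have hY : ((zoff x : ℕ) : ℤ) = val D + (OFF9 : ℤ) := by
    rw [zoff_cast (by rw [hz]; exact val_off_nonneg hD), hz]
  obtain ⟨d1, e1, hN, hE⟩ := tN_eq hD hY hR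
  rw [← hRD] at hN
  have h' : tf2 pd9 (tN RD (zoff x)) = true := h
  rw [hN] at h'
  have hsel : sel (Nat.beq (Nat.land (pk V 9 (fun i => pk B3 9 (sl d1 e1 i))) HI9) PT9)
      (pd9 (Nat.sub (pk V 9 (fun i => pk B3 9 (sl d1 e1 i))) PT9)) = true := h'
  obtain ⟨h1, h2⟩ := sel_true hsel
  have h1' : pk V 9 (fun i => pk B3 9 (sl d1 e1 i)) &&& HI9 = PT9 := Nat.eq_of_beq_eq_true h1
  have h2' : pd9 (pk V 9 (fun i => pk B3 9 (sl d1 e1 i)) - PT9) = true := h2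
  obtain ⟨u, hu⟩ : ∃ u : ℕ → ℕ, ∀ i, u i = 0 := ⟨fun _ => 0, fun _ => rfl⟩
  have hN' : pk V 9 (fun i => pk B3 9 (sl d1 e1 i)) =
      pk V 9 (fun i => pk B3 9 (sl d1 e1 i) + B3 ^ 9 * u i) :=
    pk_congr _ _ _ _ fun i _ => by rw [hu, Nat.mul_zero, Nat.add_zero]
  rw [HI9_eq, PT9_eq] at h1'
  have h1'' := h1'
  rw [hN'] at h1''
  have hRg := range_test (n := 9) (d := d1) (e := e1) (u := u) le_rfl (2 ^ 136) (2 ^ 136)
    (by unfold B; norm_num) (by unfold B; norm_num)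
    (fun i hi j hj => (hE i hi j hj).1) (fun i hi j hj => (hE i hi j hj).2.1)
    (fun i _ => by rw [hu]; exact pow_pos B3_pos _) h1''
  set d2 : ℕ → ℕ → ℕ := fun i j => d1 i j % 2 ^ 53 with hd2
  set e2 : ℕ → ℕ → ℕ := fun i j => e1 i j % 2 ^ 53 with he2
  have hsub : pk V 9 (fun i => pk B3 9 (sl d1 e1 i)) = pk V 9 (fun i => pk B3 9 (sl d2 e2 i)) + PT9 := by
    rw [PT9_eq, pk_add]
    refine pk_congr _ _ _ _ fun i hi => ?_
    rw [pk_add]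
    refine pk_congr _ _ _ _ fun j hj => ?_
    obtain ⟨g1, g2⟩ := hRg i hi j hj
    show d1 i j + B * e1 i j = d1 i j % 2 ^ 53 + B * (e1 i j % 2 ^ 53) + (2 ^ 136 + B * 2 ^ 136)
    calc d1 i j + B * e1 i j = (2 ^ 136 + d1 i j % 2 ^ 53) + B * (2 ^ 136 + e1 i j % 2 ^ 53) := by
          rw [← g1, ← g2]
      _ = _ := by ring
  rw [hsub, Nat.add_sub_cancel] at h2'
  have hmod : ∀ x : ℕ, x % 2 ^ 53 < 2 ^ 53 := fun x => Nat.mod_lt _ (by positivity)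
  have hG := pd9_digits (d := d2) (e := e2) (fun i _ j _ => hmod _) (fun i _ j _ => hmod _) rfl h2' v
  -- values of the digits
  have hdv : ∀ i < 9, ∀ j < 9, ((d2 i j : ℕ) : ℝ) - 2 ^ 52 = ((D i j 0 / 2 ^ 56 : ℤ) : ℝ) -
      ((D i j 2 / 2 ^ 56 : ℤ) : ℝ) - ((if j = i then R i else 0 : ℕ) : ℝ) := by
    intro i hi j hj
    obtain ⟨_, _, g3, _⟩ := hE i hi j hj
    obtain ⟨g1, _⟩ := hRg i hi j hj
    have g5 : ((d1 i j : ℕ) : ℤ) = 2 ^ 136 + ((d2 i j : ℕ) : ℤ) := by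
      have o : ((2 ^ 136 : ℕ) : ℤ) = 2 ^ 136 := by norm_num
      rw [← o, ← Nat.cast_add, ← g1]
    rw [g3] at g5
    have g6 : ((d2 i j : ℕ) : ℤ) = D i j 0 / 2 ^ 56 - D i j 2 / 2 ^ 56 + 2 ^ 52 -
        ((if j = i then R i else 0 : ℕ) : ℤ) := by linarith
    have g7 := congrArg (Int.cast : ℤ → ℝ) g6
    rw [Int.cast_natCast, Int.cast_sub, Int.cast_add, Int.cast_sub, Int.cast_natCast] at g7
    rw [g7]
    norm_num
    ring
  have hev : ∀ i < 9, ∀ j < 9, ((e2 i j : ℕ) : ℝ) - 2 ^ 52 = ((D i j 1 / 2 ^ 56 : ℤ) : ℝ) := by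
    intro i hi j hj
    obtain ⟨_, _, _, g3⟩ := hE i hi j hj
    obtain ⟨_, g1⟩ := hRg i hi j hj
    have g5 : ((e1 i j : ℕ) : ℤ) = 2 ^ 136 + ((e2 i j : ℕ) : ℤ) := by
      have o : ((2 ^ 136 : ℕ) : ℤ) = 2 ^ 136 := by norm_num
      rw [← o, ← Nat.cast_add, ← g1]
    rw [g3] at g5
    have g6 : ((e2 i j : ℕ) : ℤ) = D i j 1 / 2 ^ 56 + 2 ^ 52 := by linarith
    have g7 := congrArg (Int.cast : ℤ → ℝ) g6
    rw [Int.cast_natCast, Int.cast_add] at g7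
    rw [g7]
    norm_num
  -- the error matrix
  set E : ℕ → ℕ → ℂ := fun i j => ⟨((D i j 0 : ℝ) - D i j 2) / 2 ^ 56 -
    (((D i j 0 / 2 ^ 56 : ℤ) : ℝ) - ((D i j 2 / 2 ^ 56 : ℤ) : ℝ)),
    (D i j 1 : ℝ) / 2 ^ 56 - ((D i j 1 / 2 ^ 56 : ℤ) : ℝ)⟩ with hEdef
  have hEb : ∀ i < 9, ∀ j < 9, i ≤ j → ‖E i j‖ ≤ 3 / 2 := by
    intro i _ j _ _
    have a0 := fl56 (D i j 0)
    have a1 := fl56 (D i j 1)
    have a2 := fl56 (D i j 2)
    have hre : |(E i j).re| ≤ 1 := by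
      show |((D i j 0 : ℝ) - D i j 2) / 2 ^ 56 -
        (((D i j 0 / 2 ^ 56 : ℤ) : ℝ) - ((D i j 2 / 2 ^ 56 : ℤ) : ℝ))| ≤ 1
      rw [sub_div, abs_le]
      constructor
      · linarith [a0.1, a0.2, a2.1, a2.2]
      · linarith [a0.1, a0.2, a2.1, a2.2]
    have him : |(E i j).im| ≤ 1 := by
      show |(D i j 1 : ℝ) / 2 ^ 56 - ((D i j 1 / 2 ^ 56 : ℤ) : ℝ)| ≤ 1
      rw [abs_le]
      constructor
      · linarith [a1.1, a1.2]
      · linarith [a1.1, a1.2]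
    exact norm_le_of (abs_le.mp hre) (abs_le.mp him)
  have hsplit : G 9 (fun i j => (⟨((D i j 0 : ℝ) - D i j 2) / 2 ^ 56, (D i j 1 : ℝ) / 2 ^ 56⟩ : ℂ)) v =
      G 9 (fun i j => Mx d2 e2 i j + ((((if j = i then R i else 0 : ℕ) : ℝ) : ℂ) + E i j)) v := by
    refine G_congr 9 _ _ v fun i hi j hj _ => ?_
    apply Complex.ext
    · show ((D i j 0 : ℝ) - D i j 2) / 2 ^ 56 = (((d2 i j : ℕ) : ℝ) - 2 ^ 52) +
        (((if j = i then R i else 0 : ℕ) : ℝ) + (((D i j 0 : ℝ) - D i j 2) / 2 ^ 56 -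
          (((D i j 0 / 2 ^ 56 : ℤ) : ℝ) - ((D i j 2 / 2 ^ 56 : ℤ) : ℝ))))
      rw [hdv i hi j hj]
      ring
    · show (D i j 1 : ℝ) / 2 ^ 56 = (((e2 i j : ℕ) : ℝ) - 2 ^ 52) +
        (0 + ((D i j 1 : ℝ) / 2 ^ 56 - ((D i j 1 / 2 ^ 56 : ℤ) : ℝ)))
      rw [hev i hi j hj]
      ring
  rw [hsplit, G_add, G_add]
  have hDg : G 9 (fun i j => ((((if j = i then R i else 0 : ℕ) : ℝ) : ℂ))) v =
      ∑ i ∈ range 9, (R i : ℝ) * ‖v i‖ ^ 2 :=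
    G_diagR 9 _ (fun i => (R i : ℝ)) v (fun i _ => by rw [if_pos rfl])
      (fun i _ j _ hij => by rw [if_neg (by omega), Nat.cast_zero, Complex.ofReal_zero])
  have hE2 := G_err (by norm_num : (0 : ℝ) ≤ 3 / 2) 9 E v hEb
  have hsum := sq_sum_le 9 (fun i => ‖v i‖)
  have hnn : (0 : ℝ) ≤ ∑ i ∈ range 9, ‖v i‖ ^ 2 := Finset.sum_nonneg fun i _ => by positivity
  rw [hDg]
  have e14 : ∑ i ∈ range 9, ((R i : ℝ) - 14) * ‖v i‖ ^ 2 = ∑ i ∈ range 9, (R i : ℝ) * ‖v i‖ ^ 2 -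
      14 * ∑ i ∈ range 9, ‖v i‖ ^ 2 := by
    rw [Finset.mul_sum, ← Finset.sum_sub_distrib]
    exact Finset.sum_congr rfl fun i _ => by ring
  rw [e14]
  have h9 : ((9 : ℕ) : ℝ) = 9 := by norm_num
  rw [h9] at hsum
  linarith

end Pool.Agent.Helper90.K9N
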