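import Pool.Agent.Helper90.CX.KM3

/-!
Row KMO, part 4: constants, reciprocals, `z` and `1/z`, class constants, the six `om`.
-/

set_option autoImplicit false
noncomputable section
namespace Pool.Agent.Helper90.KMO

open Pool.Agent.Helper86.CX
open Pool.Agent.Helper86.C75 (Z)
open Pool.Agent.Helper90.C75

variable {n : ℕ} {wc : Fin n → ℝ} {t : ℝ}

theorem UUc_ne : (UU : ℂ) ≠ 0 := by exact_mod_cast UU_pos.ne'

theorem norm_UU : ‖(UU : ℂ)‖ = UU := by
  rw [Complex.norm_real, Real.norm_of_nonneg UU_pos.le]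

/-! ### constants -/

theorem len_rep (n : ℕ) (c : Cx) : (repL n c).length = n := by
  rw [repL_eq, List.length_replicate]

theorem Fv_rep (c : Cx) (v : Fin n × Fin 3) : Fv n (repL n c) v = cz c := by
  obtain ⟨i, j⟩ := v
  show ct (gv (repL n c) i) j = _
  rw [gv_rep i.2]
  fin_cases j <;> rfl

theorem MOK.cst (hn : 0 < n) (hw : Wts wc) (h0 : 0 ≤ t) (h1 : t ≤ 1) {f : ℂ} (c r : ℕ)
    (h : ‖(UU : ℂ) * f - c‖ ≤ r) : MOK n wc t f (cstM n c r) := by
  refine ⟨vok_mk hn (len_rep _ _) _, ?_⟩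
  show ‖UU * f - avg (wq wc t) (Fv n (repL n ⟨Z.p c, Z.p (nat_lit 0)⟩))‖ ≤ r
  have e : Fv n (repL n ⟨Z.p c, Z.p (nat_lit 0)⟩) = fun _ => (c : ℂ) := by
    funext v
    rw [Fv_rep]
    apply Complex.ext
    · simp [cz, zv]
    · simp [cz, zv]
  rw [e, avg_const (hw.q h0 h1)]
  exact h

/-- exact constants `c / 2 ^ 48` -/
theorem MOK.cst' (hn : 0 < n) (hw : Wts wc) (h0 : 0 ≤ t) (h1 : t ≤ 1) {f : ℂ} {c : ℕ}
    (h : (UU : ℂ) * f = c) : MOK n wc t f (cstM n c (nat_lit 0)) := by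
  refine MOK.cst hn hw h0 h1 c (nat_lit 0) ?_
  rw [h, sub_self, norm_zero]
  norm_num

/-! ### the residual of `f g = 1` -/

theorem cz_one1 : cz one1 = (UU : ℂ) := by
  apply Complex.ext
  · simp [cz, one1, zv, UU]
  · simp [cz, one1, zv, UU]

theorem Fv_sub1 {l : List C3} (h : l.length = n) (v : Fin n × Fin 3) :
    Fv n (mapL sub1 l) v = Fv n l v - UU := by
  obtain ⟨i, j⟩ := v
  unfold Fv
  rw [gv_map sub1 (by rw [h]; exact i.2), ← cz_one1]
  fin_cases j
  · exact cz_sub _ _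
  · exact cz_sub _ _
  · exact cz_sub _ _

theorem res1_le {l l' : List C3} (h : l.length = n) (h' : l'.length = n) (v : Fin n × Fin 3) :
    ‖pq (Fv n l) (Fv n l') v / UU - UU‖ ≤ res1 l l' := by
  have hlen := len_zip mul3 h h'
  have h1 := Fv_mul h h' v
  have h2 : ‖Fv n (zipL mul3 l l') v - UU‖ ≤ magL (mapL sub1 (zipL mul3 l l')) := by
    rw [← Fv_sub1 hlen]
    obtain ⟨i, j⟩ := v
    obtain ⟨a1, a2, a3⟩ := magL_le (mapL sub1 (zipL mul3 l l'))
      (gv (mapL sub1 (zipL mul3 l l')) i) (gv_mem (by rw [len_map _ hlen]; exact i.2))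
    fin_cases j
    · exact a1
    · exact a2
    · exact a3
  have e : ((res1 l l' : ℕ) : ℝ) = magL (mapL sub1 (zipL mul3 l l')) + 4 := by
    unfold res1
    rw [c_add]
    norm_num
  rw [e]
  have e1 : pq (Fv n l) (Fv n l') v / UU - UU = (Fv n (zipL mul3 l l') v - UU)
      - (Fv n (zipL mul3 l l') v - pq (Fv n l) (Fv n l') v / UU) := by ring
  rw [e1]
  have h3 := norm_sub_le (Fv n (zipL mul3 l l') v - UU)
    (Fv n (zipL mul3 l l') v - pq (Fv n l) (Fv n l') v / UU)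
  linarith

/-- the interpolations of `f` and of the candidate `g` multiply to about one -/
theorem res_avg (hw : Wts wc) (h0 : 0 ≤ t) (h1 : t ≤ 1) {M N : Mo} (hM : VOK n M) (hN : VOK n N) :
    ‖avg (wq wc t) (Fv n M.v) * avg (wq wc t) (Fv n N.v) / UU - UU‖ ≤
      res1 M.v N.v + thd M N / UU := by
  have hU := UU_pos
  have hq := hw.q h0 h1
  have c := vok_cov hw h0 h1 hM hN
  have r : ‖avg (wq wc t) (pq (Fv n M.v) (Fv n N.v)) / UU - UU‖ ≤ res1 M.v N.v := by
    have e : avg (wq wc t) (pq (Fv n M.v) (Fv n N.v)) / UU - UU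
        = avg (wq wc t) (fun v => pq (Fv n M.v) (Fv n N.v) v / UU - UU) := by
      have e1 : (fun v => pq (Fv n M.v) (Fv n N.v) v / UU - UU)
          = fun v => (UU : ℂ)⁻¹ * pq (Fv n M.v) (Fv n N.v) v - UU := by
        funext v; rw [div_eq_inv_mul]
      rw [e1, avg_sub, avg_smul, avg_const hq, div_eq_inv_mul]
    rw [e]
    exact norm_avg_le hq fun v => res1_le hM.len hN.len v
  have e2 : avg (wq wc t) (Fv n M.v) * avg (wq wc t) (Fv n N.v) / UU - UU
      = (avg (wq wc t) (pq (Fv n M.v) (Fv n N.v)) / UU - UU)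
        - (avg (wq wc t) (pq (Fv n M.v) (Fv n N.v))
          - avg (wq wc t) (Fv n M.v) * avg (wq wc t) (Fv n N.v)) / UU := by ring
  rw [e2]
  refine (norm_sub_le _ _).trans (add_le_add r ?_)
  rw [norm_div, norm_UU]
  exact div_le_div_of_nonneg_right c hU.le

/-! ### the reciprocal -/

theorem etaM_le (M N : Mo) : (res1 M.v N.v : ℝ) + (thd M N + M.r * N.B) / UU ≤ etaM M N := by
  have e : ((etaM M N : ℕ) : ℝ) = res1 M.v N.v + (Nat.shiftRight (Nat.add (thd M N)
      (Nat.mul M.r N.B)) (nat_lit 48) : ℕ) + 1 := by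
    unfold etaM
    rw [c_add, c_add]
    norm_num
  have h := (shr_le (Nat.add (thd M N) (Nat.mul M.r N.B))).2
  rw [c_add, c_mul] at h
  rw [e]
  linarith

theorem MOK.invM (hn : 0 < n) (hw : Wts wc) (h0 : 0 ≤ t) (h1 : t ≤ 1) {f : ℂ} {M : Mo}
    (hf : MOK n wc t f M) (hok : invOK n M = true) :
    MOK n wc t f⁻¹ (Pool.Agent.Helper86.CX.invM n M) ∧ f ≠ 0 := by
  have hU := UU_pos
  have hq := hw.q h0 h1
  set N := inv0 n M with hN
  have hNv : VOK n N := vok_mk hn (len_map _ hf.val.len) _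
  have hη : etaM M N ≤ 140737488355328 := Nat.le_of_ble_eq_true hok
  have hη' : ((etaM M N : ℕ) : ℝ) ≤ UU / 2 := by
    have : ((etaM M N : ℕ) : ℝ) ≤ 140737488355328 := by exact_mod_cast hη
    unfold UU
    linarith
  set F := avg (wq wc t) (Fv n M.v)
  set G := avg (wq wc t) (Fv n N.v)
  have hGB : ‖G‖ ≤ N.B := norm_avg_le hq hNv.bd
  have hm : ‖(UU : ℂ) * f - F‖ ≤ M.r := hf.mod
  have k1 : ‖f * G - UU‖ ≤ etaM M N := by
    have h2 := res_avg hw h0 h1 hf.val hNv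
    have e : f * G - UU = (F * G / UU - UU) + ((UU : ℂ) * f - F) * G / UU := by
      have := UUc_ne
      field_simp
      ring
    rw [e]
    refine (norm_add_le _ _).trans ?_
    have h3 : ‖((UU : ℂ) * f - F) * G / UU‖ ≤ M.r * N.B / UU := by
      rw [norm_div, norm_UU, norm_mul]
      exact div_le_div_of_nonneg_right (mul_le_mul hm hGB (norm_nonneg _) (Nat.cast_nonneg _))
        hU.le
    have h4 := etaM_le M N
    have e5 : ((thd M N : ℝ) + M.r * N.B) / UU = thd M N / UU + M.r * N.B / UU := by ring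
    rw [e5] at h4
    linarith
  have hpos : 0 < UU - etaM M N := by linarith
  have hfG : UU - etaM M N ≤ ‖f * G‖ := by
    have h3 := norm_sub_norm_le (UU : ℂ) (f * G)
    rw [norm_sub_rev, norm_UU] at h3
    linarith
  have hf0 : f ≠ 0 := by
    rintro rfl
    rw [zero_mul, norm_zero] at hfG
    linarith
  refine ⟨⟨⟨hNv.len, hNv.bd, hNv.dev, hNv.dif, hNv.sec⟩, ?_⟩, hf0⟩
  show ‖(UU : ℂ) * f⁻¹ - G‖ ≤ ((Nat.add (Nat.div (Nat.mul (etaM M N) N.B)
    (Nat.sub (nat_lit 281474976710656) (etaM M N))) (nat_lit 1) : ℕ) : ℝ)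
  have hG0 : G ≠ 0 := by
    intro h
    rw [h, mul_zero, norm_zero] at hfG
    linarith
  have e : (UU : ℂ) * f⁻¹ - G = -((f * G - UU) * G / (f * G)) := by
    field_simp
    ring
  have hsub : ((Nat.sub (nat_lit 281474976710656) (etaM M N) : ℕ) : ℝ) = UU - etaM M N := by
    show ((281474976710656 - etaM M N : ℕ) : ℝ) = _
    rw [Nat.cast_sub (by omega)]
    unfold UU
    norm_num
  have hsubpos : 0 < Nat.sub (nat_lit 281474976710656) (etaM M N) := by
    show 0 < 281474976710656 - etaM M N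
    omega
  have h6 := div_ub (Nat.mul (etaM M N) N.B) hsubpos
  rw [hsub, c_mul] at h6
  rw [e, norm_neg, c_add]
  have h7 : ‖(f * G - UU) * G / (f * G)‖ ≤ etaM M N * N.B / (UU - etaM M N) := by
    rw [norm_div, norm_mul]
    exact div_le_div₀ (by positivity) (mul_le_mul k1 hGB (norm_nonneg _) (Nat.cast_nonneg _)) hpos
      hfG
  have g1 : ((nat_lit 1 : ℕ) : ℝ) = 1 := by norm_num
  rw [g1]
  exact h7.trans h6

/-! ### `z` and `1/z` -/

theorem mOK_at {m : ℕ} : ∀ {l l' : List C3}, mOK m l l' = true → ∀ {i : ℕ}, i < l.length →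
    i < l'.length → mOK3 m (gv l i) (gv l' i) = true := by
  intro l
  induction l with
  | nil => intro l' _ i h; exact absurd h (Nat.not_lt_zero _)
  | cons x l ih =>
    intro l' h i hi hi'
    cases l' with
    | nil => exact absurd hi' (Nat.not_lt_zero _)
    | cons y l' =>
      have e : andB (mOK3 m x y) (mOK m l l') = true := h
      have h1 : mOK3 m x y = true ∧ mOK m l l' = true := by
        cases h2 : mOK3 m x y with
        | true => rw [h2] at e; exact ⟨rfl, e⟩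
        | false => rw [h2] at e; cases e
      cases i with
      | zero => exact h1.1
      | succ i => exact ih h1.2 (Nat.lt_of_succ_lt_succ hi) (Nat.lt_of_succ_lt_succ hi')

theorem andB_t {x y : Bool} (h : andB x y = true) : x = true ∧ y = true := by
  cases x with
  | true => exact ⟨rfl, h⟩
  | false => cases h

theorem mOK1_at {m : ℕ} {x u : Cx} (h : mOK1 m x u = true) (hx : 0 ≤ (cz x).im) :
    (m : ℝ) ≤ (cz x).im - (cz u).im := by
  obtain ⟨h1, h2⟩ := andB_t h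
  have h3 : m ≤ ab x.im + ab u.im := Nat.le_of_ble_eq_true h2
  have h3' : (m : ℝ) ≤ ab x.im + ab u.im := by exact_mod_cast h3
  rw [ab_cast, ab_cast] at h3'
  have h4 : (zv u.im : ℝ) ≤ 0 := by
    cases hu : u.im with
    | p k => rw [hu] at h1; cases h1
    | m k =>
      show ((-(k : ℤ) : ℤ) : ℝ) ≤ 0
      push_cast
      linarith [Nat.cast_nonneg (α := ℝ) k]
  have h5 : (0 : ℝ) ≤ zv x.im := hx
  rw [abs_of_nonneg h5, abs_of_nonpos h4] at h3'
  show (m : ℝ) ≤ (zv x.im : ℝ) - (zv u.im : ℝ)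
  linarith

/-- MODELS OF `1/z` AND `z` -/
theorem MOK.z (hn : 0 < n) (hw : Wts wc) (h0 : 0 ≤ t) (h1 : t ≤ 1) {z x : ℂ} (hz : z ≠ 0)
    (hx : z + z⁻¹ = x) (hi : (z⁻¹).im ≤ 0) {xs us : List C3} (rx : ℕ) (hxl : xs.length = n)
    (hul : us.length = n) (hxm : Mod (wq wc t) (UU * x) (Fv n xs) rx)
    (hxi : (avg (wq wc t) (Fv n xs)).im = UU * x.im) (hx0 : ∀ v, 0 ≤ (Fv n xs v).im)
    {m : ℕ} (hm : 0 < m) (hok : mOK m xs us = true) :
    MOK n wc t z⁻¹ (uM m (Pool.Agent.Helper86.CX.mk n xs rx) (Pool.Agent.Helper86.CX.mk n us (nat_lit 0))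
      (Pool.Agent.Helper86.CX.mk n (zipL sub3 xs us) (nat_lit 0))) ∧
    MOK n wc t z (zM (Pool.Agent.Helper86.CX.mk n xs rx) (uM m (Pool.Agent.Helper86.CX.mk n xs rx) (Pool.Agent.Helper86.CX.mk n us (nat_lit 0))
      (Pool.Agent.Helper86.CX.mk n (zipL sub3 xs us) (nat_lit 0))) (Pool.Agent.Helper86.CX.mk n (zipL sub3 xs us) (nat_lit 0))) := by
  have hU := UU_pos
  have hUc := UUc_ne
  have hq := hw.q h0 h1
  have hzl : (zipL sub3 xs us).length = n := len_zip _ hxl hul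
  set X := Pool.Agent.Helper86.CX.mk n xs rx with hX
  set Um := Pool.Agent.Helper86.CX.mk n us (nat_lit 0) with hUm
  set Zm := Pool.Agent.Helper86.CX.mk n (zipL sub3 xs us) (nat_lit 0) with hZm
  have vX : VOK n X := vok_mk hn hxl _
  have vU : VOK n Um := vok_mk hn hul _
  have vZ : VOK n Zm := vok_mk hn hzl _
  have hm' : (0 : ℝ) < m := by exact_mod_cast hm
  -- the averages
  set η := avg (wq wc t) (Fv n us) with hη
  set ξ := avg (wq wc t) (Fv n xs) with hξ
  set ζ := avg (wq wc t) (Fv n (zipL sub3 xs us)) with hζ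
  have eζ : ζ = ξ - η := by
    rw [hζ, hξ, hη, ← avg_sub]
    congr 1
    funext v
    exact Fv_sub hxl hul v
  have c := res_avg hw h0 h1 vZ vU
  change ‖ζ * η / UU - UU‖ ≤ _ at c
  have hηB : ‖η‖ ≤ Um.B := norm_avg_le hq vU.bd
  have hxr : ‖(UU : ℂ) * x - ξ‖ ≤ rx := hxm
  -- lower bound of the distance
  have him : (m : ℝ) ≤ ξ.im - η.im := by
    rw [hξ, hη, avg_im, avg_im, ← Finset.sum_sub_distrib]
    calc (m : ℝ) = ∑ v, wq wc t v * m := by rw [← Finset.sum_mul, hq.sum, one_mul]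
      _ ≤ ∑ v, (wq wc t v * (Fv n xs v).im - wq wc t v * (Fv n us v).im) := by
        refine Finset.sum_le_sum fun v _ => ?_
        rw [← mul_sub]
        refine mul_le_mul_of_nonneg_left ?_ (hq.nonneg v)
        obtain ⟨i, j⟩ := v
        have h3 := mOK_at hok (i := i) (by rw [hxl]; exact i.2) (by rw [hul]; exact i.2)
        have hx1 := hx0 (i, j)
        obtain ⟨m1, m2⟩ := andB_t h3
        obtain ⟨m2, m3⟩ := andB_t m2
        fin_cases j
        · exact mOK1_at m1 hx1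
        · exact mOK1_at m2 hx1
        · exact mOK1_at m3 hx1
  have hun := u_near hz hx hi (v := η / UU) (m := m / UU) (div_pos hm' hU) (by
    rw [Complex.div_ofReal_im]
    have : x.im = ξ.im / UU := by
      rw [hxi]; field_simp
    rw [this, ← sub_div]
    exact div_le_div_of_nonneg_right him hU.le)
  have hres : ‖(η / UU) ^ 2 - x * (η / UU) + 1‖ ≤
      (res1 Zm.v Um.v + (thd Zm Um + Um.B * rx) / UU) / UU := by
    have e : (η / UU) ^ 2 - x * (η / UU) + 1 = -((ζ * η / UU - UU) + ((UU : ℂ) * x - ξ) * η / UU) /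
        UU := by
      rw [eζ]
      field_simp
      ring
    rw [e, norm_div, norm_UU, norm_neg]
    refine div_le_div_of_nonneg_right ((norm_add_le _ _).trans ?_) hU.le
    have h3 : ‖((UU : ℂ) * x - ξ) * η / UU‖ ≤ Um.B * rx / UU := by
      rw [norm_div, norm_UU, norm_mul, mul_comm (Um.B : ℝ)]
      exact div_le_div_of_nonneg_right (mul_le_mul hxr hηB (norm_nonneg _) (Nat.cast_nonneg _))
        hU.le
    have e5 : ((thd Zm Um : ℝ) + Um.B * rx) / UU = thd Zm Um / UU + Um.B * rx / UU := by ring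
    rw [e5]
    linarith
  have hfin : ‖(UU : ℂ) * z⁻¹ - η‖ ≤ ((Nat.add (Nat.div (Nat.mul (Nat.add (Nat.add
      (res1 Zm.v Um.v) (Nat.shiftRight (Nat.add (thd Zm Um) (Nat.mul Um.B rx)) (nat_lit 48)))
      (nat_lit 1)) (nat_lit 281474976710656)) m) (nat_lit 1) : ℕ) : ℝ) := by
    have e : (UU : ℂ) * z⁻¹ - η = UU * (z⁻¹ - η / UU) := by field_simp
    rw [e, norm_mul, norm_UU]
    have h3 := mul_le_mul_of_nonneg_left hun hU.le
    refine h3.trans ?_
    have h4 := div_ub (Nat.mul (Nat.add (Nat.add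
      (res1 Zm.v Um.v) (Nat.shiftRight (Nat.add (thd Zm Um) (Nat.mul Um.B rx)) (nat_lit 48)))
      (nat_lit 1)) (nat_lit 281474976710656)) hm
    rw [c_mul, c_add, c_add] at h4
    have h5 := (shr_le (Nat.add (thd Zm Um) (Nat.mul Um.B rx))).2
    rw [c_add, c_mul] at h5
    have g1 : ((nat_lit 1 : ℕ) : ℝ) = 1 := by norm_num
    have g2 : ((nat_lit 281474976710656 : ℕ) : ℝ) = UU := by unfold UU; norm_num
    rw [c_add, g1]
    rw [g1, g2] at h4
    refine le_trans ?_ h4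
    have e6 : UU * (‖(η / UU) ^ 2 - x * (η / UU) + 1‖ / (m / UU))
        = ‖(η / UU) ^ 2 - x * (η / UU) + 1‖ * UU * UU / m := by field_simp
    rw [e6]
    refine div_le_div_of_nonneg_right ?_ hm'.le
    refine mul_le_mul_of_nonneg_right ?_ hU.le
    have h7 : ‖(η / UU) ^ 2 - x * (η / UU) + 1‖ * UU ≤
        res1 Zm.v Um.v + (thd Zm Um + Um.B * rx) / UU := by
      have := mul_le_mul_of_nonneg_right hres hU.le
      rw [div_mul_cancel₀ _ hU.ne'] at this
      exact this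
    linarith
  refine ⟨⟨⟨vU.len, vU.bd, vU.dev, vU.dif, vU.sec⟩, hfin⟩, ⟨⟨vZ.len, vZ.bd, vZ.dev, vZ.dif,
    vZ.sec⟩, ?_⟩⟩
  show ‖(UU : ℂ) * z - ζ‖ ≤ ((Nat.add (uM m X Um Zm).r rx : ℕ) : ℝ)
  rw [c_add]
  have e : (UU : ℂ) * z - ζ = (UU * x - ξ) - (UU * z⁻¹ - η) := by
    rw [eζ, ← hx]; ring
  rw [e]
  have h8 := norm_sub_le ((UU : ℂ) * x - ξ) (UU * z⁻¹ - η)
  have h9 : ((uM m X Um Zm).r : ℝ) = ((Nat.add (Nat.div (Nat.mul (Nat.add (Nat.add
      (res1 Zm.v Um.v) (Nat.shiftRight (Nat.add (thd Zm Um) (Nat.mul Um.B rx)) (nat_lit 48)))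
      (nat_lit 1)) (nat_lit 281474976710656)) m) (nat_lit 1) : ℕ) : ℝ) := rfl
  rw [h9]
  linarith

/-! ### the derived functions -/

/-- `2 (1 + λ z)` -/
theorem MOK.gM (hn : 0 < n) (hw : Wts wc) (h0 : 0 ≤ t) (h1 : t ≤ 1) {l z : ℂ} {L Zm : Mo}
    (hl : MOK n wc t l L) (hz : MOK n wc t z Zm) :
    MOK n wc t (2 * (1 + l * z)) (Pool.Agent.Helper86.CX.gM n L Zm) := by
  have h2 : MOK n wc t 2 (cstM n (nat_lit 562949953421312) (nat_lit 0)) :=
    MOK.cst' hn hw h0 h1 (by unfold UU; norm_num)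
  have h3 := hl.mul hn hw h0 h1 hz
  have h4 := h2.add (h3.add h3)
  have e : 2 * (1 + l * z) = 2 + (l * z + l * z) := by ring
  rw [e]
  exact h4

end Pool.Agent.Helper90.KMO
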