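import Pool.Agent.C75W.Im

/-!
Row K9 (MP_c75db0), part E: Hermitian forms given by the upper triangle, Schur complement.
-/

set_option autoImplicit false
noncomputable section
namespace Pool.Agent.Helper90.K9

open Finset

/-- Hermitian form given by its upper triangle -/
def G : ℕ → (ℕ → ℕ → ℂ) → (ℕ → ℂ) → ℝ
  | 0, _, _ => 0
  | n + 1, M, v => (M 0 0).re * ‖v 0‖ ^ 2 +
      2 * (star (v 0) * ∑ j ∈ range n, M 0 (j + 1) * v (j + 1)).re +
      G n (fun i j => M (i + 1) (j + 1)) (fun i => v (i + 1))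

theorem G_succ (n : ℕ) (M : ℕ → ℕ → ℂ) (v : ℕ → ℂ) : G (n + 1) M v = (M 0 0).re * ‖v 0‖ ^ 2 +
      2 * (star (v 0) * ∑ j ∈ range n, M 0 (j + 1) * v (j + 1)).re +
      G n (fun i j => M (i + 1) (j + 1)) (fun i => v (i + 1)) := rfl

theorem G_congr : ∀ (n : ℕ) (M M' : ℕ → ℕ → ℂ) (v : ℕ → ℂ),
    (∀ i < n, ∀ j < n, i ≤ j → M i j = M' i j) → G n M v = G n M' v
  | 0, _, _, _, _ => rfl
  | n + 1, M, M', v, h => by
    have e : ∑ j ∈ range n, M 0 (j + 1) * v (j + 1) = ∑ j ∈ range n, M' 0 (j + 1) * v (j + 1) :=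
      Finset.sum_congr rfl fun j hj => by
        rw [h 0 (Nat.succ_pos n) (j + 1) (Nat.succ_lt_succ (Finset.mem_range.mp hj)) (Nat.zero_le _)]
    rw [G_succ, G_succ, h 0 (Nat.succ_pos n) 0 (Nat.succ_pos n) le_rfl, e,
      G_congr n _ (fun i j => M' (i + 1) (j + 1)) _
        (fun i hi j hj hij => h (i + 1) (Nat.succ_lt_succ hi) (j + 1) (Nat.succ_lt_succ hj)
          (Nat.succ_le_succ hij))]

theorem G_add : ∀ (n : ℕ) (M M' : ℕ → ℕ → ℂ) (v : ℕ → ℂ),
    G n (fun i j => M i j + M' i j) v = G n M v + G n M' v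
  | 0, _, _, _ => (add_zero (0 : ℝ)).symm
  | n + 1, M, M', v => by
    rw [G_succ, G_succ, G_succ, G_add n]
    have : ∑ j ∈ range n, (M 0 (j + 1) + M' 0 (j + 1)) * v (j + 1) =
        ∑ j ∈ range n, M 0 (j + 1) * v (j + 1) + ∑ j ∈ range n, M' 0 (j + 1) * v (j + 1) := by
      rw [← Finset.sum_add_distrib]
      exact Finset.sum_congr rfl fun j _ => add_mul _ _ _
    rw [this, mul_add, Complex.add_re, Complex.add_re]
    ring

/-- the square of a linear form -/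
theorem G_outer : ∀ (n : ℕ) (h v : ℕ → ℂ) (c : ℝ),
    G n (fun i j => c * (star (h i) * h j)) v = c * ‖∑ j ∈ range n, h j * v j‖ ^ 2
  | 0, _, _, c => by
    show (0 : ℝ) = c * ‖∑ j ∈ range 0, _‖ ^ 2
    simp
  | n + 1, h, v, c => by
    rw [G_succ, G_outer n (fun i => h (i + 1)) (fun i => v (i + 1)) c, Finset.sum_range_succ']
    set w := ∑ j ∈ range n, h (j + 1) * v (j + 1) with hw
    have e1 : ∑ j ∈ range n, (c : ℂ) * (star (h 0) * h (j + 1)) * v (j + 1) = c * (star (h 0) * w) := by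
      rw [hw, Finset.mul_sum, Finset.mul_sum]
      exact Finset.sum_congr rfl fun j _ => by ring
    rw [e1]
    have e2 : ‖w + h 0 * v 0‖ ^ 2 = ‖w‖ ^ 2 + 2 * (star (v 0) * (star (h 0) * w)).re +
        ‖h 0‖ ^ 2 * ‖v 0‖ ^ 2 := by
      rw [← Complex.normSq_eq_norm_sq, ← Complex.normSq_eq_norm_sq, ← Complex.normSq_eq_norm_sq,
        ← Complex.normSq_eq_norm_sq, Complex.normSq_add, Complex.normSq_mul]
      have : (w * (starRingEnd ℂ) (h 0 * v 0)).re = (star (v 0) * (star (h 0) * w)).re := by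
        rw [map_mul]
        congr 1
        show w * (star (h 0) * star (v 0)) = _
        ring
      rw [this]
      ring
    rw [e2]
    have e3 : ((c : ℂ) * (star (h 0) * h 0)).re = c * ‖h 0‖ ^ 2 := by
      have : star (h 0) * h 0 = ((‖h 0‖ ^ 2 : ℝ) : ℂ) := by
        rw [← Complex.normSq_eq_norm_sq]
        exact (Complex.normSq_eq_conj_mul_self).symm
      rw [this, ← Complex.ofReal_mul, Complex.ofReal_re]
    have e4 : (star (v 0) * (c * (star (h 0) * w))).re = c * (star (v 0) * (star (h 0) * w)).re := by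
      rw [← mul_assoc, mul_comm (star (v 0)) (c : ℂ), mul_assoc, Complex.re_ofReal_mul]
    rw [e3, e4]
    ring

/-- a form with small entries -/
theorem G_err {ε : ℝ} (hε : 0 ≤ ε) : ∀ (n : ℕ) (E : ℕ → ℕ → ℂ) (v : ℕ → ℂ),
    (∀ i < n, ∀ j < n, i ≤ j → ‖E i j‖ ≤ ε) → -(ε * (∑ i ∈ range n, ‖v i‖) ^ 2) ≤ G n E v
  | 0, _, _, _ => by
    show -(ε * (∑ i ∈ range 0, _) ^ 2) ≤ (0 : ℝ)
    simp
  | n + 1, E, v, h => by
    have ih := G_err hε n (fun i j => E (i + 1) (j + 1)) (fun i => v (i + 1))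
      (fun i hi j hj hij => h (i + 1) (Nat.succ_lt_succ hi) (j + 1) (Nat.succ_lt_succ hj)
        (Nat.succ_le_succ hij))
    rw [G_succ, Finset.sum_range_succ']
    set A := ∑ i ∈ range n, ‖v (i + 1)‖ with hA
    have h1 : -(ε * ‖v 0‖ ^ 2) ≤ (E 0 0).re * ‖v 0‖ ^ 2 := by
      have h2 : |(E 0 0).re| ≤ ε := (Complex.abs_re_le_norm _).trans
        (h 0 (Nat.succ_pos n) 0 (Nat.succ_pos n) le_rfl)
      have h3 := (abs_le.mp h2).1
      have h4 : (0 : ℝ) ≤ ‖v 0‖ ^ 2 := by positivity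
      have h5 := mul_le_mul_of_nonneg_right h3 h4
      linarith
    have h2 : -(ε * ‖v 0‖ * A) ≤ (star (v 0) * ∑ j ∈ range n, E 0 (j + 1) * v (j + 1)).re := by
      have h3 : ‖∑ j ∈ range n, E 0 (j + 1) * v (j + 1)‖ ≤ ε * A := by
        rw [hA, Finset.mul_sum]
        refine (norm_sum_le _ _).trans (Finset.sum_le_sum fun j hj => ?_)
        rw [norm_mul]
        exact mul_le_mul_of_nonneg_right (h 0 (Nat.succ_pos n) (j + 1)
          (Nat.succ_lt_succ (Finset.mem_range.mp hj)) (Nat.zero_le _)) (norm_nonneg _)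
      have h4 := (Complex.abs_re_le_norm (star (v 0) * ∑ j ∈ range n, E 0 (j + 1) * v (j + 1)))
      rw [norm_mul, norm_star] at h4
      have h5 := mul_le_mul_of_nonneg_left h3 (norm_nonneg (v 0))
      have h6 := (abs_le.mp (h4.trans h5)).1
      linarith
    nlinarith [ih]

theorem sq_sum_le (n : ℕ) (a : ℕ → ℝ) : (∑ i ∈ range n, a i) ^ 2 ≤ n * ∑ i ∈ range n, a i ^ 2 := by
  have h := sq_sum_le_card_mul_sum_sq (s := range n) (f := a)
  rw [Finset.card_range] at h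
  exact h

/-- the diagonal -/
theorem G_diag : ∀ (n : ℕ) (D : ℕ → ℕ → ℂ) (c : ℝ) (v : ℕ → ℂ),
    (∀ i < n, D i i = c) → (∀ i < n, ∀ j < n, i < j → D i j = 0) →
    G n D v = c * ∑ i ∈ range n, ‖v i‖ ^ 2
  | 0, _, c, _, _, _ => by
    show (0 : ℝ) = c * ∑ i ∈ range 0, _
    simp
  | n + 1, D, c, v, h1, h2 => by
    have ih := G_diag n (fun i j => D (i + 1) (j + 1)) c (fun i => v (i + 1))
      (fun i hi => h1 (i + 1) (Nat.succ_lt_succ hi))
      (fun i hi j hj hij => h2 (i + 1) (Nat.succ_lt_succ hi) (j + 1) (Nat.succ_lt_succ hj)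
        (Nat.succ_lt_succ hij))
    rw [G_succ, ih, Finset.sum_range_succ', h1 0 (Nat.succ_pos n), Complex.ofReal_re]
    have : ∑ j ∈ range n, D 0 (j + 1) * v (j + 1) = 0 := Finset.sum_eq_zero fun j hj => by
      rw [h2 0 (Nat.succ_pos n) (j + 1) (Nat.succ_lt_succ (Finset.mem_range.mp hj)) (Nat.succ_pos j),
        zero_mul]
    rw [this, mul_zero, Complex.zero_re]
    ring

/-- SCHUR COMPLEMENT -/
theorem G_schur (n : ℕ) (M : ℕ → ℕ → ℂ) (v : ℕ → ℂ) {p : ℝ} (hp : 0 < p) (hM : (M 0 0).re = p)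
    (S : ℕ → ℕ → ℂ) (hS : ∀ i < n, ∀ j < n, i ≤ j →
      M (i + 1) (j + 1) = S i j + (p⁻¹ : ℝ) * (star (M 0 (i + 1)) * M 0 (j + 1))) :
    G n S (fun i => v (i + 1)) ≤ G (n + 1) M v := by
  have h1 : G n (fun i j => M (i + 1) (j + 1)) (fun i => v (i + 1)) = G n (fun i j => S i j +
      (p⁻¹ : ℝ) * (star (M 0 (i + 1)) * M 0 (j + 1))) (fun i => v (i + 1)) :=
    G_congr n _ _ _ hS
  rw [G_succ, h1, G_add, G_outer n (fun i => M 0 (i + 1)) (fun i => v (i + 1)) p⁻¹, hM]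
  set w := ∑ j ∈ range n, M 0 (j + 1) * v (j + 1) with hw
  have h2 : (0 : ℝ) ≤ p⁻¹ * ‖(p : ℂ) * v 0 + w‖ ^ 2 := by positivity
  have h3 : ‖(p : ℂ) * v 0 + w‖ ^ 2 = p ^ 2 * ‖v 0‖ ^ 2 + 2 * p * (star (v 0) * w).re + ‖w‖ ^ 2 := by
    rw [← Complex.normSq_eq_norm_sq, ← Complex.normSq_eq_norm_sq, ← Complex.normSq_eq_norm_sq,
      Complex.normSq_add, Complex.normSq_mul, Complex.normSq_ofReal]
    have : ((p : ℂ) * v 0 * (starRingEnd ℂ) w).re = p * (star (v 0) * w).re := by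
      rw [mul_assoc, Complex.re_ofReal_mul]
      congr 1
      rw [← Complex.conj_re]
      congr 1
      rw [map_mul, Complex.conj_conj]
      rfl
    rw [this]
    ring
  rw [h3] at h2
  have h4 : p⁻¹ * (p ^ 2 * ‖v 0‖ ^ 2 + 2 * p * (star (v 0) * w).re + ‖w‖ ^ 2) =
      p * ‖v 0‖ ^ 2 + 2 * (star (v 0) * w).re + p⁻¹ * ‖w‖ ^ 2 := by
    field_simp
  rw [h4] at h2
  linarith

end Pool.Agent.Helper90.K9
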