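import Pool.Agent.Helper90.CX.K9B

/-!
Row K9 (MP_c75db0), part C: one pivot of the elimination on a packed 9 x 9 matrix.
-/

set_option autoImplicit false
noncomputable section
namespace Pool.Agent.Helper90.K9

def B : ℕ := 2 ^ 192
def B3 : ℕ := 2 ^ 576
def V : ℕ := 2 ^ 5760

theorem B3_eq : B3 = B * (B * B) := by
  unfold B B3
  rw [← pow_add, ← pow_add]
theorem V_eq : V = B3 ^ 10 := by
  unfold B3 V
  rw [← pow_mul]
theorem B_pos : 0 < B := by unfold B; positivity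
theorem B3_pos : 0 < B3 := by unfold B3; positivity
theorem V_pos : 0 < V := by unfold V; positivity

theorem V_split {n : ℕ} (hn : n ≤ 10) : V = B3 ^ n * B3 ^ (10 - n) := by
  rw [V_eq, ← pow_add]
  congr 1
  omega

/-- slot of a matrix -/
def sl (d e : ℕ → ℕ → ℕ) (i j : ℕ) : ℕ := d i j + B * e i j

theorem sl_lt {d e : ℕ → ℕ → ℕ} {i j : ℕ} (hd : d i j < 2 ^ 53) (he : e i j < 2 ^ 53) :
    sl d e i j < B3 := by
  unfold sl
  have h1 : B * e i j ≤ B * 2 ^ 53 := Nat.mul_le_mul_left _ he.le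
  have h2 : 2 ^ 53 + B * 2 ^ 53 ≤ B3 := by
    have h3 : 2 ^ 53 + B * 2 ^ 53 ≤ 2 ^ 246 := by unfold B; norm_num
    exact h3.trans (by unfold B3; exact Nat.pow_le_pow_right (by norm_num) (by norm_num))
  omega

/-- packed state of size n -/
structure Inv (n N : ℕ) (d e : ℕ → ℕ → ℕ) (u : ℕ → ℕ) : Prop where
  hd : ∀ i < n, ∀ j < n, d i j < 2 ^ 53
  he : ∀ i < n, ∀ j < n, e i j < 2 ^ 53
  hu : ∀ i < n, u i < B3 ^ (10 - n)
  hN : N = pk V n (fun i => pk B3 n (sl d e i) + B3 ^ n * u i)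

structure St where
  W2 : ℕ
  cR : ℕ
  E : ℕ
  MRe : ℕ
  MIm : ℕ
  K : ℕ
  OFF : ℕ
  MV0 : ℕ
  MV01 : ℕ
  C1 : ℕ
  HI : ℕ
  PT : ℕ

/-- the constants are right -/
structure OK (n : ℕ) (s : St) : Prop where
  W2 : s.W2 = B3 ^ n
  cR : s.cR + pk B3 n (fun _ => 2 ^ 52 + B * 2 ^ 52) = B3 ^ n
  E : s.E = pk (B3 ^ 9) n (fun _ => 1)
  MRe : s.MRe = pk V n (fun _ => 2 ^ 53 - 1)
  MIm : s.MIm = pk V n (fun _ => B * (2 ^ 53 - 1))
  K : s.K + pk V n (fun _ => 2 ^ 52) = V ^ n + pk V n (fun _ => B * 2 ^ 52)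
  OFF : s.OFF = pk V n (fun _ => pk B3 (n + 1) (fun _ => 2 ^ 191 + B * (2 ^ 191 + B * 2 ^ 191)))
  MV0 : s.MV0 = pk V n (fun _ => pk B3 n (fun _ => 2 ^ 75 - 1))
  MV01 : s.MV01 = pk V n (fun _ => pk B3 n (fun _ => (2 ^ 75 - 1) + B * (2 ^ 75 - 1)))
  C1 : s.C1 = pk V n (fun i => pk B3 n (fun j => (2 ^ 75 - Nat.rec (Nat.rec 256 (fun _ _ => 0)
    (i - j)) (fun _ _ => 0) (j - i)) + B * 2 ^ 75))
  HI : s.HI = pk V n (fun _ => pk B3 n (fun _ => 2 ^ 53 * (2 ^ 139 - 1) + B * (2 ^ 53 * (2 ^ 139 - 1))))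
  PT : s.PT = pk V n (fun _ => pk B3 n (fun _ => 2 ^ 75 + B * 2 ^ 74))

/-- the diagonal slack -/
def dl (i j : ℕ) : ℕ := Nat.rec (Nat.rec 256 (fun _ _ => 0) (i - j)) (fun _ _ => 0) (j - i)

theorem dl_self (i : ℕ) : dl i i = 256 := by unfold dl; rw [Nat.sub_self]; rfl
theorem dl_ne {i j : ℕ} (h : i ≠ j) : dl i j = 0 := by
  unfold dl
  rcases Nat.lt_or_ge i j with h1 | h1
  · obtain ⟨k, hk⟩ := Nat.exists_eq_succ_of_ne_zero (show j - i ≠ 0 by omega)
    rw [hk]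
  · obtain ⟨k, hk⟩ := Nat.exists_eq_succ_of_ne_zero (show i - j ≠ 0 by omega)
    have : j - i = 0 := by omega
    rw [hk, this]
    rfl
theorem dl_le (i j : ℕ) : dl i j ≤ 256 := by
  rcases eq_or_ne i j with h | h
  · rw [h, dl_self]
  · rw [dl_ne h]; omega

/-! ### reading the first row -/

theorem first_row {m N : ℕ} {d e : ℕ → ℕ → ℕ} {u : ℕ → ℕ} (hm : m + 1 ≤ 9) (I : Inv (m + 1) N d e u) :
    N % B3 ^ (m + 1) = pk B3 (m + 1) (sl d e 0) := by
  have h0 : pk B3 (m + 1) (sl d e 0) < B3 ^ (m + 1) :=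
    pk_lt B3_pos _ _ fun j hj => sl_lt (I.hd 0 (by omega) j hj) (I.he 0 (by omega) j hj)
  rw [I.hN, pk_succ]
  have hV := V_split (show m + 1 ≤ 10 by omega)
  generalize pk V m (fun i => pk B3 (m + 1) (sl d e (i + 1)) + B3 ^ (m + 1) * u (i + 1)) = X
  have : pk B3 (m + 1) (sl d e 0) + B3 ^ (m + 1) * u 0 + V * X =
      pk B3 (m + 1) (sl d e 0) + B3 ^ (m + 1) * (u 0 + B3 ^ (10 - (m + 1)) * X) := by
    rw [hV]; ring
  rw [this, Nat.add_mul_mod_self_left, Nat.mod_eq_of_lt h0]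

theorem low_digit {m : ℕ} {d e : ℕ → ℕ → ℕ} (hd : d 0 0 < 2 ^ 53) :
    pk B3 (m + 1) (sl d e 0) % B = d 0 0 := by
  have h1 : d 0 0 < B := lt_of_lt_of_le hd (by unfold B; norm_num)
  rw [pk_succ, B3_eq]
  generalize pk _ m _ = X
  unfold sl
  have : d 0 0 + B * e 0 0 + B * (B * B) * X = d 0 0 + B * (e 0 0 + B * B * X) := by ring
  rw [this, Nat.add_mul_mod_self_left, Nat.mod_eq_of_lt h1]

/-! ### the column of the first row -/

theorem pk_zeros (b : ℕ) : ∀ (k : ℕ) (f : ℕ → ℕ), (∀ i, f i = 0) → pk b k f = 0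
  | 0, _, _ => rfl
  | k + 1, f, hf => by
    rw [pk_succ, hf 0, pk_zeros b k _ (fun i => hf (i + 1)), Nat.mul_zero]

/-- the windows: copies of the first row with stride 9, read with stride 10 -/
theorem window {n : ℕ} (hn : n ≤ 9) (s : ℕ → ℕ) :
    ∃ X : ℕ → ℕ, pk (B3 ^ 9) n (fun _ => 1) * pk B3 n s = pk V n (fun i => s i + B3 * X i) ∧
      ∀ i < n, s i + B3 * X i < V ∨ ¬ (∀ j < n, s j < B3) := by
  set s' : ℕ → ℕ := fun j => if j < n then s j else 0 with hs'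
  have e1 : pk B3 n s = pk B3 9 s' := by
    have h9 : 9 = n + (9 - n) := by omega
    rw [h9, pk_split]
    have h1 : pk B3 n s' = pk B3 n s := pk_congr _ _ _ _ fun i hi => by
      rw [hs']; exact if_pos hi
    have h2 : ∀ (k : ℕ), pk B3 k (fun i => s' (n + i)) = 0 := fun k =>
      pk_zeros B3 k _ fun i => by rw [hs']; exact if_neg (by omega)
    rw [h1, h2, Nat.mul_zero, Nat.add_zero]
  set F : ℕ → ℕ := fun k => if k < 9 * n then s' (k % 9) else 0 with hF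
  have e2 : pk (B3 ^ 9) n (fun _ => 1) * pk B3 n s = pk B3 (9 * n) F := by
    rw [pk_nest, e1, Nat.mul_comm, pk_smul]
    refine pk_congr _ _ _ _ fun i hi => ?_
    rw [Nat.mul_one]
    refine pk_congr _ _ _ _ fun j hj => ?_
    rw [hF]
    show s' j = if 9 * i + j < 9 * n then s' ((9 * i + j) % 9) else 0
    rw [if_pos (by omega), Nat.mul_add_mod, Nat.mod_eq_of_lt hj]
  have e3 : pk B3 (9 * n) F = pk B3 (10 * n) F := by
    have h9 : 10 * n = 9 * n + n := by ring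
    rw [h9, pk_split]
    rw [pk_zeros B3 n _ fun i => by rw [hF]; exact if_neg (by omega), Nat.mul_zero, Nat.add_zero]
  have e4 : pk B3 (10 * n) F = pk V n (fun i => pk B3 10 (fun j => F (10 * i + j))) := by
    rw [pk_nest, V_eq]
  refine ⟨fun i => pk B3 9 (fun j => F (10 * i + (j + 1))), ?_, ?_⟩
  · rw [e2, e3, e4]
    refine pk_congr _ _ _ _ fun i hi => ?_
    rw [pk_succ]
    congr 1
    rw [hF]
    show (if 10 * i + 0 < 9 * n then s' ((10 * i + 0) % 9) else 0) = s i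
    rw [if_pos (by omega)]
    have : (10 * i + 0) % 9 = i := by omega
    rw [this, hs']
    exact if_pos hi
  · intro i hi
    by_cases h : ∀ j < n, s j < B3
    · left
      have hF' : ∀ k, F k < B3 := by
        intro k
        rw [hF]
        show (if k < 9 * n then s' (k % 9) else 0) < B3
        split_ifs
        · rw [hs']
          show (if k % 9 < n then s (k % 9) else 0) < B3
          split_ifs with h3
          · exact h _ h3
          · exact B3_pos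
        · exact B3_pos
      have h5 := pk_lt B3_pos 10 (fun j => F (10 * i + j)) (fun j _ => hF' _)
      rw [pk_succ, ← V_eq] at h5
      have h6 : F (10 * i + 0) = s i := by
        rw [hF]
        show (if 10 * i + 0 < 9 * n then s' ((10 * i + 0) % 9) else 0) = s i
        rw [if_pos (by omega)]
        have : (10 * i + 0) % 9 = i := by omega
        rw [this, hs']
        exact if_pos hi
      rw [h6] at h5
      exact h5
    · right; exact h

theorem land_V (n : ℕ) (f g : ℕ → ℕ) (R : ℕ) (hf : ∀ i < n, f i < V) (hg : ∀ i < n, g i < V) :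
    (pk V n f + V ^ n * R) &&& pk V n g = pk V n (fun i => f i &&& g i) :=
  land_pk (e := 5760) n f g R hf hg

theorem land_B3 (n : ℕ) (f g : ℕ → ℕ) (R : ℕ) (hf : ∀ i < n, f i < B3) (hg : ∀ i < n, g i < B3) :
    (pk B3 n f + B3 ^ n * R) &&& pk B3 n g = pk B3 n (fun i => f i &&& g i) :=
  land_pk (e := 576) n f g R hf hg

theorem land_B (a c m n : ℕ) (ha : a < B) (hm : m < B) :
    (a + B * c) &&& (m + B * n) = (a &&& m) + B * (c &&& n) :=
  land_split 192 a c m n ha hm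

theorem land_lo {a : ℕ} (ha : a < 2 ^ 53) : a &&& (2 ^ 53 - 1) = a := by
  rw [Nat.and_two_pow_sub_one_eq_mod, Nat.mod_eq_of_lt ha]

theorem lt53B : (2 : ℕ) ^ 53 - 1 < B := by unfold B; norm_num
theorem lt53V : (2 : ℕ) ^ 53 - 1 < V :=
  lt_of_lt_of_le lt53B (by unfold B V; exact Nat.pow_le_pow_right (by norm_num) (by norm_num))

/-- the real digits of the column -/
theorem col_re {n : ℕ} (hn : n ≤ 9) {d e : ℕ → ℕ → ℕ} (hd : ∀ j < n, d 0 j < 2 ^ 53)
    (he : ∀ j < n, e 0 j < 2 ^ 53) :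
    (pk (B3 ^ 9) n (fun _ => 1) * pk B3 n (sl d e 0)) &&& pk V n (fun _ => 2 ^ 53 - 1) =
      pk V n (fun i => d 0 i) := by
  obtain ⟨X, h1, h2⟩ := window hn (sl d e 0)
  have hs : ∀ j < n, sl d e 0 j < B3 := fun j hj => sl_lt (hd j hj) (he j hj)
  have h := land_V n (fun i => sl d e 0 i + B3 * X i) (fun _ => 2 ^ 53 - 1) 0
    (fun i hi => (h2 i hi).resolve_right (fun h => h hs)) (fun _ _ => lt53V)
  rw [Nat.mul_zero, Nat.add_zero] at h
  rw [h1, h]
  refine pk_congr _ _ _ _ fun i hi => ?_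
  have h3 : sl d e 0 i + B3 * X i = d 0 i + B * (e 0 i + B * B * X i) := by
    unfold sl
    rw [B3_eq]; ring
  have h4 := land_B (d 0 i) (e 0 i + B * B * X i) (2 ^ 53 - 1) 0
    (lt_of_lt_of_le (hd i hi) (by unfold B; norm_num)) lt53B
  rw [Nat.mul_zero, Nat.add_zero] at h4
  rw [h3, h4, Nat.and_zero, Nat.mul_zero, Nat.add_zero, land_lo (hd i hi)]

/-- the imaginary digits of the column -/
theorem col_im {n : ℕ} (hn : n ≤ 9) {d e : ℕ → ℕ → ℕ} (hd : ∀ j < n, d 0 j < 2 ^ 53)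
    (he : ∀ j < n, e 0 j < 2 ^ 53) :
    (pk (B3 ^ 9) n (fun _ => 1) * pk B3 n (sl d e 0)) &&& pk V n (fun _ => B * (2 ^ 53 - 1)) =
      pk V n (fun i => B * e 0 i) := by
  obtain ⟨X, h1, h2⟩ := window hn (sl d e 0)
  have hs : ∀ j < n, sl d e 0 j < B3 := fun j hj => sl_lt (hd j hj) (he j hj)
  have hBV : B * (2 ^ 53 - 1) < V := by
    have h1 : B * (2 ^ 53 - 1) < B * B := Nat.mul_lt_mul_of_pos_left lt53B B_pos
    refine lt_of_lt_of_le h1 ?_
    unfold B V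
    rw [← pow_add]
    exact Nat.pow_le_pow_right (by norm_num) (by norm_num)
  have h := land_V n (fun i => sl d e 0 i + B3 * X i) (fun _ => B * (2 ^ 53 - 1)) 0
    (fun i hi => (h2 i hi).resolve_right (fun h => h hs)) (fun _ _ => hBV)
  rw [Nat.mul_zero, Nat.add_zero] at h
  rw [h1, h]
  refine pk_congr _ _ _ _ fun i hi => ?_
  have h3 : sl d e 0 i + B3 * X i = d 0 i + B * (e 0 i + B * (B * X i)) := by
    unfold sl
    rw [B3_eq]; ring
  have h4 := land_B (d 0 i) (e 0 i + B * (B * X i)) 0 (2 ^ 53 - 1)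
    (lt_of_lt_of_le (hd i hi) (by unfold B; norm_num)) B_pos
  rw [Nat.zero_add] at h4
  have h5 := land_B (e 0 i) (B * X i) (2 ^ 53 - 1) 0
    (lt_of_lt_of_le (he i hi) (by unfold B; norm_num)) lt53B
  rw [Nat.mul_zero, Nat.add_zero] at h5
  rw [h3, h4, h5, Nat.and_zero, Nat.and_zero, Nat.mul_zero, Nat.add_zero, Nat.zero_add,
    land_lo (he i hi)]

end Pool.Agent.Helper90.K9
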