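import Pool.Agent.Helper90.CX.K9C

/-!
Row K9 (MP_c75db0), part D: the update of one pivot.
-/

set_option autoImplicit false
noncomputable section
namespace Pool.Agent.Helper90.K9

/-- floor of a scaled product -/
def fl (w : ℤ) : ℤ := w / 2 ^ 117

theorem sh_cast {w : ℤ} {n : ℕ} (h : (n : ℤ) = w + 2 ^ 191) :
    ((n >>> 117 : ℕ) : ℤ) = fl w + 2 ^ 74 := by
  have h2 : ((2 ^ 117 : ℕ) : ℤ) = 2 ^ 117 := by norm_num
  have h1 : (2 : ℤ) ^ 191 = 2 ^ 74 * 2 ^ 117 := by norm_num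
  rw [Nat.shiftRight_eq_div_pow, Int.natCast_ediv, h2, h, h1, Int.add_mul_ediv_right _ _ (by norm_num)]
  rfl

theorem sh_lt {n : ℕ} (h : n < B) : n >>> 117 < 2 ^ 75 := by
  rw [Nat.shiftRight_eq_div_pow, Nat.div_lt_iff_lt_mul (by positivity)]
  have : B = 2 ^ 75 * 2 ^ 117 := by unfold B; norm_num
  omega

theorem sh_and {n : ℕ} (h : n < B) : n >>> 117 &&& (2 ^ 75 - 1) = n >>> 117 := by
  rw [Nat.and_two_pow_sub_one_eq_mod, Nat.mod_eq_of_lt (sh_lt h)]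

/-- the slot of the product -/
def ws (w0 w1 w2 : ℕ → ℕ → ℕ) (i j : ℕ) : ℕ := w0 i j + B * (w1 i j + B * w2 i j)

theorem ws_lt {w0 w1 w2 : ℕ → ℕ → ℕ} {i j : ℕ} (h0 : w0 i j < B) (h1 : w1 i j < B)
    (h2 : w2 i j < B) : ws w0 w1 w2 i j < B3 := by
  unfold ws
  rw [B3_eq]
  have e1 : w1 i j + B * w2 i j < B * B := by
    have := Nat.mul_le_mul_left B (Nat.succ_le_of_lt h2)
    rw [Nat.mul_succ] at this
    omega
  have e2 := Nat.mul_le_mul_left B (Nat.succ_le_of_lt e1)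
  rw [Nat.mul_succ] at e2
  omega

theorem ws_sh {w0 w1 w2 : ℕ → ℕ → ℕ} {i j : ℕ} (h0 : w0 i j < B) (h1 : w1 i j < B) :
    (ws w0 w1 w2 i j) >>> 117 &&& ((2 ^ 75 - 1) + B * (2 ^ 75 - 1)) =
      (w0 i j >>> 117) + B * (w1 i j >>> 117) := by
  have h := shl_pk (e := 192) (k := 117) (by norm_num) 2 (fun k => if k = 0 then w0 i j else w1 i j)
    (fun _ => 2 ^ 75 - 1) (w2 i j)
    (fun k _ => by
      show (if k = 0 then w0 i j else w1 i j) < B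
      split_ifs
      exacts [h0, h1])
    (fun k _ => by norm_num)
  have e1 : pk (2 ^ 192) 2 (fun k => if k = 0 then w0 i j else w1 i j) + (2 ^ 192) ^ 2 * w2 i j =
      ws w0 w1 w2 i j := by
    show (w0 i j + B * (w1 i j + B * 0)) + B ^ 2 * w2 i j = _
    unfold ws
    ring
  have e2 : pk (2 ^ 192) 2 (fun _ => 2 ^ 75 - 1) = (2 ^ 75 - 1) + B * (2 ^ 75 - 1) := by
    show (2 ^ 75 - 1) + B * ((2 ^ 75 - 1) + B * 0) = _
    rw [Nat.mul_zero, Nat.add_zero]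
  have e3 : pk (2 ^ 192) 2 (fun k => (if k = 0 then w0 i j else w1 i j) >>> 117 &&& (2 ^ 75 - 1)) =
      (w0 i j >>> 117) + B * (w1 i j >>> 117) := by
    show (w0 i j >>> 117 &&& (2 ^ 75 - 1)) + B * ((w1 i j >>> 117 &&& (2 ^ 75 - 1)) + B * 0) = _
    rw [Nat.mul_zero, Nat.add_zero, sh_and h0, sh_and h1]
  rw [← e1, ← e2, h, e3]

theorem ws_sh2 {w0 w1 w2 : ℕ → ℕ → ℕ} {i j : ℕ} (h0 : w0 i j < B) (h1 : w1 i j < B)
    (h2 : w2 i j < B) :
    (ws w0 w1 w2 i j) >>> 501 &&& (2 ^ 75 - 1) = w2 i j >>> 117 := by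
  have e0 : (ws w0 w1 w2 i j) >>> 501 = ((ws w0 w1 w2 i j) / B / B) >>> 117 := by
    have : (501 : ℕ) = 192 + 192 + 117 := by norm_num
    rw [this, Nat.shiftRight_add, Nat.shiftRight_add, Nat.shiftRight_eq_div_pow _ 192,
      Nat.shiftRight_eq_div_pow _ 192]
    rfl
  have e1 : (ws w0 w1 w2 i j) / B / B = w2 i j := by
    unfold ws
    rw [Nat.add_mul_div_left _ _ B_pos, Nat.div_eq_of_lt h0, Nat.zero_add,
      Nat.add_mul_div_left _ _ B_pos, Nat.div_eq_of_lt h1, Nat.zero_add]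
  rw [e0, e1, sh_and h2]

/-- THE PRODUCT -/
theorem prod_eq {n : ℕ} (o : ℕ) (X Y : ℕ → ℤ) (q cp r : ℕ)
    (hc : (cp : ℤ) = (V : ℤ) ^ n + pz V n (fun i => X i - B * Y i))
    (hr : (r : ℤ) = pz B3 n (fun j => X j + B * Y j) + (B3 : ℤ) ^ n)
    (w0 w1 w2 : ℕ → ℕ → ℕ) (z0 z1 : ℕ → ℕ)
    (h0 : ∀ i < n, ∀ j < n, (w0 i j : ℤ) = q * (X i * X j) + o)
    (h1 : ∀ i < n, ∀ j < n, (w1 i j : ℤ) = q * (X i * Y j - Y i * X j) + o)
    (h2 : ∀ i < n, ∀ j < n, (w2 i j : ℤ) = -(q * (Y i * Y j)) + o)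
    (g0 : ∀ i < n, (z0 i : ℤ) = q * X i + o) (g1 : ∀ i < n, (z1 i : ℤ) = -(q * Y i) + o) :
    cp * r * q + pk V n (fun _ => pk B3 (n + 1) (fun _ => o + B * (o + B * o))) =
      pk V n (fun i => pk B3 n (ws w0 w1 w2 i) + B3 ^ n * (z0 i + B * (z1 i + B * o))) +
        V ^ n * (r * q) := by
  have key : ((cp * r * q + pk V n (fun _ => pk B3 (n + 1)
      (fun _ => o + B * (o + B * o))) : ℕ) : ℤ) =
      ((pk V n (fun i => pk B3 n (ws w0 w1 w2 i) + B3 ^ n * (z0 i + B * (z1 i + B * o))) +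
        V ^ n * (r * q) : ℕ) : ℤ) := by
    have hA := pk_cast V n (fun _ => pk B3 (n + 1) (fun _ => o + B * (o + B * o)))
    have hB := pk_cast V n
      (fun i => pk B3 n (ws w0 w1 w2 i) + B3 ^ n * (z0 i + B * (z1 i + B * o)))
    rw [Nat.cast_add, Nat.cast_add, Nat.cast_mul, Nat.cast_mul, Nat.cast_mul, Nat.cast_mul,
      Nat.cast_pow, hA, hB]
    have e1 : pz V n (fun i => ((pk B3 n (ws w0 w1 w2 i) +
        B3 ^ n * (z0 i + B * (z1 i + B * o)) : ℕ) : ℤ)) =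
        pz V n (fun i => (r * q : ℤ) * (X i - B * Y i) +
          ((pk B3 (n + 1) (fun _ => o + B * (o + B * o)) : ℕ) : ℤ)) := by
      refine pz_congr _ _ _ _ fun i hi => ?_
      push_cast
      rw [pk_last]
      push_cast
      rw [pk_cast, pk_cast, g0 i hi, g1 i hi]
      have e2 : pz B3 n (fun j => ((ws w0 w1 w2 i j : ℕ) : ℤ)) =
          (q * (X i - B * Y i) : ℤ) * pz B3 n (fun j => X j + B * Y j) +
          pz B3 n (fun _ => ((o + B * (o + B * o) : ℕ) : ℤ)) := by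
        rw [pz_smul, pz_add]
        refine pz_congr _ _ _ _ fun j hj => ?_
        unfold ws
        push_cast
        rw [h0 i hi j hj, h1 i hi j hj, h2 i hi j hj]
        ring
      rw [e2, hr]
      ring
    rw [e1, hc, ← pz_add, ← pz_smul]
    ring
  exact_mod_cast key

theorem row_lt {n : ℕ} (hn : n ≤ 9) {f : ℕ → ℕ} {z : ℕ} (hf : ∀ j < n, f j < B3) (hz : z < B3) :
    pk B3 n f + B3 ^ n * z < V := by
  have h1 := pk_lt B3_pos n f hf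
  have h2 := Nat.mul_le_mul_left (B3 ^ n) (Nat.succ_le_of_lt hz)
  rw [Nat.mul_succ] at h2
  have h3 : B3 ^ n * B3 ≤ V := by
    rw [V_eq, ← pow_succ]
    exact Nat.pow_le_pow_right B3_pos (by omega)
  omega

theorem row_lt' {n : ℕ} (hn : n ≤ 10) {f : ℕ → ℕ} {z : ℕ} (hf : ∀ j < n, f j < B3)
    (hz : z < B3 ^ (10 - n)) : pk B3 n f + B3 ^ n * z < V := by
  have h1 := pk_lt B3_pos n f hf
  have h2 := Nat.mul_le_mul_left (B3 ^ n) (Nat.succ_le_of_lt hz)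
  rw [Nat.mul_succ, ← V_split hn] at h2
  omega

theorem mask_lt {n k : ℕ} (hn : n ≤ 9) (hk : k ≤ 501) {g : ℕ → ℕ} (hg : ∀ j < n, g j < B3) :
    pk B3 n g < 2 ^ (5760 - k) := by
  refine lt_of_lt_of_le (pk_lt B3_pos n g hg) ?_
  unfold B3
  rw [← pow_mul]
  exact Nat.pow_le_pow_right (by norm_num) (by omega)

theorem shl_V {n k : ℕ} (hk : k ≤ 5760) (f g : ℕ → ℕ) (R : ℕ) (hf : ∀ i < n, f i < V)
    (hg : ∀ i < n, g i < 2 ^ (5760 - k)) :
    ((pk V n f + V ^ n * R) >>> k) &&& pk V n g = pk V n (fun i => (f i >>> k) &&& g i) :=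
  shl_pk (e := 5760) hk n f g R hf hg

theorem shl_B3 {n k : ℕ} (hk : k ≤ 576) (f g : ℕ → ℕ) (R : ℕ) (hf : ∀ i < n, f i < B3)
    (hg : ∀ i < n, g i < 2 ^ (576 - k)) :
    ((pk B3 n f + B3 ^ n * R) >>> k) &&& pk B3 n g = pk B3 n (fun i => (f i >>> k) &&& g i) :=
  shl_pk (e := 576) hk n f g R hf hg

theorem two_ltBB {c0 c1 : ℕ} (h0 : c0 < B) (h1 : c1 < B) : c0 + B * c1 < B * B := by
  have h1 := Nat.mul_le_mul_left B (Nat.succ_le_of_lt h1)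
  rw [Nat.mul_succ] at h1
  omega

theorem mask01_lt : (2 ^ 75 - 1) + B * (2 ^ 75 - 1) < 2 ^ (576 - 117) := by
  have h0 : (2 : ℕ) ^ 75 - 1 < B := by unfold B; norm_num
  refine lt_of_lt_of_le (two_ltBB h0 h0) ?_
  unfold B
  rw [← pow_add]
  exact Nat.pow_le_pow_right (by norm_num) (by norm_num)

theorem B3_of_lt {a k : ℕ} (h : a < 2 ^ (576 - k)) : a < B3 :=
  lt_of_lt_of_le h (by unfold B3; exact Nat.pow_le_pow_right (by norm_num) (Nat.sub_le _ _))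

/-- digits 0 and 1 of the product -/
theorem mask01 {n : ℕ} (hn : n ≤ 9) (w0 w1 w2 : ℕ → ℕ → ℕ) (z : ℕ → ℕ) (R : ℕ)
    (h0 : ∀ i < n, ∀ j < n, w0 i j < B) (h1 : ∀ i < n, ∀ j < n, w1 i j < B)
    (h2 : ∀ i < n, ∀ j < n, w2 i j < B) (hz : ∀ i < n, z i < B3) :
    ((pk V n (fun i => pk B3 n (ws w0 w1 w2 i) + B3 ^ n * z i) + V ^ n * R) >>> 117) &&&
      pk V n (fun _ => pk B3 n (fun _ => (2 ^ 75 - 1) + B * (2 ^ 75 - 1))) =
      pk V n (fun i => pk B3 n (fun j => (w0 i j >>> 117) + B * (w1 i j >>> 117))) := by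
  rw [shl_V (by norm_num) _ _ R
    (fun i hi => row_lt hn (fun j hj => ws_lt (h0 i hi j hj) (h1 i hi j hj) (h2 i hi j hj)) (hz i hi))
    (fun i _ => mask_lt hn (by norm_num) fun _ _ => B3_of_lt mask01_lt)]
  refine pk_congr _ _ _ _ fun i hi => ?_
  rw [shl_B3 (by norm_num) _ _ (z i)
    (fun j hj => ws_lt (h0 i hi j hj) (h1 i hi j hj) (h2 i hi j hj)) (fun _ _ => mask01_lt)]
  exact pk_congr _ _ _ _ fun j hj => ws_sh (h0 i hi j hj) (h1 i hi j hj)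

/-- digit 2 of the product -/
theorem mask2 {n : ℕ} (hn : n ≤ 9) (w0 w1 w2 : ℕ → ℕ → ℕ) (z : ℕ → ℕ) (R : ℕ)
    (h0 : ∀ i < n, ∀ j < n, w0 i j < B) (h1 : ∀ i < n, ∀ j < n, w1 i j < B)
    (h2 : ∀ i < n, ∀ j < n, w2 i j < B) (hz : ∀ i < n, z i < B3) :
    ((pk V n (fun i => pk B3 n (ws w0 w1 w2 i) + B3 ^ n * z i) + V ^ n * R) >>> 501) &&&
      pk V n (fun _ => pk B3 n (fun _ => 2 ^ 75 - 1)) =
      pk V n (fun i => pk B3 n (fun j => w2 i j >>> 117)) := by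
  have hm : (2 : ℕ) ^ 75 - 1 < 2 ^ (576 - 501) := by norm_num
  rw [shl_V (by norm_num) _ _ R
    (fun i hi => row_lt hn (fun j hj => ws_lt (h0 i hi j hj) (h1 i hi j hj) (h2 i hi j hj)) (hz i hi))
    (fun i _ => mask_lt hn (by norm_num) fun _ _ => B3_of_lt hm)]
  refine pk_congr _ _ _ _ fun i hi => ?_
  rw [shl_B3 (by norm_num) _ _ (z i)
    (fun j hj => ws_lt (h0 i hi j hj) (h1 i hi j hj) (h2 i hi j hj)) (fun _ _ => hm)]
  exact pk_congr _ _ _ _ fun j hj => ws_sh2 (h0 i hi j hj) (h1 i hi j hj) (h2 i hi j hj)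

/-! ### the range test -/

theorem split_hi {a : ℕ} (ha : a < B) :
    a = (a &&& 2 ^ 53 * (2 ^ 139 - 1)) + a % 2 ^ 53 := by
  have h1 := land_split 53 (a % 2 ^ 53) (a / 2 ^ 53) 0 (2 ^ 139 - 1) (Nat.mod_lt _ (by positivity))
    (by positivity)
  rw [Nat.mod_add_div, Nat.zero_add, Nat.and_zero, Nat.zero_add,
    Nat.and_two_pow_sub_one_eq_mod, Nat.mod_eq_of_lt (a := a / 2 ^ 53)] at h1
  · rw [h1, Nat.add_comm]
    exact (Nat.mod_add_div a (2 ^ 53)).symm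
  · rw [Nat.div_lt_iff_lt_mul (by positivity)]
    have : B = 2 ^ 139 * 2 ^ 53 := by unfold B; norm_num
    omega

theorem hi_lt : (2 : ℕ) ^ 53 * (2 ^ 139 - 1) < B := by unfold B; norm_num
theorem two_lt {c0 c1 : ℕ} (h0 : c0 < B) (h1 : c1 < B) : c0 + B * c1 < B3 := by
  refine lt_of_lt_of_le (two_ltBB h0 h1) ?_
  rw [B3_eq, ← Nat.mul_assoc]
  exact Nat.le_mul_of_pos_right _ B_pos

theorem sl_ltB {d e : ℕ → ℕ → ℕ} {i j : ℕ} (hd : d i j < B) (he : e i j < B) :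
    sl d e i j < B3 := two_lt hd he

theorem hi2_lt : (2 : ℕ) ^ 53 * (2 ^ 139 - 1) + B * (2 ^ 53 * (2 ^ 139 - 1)) < B3 :=
  two_lt hi_lt hi_lt

theorem range_test {n : ℕ} (hn : n ≤ 9) {d e : ℕ → ℕ → ℕ} {u : ℕ → ℕ} (c0 c1 : ℕ)
    (hc0 : c0 < B) (hc1 : c1 < B)
    (hd : ∀ i < n, ∀ j < n, d i j < B) (he : ∀ i < n, ∀ j < n, e i j < B)
    (hu : ∀ i < n, u i < B3 ^ (10 - n))
    (h : pk V n (fun i => pk B3 n (sl d e i) + B3 ^ n * u i) &&&
      pk V n (fun _ => pk B3 n (fun _ => 2 ^ 53 * (2 ^ 139 - 1) + B * (2 ^ 53 * (2 ^ 139 - 1)))) =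
      pk V n (fun _ => pk B3 n (fun _ => c0 + B * c1))) :
    ∀ i < n, ∀ j < n, d i j = c0 + d i j % 2 ^ 53 ∧ e i j = c1 + e i j % 2 ^ 53 := by
  have hs : ∀ i < n, ∀ j < n, sl d e i j < B3 := fun i hi j hj => sl_ltB (hd i hi j hj) (he i hi j hj)
  have h1 := land_V n (fun i => pk B3 n (sl d e i) + B3 ^ n * u i)
    (fun _ => pk B3 n (fun _ => 2 ^ 53 * (2 ^ 139 - 1) + B * (2 ^ 53 * (2 ^ 139 - 1)))) 0
    (fun i hi => row_lt' (by omega) (hs i hi) (hu i hi))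
    (fun i _ => by
      have := row_lt' (n := n) (by omega) (f := fun _ => 2 ^ 53 * (2 ^ 139 - 1) +
        B * (2 ^ 53 * (2 ^ 139 - 1))) (z := 0) (fun _ _ => hi2_lt) (pow_pos B3_pos _)
      rw [Nat.mul_zero, Nat.add_zero] at this
      exact this)
  rw [Nat.mul_zero, Nat.add_zero, h] at h1
  have hc : c0 + B * c1 < B3 := sl_ltB (d := fun _ _ => c0) (e := fun _ _ => c1) (i := 0) (j := 0) hc0 hc1
  have h2 : ∀ i < n, (pk B3 n (sl d e i) + B3 ^ n * u i) &&&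
      pk B3 n (fun _ => 2 ^ 53 * (2 ^ 139 - 1) + B * (2 ^ 53 * (2 ^ 139 - 1))) =
      pk B3 n (fun j => sl d e i j &&& (2 ^ 53 * (2 ^ 139 - 1) + B * (2 ^ 53 * (2 ^ 139 - 1)))) :=
    fun i hi => land_B3 n _ _ (u i) (hs i hi) (fun _ _ => hi2_lt)
  have h3 := pk_inj V_pos n _ _
    (fun i _ => by
      have := row_lt' (n := n) (by omega) (f := fun _ => c0 + B * c1) (z := 0) (fun _ _ => hc)
        (pow_pos B3_pos _)
      rw [Nat.mul_zero, Nat.add_zero] at this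
      exact this)
    (fun i hi => lt_of_le_of_lt Nat.and_le_left (row_lt' (by omega) (hs i hi) (hu i hi))) h1
  intro i hi j hj
  have h4 := h3 i hi
  rw [h2 i hi] at h4
  have h5 := pk_inj B3_pos n _ _ (fun _ _ => hc)
    (fun j hj => lt_of_le_of_lt Nat.and_le_left (hs i hi j hj)) h4 j hj
  have h6 := land_B (d i j) (e i j) (2 ^ 53 * (2 ^ 139 - 1)) (2 ^ 53 * (2 ^ 139 - 1)) (hd i hi j hj) hi_lt
  have h7 : sl d e i j = d i j + B * e i j := rfl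
  rw [h7, h6] at h5
  have hl : d i j &&& 2 ^ 53 * (2 ^ 139 - 1) < B := lt_of_le_of_lt Nat.and_le_left (hd i hi j hj)
  have h8 : c0 = d i j &&& 2 ^ 53 * (2 ^ 139 - 1) := by
    have := congrArg (· % B) h5
    simp only [Nat.add_mul_mod_self_left, Nat.mod_eq_of_lt hc0, Nat.mod_eq_of_lt hl] at this
    exact this
  have h9 : c1 = e i j &&& 2 ^ 53 * (2 ^ 139 - 1) := by
    rw [← h8] at h5
    exact Nat.eq_of_mul_eq_mul_left B_pos (Nat.add_left_cancel h5)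
  constructor
  · rw [h8]; exact split_hi (hd i hi j hj)
  · rw [h9]; exact split_hi (he i hi j hj)

end Pool.Agent.Helper90.K9
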