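import Pool.Agent.Helper90.CX.K9D

/-!
Row K9 (MP_c75db0), part F: soundness of one step of the kernel function.
-/

set_option autoImplicit false
noncomputable section
namespace Pool.Agent.Helper90.K9

/-! ### the kernel functions -/

def sel (b : Bool) (x : Bool) : Bool := Bool.rec (motive := fun _ => Bool) false x b

theorem sel_true {b x : Bool} (h : sel b x = true) : b = true ∧ x = true := by
  cases b
  · exact absurd h Bool.false_ne_true
  · exact ⟨rfl, h⟩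

/-- new matrix tested -/
def fin (s : St) (X : ℕ) (ih : ℕ → Bool) : Bool :=
  sel (Nat.beq (Nat.land X s.HI) s.PT) (ih (Nat.shiftRight (Nat.sub X s.PT) (nat_lit 6336)))

def upd (s : St) (N U : ℕ) (ih : ℕ → Bool) : Bool :=
  fin s (Nat.sub (Nat.add (Nat.add N s.C1) (Nat.land (Nat.shiftRight U (nat_lit 501)) s.MV0))
    (Nat.land (Nat.shiftRight U (nat_lit 117)) s.MV01)) ih

def prd (s : St) (N r q t : ℕ) (ih : ℕ → Bool) : Bool :=
  upd s N (Nat.add (Nat.mul (Nat.mul (Nat.add (Nat.land t s.MRe) (Nat.sub s.K (Nat.land t s.MIm)))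
    (Nat.add r s.cR)) q) s.OFF) ih

def piv (s : St) (N r : ℕ) (p : ℕ) (ih : ℕ → Bool) : Bool :=
  sel (Nat.ble (nat_lit 4294967296) p)
    (prd s N r (Nat.div (nat_lit 166153499473114484112975882535043072) p) (Nat.mul r s.E) ih)

def step (s : St) (ih : ℕ → Bool) (N : ℕ) : Bool :=
  piv s N (Nat.mod N s.W2) (Nat.sub (Nat.mod (Nat.mod N s.W2)
    (nat_lit 0x1000000000000000000000000000000000000000000000000)) (nat_lit 4503599627370496)) ih

/-! ### the column and the row as integers -/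

theorem cp_aux {n K H : ℕ} (d e : ℕ → ℕ)
    (hK : K + pk V n (fun _ => H) = V ^ n + pk V n (fun _ => B * H))
    (hb : ∀ i < n, B * e i + H < V) :
    ((pk V n d + (K - pk V n (fun i => B * e i)) : ℕ) : ℤ) =
      (V : ℤ) ^ n + pz V n (fun i => ((d i : ℤ) - H) - B * ((e i : ℤ) - H)) := by
  have h1 : pk V n (fun i => B * e i) + pk V n (fun _ => H) < V ^ n := by
    rw [pk_add]; exact pk_lt V_pos n _ hb
  have h2 : pk V n (fun i => B * e i) ≤ K := by omega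
  rw [Nat.cast_add, Nat.cast_sub h2]
  have h3 : (K : ℤ) = (V : ℤ) ^ n + pz V n (fun _ => ((B * H : ℕ) : ℤ)) - pz V n (fun _ => (H : ℤ)) := by
    rw [← pk_cast, ← pk_cast, ← Nat.cast_pow, ← Nat.cast_add, ← hK, Nat.cast_add]
    ring
  rw [h3, pk_cast, pk_cast]
  have h4 : pz V n (fun i => ((d i : ℤ) - H) - B * ((e i : ℤ) - H)) =
      pz V n (fun i => (d i : ℤ)) + pz V n (fun _ => ((B * H : ℕ) : ℤ)) - pz V n (fun _ => (H : ℤ)) -
      pz V n (fun i => ((B * e i : ℕ) : ℤ)) := by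
    rw [pz_add, pz_sub, pz_sub]
    refine pz_congr _ _ _ _ fun i _ => ?_
    push_cast
    ring
  rw [h4]
  ring

theorem r_aux {n cR H : ℕ} (d e : ℕ → ℕ → ℕ)
    (hR : cR + pk B3 n (fun _ => H + B * H) = B3 ^ n) :
    ((pk B3 n (sl d e 0) + cR : ℕ) : ℤ) =
      pz B3 n (fun j => ((d 0 j : ℤ) - H) + B * ((e 0 j : ℤ) - H)) + (B3 : ℤ) ^ n := by
  have h3 : (cR : ℤ) = (B3 : ℤ) ^ n - pz B3 n (fun _ => ((H + B * H : ℕ) : ℤ)) := by
    rw [← pk_cast, ← Nat.cast_pow, ← hR, Nat.cast_add]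
    ring
  have h4 : pz B3 n (fun j => ((d 0 j : ℤ) - H) + B * ((e 0 j : ℤ) - H)) =
      pz B3 n (fun j => ((sl d e 0 j : ℕ) : ℤ)) - pz B3 n (fun _ => ((H + B * H : ℕ) : ℤ)) := by
    rw [pz_sub]
    refine pz_congr _ _ _ _ fun i _ => ?_
    unfold sl
    push_cast
    ring
  rw [Nat.cast_add, h3, pk_cast, h4]
  ring

/-! ### bounds -/

theorem xr {a : ℕ} (h : a < 2 ^ 53) : |(a : ℤ) - 2 ^ 52| ≤ 2 ^ 52 := by
  have h1 : (a : ℤ) < 2 ^ 53 := by exact_mod_cast h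
  rw [abs_le]
  constructor
  · have : (0 : ℤ) ≤ a := Int.natCast_nonneg a
    linarith
  · have : (2 : ℤ) ^ 53 = 2 * 2 ^ 52 := by norm_num
    linarith

theorem prod_bound {q : ℕ} (hq : q ≤ 2 ^ 85) {x y : ℤ} (hx : |x| ≤ 2 ^ 52) (hy : |y| ≤ 2 ^ 52) :
    |(q : ℤ) * (x * y)| ≤ 2 ^ 189 := by
  have hq' : (q : ℤ) ≤ 2 ^ 85 := by exact_mod_cast hq
  rw [abs_mul, abs_mul, abs_of_nonneg (Int.natCast_nonneg q)]
  calc (q : ℤ) * (|x| * |y|) ≤ 2 ^ 85 * (2 ^ 52 * 2 ^ 52) := by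
        apply mul_le_mul hq' (mul_le_mul hx hy (abs_nonneg _) (by positivity)) (by positivity)
          (by positivity)
    _ = 2 ^ 189 := by norm_num

theorem nat_of {w : ℤ} (h : |w| ≤ 2 ^ 190) :
    (((w + 2 ^ 191).toNat : ℕ) : ℤ) = w + 2 ^ 191 ∧ (w + 2 ^ 191).toNat < B := by
  obtain ⟨h1, h2⟩ := abs_le.mp h
  have h3 : (0 : ℤ) ≤ w + 2 ^ 191 := by
    have : (2 : ℤ) ^ 191 = 2 * 2 ^ 190 := by norm_num
    have : (0 : ℤ) < 2 ^ 190 := by positivity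
    linarith
  refine ⟨Int.toNat_of_nonneg h3, ?_⟩
  have h4 : w + 2 ^ 191 < (B : ℤ) := by
    have : (B : ℤ) = 2 ^ 192 := by unfold B; norm_num
    rw [this]
    have : (2 : ℤ) ^ 192 = 4 * 2 ^ 190 := by norm_num
    have : (2 : ℤ) ^ 191 = 2 * 2 ^ 190 := by norm_num
    have : (0 : ℤ) < 2 ^ 190 := by positivity
    linarith
  have h5 : (((w + 2 ^ 191).toNat : ℕ) : ℤ) < (B : ℤ) := by
    rw [Int.toNat_of_nonneg h3]; exact h4
  exact_mod_cast h5

theorem fl_bound {w : ℤ} (h : |w| ≤ 2 ^ 190) : -2 ^ 73 ≤ fl w ∧ fl w ≤ 2 ^ 73 := by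
  obtain ⟨h1, h2⟩ := abs_le.mp h
  unfold fl
  constructor
  · rw [Int.le_ediv_iff_mul_le (by norm_num)]
    have : (-2 ^ 73 * 2 ^ 117 : ℤ) = -2 ^ 190 := by norm_num
    rw [this]; exact h1
  · have h3 : w / 2 ^ 117 ≤ 2 ^ 190 / 2 ^ 117 := Int.ediv_le_ediv (by norm_num) h2
    have h4 : ((2 : ℤ) ^ 190 / 2 ^ 117) = 2 ^ 73 := by norm_num
    rw [h4] at h3
    exact h3

end Pool.Agent.Helper90.K9
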