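import Pool.Agent.Helper90.CX.K9F

/-!
Row K9 (MP_c75db0), part G: one step is sound.
-/

set_option autoImplicit false
noncomputable section
namespace Pool.Agent.Helper90.K9

theorem litB : (0x1000000000000000000000000000000000000000000000000 : ℕ) = B := by
  unfold B; norm_num

theorem lt53_B {a : ℕ} (h : a < 2 ^ 53) : a < B := lt_of_lt_of_le h (by unfold B; norm_num)

theorem BeV {e : ℕ} (h : e < 2 ^ 53) : B * e + 2 ^ 52 < V := by
  have h1 : 2 ^ 52 + B * e < B3 := two_lt (by unfold B; norm_num) (lt53_B h)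
  have h2 : B3 ≤ V := by
    rw [V_eq]
    exact Nat.le_self_pow (by norm_num) _
  omega

/-- the new matrix before the range test -/
theorem upd_eq {m N : ℕ} (hm : m + 1 ≤ 9) {s : St} (hs : OK (m + 1) s) {d e : ℕ → ℕ → ℕ} {u : ℕ → ℕ}
    (I : Inv (m + 1) N d e u) {q : ℕ} (hq : q ≤ 2 ^ 85) :
    ∃ d1 e1 : ℕ → ℕ → ℕ, ((N + s.C1 + ((((pk B3 (m + 1) (sl d e 0) * s.E &&& s.MRe) +
      (s.K - (pk B3 (m + 1) (sl d e 0) * s.E &&& s.MIm))) * (pk B3 (m + 1) (sl d e 0) + s.cR) * q +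
      s.OFF) >>> 501 &&& s.MV0)) - ((((pk B3 (m + 1) (sl d e 0) * s.E &&& s.MRe) +
      (s.K - (pk B3 (m + 1) (sl d e 0) * s.E &&& s.MIm))) * (pk B3 (m + 1) (sl d e 0) + s.cR) * q +
      s.OFF) >>> 117 &&& s.MV01) =
      pk V (m + 1) (fun i => pk B3 (m + 1) (sl d1 e1 i) + B3 ^ (m + 1) * u i)) ∧
      (∀ i < m + 1, ∀ j < m + 1, d1 i j < B ∧ e1 i j < B ∧
        (d1 i j : ℤ) = d i j + 2 ^ 75 - dl i j +
          fl (-((q : ℤ) * (((e 0 i : ℤ) - 2 ^ 52) * ((e 0 j : ℤ) - 2 ^ 52)))) -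
          fl ((q : ℤ) * (((d 0 i : ℤ) - 2 ^ 52) * ((d 0 j : ℤ) - 2 ^ 52))) ∧
        (e1 i j : ℤ) = e i j + 2 ^ 74 -
          fl ((q : ℤ) * (((d 0 i : ℤ) - 2 ^ 52) * ((e 0 j : ℤ) - 2 ^ 52) -
            ((e 0 i : ℤ) - 2 ^ 52) * ((d 0 j : ℤ) - 2 ^ 52)))) := by
  set n := m + 1 with hn
  have n0 : 0 < n := Nat.succ_pos m
  have hdx : ∀ j < n, |(d 0 j : ℤ) - 2 ^ 52| ≤ 2 ^ 52 := fun j hj => xr (I.hd 0 n0 j hj)
  have hey : ∀ j < n, |(e 0 j : ℤ) - 2 ^ 52| ≤ 2 ^ 52 := fun j hj => xr (I.he 0 n0 j hj)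
  set X : ℕ → ℤ := fun j => (d 0 j : ℤ) - 2 ^ 52 with hX
  set Y : ℕ → ℤ := fun j => (e 0 j : ℤ) - 2 ^ 52 with hY
  -- the three products
  set a0 : ℕ → ℕ → ℤ := fun i j => (q : ℤ) * (X i * X j) with ha0
  set a1 : ℕ → ℕ → ℤ := fun i j => (q : ℤ) * (X i * Y j - Y i * X j) with ha1
  set a2 : ℕ → ℕ → ℤ := fun i j => -((q : ℤ) * (Y i * Y j)) with ha2
  have b0 : ∀ i < n, ∀ j < n, |a0 i j| ≤ 2 ^ 190 := fun i hi j hj =>
    (prod_bound hq (hdx i hi) (hdx j hj)).trans (by norm_num)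
  have b2 : ∀ i < n, ∀ j < n, |a2 i j| ≤ 2 ^ 190 := fun i hi j hj => by
    show |-((q : ℤ) * (Y i * Y j))| ≤ 2 ^ 190
    rw [abs_neg]
    exact (prod_bound hq (hey i hi) (hey j hj)).trans (by norm_num)
  have b1 : ∀ i < n, ∀ j < n, |a1 i j| ≤ 2 ^ 190 := fun i hi j hj => by
    show |(q : ℤ) * (X i * Y j - Y i * X j)| ≤ 2 ^ 190
    have h1 := prod_bound hq (hdx i hi) (hey j hj)
    have h2 := prod_bound hq (hey i hi) (hdx j hj)
    rw [mul_sub]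
    calc |(q : ℤ) * (X i * Y j) - (q : ℤ) * (Y i * X j)|
        ≤ |(q : ℤ) * (X i * Y j)| + |(q : ℤ) * (Y i * X j)| := abs_sub _ _
      _ ≤ 2 ^ 189 + 2 ^ 189 := add_le_add h1 h2
      _ = 2 ^ 190 := by norm_num
  set w0 : ℕ → ℕ → ℕ := fun i j => (a0 i j + 2 ^ 191).toNat with hw0
  set w1 : ℕ → ℕ → ℕ := fun i j => (a1 i j + 2 ^ 191).toNat with hw1
  set w2 : ℕ → ℕ → ℕ := fun i j => (a2 i j + 2 ^ 191).toNat with hw2
  set z0 : ℕ → ℕ := fun i => ((q : ℤ) * X i + 2 ^ 191).toNat with hz0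
  set z1 : ℕ → ℕ := fun i => (-((q : ℤ) * Y i) + 2 ^ 191).toNat with hz1
  have c0 : ∀ i < n, |(q : ℤ) * X i| ≤ 2 ^ 190 := fun i hi => by
    have h := prod_bound hq (hdx i hi) (show |(1 : ℤ)| ≤ 2 ^ 52 by norm_num)
    rw [mul_one] at h
    exact h.trans (by norm_num)
  have c1 : ∀ i < n, |-((q : ℤ) * Y i)| ≤ 2 ^ 190 := fun i hi => by
    have h := prod_bound hq (hey i hi) (show |(1 : ℤ)| ≤ 2 ^ 52 by norm_num)
    rw [mul_one] at h
    rw [abs_neg]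
    exact h.trans (by norm_num)
  have o191 : ((2 ^ 191 : ℕ) : ℤ) = 2 ^ 191 := by norm_num
  have o52 : ((2 ^ 52 : ℕ) : ℤ) = 2 ^ 52 := by norm_num
  -- the column and the row
  have hcol : ((pk B3 n (sl d e 0) * s.E &&& s.MRe) + (s.K - (pk B3 n (sl d e 0) * s.E &&& s.MIm))) =
      pk V n (d 0) + (s.K - pk V n (fun i => B * e 0 i)) := by
    rw [hs.E, hs.MRe, hs.MIm, Nat.mul_comm (pk B3 n (sl d e 0)),
      col_re hm (I.hd 0 n0) (I.he 0 n0), col_im hm (I.hd 0 n0) (I.he 0 n0)]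
  have hcp := cp_aux (n := n) (K := s.K) (H := 2 ^ 52) (d 0) (e 0) hs.K
    (fun i hi => BeV (I.he 0 n0 i hi))
  have hr := r_aux (n := n) (cR := s.cR) (H := 2 ^ 52) d e hs.cR
  rw [o52] at hcp hr
  rw [hcol]
  generalize pk V n (d 0) + (s.K - pk V n (fun i => B * e 0 i)) = cp at hcp
  generalize pk B3 n (sl d e 0) + s.cR = r at hr
  have hU := prod_eq (n := n) (2 ^ 191) X Y q cp r hcp hr w0 w1 w2 z0 z1
    (fun i hi j hj => by rw [o191]; exact (nat_of (b0 i hi j hj)).1)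
    (fun i hi j hj => by rw [o191]; exact (nat_of (b1 i hi j hj)).1)
    (fun i hi j hj => by rw [o191]; exact (nat_of (b2 i hi j hj)).1)
    (fun i hi => by rw [o191]; exact (nat_of (c0 i hi)).1)
    (fun i hi => by rw [o191]; exact (nat_of (c1 i hi)).1)
  have l0 : ∀ i < n, ∀ j < n, w0 i j < B := fun i hi j hj => (nat_of (b0 i hi j hj)).2
  have l1 : ∀ i < n, ∀ j < n, w1 i j < B := fun i hi j hj => (nat_of (b1 i hi j hj)).2
  have l2 : ∀ i < n, ∀ j < n, w2 i j < B := fun i hi j hj => (nat_of (b2 i hi j hj)).2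
  have lz : ∀ i < n, z0 i + B * (z1 i + B * 2 ^ 191) < B3 := fun i hi =>
    ws_lt (w0 := fun _ _ => z0 i) (w1 := fun _ _ => z1 i) (w2 := fun _ _ => 2 ^ 191) (i := 0) (j := 0)
      (nat_of (c0 i hi)).2 (nat_of (c1 i hi)).2 (by unfold B; norm_num)
  rw [← hs.OFF] at hU
  have hM1 := mask01 hm w0 w1 w2 (fun i => z0 i + B * (z1 i + B * 2 ^ 191)) (r * q) l0 l1 l2 lz
  have hM2 := mask2 hm w0 w1 w2 (fun i => z0 i + B * (z1 i + B * 2 ^ 191)) (r * q) l0 l1 l2 lz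
  rw [← hs.MV01, ← hU] at hM1
  rw [← hs.MV0, ← hU] at hM2
  rw [hM1, hM2]
  -- the digits
  have s0 : ∀ i < n, ∀ j < n, ((w0 i j >>> 117 : ℕ) : ℤ) = fl (a0 i j) + 2 ^ 74 := fun i hi j hj =>
    sh_cast (nat_of (b0 i hi j hj)).1
  have s1 : ∀ i < n, ∀ j < n, ((w1 i j >>> 117 : ℕ) : ℤ) = fl (a1 i j) + 2 ^ 74 := fun i hi j hj =>
    sh_cast (nat_of (b1 i hi j hj)).1
  have s2 : ∀ i < n, ∀ j < n, ((w2 i j >>> 117 : ℕ) : ℤ) = fl (a2 i j) + 2 ^ 74 := fun i hi j hj =>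
    sh_cast (nat_of (b2 i hi j hj)).1
  set d1 : ℕ → ℕ → ℕ := fun i j =>
    (d i j + (2 ^ 75 - dl i j) + (w2 i j >>> 117)) - (w0 i j >>> 117) with hd1
  set e1 : ℕ → ℕ → ℕ := fun i j => (e i j + 2 ^ 75) - (w1 i j >>> 117) with he1
  have k0 : ∀ i < n, ∀ j < n, w0 i j >>> 117 ≤ d i j + (2 ^ 75 - dl i j) + (w2 i j >>> 117) := by
    intro i hi j hj
    have h0 := s0 i hi j hj
    have h2 := s2 i hi j hj
    have f0 := (fl_bound (b0 i hi j hj)).2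
    have f2 := (fl_bound (b2 i hi j hj)).1
    have hdl := dl_le i j
    have h3 : 2 ^ 75 - 256 ≤ 2 ^ 75 - dl i j := Nat.sub_le_sub_left hdl _
    have h4 : ((w0 i j >>> 117 : ℕ) : ℤ) ≤ ((2 ^ 75 - 256 + (w2 i j >>> 117) : ℕ) : ℤ) := by
      rw [Nat.cast_add, h0, h2]
      have : ((2 ^ 75 - 256 : ℕ) : ℤ) = 2 ^ 75 - 256 := by norm_num
      rw [this]
      norm_num at f0 f2 ⊢
      linarith
    have h5 : w0 i j >>> 117 ≤ 2 ^ 75 - 256 + (w2 i j >>> 117) := by exact_mod_cast h4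
    omega
  have k1 : ∀ i < n, ∀ j < n, w1 i j >>> 117 ≤ e i j + 2 ^ 75 := by
    intro i hi j hj
    have := sh_lt (l1 i hi j hj)
    omega
  refine ⟨d1, e1, ?_, ?_⟩
  · rw [hs.C1, I.hN]
    have hsum : pk V n (fun i => pk B3 n (sl d e i) + B3 ^ n * u i) +
        pk V n (fun i => pk B3 n (fun j => (2 ^ 75 - dl i j) + B * 2 ^ 75)) +
        pk V n (fun i => pk B3 n (fun j => w2 i j >>> 117)) =
        pk V n (fun i => pk B3 n (sl d1 e1 i) + B3 ^ n * u i) +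
        pk V n (fun i => pk B3 n (fun j => (w0 i j >>> 117) + B * (w1 i j >>> 117))) := by
      rw [pk_add, pk_add, pk_add]
      refine pk_congr _ _ _ _ fun i hi => ?_
      have h1 : pk B3 n (sl d e i) + pk B3 n (fun j => (2 ^ 75 - dl i j) + B * 2 ^ 75) +
          pk B3 n (fun j => w2 i j >>> 117) =
          pk B3 n (sl d1 e1 i) + pk B3 n (fun j => (w0 i j >>> 117) + B * (w1 i j >>> 117)) := by
        rw [pk_add, pk_add, pk_add]
        refine pk_congr _ _ _ _ fun j hj => ?_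
        show d i j + B * e i j + ((2 ^ 75 - dl i j) + B * 2 ^ 75) + (w2 i j >>> 117) =
          (d i j + (2 ^ 75 - dl i j) + (w2 i j >>> 117)) - (w0 i j >>> 117) +
            B * ((e i j + 2 ^ 75) - (w1 i j >>> 117)) + ((w0 i j >>> 117) + B * (w1 i j >>> 117))
        have g0 := k0 i hi j hj
        have g1 := k1 i hi j hj
        generalize w0 i j >>> 117 = A0 at *
        generalize w1 i j >>> 117 = A1 at *
        generalize w2 i j >>> 117 = A2 at *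
        generalize 2 ^ 75 - dl i j = A3 at *
        obtain ⟨c, hc⟩ := Nat.exists_eq_add_of_le g0
        obtain ⟨c', hc'⟩ := Nat.exists_eq_add_of_le g1
        rw [hc, hc', Nat.add_sub_cancel_left, Nat.add_sub_cancel_left]
        have : d i j + B * e i j + (A3 + B * 2 ^ 75) + A2 = (d i j + A3 + A2) + B * (e i j + 2 ^ 75) := by
          ring
        rw [this, hc, hc']
        ring
      omega
    show pk V n (fun i => pk B3 n (sl d e i) + B3 ^ n * u i) +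
        pk V n (fun i => pk B3 n (fun j => (2 ^ 75 - dl i j) + B * 2 ^ 75)) +
        pk V n (fun i => pk B3 n (fun j => w2 i j >>> 117)) -
        pk V n (fun i => pk B3 n (fun j => (w0 i j >>> 117) + B * (w1 i j >>> 117))) = _
    rw [hsum, Nat.add_sub_cancel]
  · intro i hi j hj
    have g0 := k0 i hi j hj
    have g1 := k1 i hi j hj
    have t0 := s0 i hi j hj
    have t1 := s1 i hi j hj
    have t2 := s2 i hi j hj
    have hdl := dl_le i j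
    have v2 := sh_lt (l2 i hi j hj)
    have dd := I.hd i hi j hj
    have ee := I.he i hi j hj
    have p76 : (2 : ℕ) ^ 53 + 2 ^ 75 + 2 ^ 75 < B := by unfold B; norm_num
    refine ⟨?_, ?_, ?_, ?_⟩
    · show (d i j + (2 ^ 75 - dl i j) + (w2 i j >>> 117)) - (w0 i j >>> 117) < B
      have h1 : (d i j + (2 ^ 75 - dl i j) + (w2 i j >>> 117)) - (w0 i j >>> 117) ≤
        2 ^ 53 + 2 ^ 75 + 2 ^ 75 := by omega
      exact lt_of_le_of_lt h1 p76
    · show (e i j + 2 ^ 75) - (w1 i j >>> 117) < B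
      have h1 : (e i j + 2 ^ 75) - (w1 i j >>> 117) ≤ 2 ^ 53 + 2 ^ 75 + 2 ^ 75 := by omega
      exact lt_of_le_of_lt h1 p76
    · show (((d i j + (2 ^ 75 - dl i j) + (w2 i j >>> 117)) - (w0 i j >>> 117) : ℕ) : ℤ) = _
      have h7 : dl i j ≤ 2 ^ 75 := hdl.trans (by norm_num)
      rw [Nat.cast_sub g0, Nat.cast_add, Nat.cast_add, Nat.cast_sub h7, t0, t2]
      have o75 : ((2 ^ 75 : ℕ) : ℤ) = 2 ^ 75 := by norm_num
      rw [o75]
      show (d i j : ℤ) + (2 ^ 75 - dl i j) + (fl (a2 i j) + 2 ^ 74) - (fl (a0 i j) + 2 ^ 74) =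
        d i j + 2 ^ 75 - dl i j + fl (a2 i j) - fl (a0 i j)
      ring
    · show (((e i j + 2 ^ 75) - (w1 i j >>> 117) : ℕ) : ℤ) = _
      rw [Nat.cast_sub g1, Nat.cast_add, t1]
      have o75 : ((2 ^ 75 : ℕ) : ℤ) = 2 ^ 74 + 2 ^ 74 := by norm_num
      rw [o75]
      show (e i j : ℤ) + (2 ^ 74 + 2 ^ 74) - (fl (a1 i j) + 2 ^ 74) = e i j + 2 ^ 74 - fl (a1 i j)
      ring

end Pool.Agent.Helper90.K9
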