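import Pool.Agent.Helper90.CX.K9G

/-!
Row K9 (MP_c75db0), part H: one step is sound, end.
-/

set_option autoImplicit false
noncomputable section
namespace Pool.Agent.Helper90.K9

/-- dropping the first row and the first column -/
theorem shift_drop {m : ℕ} (hm : m + 1 ≤ 9) {d e : ℕ → ℕ → ℕ} {u : ℕ → ℕ}
    (hd : ∀ i < m + 1, ∀ j < m + 1, d i j < 2 ^ 53) (he : ∀ i < m + 1, ∀ j < m + 1, e i j < 2 ^ 53)
    (hu : ∀ i < m + 1, u i < B3 ^ (10 - (m + 1))) :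
    Inv m ((pk V (m + 1) (fun i => pk B3 (m + 1) (sl d e i) + B3 ^ (m + 1) * u i)) >>> 6336)
      (fun i j => d (i + 1) (j + 1)) (fun i j => e (i + 1) (j + 1))
      (fun i => u (i + 1) + B3 ^ (9 - m) * (if i + 1 < m then sl d e (i + 2) 0 else 0)) := by
  have hs : ∀ i < m + 1, ∀ j < m + 1, sl d e i j < B3 := fun i hi j hj =>
    sl_lt (hd i hi j hj) (he i hi j hj)
  refine ⟨fun i hi j hj => hd _ (by omega) _ (by omega), fun i hi j hj => he _ (by omega) _ (by omega),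
    ?_, ?_⟩
  · intro i hi
    have h1 := hu (i + 1) (by omega)
    have e1 : 10 - (m + 1) = 9 - m := by omega
    have e2 : 10 - m = (9 - m) + 1 := by omega
    rw [e1] at h1
    rw [e2, pow_succ]
    have h2 : (if i + 1 < m then sl d e (i + 2) 0 else 0) < B3 := by
      split_ifs with h
      · exact hs _ (by omega) _ (by omega)
      · exact B3_pos
    have h3 := Nat.mul_le_mul_left (B3 ^ (9 - m)) (Nat.succ_le_of_lt h2)
    rw [Nat.mul_succ] at h3
    show u (i + 1) + B3 ^ (9 - m) * (if i + 1 < m then sl d e (i + 2) 0 else 0) < _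
    omega
  · have e0 : ∀ x : ℕ, x >>> 6336 = x / V / B3 := by
      intro x
      have : (6336 : ℕ) = 5760 + 576 := by norm_num
      rw [this, Nat.shiftRight_add, Nat.shiftRight_eq_div_pow _ 5760, Nat.shiftRight_eq_div_pow _ 576]
      rfl
    rw [e0, pk_succ, Nat.add_mul_div_left _ _ V_pos, Nat.div_eq_of_lt
      (row_lt' (by omega) (hs 0 (by omega)) (hu 0 (by omega))), Nat.zero_add]
    have h1 := drop_pk B3_pos 9 m (fun i => if i < m then sl d e (i + 1) 0 else 0)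
      (fun i => pk B3 m (fun j => sl d e (i + 1) (j + 1)) + B3 ^ m * u (i + 1))
      (fun i hi => by
        show (if i < m then sl d e (i + 1) 0 else 0) < B3
        rw [if_pos hi]
        exact hs _ (by omega) _ (by omega))
      (if_neg (lt_irrefl m))
    have e10 : 9 + 1 = 10 := rfl
    rw [e10, ← V_eq] at h1
    have h2 : pk V m (fun i => pk B3 (m + 1) (sl d e (i + 1)) + B3 ^ (m + 1) * u (i + 1)) =
        pk V m (fun i => (if i < m then sl d e (i + 1) 0 else 0) +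
          B3 * (pk B3 m (fun j => sl d e (i + 1) (j + 1)) + B3 ^ m * u (i + 1))) := by
      refine pk_congr _ _ _ _ fun i hi => ?_
      rw [if_pos hi, pk_succ, pow_succ]
      ring
    rw [h2, h1]
    refine pk_congr _ _ _ _ fun i hi => ?_
    show pk B3 m (fun j => sl d e (i + 1) (j + 1)) + B3 ^ m * u (i + 1) +
      B3 ^ 9 * (if i + 1 < m then sl d e (i + 1 + 1) 0 else 0) =
      pk B3 m (fun j => sl d e (i + 1) (j + 1)) +
      B3 ^ m * (u (i + 1) + B3 ^ (9 - m) * (if i + 1 < m then sl d e (i + 2) 0 else 0))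
    have h3 : B3 ^ 9 = B3 ^ m * B3 ^ (9 - m) := by
      rw [← pow_add]
      congr 1
      omega
    rw [h3]
    ring

theorem lit117 : (166153499473114484112975882535043072 : ℕ) = 2 ^ 117 := by norm_num
theorem lit52 : (4503599627370496 : ℕ) = 2 ^ 52 := by norm_num
theorem lit32 : (4294967296 : ℕ) = 2 ^ 32 := by norm_num

/-- the relation of one step -/
def Rel (m : ℕ) (q : ℕ) (d e d' e' : ℕ → ℕ → ℕ) : Prop :=
  ∀ i < m, ∀ j < m,
    (d' i j : ℤ) = d (i + 1) (j + 1) - dl (i + 1) (j + 1) +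
      fl (-((q : ℤ) * (((e 0 (i + 1) : ℤ) - 2 ^ 52) * ((e 0 (j + 1) : ℤ) - 2 ^ 52)))) -
      fl ((q : ℤ) * (((d 0 (i + 1) : ℤ) - 2 ^ 52) * ((d 0 (j + 1) : ℤ) - 2 ^ 52))) ∧
    (e' i j : ℤ) = e (i + 1) (j + 1) -
      fl ((q : ℤ) * (((d 0 (i + 1) : ℤ) - 2 ^ 52) * ((e 0 (j + 1) : ℤ) - 2 ^ 52) -
        ((e 0 (i + 1) : ℤ) - 2 ^ 52) * ((d 0 (j + 1) : ℤ) - 2 ^ 52)))

theorem step_unf (s : St) (ih : ℕ → Bool) (N : ℕ) : step s ih N =
    sel (Nat.ble (4294967296 : ℕ) (N % s.W2 % (0x1000000000000000000000000000000000000000000000000 : ℕ) -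
      4503599627370496)) (fin s (N + s.C1 + ((((N % s.W2 * s.E &&& s.MRe) +
      (s.K - (N % s.W2 * s.E &&& s.MIm))) *
      (N % s.W2 + s.cR) * ((166153499473114484112975882535043072 : ℕ) / (N % s.W2 %
      (0x1000000000000000000000000000000000000000000000000 : ℕ) - 4503599627370496)) + s.OFF) >>> 501
      &&& s.MV0) - ((((N % s.W2 * s.E &&& s.MRe) + (s.K - (N % s.W2 * s.E &&& s.MIm))) *
      (N % s.W2 + s.cR) * ((166153499473114484112975882535043072 : ℕ) / (N % s.W2 %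
      (0x1000000000000000000000000000000000000000000000000 : ℕ) - 4503599627370496)) + s.OFF) >>> 117
      &&& s.MV01)) ih) := by
  delta step piv prd upd
  rfl

theorem step_sound {m N : ℕ} (hm : m + 1 ≤ 9) {s : St} (hs : OK (m + 1) s) {d e : ℕ → ℕ → ℕ}
    {u : ℕ → ℕ} (I : Inv (m + 1) N d e u) {ih : ℕ → Bool} (h : step s ih N = true) :
    ∃ (N' : ℕ) (d' e' : ℕ → ℕ → ℕ) (u' : ℕ → ℕ), Inv m N' d' e' u' ∧ ih N' = true ∧
      2 ^ 32 ≤ d 0 0 - 2 ^ 52 ∧ Rel m (2 ^ 117 / (d 0 0 - 2 ^ 52)) d e d' e' := by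
  rw [step_unf] at h
  obtain ⟨h1, h2⟩ := sel_true h
  have h1' := Nat.le_of_ble_eq_true h1
  have h3 := h2
  have hrow : N % s.W2 = pk B3 (m + 1) (sl d e 0) := by rw [hs.W2]; exact first_row hm I
  have hlow := low_digit (m := m) (e := e) (I.hd 0 (Nat.succ_pos m) 0 (Nat.succ_pos m))
  rw [litB, hrow, hlow, lit52, lit32] at h1'
  rw [litB, hrow, hlow, lit52, lit117] at h3
  set q := 2 ^ 117 / (d 0 0 - 2 ^ 52) with hq
  have hq85 : q ≤ 2 ^ 85 := by
    have : q ≤ 2 ^ 117 / 2 ^ 32 := Nat.div_le_div_left h1' (by positivity)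
    exact this.trans (by norm_num)
  obtain ⟨d1, e1, hX, hD⟩ := upd_eq hm hs I hq85
  rw [hX] at h3
  obtain ⟨h4, h5⟩ := sel_true h3
  have h4' : pk V (m + 1) (fun i => pk B3 (m + 1) (sl d1 e1 i) + B3 ^ (m + 1) * u i) &&& s.HI = s.PT :=
    Nat.eq_of_beq_eq_true h4
  have h5' : ih ((pk V (m + 1) (fun i => pk B3 (m + 1) (sl d1 e1 i) + B3 ^ (m + 1) * u i) - s.PT)
    >>> 6336) = true := h5
  rw [hs.HI, hs.PT] at h4'
  rw [hs.PT] at h5'
  have hR := range_test hm (2 ^ 75) (2 ^ 74) (by unfold B; norm_num) (by unfold B; norm_num)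
    (fun i hi j hj => (hD i hi j hj).1) (fun i hi j hj => (hD i hi j hj).2.1) I.hu h4'
  set d2 : ℕ → ℕ → ℕ := fun i j => d1 i j % 2 ^ 53 with hd2
  set e2 : ℕ → ℕ → ℕ := fun i j => e1 i j % 2 ^ 53 with he2
  have hsub : pk V (m + 1) (fun i => pk B3 (m + 1) (sl d1 e1 i) + B3 ^ (m + 1) * u i) =
      pk V (m + 1) (fun i => pk B3 (m + 1) (sl d2 e2 i) + B3 ^ (m + 1) * u i) +
      pk V (m + 1) (fun _ => pk B3 (m + 1) (fun _ => 2 ^ 75 + B * 2 ^ 74)) := by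
    rw [pk_add]
    refine pk_congr _ _ _ _ fun i hi => ?_
    have : pk B3 (m + 1) (sl d1 e1 i) = pk B3 (m + 1) (sl d2 e2 i) +
        pk B3 (m + 1) (fun _ => 2 ^ 75 + B * 2 ^ 74) := by
      rw [pk_add]
      refine pk_congr _ _ _ _ fun j hj => ?_
      obtain ⟨g1, g2⟩ := hR i hi j hj
      show d1 i j + B * e1 i j = d1 i j % 2 ^ 53 + B * (e1 i j % 2 ^ 53) + (2 ^ 75 + B * 2 ^ 74)
      calc d1 i j + B * e1 i j = (2 ^ 75 + d1 i j % 2 ^ 53) + B * (2 ^ 74 + e1 i j % 2 ^ 53) := by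
            rw [← g1, ← g2]
        _ = _ := by ring
    rw [this]
    omega
  rw [hsub, Nat.add_sub_cancel] at h5'
  have hmod : ∀ x : ℕ, x % 2 ^ 53 < 2 ^ 53 := fun x => Nat.mod_lt _ (by positivity)
  refine ⟨_, _, _, _, shift_drop hm (fun i _ j _ => hmod _) (fun i _ j _ => hmod _) I.hu, h5', h1', ?_⟩
  intro i hi j hj
  obtain ⟨_, _, g3, g4⟩ := hD (i + 1) (by omega) (j + 1) (by omega)
  obtain ⟨g1, g2⟩ := hR (i + 1) (by omega) (j + 1) (by omega)
  have o75 : ((2 ^ 75 : ℕ) : ℤ) = 2 ^ 75 := by norm_num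
  have o74 : ((2 ^ 74 : ℕ) : ℤ) = 2 ^ 74 := by norm_num
  constructor
  · show ((d1 (i + 1) (j + 1) % 2 ^ 53 : ℕ) : ℤ) = _
    have g5 : ((d1 (i + 1) (j + 1) : ℕ) : ℤ) = 2 ^ 75 + ((d1 (i + 1) (j + 1) % 2 ^ 53 : ℕ) : ℤ) := by
      rw [← o75, ← Nat.cast_add, ← g1]
    rw [g3] at g5
    linarith
  · show ((e1 (i + 1) (j + 1) % 2 ^ 53 : ℕ) : ℤ) = _
    have g5 : ((e1 (i + 1) (j + 1) : ℕ) : ℤ) = 2 ^ 74 + ((e1 (i + 1) (j + 1) % 2 ^ 53 : ℕ) : ℤ) := by
      rw [← o74, ← Nat.cast_add, ← g2]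
    rw [g4] at g5
    linarith

end Pool.Agent.Helper90.K9
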