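import Pool.Agent.Helper90.CX.K9I

/-!
Row K9 (MP_c75db0), part J: the constants are right.
-/

set_option autoImplicit false
namespace Pool.Agent.Helper90.K9

theorem ok9 : OK 9 c9 := by constructor <;> decide +kernel
theorem ok8 : OK 8 c8 := by constructor <;> decide +kernel
theorem ok7 : OK 7 c7 := by constructor <;> decide +kernel
theorem ok6 : OK 6 c6 := by constructor <;> decide +kernel
theorem ok5 : OK 5 c5 := by constructor <;> decide +kernel
theorem ok4 : OK 4 c4 := by constructor <;> decide +kernel
theorem ok3 : OK 3 c3 := by constructor <;> decide +kernel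
theorem ok2 : OK 2 c2 := by constructor <;> decide +kernel

end Pool.Agent.Helper90.K9
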