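import Pool.Agent.Helper90.CX.K9H
import Pool.Agent.Helper90.CX.K9J
import Pool.Agent.Helper90.CX.K9E

/-!
Row K9 (MP_c75db0), part K: SOUNDNESS of the test `pd9` of packed 9 x 9 matrices.
-/

set_option autoImplicit false
noncomputable section
namespace Pool.Agent.Helper90.K9

open Finset

/-- entries of a state -/
def Mx (d e : ℕ → ℕ → ℕ) (i j : ℕ) : ℂ := ⟨(d i j : ℝ) - 2 ^ 52, (e i j : ℝ) - 2 ^ 52⟩

theorem fl_le (w : ℤ) : (fl w : ℝ) ≤ (w : ℝ) / 2 ^ 117 := by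
  rw [le_div_iff₀ (by positivity)]
  have h : w / 2 ^ 117 * 2 ^ 117 ≤ w := Int.ediv_mul_le w (by norm_num)
  have h2 : fl w * 2 ^ 117 ≤ w := h
  exact_mod_cast h2

theorem lt_fl (w : ℤ) : (w : ℝ) / 2 ^ 117 < fl w + 1 := by
  rw [div_lt_iff₀ (by positivity)]
  have h : w < (w / 2 ^ 117 + 1) * 2 ^ 117 := Int.lt_ediv_add_one_mul_self w (by norm_num)
  have h2 : w < (fl w + 1) * 2 ^ 117 := h
  exact_mod_cast h2

theorem q_err {p : ℕ} (hp : 0 < p) :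
    0 ≤ (p : ℝ)⁻¹ - ((2 ^ 117 / p : ℕ) : ℝ) / 2 ^ 117 ∧
      (p : ℝ)⁻¹ - ((2 ^ 117 / p : ℕ) : ℝ) / 2 ^ 117 ≤ 1 / 2 ^ 117 := by
  have hp' : (0 : ℝ) < p := by exact_mod_cast hp
  set q := 2 ^ 117 / p with hq
  have h1 : q * p ≤ 2 ^ 117 := Nat.div_mul_le_self _ _
  have h2 : 2 ^ 117 < (q + 1) * p := by
    have h3 := Nat.div_add_mod (2 ^ 117) p
    have h4 := Nat.mod_lt (2 ^ 117) hp
    rw [← hq] at h3
    have h5 : (q + 1) * p = p * q + p := by ring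
    omega
  have h1' : (q : ℝ) * p ≤ 2 ^ 117 := by exact_mod_cast h1
  have h2' : (2 : ℝ) ^ 117 < (q + 1) * p := by exact_mod_cast h2
  have e1 : (p : ℝ)⁻¹ - (q : ℝ) / 2 ^ 117 = (2 ^ 117 - q * p) / (p * 2 ^ 117) := by
    field_simp
  rw [e1]
  constructor
  · apply div_nonneg
    · linarith
    · positivity
  · rw [div_le_div_iff₀ (by positivity) (by positivity)]
    nlinarith

theorem err_one {p : ℕ} (hp : 0 < p) {w : ℤ} (hw : |w| ≤ 2 ^ 105) :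
    |(((2 ^ 117 / p : ℕ) : ℝ) * w) / 2 ^ 117 - w * (p : ℝ)⁻¹| ≤ 1 / 4 := by
  obtain ⟨h1, h2⟩ := q_err hp
  have e : (((2 ^ 117 / p : ℕ) : ℝ) * w) / 2 ^ 117 - w * (p : ℝ)⁻¹ =
      -(w * ((p : ℝ)⁻¹ - ((2 ^ 117 / p : ℕ) : ℝ) / 2 ^ 117)) := by ring
  have hw' : |(w : ℝ)| ≤ 2 ^ 105 := by exact_mod_cast hw
  rw [e, abs_neg, abs_mul, abs_of_nonneg h1]
  calc |(w : ℝ)| * ((p : ℝ)⁻¹ - ((2 ^ 117 / p : ℕ) : ℝ) / 2 ^ 117)
      ≤ 2 ^ 105 * (1 / 2 ^ 117) := mul_le_mul hw' h2 h1 (by positivity)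
    _ ≤ 1 / 4 := by norm_num

theorem ab {a b : ℕ} (ha : a < 2 ^ 53) (hb : b < 2 ^ 53) :
    |((a : ℤ) - 2 ^ 52) * ((b : ℤ) - 2 ^ 52)| ≤ 2 ^ 104 := by
  rw [abs_mul]
  calc |(a : ℤ) - 2 ^ 52| * |(b : ℤ) - 2 ^ 52| ≤ 2 ^ 52 * 2 ^ 52 :=
        mul_le_mul (xr ha) (xr hb) (abs_nonneg _) (by positivity)
    _ = 2 ^ 104 := by norm_num

/-- ONE STEP decreases the form -/
theorem step_G {m : ℕ} (hm : m + 1 ≤ 9) {d e d' e' : ℕ → ℕ → ℕ}
    (hd : ∀ i < m + 1, ∀ j < m + 1, d i j < 2 ^ 53) (he : ∀ i < m + 1, ∀ j < m + 1, e i j < 2 ^ 53)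
    (hp : 2 ^ 32 ≤ d 0 0 - 2 ^ 52) (hrel : Rel m (2 ^ 117 / (d 0 0 - 2 ^ 52)) d e d' e') (v : ℕ → ℂ) :
    G m (Mx d' e') (fun i => v (i + 1)) ≤ G (m + 1) (Mx d e) v := by
  set p : ℕ := d 0 0 - 2 ^ 52 with hpdef
  have p0 : 0 < p := lt_of_lt_of_le (by positivity) hp
  have pr : (0 : ℝ) < p := by exact_mod_cast p0
  have hd00 : (d 0 0 : ℝ) - 2 ^ 52 = p := by
    have h1 : d 0 0 = p + 2 ^ 52 := by omega
    have h2 : (d 0 0 : ℝ) = p + 2 ^ 52 := by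
      rw [h1]; push_cast; ring
    rw [h2]; ring
  set q : ℕ := 2 ^ 117 / p with hq
  -- the error matrix
  set E : ℕ → ℕ → ℂ := fun i j =>
    Mx d e (i + 1) (j + 1) - ((p : ℝ)⁻¹ : ℝ) * (star (Mx d e 0 (i + 1)) * Mx d e 0 (j + 1)) -
      Mx d' e' i j - (dl (i + 1) (j + 1) : ℝ) with hE
  have hEb : ∀ i < m, ∀ j < m, i ≤ j → ‖E i j‖ ≤ 11 / 4 := by
    intro i hi j hj _
    obtain ⟨r1, r2⟩ := hrel i hi j hj
    have di := hd 0 (by omega) (i + 1) (by omega)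
    have dj := hd 0 (by omega) (j + 1) (by omega)
    have ei := he 0 (by omega) (i + 1) (by omega)
    have ej := he 0 (by omega) (j + 1) (by omega)
    set xi : ℤ := (d 0 (i + 1) : ℤ) - 2 ^ 52 with hxi
    set xj : ℤ := (d 0 (j + 1) : ℤ) - 2 ^ 52 with hxj
    set yi : ℤ := (e 0 (i + 1) : ℤ) - 2 ^ 52 with hyi
    set yj : ℤ := (e 0 (j + 1) : ℤ) - 2 ^ 52 with hyj
    have cxi : (d 0 (i + 1) : ℝ) - 2 ^ 52 = (xi : ℝ) := by rw [hxi]; push_cast; ring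
    have cxj : (d 0 (j + 1) : ℝ) - 2 ^ 52 = (xj : ℝ) := by rw [hxj]; push_cast; ring
    have cyi : (e 0 (i + 1) : ℝ) - 2 ^ 52 = (yi : ℝ) := by rw [hyi]; push_cast; ring
    have cyj : (e 0 (j + 1) : ℝ) - 2 ^ 52 = (yj : ℝ) := by rw [hyj]; push_cast; ring
    have bxx : |xi * xj| ≤ 2 ^ 105 := (ab di dj).trans (by norm_num)
    have byy : |yi * yj| ≤ 2 ^ 105 := (ab ei ej).trans (by norm_num)
    have bxy : |xi * yj - yi * xj| ≤ 2 ^ 105 := by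
      calc |xi * yj - yi * xj| ≤ |xi * yj| + |yi * xj| := abs_sub _ _
        _ ≤ 2 ^ 104 + 2 ^ 104 := add_le_add (ab di ej) (ab ei dj)
        _ = 2 ^ 105 := by norm_num
    have r1' : (d' i j : ℝ) = d (i + 1) (j + 1) - dl (i + 1) (j + 1) +
        (fl (-((q : ℤ) * (yi * yj))) : ℝ) - (fl ((q : ℤ) * (xi * xj)) : ℝ) := by exact_mod_cast r1
    have r2' : (e' i j : ℝ) = e (i + 1) (j + 1) - (fl ((q : ℤ) * (xi * yj - yi * xj)) : ℝ) := by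
      exact_mod_cast r2
    have re : (E i j).re = (fl ((q : ℤ) * (xi * xj)) : ℝ) - (fl (-((q : ℤ) * (yi * yj))) : ℝ) -
        (xi * xj + yi * yj) * (p : ℝ)⁻¹ := by
      show ((d (i + 1) (j + 1) : ℝ) - 2 ^ 52) - (((p : ℝ)⁻¹ : ℝ) *
        (star (Mx d e 0 (i + 1)) * Mx d e 0 (j + 1)) : ℂ).re - ((d' i j : ℝ) - 2 ^ 52) -
        (dl (i + 1) (j + 1) : ℝ) = _
      rw [Complex.re_ofReal_mul, Complex.mul_re]
      show ((d (i + 1) (j + 1) : ℝ) - 2 ^ 52) - (p : ℝ)⁻¹ *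
        (((d 0 (i + 1) : ℝ) - 2 ^ 52) * ((d 0 (j + 1) : ℝ) - 2 ^ 52) -
          (-((e 0 (i + 1) : ℝ) - 2 ^ 52)) * ((e 0 (j + 1) : ℝ) - 2 ^ 52)) - ((d' i j : ℝ) - 2 ^ 52) -
        (dl (i + 1) (j + 1) : ℝ) = _
      rw [cxi, cxj, cyi, cyj, r1']
      ring
    have im : (E i j).im = (fl ((q : ℤ) * (xi * yj - yi * xj)) : ℝ) -
        (xi * yj - yi * xj) * (p : ℝ)⁻¹ := by
      show ((e (i + 1) (j + 1) : ℝ) - 2 ^ 52) - (((p : ℝ)⁻¹ : ℝ) *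
        (star (Mx d e 0 (i + 1)) * Mx d e 0 (j + 1)) : ℂ).im - ((e' i j : ℝ) - 2 ^ 52) - 0 = _
      rw [Complex.im_ofReal_mul, Complex.mul_im]
      show ((e (i + 1) (j + 1) : ℝ) - 2 ^ 52) - (p : ℝ)⁻¹ *
        (((d 0 (i + 1) : ℝ) - 2 ^ 52) * ((e 0 (j + 1) : ℝ) - 2 ^ 52) +
          (-((e 0 (i + 1) : ℝ) - 2 ^ 52)) * ((d 0 (j + 1) : ℝ) - 2 ^ 52)) -
            ((e' i j : ℝ) - 2 ^ 52) - 0 = _
      rw [cxi, cxj, cyi, cyj, r2']
      ring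
    have a1 := abs_le.mp (err_one p0 bxx)
    have a2 := abs_le.mp (err_one p0 byy)
    have a3 := abs_le.mp (err_one p0 bxy)
    have b1 := fl_le ((q : ℤ) * (xi * xj))
    have b2 := lt_fl ((q : ℤ) * (xi * xj))
    have b3 := fl_le (-((q : ℤ) * (yi * yj)))
    have b4 := lt_fl (-((q : ℤ) * (yi * yj)))
    have b5 := fl_le ((q : ℤ) * (xi * yj - yi * xj))
    have b6 := lt_fl ((q : ℤ) * (xi * yj - yi * xj))
    rw [← hq] at a1 a2 a3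
    push_cast at a1 a2 a3 b1 b2 b3 b4 b5 b6
    have hre : |(E i j).re| ≤ 3 / 2 := by
      rw [re, abs_le]
      constructor
      · linarith [a1.1, a1.2, a2.1, a2.2]
      · linarith [a1.1, a1.2, a2.1, a2.2]
    have him : |(E i j).im| ≤ 5 / 4 := by
      rw [im, abs_le]
      constructor
      · linarith [a3.1, a3.2]
      · linarith [a3.1, a3.2]
    have hn := Complex.norm_le_abs_re_add_abs_im (E i j)
    linarith
  -- Schur
  have hS := G_schur m (Mx d e) v pr hd00 (fun i j => Mx d' e' i j + ((dl (i + 1) (j + 1) : ℝ) + E i j))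
    (fun i hi j hj _ => by
      show Mx d e (i + 1) (j + 1) = Mx d' e' i j + ((dl (i + 1) (j + 1) : ℝ) +
        (Mx d e (i + 1) (j + 1) - ((p : ℝ)⁻¹ : ℝ) * (star (Mx d e 0 (i + 1)) * Mx d e 0 (j + 1)) -
          Mx d' e' i j - (dl (i + 1) (j + 1) : ℝ))) +
          ((p : ℝ)⁻¹ : ℝ) * (star (Mx d e 0 (i + 1)) * Mx d e 0 (j + 1))
      ring)
  rw [G_add, G_add] at hS
  have hD : G m (fun i j => ((dl (i + 1) (j + 1) : ℝ) : ℂ)) (fun i => v (i + 1)) =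
      256 * ∑ i ∈ range m, ‖v (i + 1)‖ ^ 2 :=
    G_diag m _ 256 _ (fun i _ => by rw [dl_self]; norm_num)
      (fun i _ j _ hij => by rw [dl_ne (by omega)]; norm_num)
  have hE2 := G_err (by norm_num : (0 : ℝ) ≤ 11 / 4) m E (fun i => v (i + 1)) hEb
  have hsum := sq_sum_le m (fun i => ‖v (i + 1)‖)
  have hm8 : (m : ℝ) ≤ 8 := by exact_mod_cast (show m ≤ 8 by omega)
  have hnn : (0 : ℝ) ≤ ∑ i ∈ range m, ‖v (i + 1)‖ ^ 2 := Finset.sum_nonneg fun i _ => by positivity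
  rw [hD] at hS
  have h8 : (m : ℝ) * ∑ i ∈ range m, ‖v (i + 1)‖ ^ 2 ≤ 8 * ∑ i ∈ range m, ‖v (i + 1)‖ ^ 2 :=
    mul_le_mul_of_nonneg_right hm8 hnn
  linarith

theorem step_all {m N : ℕ} (hm : m + 1 ≤ 9) {s : St} (hs : OK (m + 1) s) {ih : ℕ → Bool}
    (hih : ∀ (N' : ℕ) (d' e' : ℕ → ℕ → ℕ) (u' : ℕ → ℕ), Inv m N' d' e' u' → ih N' = true →
      ∀ v, 0 ≤ G m (Mx d' e') v)
    {d e : ℕ → ℕ → ℕ} {u : ℕ → ℕ} (I : Inv (m + 1) N d e u) (h : step s ih N = true) (v : ℕ → ℂ) :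
    0 ≤ G (m + 1) (Mx d e) v := by
  obtain ⟨N', d', e', u', I', h', hp, hr⟩ := step_sound hm hs I h
  exact (hih N' d' e' u' I' h' _).trans (step_G hm I.hd I.he hp hr v)

theorem lst_sound {N : ℕ} {d e : ℕ → ℕ → ℕ} {u : ℕ → ℕ} (I : Inv 1 N d e u) (h : lst N = true)
    (v : ℕ → ℂ) : 0 ≤ G 1 (Mx d e) v := by
  have h1 : (4503603922337792 : ℕ) ≤ N % (0x1000000000000000000000000000000000000000000000000 : ℕ) :=
    Nat.le_of_ble_eq_true h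
  have h2 : N % B = d 0 0 := by
    have hrow := first_row (by norm_num : 0 + 1 ≤ 9) I
    have hlow := low_digit (m := 0) (e := e) (I.hd 0 (by norm_num) 0 (by norm_num))
    rw [← hrow, Nat.mod_mod_of_dvd] at hlow
    · exact hlow
    · rw [B3_eq, Nat.zero_add, pow_one]
      exact Dvd.intro _ rfl
  rw [litB, h2] at h1
  show 0 ≤ ((d 0 0 : ℝ) - 2 ^ 52) * ‖v 0‖ ^ 2 +
      2 * (star (v 0) * ∑ j ∈ range 0, Mx d e 0 (j + 1) * v (j + 1)).re + 0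
  rw [Finset.sum_range_zero, mul_zero, Complex.zero_re, mul_zero, add_zero, add_zero]
  apply mul_nonneg _ (by positivity)
  have h3 : (4503603922337792 : ℝ) ≤ (d 0 0 : ℝ) := by exact_mod_cast h1
  norm_num
  linarith

/-- SOUNDNESS, packed form -/
theorem pd9_inv {N : ℕ} {d e : ℕ → ℕ → ℕ} {u : ℕ → ℕ} (I : Inv 9 N d e u) (h : pd9 N = true)
    (v : ℕ → ℂ) : 0 ≤ G 9 (Mx d e) v := by
  refine step_all (m := 8) (by norm_num) ok9 (fun N d e u I h v => ?_) I h v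
  refine step_all (m := 7) (by norm_num) ok8 (fun N d e u I h v => ?_) I h v
  refine step_all (m := 6) (by norm_num) ok7 (fun N d e u I h v => ?_) I h v
  refine step_all (m := 5) (by norm_num) ok6 (fun N d e u I h v => ?_) I h v
  refine step_all (m := 4) (by norm_num) ok5 (fun N d e u I h v => ?_) I h v
  refine step_all (m := 3) (by norm_num) ok4 (fun N d e u I h v => ?_) I h v
  refine step_all (m := 2) (by norm_num) ok3 (fun N d e u I h v => ?_) I h v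
  refine step_all (m := 1) (by norm_num) ok2 (fun N d e u I h v => ?_) I h v
  exact lst_sound I h v

end Pool.Agent.Helper90.K9
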