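import Pool.Agent.Helper90.CX.K9K

/-!
Row K9 (MP_c75db0), part L: the final statements.

* `pd9 N` : test of the packed matrix `N` (digits < 2^53 assumed), `pd9r N` : the same with the range
  of the digits tested;
* `pd9_digits`, `pd9r_digits` : natural digits;
* `pd9_int`, `pd9r_int` : integer entries and an explicit sum;
* `G_herm` : `G n M v` is the value of the full Hermitian form.
-/

set_option autoImplicit false
noncomputable section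
namespace Pool.Agent.Helper90.K9

open Finset

theorem pd9_digits {N : ℕ} {d e : ℕ → ℕ → ℕ} (hd : ∀ i < 9, ∀ j < 9, d i j < 2 ^ 53)
    (he : ∀ i < 9, ∀ j < 9, e i j < 2 ^ 53) (hN : N = pk V 9 (fun i => pk B3 9 (sl d e i)))
    (h : pd9 N = true) (v : ℕ → ℂ) : 0 ≤ G 9 (Mx d e) v := by
  refine pd9_inv (u := fun _ => 0) ⟨hd, he, fun i _ => pow_pos B3_pos _, ?_⟩ h v
  rw [hN]
  exact pk_congr _ _ _ _ fun i _ => by rw [Nat.mul_zero, Nat.add_zero]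

/-- the test with the range of the digits -/
def pd9r (N : ℕ) : Bool := sel (Nat.beq (Nat.land N c9.HI) (nat_lit 0)) (pd9 N)

theorem pd9r_digits {N : ℕ} {d e : ℕ → ℕ → ℕ} (hd : ∀ i < 9, ∀ j < 9, d i j < B)
    (he : ∀ i < 9, ∀ j < 9, e i j < B) (hN : N = pk V 9 (fun i => pk B3 9 (sl d e i)))
    (h : pd9r N = true) (v : ℕ → ℂ) :
    (∀ i < 9, ∀ j < 9, d i j < 2 ^ 53 ∧ e i j < 2 ^ 53) ∧ 0 ≤ G 9 (Mx d e) v := by
  obtain ⟨h1, h2⟩ := sel_true h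
  have h1' : N &&& c9.HI = 0 := Nat.eq_of_beq_eq_true h1
  obtain ⟨u, hu⟩ : ∃ u : ℕ → ℕ, ∀ i, u i = 0 := ⟨fun _ => 0, fun _ => rfl⟩
  have hN' : N = pk V 9 (fun i => pk B3 9 (sl d e i) + B3 ^ 9 * u i) := by
    rw [hN]
    exact pk_congr _ _ _ _ fun i _ => by rw [hu, Nat.mul_zero, Nat.add_zero]
  rw [ok9.HI, hN'] at h1'
  have h0 : (0 : ℕ) = pk V 9 (fun _ => pk B3 9 (fun _ => 0 + B * 0)) := by
    symm
    refine pk_zeros V 9 _ fun i => pk_zeros B3 9 _ fun j => ?_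
    rw [Nat.mul_zero]
  have h1'' := h1'.trans h0
  have hR := range_test (n := 9) (d := d) (e := e) (u := u) le_rfl 0 0 B_pos B_pos hd he
    (fun i _ => by rw [hu]; exact pow_pos B3_pos _) h1''
  have hb : ∀ i < 9, ∀ j < 9, d i j < 2 ^ 53 ∧ e i j < 2 ^ 53 := fun i hi j hj => by
    obtain ⟨g1, g2⟩ := hR i hi j hj
    rw [Nat.zero_add] at g1 g2
    exact ⟨g1 ▸ Nat.mod_lt _ (by positivity), g2 ▸ Nat.mod_lt _ (by positivity)⟩
  exact ⟨hb, pd9_digits (fun i hi j hj => (hb i hi j hj).1) (fun i hi j hj => (hb i hi j hj).2) hN h2 v⟩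

theorem pz_sum (b : ℤ) : ∀ (n : ℕ) (f : ℕ → ℤ), pz b n f = ∑ i ∈ range n, f i * b ^ i
  | 0, f => by
    show (0 : ℤ) = _
    simp
  | n + 1, f => by
    rw [pz_last, pz_sum b n, Finset.sum_range_succ, mul_comm (f n)]

/-- the number of a matrix of integers -/
def num (x y : ℕ → ℕ → ℤ) : ℤ :=
  ∑ i ∈ range 9, ∑ j ∈ range 9, ((x i j + 2 ^ 52) + (y i j + 2 ^ 52) * 2 ^ 192) *
    2 ^ (192 * (30 * i + 3 * j))

theorem num_eq {x y : ℕ → ℕ → ℤ} (hx : ∀ i < 9, ∀ j < 9, 0 ≤ x i j + 2 ^ 52)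
    (hy : ∀ i < 9, ∀ j < 9, 0 ≤ y i j + 2 ^ 52) :
    num x y = ((pk V 9 (fun i => pk B3 9 (sl (fun i j => (x i j + 2 ^ 52).toNat)
      (fun i j => (y i j + 2 ^ 52).toNat) i)) : ℕ) : ℤ) := by
  rw [pk_cast, pz_sum]
  unfold num
  refine Finset.sum_congr rfl fun i hi => ?_
  have hi' := Finset.mem_range.mp hi
  rw [pk_cast, pz_sum, Finset.sum_mul]
  refine Finset.sum_congr rfl fun j hj => ?_
  have hj' := Finset.mem_range.mp hj
  rw [sl, Nat.cast_add, Nat.cast_mul, Int.toNat_of_nonneg (hx i hi' j hj'),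
    Int.toNat_of_nonneg (hy i hi' j hj')]
  have eB : (B : ℤ) = 2 ^ 192 := by
    have h : (B : ℕ) = 2 ^ 192 := rfl
    rw [h, Nat.cast_pow]; rfl
  have eB3 : (B3 : ℤ) = 2 ^ 576 := by
    have h : (B3 : ℕ) = 2 ^ 576 := rfl
    rw [h, Nat.cast_pow]; rfl
  have eV : (V : ℤ) = 2 ^ 5760 := by
    have h : (V : ℕ) = 2 ^ 5760 := rfl
    rw [h, Nat.cast_pow]; rfl
  rw [eB, eB3, eV, mul_assoc, ← pow_mul, ← pow_mul, ← pow_add]
  have : 192 * (30 * i + 3 * j) = 576 * j + 5760 * i := by ring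
  rw [this]
  ring

theorem toNat_real {a : ℤ} (h : 0 ≤ a + 2 ^ 52) : (((a + 2 ^ 52).toNat : ℕ) : ℝ) = (a : ℝ) + 2 ^ 52 := by
  have h2 := congrArg (Int.cast : ℤ → ℝ) (Int.toNat_of_nonneg h)
  rw [Int.cast_natCast, Int.cast_add] at h2
  rw [h2]
  norm_num

theorem Mx_int {x y : ℕ → ℕ → ℤ} {i j : ℕ} (hx : 0 ≤ x i j + 2 ^ 52) (hy : 0 ≤ y i j + 2 ^ 52) :
    Mx (fun i j => (x i j + 2 ^ 52).toNat) (fun i j => (y i j + 2 ^ 52).toNat) i j =
      (⟨(x i j : ℝ), (y i j : ℝ)⟩ : ℂ) := by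
  unfold Mx
  rw [toNat_real hx, toNat_real hy, add_sub_cancel_right, add_sub_cancel_right]

theorem toNat_ltB {a : ℤ} (h0 : 0 ≤ a + 2 ^ 52) (h : a + 2 ^ 52 < 2 ^ 192) : (a + 2 ^ 52).toNat < B := by
  have eB : (B : ℤ) = 2 ^ 192 := by
    have h : (B : ℕ) = 2 ^ 192 := rfl
    rw [h, Nat.cast_pow]; rfl
  have : (((a + 2 ^ 52).toNat : ℕ) : ℤ) < (B : ℤ) := by
    rw [Int.toNat_of_nonneg h0, eB]; exact h
  exact_mod_cast this

theorem toNat_lt53 {a : ℤ} (h0 : 0 ≤ a + 2 ^ 52) (h : a < 2 ^ 52) : (a + 2 ^ 52).toNat < 2 ^ 53 := by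
  have : (((a + 2 ^ 52).toNat : ℕ) : ℤ) < ((2 ^ 53 : ℕ) : ℤ) := by
    rw [Int.toNat_of_nonneg h0, Nat.cast_pow]
    have : ((2 : ℕ) : ℤ) ^ 53 = 2 ^ 52 + 2 ^ 52 := by norm_num
    rw [this]
    exact Int.add_lt_add_right h _
  exact_mod_cast this

/-- SOUNDNESS for integer entries in range -/
theorem pd9_int {N : ℕ} {x y : ℕ → ℕ → ℤ} (hx : ∀ i < 9, ∀ j < 9, -2 ^ 52 ≤ x i j ∧ x i j < 2 ^ 52)
    (hy : ∀ i < 9, ∀ j < 9, -2 ^ 52 ≤ y i j ∧ y i j < 2 ^ 52) (hN : (N : ℤ) = num x y)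
    (h : pd9 N = true) (v : ℕ → ℂ) : 0 ≤ G 9 (fun i j => ⟨(x i j : ℝ), (y i j : ℝ)⟩) v := by
  have hx0 : ∀ i < 9, ∀ j < 9, 0 ≤ x i j + 2 ^ 52 := fun i hi j hj => by linarith [(hx i hi j hj).1]
  have hy0 : ∀ i < 9, ∀ j < 9, 0 ≤ y i j + 2 ^ 52 := fun i hi j hj => by linarith [(hy i hi j hj).1]
  rw [num_eq hx0 hy0] at hN
  have := pd9_digits (fun i hi j hj => toNat_lt53 (hx0 i hi j hj) (hx i hi j hj).2)
    (fun i hi j hj => toNat_lt53 (hy0 i hi j hj) (hy i hi j hj).2) (by exact_mod_cast hN) h v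
  rw [G_congr 9 _ (fun i j => ⟨(x i j : ℝ), (y i j : ℝ)⟩) v
    (fun i hi j hj _ => Mx_int (hx0 i hi j hj) (hy0 i hi j hj))] at this
  exact this

/-- SOUNDNESS for integer entries, with the range test; a priori only `0 ≤ x + 2^52 < 2^192` -/
theorem pd9r_int {N : ℕ} {x y : ℕ → ℕ → ℤ}
    (hx : ∀ i < 9, ∀ j < 9, 0 ≤ x i j + 2 ^ 52 ∧ x i j + 2 ^ 52 < 2 ^ 192)
    (hy : ∀ i < 9, ∀ j < 9, 0 ≤ y i j + 2 ^ 52 ∧ y i j + 2 ^ 52 < 2 ^ 192) (hN : (N : ℤ) = num x y)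
    (h : pd9r N = true) (v : ℕ → ℂ) : 0 ≤ G 9 (fun i j => ⟨(x i j : ℝ), (y i j : ℝ)⟩) v := by
  rw [num_eq (fun i hi j hj => (hx i hi j hj).1) (fun i hi j hj => (hy i hi j hj).1)] at hN
  have := (pd9r_digits (fun i hi j hj => toNat_ltB (hx i hi j hj).1 (hx i hi j hj).2)
    (fun i hi j hj => toNat_ltB (hy i hi j hj).1 (hy i hi j hj).2) (by exact_mod_cast hN) h v).2
  rw [G_congr 9 _ (fun i j => ⟨(x i j : ℝ), (y i j : ℝ)⟩) v
    (fun i hi j hj _ => Mx_int (hx i hi j hj).1 (hy i hi j hj).1)] at this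
  exact this

/-- `G` is the full Hermitian form -/
theorem G_herm : ∀ (n : ℕ) (M : ℕ → ℕ → ℂ) (v : ℕ → ℂ), (∀ i < n, ∀ j < n, i < j → M j i = star (M i j)) →
    G n M v = (∑ i ∈ range n, ∑ j ∈ range n, star (v i) * M i j * v j).re
  | 0, M, v, _ => by
    show (0 : ℝ) = _
    simp
  | n + 1, M, v, h => by
    have ih := G_herm n (fun i j => M (i + 1) (j + 1)) (fun i => v (i + 1))
      (fun i hi j hj hij => h (i + 1) (Nat.succ_lt_succ hi) (j + 1) (Nat.succ_lt_succ hj)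
        (Nat.succ_lt_succ hij))
    rw [G_succ, ih, Finset.sum_range_succ']
    simp only [Finset.sum_range_succ' _ n]
    rw [Finset.sum_add_distrib]
    have e1 : ∑ j ∈ range n, star (v 0) * M 0 (j + 1) * v (j + 1) =
        star (v 0) * ∑ j ∈ range n, M 0 (j + 1) * v (j + 1) := by
      rw [Finset.mul_sum]
      exact Finset.sum_congr rfl fun j _ => by ring
    have e2 : ∑ i ∈ range n, star (v (i + 1)) * M (i + 1) 0 * v 0 =
        star (star (v 0) * ∑ j ∈ range n, M 0 (j + 1) * v (j + 1)) := by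
      rw [← e1, star_sum]
      refine Finset.sum_congr rfl fun i hi => ?_
      rw [h 0 (Nat.succ_pos n) (i + 1) (Nat.succ_lt_succ (Finset.mem_range.mp hi)) (Nat.succ_pos i),
        star_mul, star_mul, star_star]
      ring
    have e3 : (star (v 0) * M 0 0 * v 0).re = (M 0 0).re * ‖v 0‖ ^ 2 := by
      have : star (v 0) * M 0 0 * v 0 = ((‖v 0‖ ^ 2 : ℝ) : ℂ) * M 0 0 := by
        rw [← Complex.normSq_eq_norm_sq, Complex.normSq_eq_conj_mul_self]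
        show star (v 0) * M 0 0 * v 0 = star (v 0) * v 0 * M 0 0
        ring
      rw [this, Complex.re_ofReal_mul]
      ring
    rw [e1, e2, Complex.add_re, Complex.add_re, Complex.add_re, e3]
    have e4 : (star (star (v 0) * ∑ j ∈ range n, M 0 (j + 1) * v (j + 1))).re =
        (star (v 0) * ∑ j ∈ range n, M 0 (j + 1) * v (j + 1)).re := Complex.conj_re _
    rw [e4]
    ring

end Pool.Agent.Helper90.K9
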