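import Pool.Agent.Helper17.K9.K9D
import Pool.Agent.Helper90.CX.KM1
import Pool.Agent.Helper90.CX.K9L
import Pool.Agent.Helper90.CX.K9M

/-!
Row K9 (MP_c75db0), part N: THE LEAF THEOREM for `tf pd9` (kernel function of helper17).
-/

set_option autoImplicit false
noncomputable section
namespace Pool.Agent.Helper90.K9N

open Pool.Agent.Helper90.K9

open Finset hiding val
open Pool.Agent.Helper86.C75 (Z)
open Pool.Agent.Helper90.KMO (zv zv_sub)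
open Pool.Agent.Helper17.K9 (OFF9 MV01 MV0 CC9 HI9 PT9 ON9 tN tf2 tf1 tf zoff)

/-! ### the literals -/

theorem OFF9_eq : OFF9 = pk V 9 (fun _ => pk B3 10 (fun _ => pk B 3 (fun _ => 2 ^ 191))) := by
  decide +kernel
theorem MV01_eq : MV01 = pk V 9 (fun _ => pk B3 9 (fun _ => (2 ^ 136 - 1) + B * (2 ^ 136 - 1))) := by
  decide +kernel
theorem MV0_eq : MV0 = pk V 9 (fun _ => pk B3 9 (fun _ => 2 ^ 136 - 1)) := by
  decide +kernel
theorem CC9_eq : CC9 = pk V 9 (fun _ => pk B3 9 (fun _ => (2 ^ 136 + 2 ^ 52) + B * (2 ^ 135 + 2 ^ 52))) := by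
  decide +kernel
theorem HI9_eq : HI9 = pk V 9 (fun _ => pk B3 9 (fun _ => 2 ^ 53 * (2 ^ 139 - 1) +
    B * (2 ^ 53 * (2 ^ 139 - 1)))) := by
  decide +kernel
theorem PT9_eq : PT9 = pk V 9 (fun _ => pk B3 9 (fun _ => 2 ^ 136 + B * 2 ^ 136)) := by
  decide +kernel

/-! ### shift by 56 bits -/

theorem sh56_cast {w : ℤ} {n : ℕ} (h : (n : ℤ) = w + 2 ^ 191) :
    ((n >>> 56 : ℕ) : ℤ) = w / 2 ^ 56 + 2 ^ 135 := by
  have h2 : ((2 ^ 56 : ℕ) : ℤ) = 2 ^ 56 := by norm_num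
  have h1 : (2 : ℤ) ^ 191 = 2 ^ 135 * 2 ^ 56 := by norm_num
  rw [Nat.shiftRight_eq_div_pow, Int.natCast_ediv, h2, h, h1, Int.add_mul_ediv_right _ _ (by norm_num)]

theorem sh56_lt {n : ℕ} (h : n < B) : n >>> 56 < 2 ^ 136 := by
  rw [Nat.shiftRight_eq_div_pow, Nat.div_lt_iff_lt_mul (by positivity)]
  have : B = 2 ^ 136 * 2 ^ 56 := by unfold B; norm_num
  omega

theorem sh56_and {n : ℕ} (h : n < B) : n >>> 56 &&& (2 ^ 136 - 1) = n >>> 56 := by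
  rw [Nat.and_two_pow_sub_one_eq_mod, Nat.mod_eq_of_lt (sh56_lt h)]

theorem ws_sh56 {w0 w1 w2 : ℕ → ℕ → ℕ} {i j : ℕ} (h0 : w0 i j < B) (h1 : w1 i j < B) :
    (ws w0 w1 w2 i j) >>> 56 &&& ((2 ^ 136 - 1) + B * (2 ^ 136 - 1)) =
      (w0 i j >>> 56) + B * (w1 i j >>> 56) := by
  have h := shl_pk (e := 192) (k := 56) (by norm_num) 2 (fun k => if k = 0 then w0 i j else w1 i j)
    (fun _ => 2 ^ 136 - 1) (w2 i j)
    (fun k _ => by
      show (if k = 0 then w0 i j else w1 i j) < B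
      split_ifs
      exacts [h0, h1])
    (fun k _ => by norm_num)
  have e1 : pk (2 ^ 192) 2 (fun k => if k = 0 then w0 i j else w1 i j) + (2 ^ 192) ^ 2 * w2 i j =
      ws w0 w1 w2 i j := by
    show (w0 i j + B * (w1 i j + B * 0)) + B ^ 2 * w2 i j = _
    unfold ws
    ring
  have e2 : pk (2 ^ 192) 2 (fun _ => 2 ^ 136 - 1) = (2 ^ 136 - 1) + B * (2 ^ 136 - 1) := by
    show (2 ^ 136 - 1) + B * ((2 ^ 136 - 1) + B * 0) = _
    rw [Nat.mul_zero, Nat.add_zero]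
  have e3 : pk (2 ^ 192) 2 (fun k => (if k = 0 then w0 i j else w1 i j) >>> 56 &&& (2 ^ 136 - 1)) =
      (w0 i j >>> 56) + B * (w1 i j >>> 56) := by
    show (w0 i j >>> 56 &&& (2 ^ 136 - 1)) + B * ((w1 i j >>> 56 &&& (2 ^ 136 - 1)) + B * 0) = _
    rw [Nat.mul_zero, Nat.add_zero, sh56_and h0, sh56_and h1]
  rw [← e1, ← e2, h, e3]

theorem ws_sh440 {w0 w1 w2 : ℕ → ℕ → ℕ} {i j : ℕ} (h0 : w0 i j < B) (h1 : w1 i j < B)
    (h2 : w2 i j < B) :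
    (ws w0 w1 w2 i j) >>> 440 &&& (2 ^ 136 - 1) = w2 i j >>> 56 := by
  have e0 : (ws w0 w1 w2 i j) >>> 440 = ((ws w0 w1 w2 i j) / B / B) >>> 56 := by
    have : (440 : ℕ) = 192 + 192 + 56 := by norm_num
    rw [this, Nat.shiftRight_add, Nat.shiftRight_add, Nat.shiftRight_eq_div_pow _ 192,
      Nat.shiftRight_eq_div_pow _ 192]
    rfl
  have e1 : (ws w0 w1 w2 i j) / B / B = w2 i j := by
    unfold ws
    rw [Nat.add_mul_div_left _ _ B_pos, Nat.div_eq_of_lt h0, Nat.zero_add,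
      Nat.add_mul_div_left _ _ B_pos, Nat.div_eq_of_lt h1, Nat.zero_add]
  rw [e0, e1, sh56_and h2]

theorem mask136_lt : (2 ^ 136 - 1) + B * (2 ^ 136 - 1) < 2 ^ (576 - 56) := by
  have h0 : (2 : ℕ) ^ 136 - 1 < B := by unfold B; norm_num
  refine lt_of_lt_of_le (two_ltBB h0 h0) ?_
  unfold B
  rw [← pow_add]
  exact Nat.pow_le_pow_right (by norm_num) (by norm_num)

theorem m56 (w0 w1 w2 : ℕ → ℕ → ℕ) (z : ℕ → ℕ)
    (h0 : ∀ i < 9, ∀ j < 9, w0 i j < B) (h1 : ∀ i < 9, ∀ j < 9, w1 i j < B)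
    (h2 : ∀ i < 9, ∀ j < 9, w2 i j < B) (hz : ∀ i < 9, z i < B3) :
    ((pk V 9 (fun i => pk B3 9 (ws w0 w1 w2 i) + B3 ^ 9 * z i)) >>> 56) &&& MV01 =
      pk V 9 (fun i => pk B3 9 (fun j => (w0 i j >>> 56) + B * (w1 i j >>> 56))) := by
  have h := shl_V (n := 9) (k := 56) (by norm_num)
    (fun i => pk B3 9 (ws w0 w1 w2 i) + B3 ^ 9 * z i)
    (fun _ => pk B3 9 (fun _ => (2 ^ 136 - 1) + B * (2 ^ 136 - 1))) 0
    (fun i hi => row_lt le_rfl (fun j hj => ws_lt (h0 i hi j hj) (h1 i hi j hj) (h2 i hi j hj)) (hz i hi))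
    (fun i _ => mask_lt le_rfl (by norm_num) fun _ _ => B3_of_lt mask136_lt)
  rw [Nat.mul_zero, Nat.add_zero] at h
  rw [MV01_eq, h]
  refine pk_congr _ _ _ _ fun i hi => ?_
  rw [shl_B3 (by norm_num) _ _ (z i)
    (fun j hj => ws_lt (h0 i hi j hj) (h1 i hi j hj) (h2 i hi j hj)) (fun _ _ => mask136_lt)]
  exact pk_congr _ _ _ _ fun j hj => ws_sh56 (h0 i hi j hj) (h1 i hi j hj)

theorem m440 (w0 w1 w2 : ℕ → ℕ → ℕ) (z : ℕ → ℕ)
    (h0 : ∀ i < 9, ∀ j < 9, w0 i j < B) (h1 : ∀ i < 9, ∀ j < 9, w1 i j < B)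
    (h2 : ∀ i < 9, ∀ j < 9, w2 i j < B) (hz : ∀ i < 9, z i < B3) :
    ((pk V 9 (fun i => pk B3 9 (ws w0 w1 w2 i) + B3 ^ 9 * z i)) >>> 440) &&& MV0 =
      pk V 9 (fun i => pk B3 9 (fun j => w2 i j >>> 56)) := by
  have hm : (2 : ℕ) ^ 136 - 1 < 2 ^ (576 - 440) := by norm_num
  have h := shl_V (n := 9) (k := 440) (by norm_num)
    (fun i => pk B3 9 (ws w0 w1 w2 i) + B3 ^ 9 * z i)
    (fun _ => pk B3 9 (fun _ => 2 ^ 136 - 1)) 0
    (fun i hi => row_lt le_rfl (fun j hj => ws_lt (h0 i hi j hj) (h1 i hi j hj) (h2 i hi j hj)) (hz i hi))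
    (fun i _ => mask_lt le_rfl (by norm_num) fun _ _ => B3_of_lt hm)
  rw [Nat.mul_zero, Nat.add_zero] at h
  rw [MV0_eq, h]
  refine pk_congr _ _ _ _ fun i hi => ?_
  rw [shl_B3 (by norm_num) _ _ (z i)
    (fun j hj => ws_lt (h0 i hi j hj) (h1 i hi j hj) (h2 i hi j hj)) (fun _ _ => hm)]
  exact pk_congr _ _ _ _ fun j hj => ws_sh440 (h0 i hi j hj) (h1 i hi j hj) (h2 i hi j hj)

/-! ### the radii -/

theorem N_pz_sum (b : ℤ) (n : ℕ) (f : ℕ → ℤ) : pz b n f = ∑ i ∈ range n, f i * b ^ i := by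
  induction n with
  | zero => exact (Finset.sum_range_zero _).symm
  | succ n ih => rw [pz_last, ih, Finset.sum_range_succ, mul_comm (f n)]

theorem pk_sum (b : ℕ) : ∀ (n : ℕ) (f : ℕ → ℕ), pk b n f = ∑ i ∈ range n, f i * b ^ i
  | 0, f => by
    show (0 : ℕ) = _
    simp
  | n + 1, f => by
    rw [pk_last, pk_sum b n, Finset.sum_range_succ, mul_comm (f n)]

/-- the digits `33 K` -/
theorem diag_pk (R : ℕ → ℕ) : pk (V * B3) 9 R = pk V 9 (fun i => pk B3 9 (fun j => if j = i then R i else 0)) := by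
  rw [pk_sum, pk_sum]
  refine Finset.sum_congr rfl fun i hi => ?_
  rw [pk_sum]
  have : ∑ j ∈ range 9, (if j = i then R i else 0) * B3 ^ j = R i * B3 ^ i := by
    rw [Finset.sum_eq_single i]
    · rw [if_pos rfl]
    · intro j _ hj
      rw [if_neg hj, zero_mul]
    · intro h
      exact absurd hi h
  rw [this, mul_pow]
  ring

/-! ### decoding -/

/-- a table of signed digits with offset -/
theorem decode {D : ℕ → ℕ → ℕ → ℤ} (hD : ∀ i < 9, ∀ j < 10, ∀ s < 3, |D i j s| ≤ 2 ^ 190) {Y : ℕ}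
    (hY : (Y : ℤ) = val D + (OFF9 : ℤ)) :
    Y = pk V 9 (fun i => pk B3 9 (ws (fun i j => (D i j 0 + 2 ^ 191).toNat)
      (fun i j => (D i j 1 + 2 ^ 191).toNat) (fun i j => (D i j 2 + 2 ^ 191).toNat) i) +
      B3 ^ 9 * ws (fun i j => (D i j 0 + 2 ^ 191).toNat)
      (fun i j => (D i j 1 + 2 ^ 191).toNat) (fun i j => (D i j 2 + 2 ^ 191).toNat) i 9) := by
  have h1 : (Y : ℤ) = ((pk V 9 (fun i => pk B3 10 (fun j => ws (fun i j => (D i j 0 + 2 ^ 191).toNat)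
      (fun i j => (D i j 1 + 2 ^ 191).toNat) (fun i j => (D i j 2 + 2 ^ 191).toNat) i j)) : ℕ) : ℤ) := by
    have hA := pk_cast V 9 (fun _ => pk B3 10 (fun _ => pk B 3 (fun _ => 2 ^ 191)))
    have hB := pk_cast V 9 (fun i => pk B3 10 (fun j => ws (fun i j => (D i j 0 + 2 ^ 191).toNat)
      (fun i j => (D i j 1 + 2 ^ 191).toNat) (fun i j => (D i j 2 + 2 ^ 191).toNat) i j))
    rw [hY, OFF9_eq, hA, hB]
    unfold val
    rw [pz_add]
    refine pz_congr _ _ _ _ fun i hi => ?_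
    have hA := pk_cast B3 10 (fun _ => pk B 3 (fun _ => 2 ^ 191))
    have hB := pk_cast B3 10 (fun j => ws (fun i j => (D i j 0 + 2 ^ 191).toNat)
      (fun i j => (D i j 1 + 2 ^ 191).toNat) (fun i j => (D i j 2 + 2 ^ 191).toNat) i j)
    rw [hA, hB, pz_add]
    refine pz_congr _ _ _ _ fun j hj => ?_
    rw [pk_cast, pz_add]
    have e0 := (nat_of (hD i hi j hj 0 (by norm_num))).1
    have e1 := (nat_of (hD i hi j hj 1 (by norm_num))).1
    have e2 := (nat_of (hD i hi j hj 2 (by norm_num))).1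
    rw [ws, Nat.cast_add, Nat.cast_mul, Nat.cast_add, Nat.cast_mul, e0, e1, e2]
    have o : ((2 ^ 191 : ℕ) : ℤ) = 2 ^ 191 := by norm_num
    rw [o]
    show (D i j 0 + 2 ^ 191) + B * ((D i j 1 + 2 ^ 191) + B * ((D i j 2 + 2 ^ 191) + B * 0)) = _
    ring
  have h2 : Y = pk V 9 (fun i => pk B3 10 (fun j => ws (fun i j => (D i j 0 + 2 ^ 191).toNat)
      (fun i j => (D i j 1 + 2 ^ 191).toNat) (fun i j => (D i j 2 + 2 ^ 191).toNat) i j)) := by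
    exact_mod_cast h1
  rw [h2]
  refine pk_congr _ _ _ _ fun i _ => ?_
  rw [pk_last]

end Pool.Agent.Helper90.K9N
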