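import Pool.Agent.Helper90.CX.K9O
import Pool.Agent.Helper17.K9.K9E

/-!
Row K9 (MP_c75db0), part P: the leaf theorem in the terms of helper17 (`tf_ok`), range tests
(`rz_ok`).
-/

set_option autoImplicit false
noncomputable section
namespace Pool.Agent.Helper90.K9N

open Pool.Agent.Helper90.K9
open Pool.Agent.Helper86.C75 (Z)
open Pool.Agent.Helper86.CX (andB)
open Pool.Agent.Helper90.KMO (zv zv_sub zv_p zv_m)
open Pool.Agent.Helper17.K9 (VC PC RC Bc BB tf rz rzP rzM mkz ONES dg od PC_pz dg_at dg_pad dg_bd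
  ONES_eq)

theorem cB : (B : ℤ) = BB := by
  have h : (B : ℕ) = 2 ^ 192 := rfl
  rw [h, Nat.cast_pow]; rfl
theorem cB3 : (B3 : ℤ) = BB ^ 3 := by
  rw [B3_eq, Nat.cast_mul, Nat.cast_mul, cB]; ring
theorem cV : (V : ℤ) = BB ^ 30 := by
  rw [V_eq, Nat.cast_pow, cB3, ← pow_mul]

/-- digits of a matrix with an empty slot 9 -/
def DV (N : VC) (i j s : ℕ) : ℤ := if j < 9 then (if s = 0 then N i j 0 else if s = 1 then N i j 1
  else N i j 2) else 0

theorem PC_val (N : VC) : PC N = val (DV N) := by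
  unfold PC val
  rw [N_pz_sum]
  refine Finset.sum_congr rfl fun i _ => ?_
  rw [pz_last]
  have h9 : pz (B : ℤ) 3 (DV N i 9) = 0 := by
    show (0 : ℤ) + B * (0 + B * (0 + B * 0)) = 0
    ring
  rw [h9, mul_zero, add_zero, N_pz_sum, Finset.sum_mul]
  refine Finset.sum_congr rfl fun j hj => ?_
  have hj' := Finset.mem_range.mp hj
  have e : ∀ s, DV N i j s = (if s = 0 then N i j 0 else if s = 1 then N i j 1 else N i j 2) :=
    fun s => if_pos hj'
  show _ = (DV N i j 0 + B * (DV N i j 1 + B * (DV N i j 2 + B * 0))) * (B3 : ℤ) ^ j * (V : ℤ) ^ i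
  rw [e 0, e 1, e 2, if_pos rfl, if_neg (by norm_num), if_pos rfl, if_neg (by norm_num),
    if_neg (by norm_num), cB, cB3, cV]
  ring

/-- radii at the digits `33 K` -/
def Rd (R : ℕ → ℕ) : ℕ := ∑ K ∈ Finset.range 9, R K * (2 ^ 192) ^ (33 * K)

theorem Rd_eq (R : ℕ → ℕ) : Rd R = pk (V * B3) 9 R := by
  rw [pk_sum]
  unfold Rd
  refine Finset.sum_congr rfl fun K _ => ?_
  have h : V * B3 = (2 ^ 192) ^ 33 := by
    unfold V B3
    rw [← pow_add, ← pow_mul]
  rw [h, pow_mul]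

/-- THE LEAF THEOREM -/
theorem tf_ok {N : VC} {x : Z} (hx : RC x N) (hb : Bc (2 ^ 190) N) {R : ℕ → ℕ}
    (hR : ∀ K < 9, R K ≤ 2 ^ 52) (ht : tf pd9 (Rd R) x = true) (v : ℕ → ℂ) :
    ∑ K ∈ Finset.range 9, ((R K : ℝ) - 14) * ‖v K‖ ^ 2 ≤
      G 9 (fun K L => (((N K L 0 - N K L 2 : ℤ) : ℂ) + ((N K L 1 : ℤ) : ℂ) * Complex.I) / 2 ^ 56) v := by
  have hD : ∀ i < 9, ∀ j < 10, ∀ s < 3, |DV N i j s| ≤ 2 ^ 190 := by
    intro i hi j _ s _
    unfold DV
    split_ifs with h1 h2 h3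
    · exact hb i j hi h1 0
    · exact hb i j hi h1 1
    · exact hb i j hi h1 2
    · rw [abs_zero]; positivity
  have h := leaf_sound hD (by rw [← PC_val]; exact hx) (R := R)
    (fun i hi => (hR i hi).trans (by norm_num)) (Rd_eq R) ht v
  refine h.trans (le_of_eq (G_congr 9 _ _ v fun i hi j hj _ => ?_))
  have e : ∀ s, DV N i j s = (if s = 0 then N i j 0 else if s = 1 then N i j 1 else N i j 2) :=
    fun s => if_pos hj
  rw [e 0, e 1, e 2, if_pos rfl, if_neg (by norm_num), if_pos rfl, if_neg (by norm_num),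
    if_neg (by norm_num)]
  have h56 : ((2 : ℂ) ^ 56) = (((2 : ℝ) ^ 56 : ℝ) : ℂ) := by push_cast; rfl
  rw [h56]
  apply Complex.ext
  · rw [Complex.div_ofReal_re]
    simp
  · rw [Complex.div_ofReal_im]
    simp

end Pool.Agent.Helper90.K9N
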