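import Pool.Agent.Helper90.CX.K9P

/-!
Row K9 (MP_c75db0), part Q: the packed range tests `rz`, `rg` of helper17.
-/

set_option autoImplicit false
noncomputable section
namespace Pool.Agent.Helper90.K9N

open Pool.Agent.Helper90.K9
open Pool.Agent.Helper86.C75 (Z)
open Pool.Agent.Helper86.CX (andB)
open Pool.Agent.Helper90.KMO (zv zv_sub zv_p zv_m)
open Pool.Agent.Helper17.K9 (VC PC RC Bc BB rz rzP rzM mkz ONES dg PC_pz dg_at dg_bd
  ONES_eq O18 mk18 o18 rgP rgM rg RF PF VF sum_nest)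

/-- signed digits are unique -/
theorem pz_zero_of {b : ℤ} (hb : 0 < b) : ∀ (n : ℕ) (f : ℕ → ℤ) (z : ℤ), (∀ k < n, |f k| < b) →
    pz b n f = b ^ n * z → ∀ k < n, f k = 0
  | 0, _, _, _, _ => fun k hk => absurd hk (Nat.not_lt_zero k)
  | n + 1, f, z, hf, h => by
    rw [pz_succ] at h
    have h0 : f 0 = 0 := by
      have hd : b ∣ f 0 := ⟨b ^ n * z - pz b n (fun i => f (i + 1)), by
        have e : b ^ (n + 1) * z = b * (b ^ n * z) := by rw [pow_succ]; ring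
        rw [mul_sub, ← e, ← h]; ring⟩
      exact Int.eq_zero_of_abs_lt_dvd hd (hf 0 (Nat.succ_pos n))
    have h1 : pz b n (fun i => f (i + 1)) = b ^ n * z := by
      rw [h0, zero_add, pow_succ, mul_comm (b ^ n) b, mul_assoc] at h
      exact mul_left_cancel₀ hb.ne' h
    intro k hk
    cases k with
    | zero => exact h0
    | succ k =>
      exact pz_zero_of hb n (fun i => f (i + 1)) z (fun i hi => hf (i + 1) (Nat.succ_lt_succ hi)) h1 k
        (Nat.lt_of_succ_lt_succ hk)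

/-- canonical digits -/
theorem pk_digits (b : ℕ) : ∀ (n Y : ℕ), Y = pk b n (fun k => Y / b ^ k % b) + b ^ n * (Y / b ^ n)
  | 0, Y => by
    rw [pk_zero, pow_zero, Nat.div_one]; ring
  | n + 1, Y => by
    have ih := pk_digits b n (Y / b)
    have e : pk b n (fun k => Y / b ^ (k + 1) % b) = pk b n (fun k => Y / b / b ^ k % b) :=
      pk_congr _ _ _ _ fun k _ => by rw [pow_succ, mul_comm, Nat.div_div_eq_div_mul]
    have e2 : Y / b ^ (n + 1) = Y / b / b ^ n := by rw [pow_succ, mul_comm, Nat.div_div_eq_div_mul]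
    rw [pk_succ, e, e2]
    have h3 := Nat.mod_add_div Y b
    rw [pow_zero, Nat.div_one]
    calc Y = Y % b + b * (Y / b) := h3.symm
      _ = Y % b + b * (pk b n (fun k => Y / b / b ^ k % b) + b ^ n * (Y / b / b ^ n)) := by rw [← ih]
      _ = _ := by ring

theorem hi_zero {h y : ℕ} (hh : h ≤ 189) (hy : y < 2 ^ 192)
    (hl : y &&& (2 ^ 192 - 2 ^ (h + 1)) = 0) : y < 2 ^ (h + 1) := by
  have e : (2 : ℕ) ^ 192 - 2 ^ (h + 1) = 2 ^ (h + 1) * (2 ^ (191 - h) - 1) := by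
    rw [Nat.mul_sub, Nat.mul_one, ← pow_add]
    congr 2
    omega
  have h1 := land_split (h + 1) (y % 2 ^ (h + 1)) (y / 2 ^ (h + 1)) 0 (2 ^ (191 - h) - 1)
    (Nat.mod_lt _ (by positivity)) (by positivity)
  have hq : y / 2 ^ (h + 1) < 2 ^ (191 - h) := by
    rw [Nat.div_lt_iff_lt_mul (by positivity), ← pow_add]
    have : 191 - h + (h + 1) = 192 := by omega
    rw [this]; exact hy
  rw [Nat.mod_add_div, Nat.zero_add, ← e, hl, Nat.and_zero, Nat.zero_add,
    Nat.and_two_pow_sub_one_eq_mod, Nat.mod_eq_of_lt hq] at h1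
  have h2 : y / 2 ^ (h + 1) = 0 := by
    rcases Nat.mul_eq_zero.mp h1.symm with h3 | h3
    · exact absurd h3 (by positivity)
    · exact h3
  exact (Nat.div_eq_zero_iff_lt (by positivity)).mp h2

/-- RANGE TEST: digits `f k + c k * 2 ^ h` -/
theorem range_of_land {n h : ℕ} (hh : h ≤ 189) {Y : ℕ} {f : ℕ → ℤ} {c : ℕ → ℕ}
    (hc : ∀ k < n, c k = 1 ∨ c k = 0 ∧ f k = 0)
    (hY : (Y : ℤ) = pz BB n (fun k => f k + c k * 2 ^ h)) (hf : ∀ k < n, |f k| ≤ 2 ^ 190)
    (hl : Y &&& pk (2 ^ 192) n (fun k => c k * (2 ^ 192 - 2 ^ (h + 1))) = 0) :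
    ∀ k < n, |f k| ≤ 2 ^ h := by
  set y : ℕ → ℕ := fun k => Y / (2 ^ 192) ^ k % 2 ^ 192 with hy
  have hdig := pk_digits (2 ^ 192) n Y
  have hyl : ∀ k < n, y k < 2 ^ 192 := fun k _ => Nat.mod_lt _ (by positivity)
  have hml : ∀ k < n, c k * (2 ^ 192 - 2 ^ (h + 1)) < 2 ^ 192 := fun k hk => by
    have : (2 : ℕ) ^ 192 - 2 ^ (h + 1) < 2 ^ 192 := Nat.sub_lt (by positivity) (by positivity)
    rcases hc k hk with h1 | ⟨h1, _⟩
    · rw [h1, Nat.one_mul]; exact this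
    · rw [h1, Nat.zero_mul]; positivity
  have h1 := land_pk (e := 192) n y (fun k => c k * (2 ^ 192 - 2 ^ (h + 1))) (Y / (2 ^ 192) ^ n) hyl hml
  rw [← hdig, hl] at h1
  have h2 : ∀ k < n, y k &&& (c k * (2 ^ 192 - 2 ^ (h + 1))) = 0 := by
    have h3 := pk_inj (b := 2 ^ 192) (by positivity) n
      (fun k => y k &&& (c k * (2 ^ 192 - 2 ^ (h + 1)))) (fun _ => 0)
      (fun k hk => lt_of_le_of_lt Nat.and_le_left (hyl k hk)) (fun _ _ => by positivity)
      (by rw [← h1, pk_zeros _ _ _ (fun _ => rfl)])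
    exact h3
  -- the signed digits
  have h4 : pz BB n (fun k => f k + c k * 2 ^ h - y k) = BB ^ n * ((Y / (2 ^ 192) ^ n : ℕ) : ℤ) := by
    have h5 : (Y : ℤ) = pz BB n (fun k => (y k : ℤ)) + BB ^ n * ((Y / (2 ^ 192) ^ n : ℕ) : ℤ) := by
      have h6 := congrArg (Nat.cast : ℕ → ℤ) hdig
      have e : ((2 ^ 192 : ℕ) : ℤ) = BB := by rw [Nat.cast_pow]; rfl
      rw [Nat.cast_add, Nat.cast_mul, pk_cast, Nat.cast_pow (2 ^ 192) n, e] at h6
      exact h6
    rw [← pz_sub]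
    rw [hY] at h5
    linarith
  have pB : (2 : ℤ) ^ 190 + 2 ^ 190 < BB := by
    show (2 : ℤ) ^ 190 + 2 ^ 190 < 2 ^ 192
    norm_num
  have hh2 : (2 : ℤ) ^ h ≤ 2 ^ 189 := pow_le_pow_right₀ (by norm_num) hh
  have hh1 : (2 : ℤ) ^ (h + 1) ≤ 2 ^ 190 := pow_le_pow_right₀ (by norm_num) (by omega)
  have h0 : (0 : ℤ) < 2 ^ h := by positivity
  have h7 : ∀ k < n, c k = 1 → (y k : ℤ) < 2 ^ (h + 1) := fun k hk hck => by
    have h8 := h2 k hk
    rw [hck, Nat.one_mul] at h8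
    exact_mod_cast hi_zero hh (hyl k hk) h8
  have h9 := pz_zero_of (show (0 : ℤ) < BB by show (0 : ℤ) < 2 ^ 192; positivity) n
    (fun k => f k + c k * 2 ^ h - y k) ((Y / (2 ^ 192) ^ n : ℕ) : ℤ) (fun k hk => by
      show |f k + c k * 2 ^ h - y k| < BB
      have hf' := abs_le.mp (hf k hk)
      have hy0 : (0 : ℤ) ≤ (y k : ℤ) := Int.natCast_nonneg _
      rcases hc k hk with h1 | ⟨h1, h1'⟩
      · have hy1 := h7 k hk h1
        rw [h1, Nat.cast_one, one_mul, abs_lt]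
        constructor
        · linarith [hf'.1]
        · have : (2 : ℤ) ^ 189 < 2 ^ 190 := by norm_num
          linarith [hf'.2]
      · rw [h1, h1', Nat.cast_zero, zero_mul, zero_add, zero_sub, abs_neg, abs_of_nonneg hy0]
        have : (y k : ℤ) < ((2 ^ 192 : ℕ) : ℤ) := by exact_mod_cast hyl k hk
        rw [Nat.cast_pow] at this
        exact this) h4
  intro k hk
  rcases hc k hk with h1 | ⟨_, h1'⟩
  · have h10 : f k + c k * 2 ^ h - y k = 0 := h9 k hk
    have hy1 := h7 k hk h1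
    have hy0 : (0 : ℤ) ≤ (y k : ℤ) := Int.natCast_nonneg _
    rw [h1, Nat.cast_one, one_mul] at h10
    rw [pow_succ] at hy1
    rw [abs_le]
    constructor
    · linarith
    · linarith
  · rw [h1', abs_zero]
    exact h0.le

theorem mkz_eq {h : ℕ} : mkz h = pk (2 ^ 192) 270 (fun _ => 1 * (2 ^ 192 - 2 ^ (h + 1))) := by
  show ONES * ((1 <<< 192) - (2 <<< h)) = _
  have e1 : (1 <<< 192 : ℕ) = 2 ^ 192 := by rw [Nat.shiftLeft_eq, Nat.one_mul]
  have e2 : (2 <<< h : ℕ) = 2 ^ (h + 1) := by rw [Nat.shiftLeft_eq, pow_succ, mul_comm]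
  rw [e1, e2, ONES_eq, Nat.mul_comm, pk_smul]
  exact pk_congr _ _ _ _ fun _ _ => by rw [Nat.mul_one, Nat.one_mul]

/-- the range test of a matrix -/
theorem rz_ok {h : ℕ} (hh : h ≤ 189) {N : VC} {x : Z} (hx : RC x N) (hb : Bc (2 ^ 190) N)
    (ht : rz h x = true) : ∀ K L, K < 9 → L < 9 → ∀ e, |N K L e| ≤ 2 ^ h := by
  have key : ∀ Y : ℕ, (Y : ℤ) = ((ONES <<< h : ℕ) : ℤ) + zv x → Y &&& mkz h = 0 →
      ∀ K L, K < 9 → L < 9 → ∀ e, |N K L e| ≤ 2 ^ h := by
    intro Y hY hl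
    rw [mkz_eq] at hl
    have hY' : (Y : ℤ) = pz BB 270 (fun k => dg N k + ((1 : ℕ) : ℤ) * 2 ^ h) := by
      rw [hY, hx, PC_pz, Nat.shiftLeft_eq, Nat.cast_mul, ONES_eq, pk_cast, Nat.cast_pow,
        Nat.cast_pow, mul_comm (pz _ _ _), pz_smul]
      have e : (((2 : ℕ) : ℤ) ^ 192) = BB := rfl
      rw [e, pz_add]
      refine pz_congr _ _ _ _ fun k _ => ?_
      rw [Nat.cast_ofNat]
      ring
    have h1 := range_of_land hh (c := fun _ => 1) (fun _ _ => Or.inl rfl) hY'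
      (fun k hk => dg_bd (by positivity) hb hk) hl
    intro K L hK hL e
    have h2 := h1 (30 * K + (3 * L + e)) (by have := e.2; omega)
    rw [dg_at N hL e] at h2
    exact h2
  cases x with
  | p n =>
    have h1 : Nat.beq (Nat.land (Nat.add (Nat.shiftLeft ONES h) n) (mkz h)) (nat_lit 0) = true := ht
    exact key (ONES <<< h + n) (by rw [Nat.cast_add, zv_p]) (Nat.eq_of_beq_eq_true h1)
  | m n =>
    have h1 : andB (Nat.ble n (Nat.shiftLeft ONES h)) (Nat.beq (Nat.land (Nat.sub (Nat.shiftLeft ONES h) n)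
      (mkz h)) (nat_lit 0)) = true := ht
    have h2 : sel (Nat.ble n (Nat.shiftLeft ONES h)) (Nat.beq (Nat.land (Nat.sub (Nat.shiftLeft ONES h) n)
      (mkz h)) (nat_lit 0)) = true := h1
    obtain ⟨h3, h4⟩ := sel_true h2
    have h5 : n ≤ ONES <<< h := Nat.le_of_ble_eq_true h3
    exact key (ONES <<< h - n) (by rw [Nat.cast_sub h5, zv_m]; ring) (Nat.eq_of_beq_eq_true h4)

/-! ### forms of order 3 -/

/-- digits of a form -/
def cF (k : ℕ) : ℕ := if k % 30 < 9 ∧ k % 3 < 2 then 1 else 0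

theorem O18_eq : O18 = pk (2 ^ 192) 90 cF := by decide +kernel

def dgF (X : VF) (k : ℕ) : ℤ :=
  if k % 30 < 9 ∧ k % 3 < 2 then X (k / 30) (k % 30 / 3) (if k % 3 = 0 then 0 else 1) else 0

theorem dgF_at (X : VF) {j l : ℕ} (hl : l < 3) (e : Fin 2) :
    dgF X (30 * j + (3 * l + e)) = X j l e := by
  have he := e.2
  have h1 : (30 * j + (3 * l + (e : ℕ))) % 30 = 3 * l + e := by omega
  have h2 : (30 * j + (3 * l + (e : ℕ))) / 30 = j := by omega
  have h3 : (30 * j + (3 * l + (e : ℕ))) % 3 = e := by omega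
  have h4 : (3 * l + (e : ℕ)) / 3 = l := by omega
  unfold dgF
  rw [h1, h2, h3, h4, if_pos (by omega)]
  congr 1
  fin_cases e <;> rfl

theorem sum30F (f : ℕ → ℤ) (h : ∀ s < 30, ¬ (s % 30 < 9 ∧ s % 3 < 2) → f s = 0) :
    ∑ s ∈ Finset.range 30, f s = ∑ l ∈ Finset.range 3, (f (3 * l) + f (3 * l + 1)) := by
  have h2 := h 2 (by norm_num) (by omega)
  have h5 := h 5 (by norm_num) (by omega)
  have h8 := h 8 (by norm_num) (by omega)
  have e : (30 : ℕ) = 9 + 21 := rfl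
  have e3 : ∑ s ∈ Finset.range 21, f (9 + s) = 0 := Finset.sum_eq_zero fun s hs => by
    have h1 := Finset.mem_range.1 hs
    exact h _ (by omega) (by omega)
  rw [e, Finset.sum_range_add, e3, add_zero]
  simp only [Finset.sum_range_succ, Finset.sum_range_zero]
  norm_num
  rw [h2, h5, h8]
  ring

theorem PF_pz (X : VF) : PF 1 X = pz BB 90 (dgF X) := by
  rw [N_pz_sum, show (90 : ℕ) = 30 * 3 from rfl, sum_nest]
  unfold PF
  refine Finset.sum_congr rfl fun j _ => ?_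
  rw [sum30F _ (fun s hs h => by
    have : dgF X (30 * j + s) = 0 := by
      unfold dgF
      rw [if_neg]
      have e1 : (30 * j + s) % 30 = s % 30 := by omega
      have e2 : (30 * j + s) % 3 = s % 3 := by omega
      rw [e1, e2]; exact h
    rw [this, zero_mul])]
  refine Finset.sum_congr rfl fun l hl => ?_
  have hl' := Finset.mem_range.1 hl
  have e0 := dgF_at X (j := j) hl' 0
  have e1 := dgF_at X (j := j) hl' 1
  rw [show ((0 : Fin 2) : ℕ) = 0 from rfl, Nat.add_zero] at e0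
  rw [show ((1 : Fin 2) : ℕ) = 1 from rfl] at e1
  rw [e0, e1, pow_add, pow_add BB (30 * j) (3 * l + 1), pow_add BB (3 * l) 1, pow_mul, pow_mul, pow_one]
  ring

theorem mk18_eq {h : ℕ} : mk18 h = pk (2 ^ 192) 90 (fun k => cF k * (2 ^ 192 - 2 ^ (h + 1))) := by
  show O18 * ((1 <<< 192) - (2 <<< h)) = _
  have e1 : (1 <<< 192 : ℕ) = 2 ^ 192 := by rw [Nat.shiftLeft_eq, Nat.one_mul]
  have e2 : (2 <<< h : ℕ) = 2 ^ (h + 1) := by rw [Nat.shiftLeft_eq, pow_succ, mul_comm]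
  rw [e1, e2, O18_eq, Nat.mul_comm, pk_smul]
  exact pk_congr _ _ _ _ fun _ _ => by rw [Nat.mul_comm]

/-- the range test of a form -/
theorem rg_ok {h : ℕ} (hh : h ≤ 189) {X : VF} {x : Z} (hx : RF 1 x X)
    (hb : ∀ j < 3, ∀ l < 3, ∀ e, |X j l e| ≤ 2 ^ 190) (ht : rg h x = true) :
    ∀ j < 3, ∀ l < 3, ∀ e, |X j l e| ≤ 2 ^ h := by
  have key : ∀ Y : ℕ, (Y : ℤ) = ((o18 h : ℕ) : ℤ) + zv x → Y &&& mk18 h = 0 →
      ∀ j < 3, ∀ l < 3, ∀ e, |X j l e| ≤ 2 ^ h := by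
    intro Y hY hl
    rw [mk18_eq] at hl
    have ho : o18 h = O18 <<< h := rfl
    have hY' : (Y : ℤ) = pz BB 90 (fun k => dgF X k + (cF k : ℤ) * 2 ^ h) := by
      rw [hY, hx, PF_pz, ho, Nat.shiftLeft_eq, Nat.cast_mul, O18_eq, pk_cast, Nat.cast_pow,
        Nat.cast_pow, mul_comm (pz _ _ _), pz_smul]
      have e : (((2 : ℕ) : ℤ) ^ 192) = BB := rfl
      rw [e, pz_add]
      refine pz_congr _ _ _ _ fun k _ => ?_
      rw [Nat.cast_ofNat]
      ring
    have hf : ∀ k < 90, |dgF X k| ≤ 2 ^ 190 := by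
      intro k hk
      unfold dgF
      split_ifs with h1
      · exact hb _ (by omega) _ (by omega) 0
      · exact hb _ (by omega) _ (by omega) 1
      · rw [abs_zero]; positivity
    have h1 := range_of_land hh (c := cF) (fun k _ => by
      unfold cF dgF
      by_cases h1 : k % 30 < 9 ∧ k % 3 < 2
      · left; exact if_pos h1
      · right; exact ⟨if_neg h1, if_neg h1⟩) hY' hf hl
    intro j hj l hl' e
    have h2 := h1 (30 * j + (3 * l + e)) (by have := e.2; omega)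
    rw [dgF_at X hl' e] at h2
    exact h2
  cases x with
  | p n =>
    have h1 : Nat.beq (Nat.land (Nat.add (o18 h) n) (mk18 h)) (nat_lit 0) = true := ht
    exact key (o18 h + n) (by rw [Nat.cast_add, zv_p]) (Nat.eq_of_beq_eq_true h1)
  | m n =>
    have h2 : sel (Nat.ble n (o18 h)) (Nat.beq (Nat.land (Nat.sub (o18 h) n)
      (mk18 h)) (nat_lit 0)) = true := ht
    obtain ⟨h3, h4⟩ := sel_true h2
    have h5 : n ≤ o18 h := Nat.le_of_ble_eq_true h3
    exact key (o18 h - n) (by rw [Nat.cast_sub h5, zv_m]; ring) (Nat.eq_of_beq_eq_true h4)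

end Pool.Agent.Helper90.K9N
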