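import Pool.Agent.Helper90.CX.KCT5
import Pool.Agent.Helper17.CT.KPT7

/-!
Row KCB, part 1: the leaf sums of the packed products are the polarised forms of row KCT.
-/

set_option autoImplicit false
set_option exponentiation.threshold 4000
noncomputable section
namespace Pool.Agent.Helper90.KMT

open Pool.Agent.Helper90.C75
open Pool.Agent.Helper86.CX (Hm ev mkH Cx)
open Pool.Agent.Helper86.CT (Mo Qd KM)
open Pool.Agent.Helper90.KMO
open Pool.Agent.Helper17.KPT (CL SN PI pI fz fk cf gf c5 e5 un9 toF NBp sum5 sum9 fk_apply cf_apply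
  gf_apply fk_mu2 fz_toF)
open Pool.Agent.Helper17.PAK (sc)
open Complex ComplexConjugate

variable {α : Type} {D : ℕ} {lf : α → Vt D → ℂ} {t : ℕ → ℝ}

/-- products of real functions are real -/
theorem mulT_im : ∀ {D : ℕ} {F G : Vt D → ℂ}, (∀ v, (F v).im = 0) → (∀ v, (G v).im = 0) →
    ∀ v, (mulT D F G v).im = 0
  | 0, F, G, hF, hG, v => by
    show (F v * G v).im = 0
    rw [Complex.mul_im, hF, hG]
    ring
  | D + 1, F, G, hF, hG, v => by
    simp only [mulT]
    by_cases h : v.2 = 1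
    · rw [if_pos h]
      have h1 := mulT_im (D := D) (F := fun u => F (u, 1)) (G := fun u => G (u, 1))
        (fun u => hF _) (fun u => hG _) v.1
      have h2 := mulT_im (D := D) (F := fun u => F (u, 2) - F (u, 0))
        (G := fun u => G (u, 2) - G (u, 0))
        (fun u => by
        have a : (F (u, 2)).im = 0 := hF _
        have b : (F (u, 0)).im = 0 := hF _
        exact (Complex.sub_im _ _).trans (by rw [a, b, sub_zero]))
        (fun u => by
        have a : (G (u, 2)).im = 0 := hG _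
        have b : (G (u, 0)).im = 0 := hG _
        exact (Complex.sub_im _ _).trans (by rw [a, b, sub_zero])) v.1
      rw [Complex.sub_im, h1]
      have e : (mulT D (fun u => F (u, 2) - F (u, 0)) (fun u => G (u, 2) - G (u, 0)) v.1 / 4).im
          = (mulT D (fun u => F (u, 2) - F (u, 0)) (fun u => G (u, 2) - G (u, 0)) v.1).im / 4 := by
        have h4 : (4 : ℂ) = ((4 : ℝ) : ℂ) := by push_cast; rfl
        rw [h4, Complex.div_ofReal_im]
      rw [e, h2]
      ring
    · rw [if_neg h]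
      exact mulT_im (D := D) (fun u => hF _) (fun u => hG _) v.1

/-- the trilinear functional -/
def th (D : ℕ) (t : ℕ → ℝ) (f g h : Vt D → ℂ) : ℂ := avg (wtT D t) (mulT D f (mulT D g h))

theorem th_im {f g h : Vt D → ℂ} (hf : ∀ v, (f v).im = 0) (hg : ∀ v, (g v).im = 0)
    (hh : ∀ v, (h v).im = 0) : (th D t f g h).im = 0 := by
  unfold th
  rw [avg_im]
  refine Finset.sum_eq_zero fun v _ => ?_
  rw [mulT_im hf (mulT_im hg hh) v, mul_zero]

theorem avg_add' (w : Vt D → ℝ) (F G : Vt D → ℂ) :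
    avg w (fun v => F v + G v) = avg w F + avg w G := by
  unfold avg
  rw [← Finset.sum_add_distrib]
  refine Finset.sum_congr rfl fun v _ => ?_
  ring

theorem th_add1 (f f' g h : Vt D → ℂ) :
    th D t (fun v => f v + f' v) g h = th D t f g h + th D t f' g h := by
  unfold th
  rw [mulT_add_left, avg_add']

theorem th_add2 (f g g' h : Vt D → ℂ) :
    th D t f (fun v => g v + g' v) h = th D t f g h + th D t f g' h := by
  unfold th
  rw [mulT_add_left, mulT_add_right, avg_add']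

theorem th_add3 (f g h h' : Vt D → ℂ) :
    th D t f g (fun v => h v + h' v) = th D t f g h + th D t f g h' := by
  unfold th
  rw [mulT_add_right, mulT_add_right, avg_add']

theorem th_smul1 (c : ℂ) (f g h : Vt D → ℂ) :
    th D t (fun v => c * f v) g h = c * th D t f g h := by
  unfold th
  rw [mulT_smul_left, avg_smul]

theorem th_smul2 (c : ℂ) (f g h : Vt D → ℂ) :
    th D t f (fun v => c * g v) h = c * th D t f g h := by
  unfold th
  rw [mulT_smul_left, mulT_smul_right, avg_smul]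

theorem th_smul3 (c : ℂ) (f g h : Vt D → ℂ) :
    th D t f g (fun v => c * h v) = c * th D t f g h := by
  unfold th
  rw [mulT_smul_right, mulT_smul_right, avg_smul]

theorem th_zero2 (f h : Vt D → ℂ) : th D t f (fun _ => 0) h = 0 := by
  have h1 := th_smul2 (t := t) (0 : ℂ) f (fun _ => 0) h
  have e : (fun _ : Vt D => (0 : ℂ) * 0) = fun _ => 0 := by funext v; ring
  rw [e, zero_mul] at h1
  exact h1

theorem th_zero3 (f g : Vt D → ℂ) : th D t f g (fun _ => 0) = 0 := by
  have h1 := th_smul3 (t := t) (0 : ℂ) f g (fun _ => 0)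
  have e : (fun _ : Vt D => (0 : ℂ) * 0) = fun _ => 0 := by funext v; ring
  rw [e, zero_mul] at h1
  exact h1

theorem th_sum2 {ι : Type} (s : Finset ι) (f h : Vt D → ℂ) (g : ι → Vt D → ℂ) :
    th D t f (fun v => ∑ a ∈ s, g a v) h = ∑ a ∈ s, th D t f (g a) h := by
  classical
  induction s using Finset.induction_on with
  | empty => simp only [Finset.sum_empty]; exact th_zero2 f h
  | insert a s ha ih =>
    simp only [Finset.sum_insert ha]
    rw [th_add2, ih]

theorem th_sum3 {ι : Type} (s : Finset ι) (f g : Vt D → ℂ) (h : ι → Vt D → ℂ) :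
    th D t f g (fun v => ∑ a ∈ s, h a v) = ∑ a ∈ s, th D t f g (h a) := by
  classical
  induction s using Finset.induction_on with
  | empty => simp only [Finset.sum_empty]; exact th_zero3 f g
  | insert a s ha ih =>
    simp only [Finset.sum_insert ha]
    rw [th_add3, ih]

/-- bilinear expansion -/
theorem th_exp (f : Vt D → ℂ) (X Y : Fin 5 → Vt D → ℂ) (p q : Fin 5 → ℂ) :
    th D t f (fun v => ∑ a, p a * X a v) (fun v => ∑ b, q b * Y b v) =
      ∑ a, ∑ b, p a * q b * th D t f (X a) (Y b) := by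
  rw [th_sum2]
  refine Finset.sum_congr rfl fun a _ => ?_
  rw [th_smul2, th_sum3, Finset.mul_sum]
  refine Finset.sum_congr rfl fun b _ => ?_
  rw [th_smul3]
  ring

theorem th_comm (f g h : Vt D → ℂ) : th D t f g h = th D t f h g := by
  unfold th
  rw [mulT_comm D g h]

/-- the polarised entry, expanded in real functions -/
theorem Nc_exp (J : Vt D → ℂ) (X Y : Fin 5 → Vt D → ℝ) (p q : Fin 5 → ℂ) :
    Nc D t J (fun v => ∑ a, p a * (X a v : ℂ)) (fun v => ∑ b, p b * (Y b v : ℂ))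
      (fun v => ∑ a, q a * (X a v : ℂ)) (fun v => ∑ b, q b * (Y b v : ℂ)) =
    ∑ a, ∑ b, ((conj (p a) * q b + conj (p b) * q a) *
      th D t J (fun v => (X a v : ℂ)) (fun v => (Y b v : ℂ))).re := by
  have s : ∀ (Z : Fin 5 → Vt D → ℝ), (fun v => star (∑ a, p a * (Z a v : ℂ))) =
      fun v => ∑ a, conj (p a) * (Z a v : ℂ) := by
    intro Z
    funext v
    have : star (∑ a, p a * (Z a v : ℂ)) = conj (∑ a, p a * (Z a v : ℂ)) := rfl
    rw [this, map_sum]
    refine Finset.sum_congr rfl fun a _ => ?_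
    rw [map_mul, Complex.conj_ofReal]
  unfold Nc
  rw [s, s]
  have h1 := th_exp (t := t) J (fun a v => (X a v : ℂ)) (fun b v => (Y b v : ℂ))
    (fun a => conj (p a)) q
  have h2 := th_exp (t := t) J (fun a v => (Y a v : ℂ)) (fun b v => (X b v : ℂ))
    (fun a => conj (p a)) q
  unfold th at h1 h2
  rw [h1, h2]
  rw [Finset.sum_comm (f := fun a b => (fun a => conj (p a)) a * q b *
    avg (wtT D t) (mulT D J (mulT D (fun v => (Y a v : ℂ)) (fun v => (X b v : ℂ)))))]
  rw [← Finset.sum_add_distrib, Complex.re_sum]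
  refine Finset.sum_congr rfl fun a _ => ?_
  rw [← Finset.sum_add_distrib, Complex.re_sum]
  refine Finset.sum_congr rfl fun b _ => ?_
  unfold th
  rw [mulT_comm D (fun v => (Y b v : ℂ))]
  congr 1
  ring

/-- the real trilinear functional -/
def tr (D : ℕ) (t : ℕ → ℝ) (f g h : Vt D → ℝ) : ℝ :=
  (th D t (fun v => (f v : ℂ)) (fun v => (g v : ℂ)) (fun v => (h v : ℂ))).re

theorem th_real (f g h : Vt D → ℝ) :
    th D t (fun v => (f v : ℂ)) (fun v => (g v : ℂ)) (fun v => (h v : ℂ)) = (tr D t f g h : ℂ) := by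
  apply Complex.ext
  · exact (Complex.ofReal_re _).symm
  · rw [Complex.ofReal_im]
    exact th_im (fun v => Complex.ofReal_im _) (fun v => Complex.ofReal_im _)
      (fun v => Complex.ofReal_im _)

theorem Nc_re (J : Vt D → ℝ) (X Y : Fin 5 → Vt D → ℝ) (p q : Fin 5 → ℂ) :
    Nc D t (fun v => (J v : ℂ)) (fun v => ∑ a, p a * (X a v : ℂ)) (fun v => ∑ b, p b * (Y b v : ℂ))
      (fun v => ∑ a, q a * (X a v : ℂ)) (fun v => ∑ b, q b * (Y b v : ℂ)) =
    ∑ a, ∑ b, (conj (p a) * q b + conj (p b) * q a).re * tr D t J (X a) (Y b) := by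
  rw [Nc_exp]
  refine Finset.sum_congr rfl fun a _ => Finset.sum_congr rfl fun b _ => ?_
  rw [th_real, Complex.re_mul_ofReal]

theorem Nc_cx (J J' : Vt D → ℝ) (X Y : Fin 5 → Vt D → ℝ) (p q : Fin 5 → ℂ) :
    Nc D t (fun v => (J v : ℂ) + I * (J' v : ℂ)) (fun v => ∑ a, p a * (X a v : ℂ))
      (fun v => ∑ b, p b * (Y b v : ℂ))
      (fun v => ∑ a, q a * (X a v : ℂ)) (fun v => ∑ b, q b * (Y b v : ℂ)) =
    ∑ a, ∑ b, ((conj (p a) * q b + conj (p b) * q a).re * tr D t J (X a) (Y b) -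
      (conj (p a) * q b + conj (p b) * q a).im * tr D t J' (X a) (Y b)) := by
  rw [Nc_exp]
  refine Finset.sum_congr rfl fun a _ => Finset.sum_congr rfl fun b _ => ?_
  rw [th_add1, th_smul1, th_real, th_real]
  simp only [Complex.mul_re, Complex.add_re, Complex.add_im, Complex.ofReal_re, Complex.ofReal_im,
    Complex.I_re, Complex.I_im, Complex.mul_im]
  ring

/-! ### the matrices -/

/-- the columns of `B w` -/
def mB (w : Fin 3 → ℂ) (i : Fin 3) (a : Fin 5) : ℂ :=
  match i with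
  | 0 => ![w 0, 2 * w 1, w 2, 0, 0] a
  | 1 => ![0, w 0, w 1, 0, -w 2] a
  | 2 => ![0, 0, 0, w 0, 0] a

/-- the integers of the leaves of the tree of a matrix -/
def XI (lC : α → Vt D → Cx) (X : Qd α) (v : Vt D) : Fin 5 → ℤ :=
  ![2 ^ 48, zv (lC X.R.v v).re, zv (lC X.A.v v).re, zv (lC X.W.v v).re, zv (lC X.T.v v).re]

theorem yF_exp {lC : α → Vt D → Cx} (hc : CL D lC lf) (X : Qd α) (w : Fin 3 → ℂ) (i : Fin 3) :
    yF lf X w i = fun v => ∑ a, mB w i a * (((XI lC X v a : ℤ) : ℝ) : ℂ) := by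
  have k : ∀ x v, ((lf x v).re : ℝ) = ((zv (lC x v).re : ℤ) : ℝ) := by
    intro x v
    rw [← hc]
    rfl
  funext v
  rw [sum5]
  have hU : (UU : ℂ) = ((2 ^ 48 : ℤ) : ℝ) := by
    unfold UU
    push_cast
    norm_num
  match i with
  | 0 =>
    show (UU : ℂ) * w 0 + 2 * ((lf X.R.v v).re : ℂ) * w 1 + ((lf X.A.v v).re : ℂ) * w 2 = _
    rw [k, k, hU]
    simp only [mB, XI, Matrix.cons_val_zero, Matrix.cons_val_one, Matrix.cons_val]
    ring
  | 1 =>
    show ((lf X.R.v v).re : ℂ) * w 0 + ((lf X.A.v v).re : ℂ) * w 1 - ((lf X.T.v v).re : ℂ) * w 2 = _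
    rw [k, k, k]
    simp only [mB, XI, Matrix.cons_val_zero, Matrix.cons_val_one, Matrix.cons_val]
    ring
  | 2 =>
    show ((lf X.W.v v).re : ℂ) * w 0 = _
    rw [k]
    simp only [mB, XI, Matrix.cons_val_zero, Matrix.cons_val_one, Matrix.cons_val]
    ring

/-- `B_x w` -/
def Bv (x : Fin 5 → ℤ) (w : Fin 3 → ℂ) (i : Fin 3) : ℂ := ∑ a, mB w i a * ((x a : ℤ) : ℂ)

/-- the polarised form of a run -/
theorem NBp_pol (x y : Fin 5 → ℤ) (P : Hm ℤ) (w : Fin 3 → ℂ) :
    ev (sc 1 (NBp x y P)) w = pol (sc 1 P) (Bv x w) (Bv y w) := by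
  have b : ∀ z : Fin 5 → ℤ, Bv z w 0 = w 0 * (z 0 : ℂ) + 2 * w 1 * (z 1 : ℂ) + w 2 * (z 2 : ℂ) ∧
      Bv z w 1 = w 0 * (z 1 : ℂ) + w 1 * (z 2 : ℂ) - w 2 * (z 4 : ℂ) ∧
      Bv z w 2 = w 0 * (z 3 : ℂ) := by
    intro z
    refine ⟨?_, ?_, ?_⟩
    · simp only [Bv, sum5, mB, Matrix.cons_val_zero, Matrix.cons_val_one, Matrix.cons_val]; ring
    · simp only [Bv, sum5, mB, Matrix.cons_val_zero, Matrix.cons_val_one, Matrix.cons_val]; ring
    · simp only [Bv, sum5, mB, Matrix.cons_val_zero, Matrix.cons_val_one, Matrix.cons_val]; ring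
  unfold pol
  rw [(b x).1, (b x).2.1, (b x).2.2, (b y).1, (b y).2.1, (b y).2.2]
  unfold ev Hm.x Hm.y Hm.w
  simp only [sc, NBp, div_one, Complex.normSq_apply, Complex.mul_re, Complex.mul_im,
    Complex.add_re, Complex.add_im, Complex.sub_re, Complex.sub_im, Complex.intCast_re,
    Complex.intCast_im,
    Complex.conj_re, Complex.conj_im, Complex.ofReal_re, Complex.ofReal_im, Complex.I_re,
    Complex.I_im, Complex.re_ofNat, Complex.im_ofNat]
  push_cast
  ring

end Pool.Agent.Helper90.KMT
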