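import Pool.Agent.Helper90.CX.CT3

/-!
Row KCT, part 1: the control product of two functions of one active variable: bounds of its
differences.
-/

set_option autoImplicit false
noncomputable section
namespace Pool.Agent.Helper90.KMT

open Pool.Agent.Helper90.C75
open Pool.Agent.Helper86.CT (DF dfB zipDF)
open Pool.Agent.Helper90.KMO

/-- all differences vanish -/
def AZ (l : List DF) : Prop := ∀ x ∈ l, x.D = 0 ∧ x.F = 0

/-- at most one active variable -/
def Sg : List DF → List DF → Prop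
  | x :: l, y :: l' => (x.D = 0 ∧ x.F = 0 ∧ y.D = 0 ∧ y.F = 0 ∧ Sg l l') ∨ (AZ l ∧ AZ l')
  | _, _ => True

/-- scaled bounds -/
def rls (s : ℝ) (x : DF) : ℝ × ℝ := (x.D * s, x.F * s)

theorem AZ.tail {x : DF} {l : List DF} (h : AZ (x :: l)) : AZ l :=
  fun y hy => h y (List.mem_cons_of_mem _ hy)

theorem const_AZ : ∀ {D : ℕ} {F : Vt D → ℂ} {l : List DF} {s : ℝ}, DL D F (l.map (rls s)) →
    AZ l → ∀ u v : Vt D, F u = F v
  | 0, _, _, _, _, _ => fun _ _ => rfl
  | _ + 1, _, [], _, h, _ => h.elim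
  | D + 1, F, x :: l, s, h, hz => by
    obtain ⟨a1, a2, a3⟩ := h
    obtain ⟨z1, z2⟩ := hz x (List.mem_cons_self ..)
    have e1 : (x.D : ℝ) * s = 0 := by rw [z1]; simp
    have e2 : (x.F : ℝ) * s = 0 := by rw [z2]; simp
    have hc := const_of_zero (F := F) (d := x.D * s) (φ := x.F * s) (by rw [e1, e2]; ring)
      e1.symm.le e2.symm.le a1 a2
    intro u v
    obtain ⟨u, i⟩ := u
    obtain ⟨v, j⟩ := v
    exact (hc i u).trans ((const_AZ (a3 0) hz.tail u v).trans (hc j v).symm)

theorem mulT_cc (D : ℕ) (c c' : ℂ) : mulT D (fun _ => c) (fun _ => c') = fun _ => c * c' := by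
  induction D with
  | zero => rfl
  | succ D ih =>
    funext v
    simp only [mulT]
    by_cases h : v.2 = 1
    · rw [if_pos h, ih]
      have e : (fun _ : Vt D => c - c) = fun _ => (0 : ℂ) := by
        funext _; ring
      rw [e, mulT_zero_left]
      ring
    · rw [if_neg h, ih]

/-- a vertex -/
def v0 : (D : ℕ) → Vt D
  | 0 => ()
  | D + 1 => (v0 D, 0)

theorem mulT_of_const {D : ℕ} {F G : Vt D → ℂ} (hF : ∀ u v, F u = F v) (hG : ∀ u v, G u = G v)
    (v : Vt D) : mulT D F G v = F v * G v := by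
  have e1 : F = fun _ => F v := funext fun u => hF u v
  have e2 : G = fun _ => G v := funext fun u => hG u v
  have := congrFun (mulT_cc D (F v) (G v)) v
  rw [← e1, ← e2] at this
  exact this

theorem DL_const : ∀ {D : ℕ} (F : Vt D → ℂ), (∀ u v, F u = F v) → ∀ {l : List (ℝ × ℝ)},
    l.length = D → NN l → DL D F l
  | 0, _, _, _, _, _ => trivial
  | _ + 1, _, _, [], h, _ => by cases h
  | D + 1, F, hF, x :: l, h, hn => by
    have h0 := hn x (List.mem_cons_self ..)
    refine ⟨fun v => ?_, fun v => ?_, fun i => DL_const (D := D) (fun v => F (v, i))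
      (fun u v => hF (u, i) (v, i)) (by simpa using h) hn.tail⟩
    · have e : F (v, 2) - F (v, 0) = 0 := by rw [hF (v, 2) (v, 0), sub_self]
      exact (le_of_eq (by rw [e, norm_zero])).trans h0.1
    · have e : F (v, 1) - (F (v, 0) + F (v, 2)) / 2 = 0 := by
        rw [hF (v, 2) (v, 0), hF (v, 1) (v, 0)]; ring
      exact (le_of_eq (by rw [e, norm_zero])).trans h0.2

theorem nn_rls {s : ℝ} (hs : 0 ≤ s) (l : List DF) : NN (l.map (rls s)) := by
  intro x hx
  rw [List.mem_map] at hx
  obtain ⟨y, _, rfl⟩ := hx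
  exact ⟨mul_nonneg (Nat.cast_nonneg _) hs, mul_nonneg (Nat.cast_nonneg _) hs⟩

theorem zipDF_cons (f : DF → DF → DF) (x y : DF) (l l' : List DF) :
    zipDF f (x :: l) (y :: l') = f x y :: zipDF f l l' := rfl

theorem zipDF_len (f : DF → DF → DF) : ∀ {l l' : List DF} {n : ℕ}, l.length = n →
    l'.length = n → (zipDF f l l').length = n
  | [], l', n, h, _ => by subst h; rfl
  | x :: l, [], n, h, h' => by subst h'; cases h
  | x :: l, y :: l', n, h, h' => by
    cases n with
    | zero => cases h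
    | succ n =>
      rw [zipDF_cons, List.length_cons, zipDF_len f (n := n) (by simpa using h)
        (by simpa using h')]

theorem dfB_D (x y : DF) (B B' : ℕ) : (((dfB x y B B').D : ℕ) : ℝ) = x.D * B' + B * y.D := by
  show ((Nat.add (Nat.mul x.D B') (Nat.mul B y.D) : ℕ) : ℝ) = _
  rw [c_add, c_mul, c_mul]

theorem dfB_F (x y : DF) (B B' : ℕ) : (x.F : ℝ) * B' + B * y.F + x.F * y.F + x.D * y.D / 2 ≤
    (((dfB x y B B').F : ℕ) : ℝ) := by
  show _ ≤ ((Nat.add (Nat.add (Nat.add (Nat.mul x.F B') (Nat.mul B y.F)) (Nat.mul x.F y.F))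
    (Nat.div (Nat.add (Nat.mul x.D y.D) (nat_lit 1)) (nat_lit 2)) : ℕ) : ℝ)
  rw [c_add, c_add, c_add, c_mul, c_mul, c_mul]
  have h : ((x.D * y.D : ℕ) : ℝ) / 2 ≤ (Nat.div (Nat.add (Nat.mul x.D y.D) (nat_lit 1))
      (nat_lit 2) : ℕ) := by
    have h1 : x.D * y.D ≤ 2 * ((x.D * y.D + 1) / 2) := by omega
    have h2 : ((x.D * y.D : ℕ) : ℝ) ≤ 2 * (((x.D * y.D + 1) / 2 : ℕ) : ℝ) := by exact_mod_cast h1
    show ((x.D * y.D : ℕ) : ℝ) / 2 ≤ (((x.D * y.D + 1) / 2 : ℕ) : ℝ)
    linarith
  rw [Nat.cast_mul] at h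
  linarith

/-- DIFFERENCES OF THE CONTROL PRODUCT, one active variable -/
theorem DL_mulT : ∀ {D : ℕ} {F G : Vt D → ℂ} {l l' : List DF} {s s' : ℝ} {B B' : ℕ},
    0 ≤ s → 0 ≤ s' → (∀ v, ‖F v‖ ≤ B * s) → (∀ v, ‖G v‖ ≤ B' * s') → DL D F (l.map (rls s)) →
    DL D G (l'.map (rls s')) → l.length = D → l'.length = D → Sg l l' →
    DL D (mulT D F G) ((zipDF (fun a b => dfB a b B B') l l').map (rls (s * s')))
  | 0, _, _, _, _, _, _, _, _, _, _, _, _, _, _, _, _, _ => trivial
  | _ + 1, _, _, [], _, _, _, _, _, _, _, _, _, hF, _, _, _, _ => hF.elim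
  | _ + 1, _, _, _ :: _, [], _, _, _, _, _, _, _, _, _, hG, _, _, _ => hG.elim
  | D + 1, F, G, x :: l, y :: l', s, s', B, B', hs, hs', bF, bG, hF, hG, hl, hl', hS => by
    obtain ⟨a1, a2, a3⟩ := hF
    obtain ⟨b1, b2, b3⟩ := hG
    have hl1 : l.length = D := by simpa using hl
    have hl1' : l'.length = D := by simpa using hl'
    have hss : 0 ≤ s * s' := mul_nonneg hs hs'
    rw [zipDF_cons, List.map_cons]
    rcases hS with ⟨z1, z2, z3, z4, hS⟩ | ⟨z1, z2⟩
    · -- the outer variable is not active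
      have e1 : (x.D : ℝ) * s = 0 := by rw [z1]; simp
      have e2 : (x.F : ℝ) * s = 0 := by rw [z2]; simp
      have e3 : (y.D : ℝ) * s' = 0 := by rw [z3]; simp
      have e4 : (y.F : ℝ) * s' = 0 := by rw [z4]; simp
      have cF := const_of_zero (F := F) (d := x.D * s) (φ := x.F * s) (by rw [e1, e2]; ring)
        e1.symm.le e2.symm.le a1 a2
      have cG := const_of_zero (F := G) (d := y.D * s') (φ := y.F * s') (by rw [e3, e4]; ring)
        e3.symm.le e4.symm.le b1 b2
      have em : ∀ (i : Fin 3) (v : Vt D), mulT (D + 1) F G (v, i)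
          = mulT D (fun u => F (u, 0)) (fun u => G (u, 0)) v := by
        intro i v
        have f1 : ∀ j : Fin 3, (fun u : Vt D => F (u, j)) = fun u => F (u, 0) :=
          fun j => funext fun u => cF j u
        have f2 : ∀ j : Fin 3, (fun u : Vt D => G (u, j)) = fun u => G (u, 0) :=
          fun j => funext fun u => cG j u
        by_cases hi : i = 1
        · subst hi
          have f3 : (fun u : Vt D => F (u, 2) - F (u, 0)) = fun _ => (0 : ℂ) := by
            funext u; rw [cF 2 u, sub_self]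
          simp only [mulT, if_true]
          rw [f1 1, f2 1, f3, mulT_zero_left]
          simp
        · simp only [mulT, hi, if_false]
          rw [f1 i, f2 i]
      have ih := DL_mulT hs hs' (fun v => bF (v, 0)) (fun v => bG (v, 0)) (a3 0) (b3 0) hl1 hl1' hS
      have r1 : 0 ≤ (rls (s * s') (dfB x y B B')).1 := mul_nonneg (Nat.cast_nonneg _) hss
      have r2 : 0 ≤ (rls (s * s') (dfB x y B B')).2 := mul_nonneg (Nat.cast_nonneg _) hss
      refine ⟨fun v => ?_, fun v => ?_, fun i => ?_⟩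
      · have e : mulT (D + 1) F G (v, 2) - mulT (D + 1) F G (v, 0) = 0 := by
          rw [em 2 v, em 0 v, sub_self]
        exact (le_of_eq (by rw [e, norm_zero])).trans r1
      · have e : mulT (D + 1) F G (v, 1) - (mulT (D + 1) F G (v, 0) + mulT (D + 1) F G (v, 2)) / 2
            = 0 := by
          rw [em 2 v, em 1 v, em 0 v]; ring
        exact (le_of_eq (by rw [e, norm_zero])).trans r2
      · have e : (fun v => mulT (D + 1) F G (v, i)) = mulT D (fun u => F (u, 0))
            (fun u => G (u, 0)) := funext fun v => em i v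
        rw [e]
        exact ih
    · -- only the outer variable is active
      have kF : ∀ (i : Fin 3) (u v : Vt D), F (u, i) = F (v, i) := fun i u v => const_AZ (a3 i) z1 u v
      have kG : ∀ (i : Fin 3) (u v : Vt D), G (u, i) = G (v, i) := fun i u v => const_AZ (b3 i) z2 u v
      have m0 : ∀ (i : Fin 3), i ≠ 1 → ∀ v : Vt D, mulT (D + 1) F G (v, i) = F (v, i) * G (v, i) := by
        intro i hi v
        simp only [mulT, hi, if_false]
        exact mulT_of_const (fun u v => kF i u v) (fun u v => kG i u v) v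
      have m1 : ∀ v : Vt D, mulT (D + 1) F G (v, 1) = F (v, 1) * G (v, 1)
          - (F (v, 2) - F (v, 0)) * (G (v, 2) - G (v, 0)) / 4 := by
        intro v
        simp only [mulT, if_true]
        have q1 := mulT_of_const (F := fun u : Vt D => F (u, 1)) (G := fun u => G (u, 1))
          (fun u v => kF 1 u v) (fun u v => kG 1 u v) v
        have q2 := mulT_of_const (F := fun u : Vt D => F (u, 2) - F (u, 0))
          (G := fun u => G (u, 2) - G (u, 0))
          (fun u v => by show F (u, 2) - F (u, 0) = F (v, 2) - F (v, 0); rw [kF 2 u v, kF 0 u v])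
          (fun u v => by show G (u, 2) - G (u, 0) = G (v, 2) - G (v, 0); rw [kG 2 u v, kG 0 u v]) v
        rw [q1, q2]
      have n0 : (0 : Fin 3) ≠ 1 := by decide
      have n2 : (2 : Fin 3) ≠ 1 := by decide
      refine ⟨fun v => ?_, fun v => ?_, fun i => ?_⟩
      · have e : mulT (D + 1) F G (v, 2) - mulT (D + 1) F G (v, 0)
            = (F (v, 2) - F (v, 0)) * G (v, 2) + F (v, 0) * (G (v, 2) - G (v, 0)) := by
          rw [m0 2 n2, m0 0 n0]; ring
        refine (le_of_eq (congrArg norm e)).trans ((norm_add_le _ _).trans ?_)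
        rw [norm_mul, norm_mul]
        have h1 : ‖F (v, 2) - F (v, 0)‖ * ‖G (v, 2)‖ ≤ (x.D * s) * (B' * s') :=
          mul_le_mul (a1 v) (bG _) (norm_nonneg _) (mul_nonneg (Nat.cast_nonneg _) hs)
        have h2 : ‖F (v, 0)‖ * ‖G (v, 2) - G (v, 0)‖ ≤ (B * s) * (y.D * s') :=
          mul_le_mul (bF _) (b1 v) (norm_nonneg _) (mul_nonneg (Nat.cast_nonneg _) hs)
        show _ ≤ (((dfB x y B B').D : ℕ) : ℝ) * (s * s')
        rw [dfB_D]
        linarith
      · have e : mulT (D + 1) F G (v, 1) - (mulT (D + 1) F G (v, 0) + mulT (D + 1) F G (v, 2)) / 2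
            = (F (v, 1) - (F (v, 0) + F (v, 2)) / 2) * ((G (v, 0) + G (v, 2)) / 2)
              + ((F (v, 0) + F (v, 2)) / 2) * (G (v, 1) - (G (v, 0) + G (v, 2)) / 2)
              + (F (v, 1) - (F (v, 0) + F (v, 2)) / 2) * (G (v, 1) - (G (v, 0) + G (v, 2)) / 2)
              - (F (v, 2) - F (v, 0)) * (G (v, 2) - G (v, 0)) / 2 := by
          rw [m1, m0 2 n2, m0 0 n0]; ring
        refine (le_of_eq (congrArg norm e)).trans ?_
        have p1 := a1 v
        have p2 := a2 v
        have p3 := b1 v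
        have p4 := b2 v
        have mF : ‖(F (v, 0) + F (v, 2)) / 2‖ ≤ B * s := by
          rw [norm_div]
          have h2 : ‖(2 : ℂ)‖ = 2 := by norm_num
          rw [h2]
          have := norm_add_le (F (v, 0)) (F (v, 2))
          have := bF (v, 0)
          have := bF (v, 2)
          linarith
        have mG : ‖(G (v, 0) + G (v, 2)) / 2‖ ≤ B' * s' := by
          rw [norm_div]
          have h2 : ‖(2 : ℂ)‖ = 2 := by norm_num
          rw [h2]
          have := norm_add_le (G (v, 0)) (G (v, 2))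
          have := bG (v, 0)
          have := bG (v, 2)
          linarith
        have hxs : 0 ≤ (x.F : ℝ) * s := mul_nonneg (Nat.cast_nonneg _) hs
        have hxd : 0 ≤ (x.D : ℝ) * s := mul_nonneg (Nat.cast_nonneg _) hs
        have hBs : 0 ≤ (B : ℝ) * s := mul_nonneg (Nat.cast_nonneg _) hs
        have t1 : ‖(F (v, 1) - (F (v, 0) + F (v, 2)) / 2) * ((G (v, 0) + G (v, 2)) / 2)‖
            ≤ (x.F * s) * (B' * s') := by
          rw [norm_mul]; exact mul_le_mul p2 mG (norm_nonneg _) hxs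
        have t2 : ‖((F (v, 0) + F (v, 2)) / 2) * (G (v, 1) - (G (v, 0) + G (v, 2)) / 2)‖
            ≤ (B * s) * (y.F * s') := by
          rw [norm_mul]; exact mul_le_mul mF p4 (norm_nonneg _) hBs
        have t3 : ‖(F (v, 1) - (F (v, 0) + F (v, 2)) / 2) * (G (v, 1) - (G (v, 0) + G (v, 2)) / 2)‖
            ≤ (x.F * s) * (y.F * s') := by
          rw [norm_mul]; exact mul_le_mul p2 p4 (norm_nonneg _) hxs
        have t4 : ‖(F (v, 2) - F (v, 0)) * (G (v, 2) - G (v, 0)) / 2‖ ≤ (x.D * s) * (y.D * s') / 2 := by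
          rw [norm_div, norm_mul]
          have h2 : ‖(2 : ℂ)‖ = 2 := by norm_num
          rw [h2]
          exact div_le_div_of_nonneg_right (mul_le_mul p1 p3 (norm_nonneg _) hxd) (by norm_num)
        have k1 := norm_sub_le ((F (v, 1) - (F (v, 0) + F (v, 2)) / 2) * ((G (v, 0) + G (v, 2)) / 2)
              + ((F (v, 0) + F (v, 2)) / 2) * (G (v, 1) - (G (v, 0) + G (v, 2)) / 2)
              + (F (v, 1) - (F (v, 0) + F (v, 2)) / 2) * (G (v, 1) - (G (v, 0) + G (v, 2)) / 2))
          ((F (v, 2) - F (v, 0)) * (G (v, 2) - G (v, 0)) / 2)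
        have k2 := norm_add_le ((F (v, 1) - (F (v, 0) + F (v, 2)) / 2) * ((G (v, 0) + G (v, 2)) / 2)
              + ((F (v, 0) + F (v, 2)) / 2) * (G (v, 1) - (G (v, 0) + G (v, 2)) / 2))
          ((F (v, 1) - (F (v, 0) + F (v, 2)) / 2) * (G (v, 1) - (G (v, 0) + G (v, 2)) / 2))
        have k3 := norm_add_le ((F (v, 1) - (F (v, 0) + F (v, 2)) / 2) * ((G (v, 0) + G (v, 2)) / 2))
          (((F (v, 0) + F (v, 2)) / 2) * (G (v, 1) - (G (v, 0) + G (v, 2)) / 2))
        show _ ≤ (((dfB x y B B').F : ℕ) : ℝ) * (s * s')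
        have k4 := mul_le_mul_of_nonneg_right (dfB_F x y B B') hss
        have k5 : ((x.F : ℝ) * B' + B * y.F + x.F * y.F + x.D * y.D / 2) * (s * s')
            = (x.F * s) * (B' * s') + (B * s) * (y.F * s') + (x.F * s) * (y.F * s')
              + (x.D * s) * (y.D * s') / 2 := by ring
        rw [k5] at k4
        linarith
      · refine DL_const (D := D) _ ?_ (by rw [List.length_map, zipDF_len _ hl1 hl1'])
          (nn_rls hss _)
        intro u v
        show mulT (D + 1) F G (u, i) = mulT (D + 1) F G (v, i)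
        by_cases hi : i = 1
        · subst hi
          rw [m1, m1, kF 0 u v, kF 1 u v, kF 2 u v, kG 0 u v, kG 1 u v, kG 2 u v]
        · rw [m0 i hi, m0 i hi, kF i u v, kG i u v]

end Pool.Agent.Helper90.KMT
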