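import Pool.Agent.Helper90.CX.KCT1

/-!
Row KCT, part 2: rows of a run matrix applied to a vector; products of two rows; products with a
coefficient of the form.
-/

set_option autoImplicit false
noncomputable section
namespace Pool.Agent.Helper90.KMT

open Pool.Agent.Helper90.C75
open Pool.Agent.Helper86.CX (mx)
open Pool.Agent.Helper86.CT (DF dfB zipDF Rw rr2 ePV mxRw mxL Mo)
open Pool.Agent.Helper90.KMO

variable {D : ℕ} {t : ℕ → ℝ}

/-! ### scaled error sums -/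

theorem erz_rls : ∀ (l l' : List DF) {s s' : ℝ}, 0 ≤ s → 0 ≤ s' →
    erz (l.map (rls s)) (l'.map (rls s')) = s * s' * erz (l.map rl) (l'.map rl)
  | [], _, _, _, _, _ => by simp [erz]
  | _ :: _, [], _, _, _, _ => by simp [erz]
  | x :: l, y :: l', s, s', hs, hs' => by
    have ih := erz_rls l l' hs hs'
    show erz ((x.D * s, x.F * s) :: l.map (rls s)) ((y.D * s', y.F * s') :: l'.map (rls s'))
      = s * s' * erz (((x.D : ℝ), (x.F : ℝ)) :: l.map rl) (((y.D : ℝ), (y.F : ℝ)) :: l'.map rl)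
    simp only [erz]
    rcases hs.eq_or_lt with h | h
    · -- s = 0
      subst h
      have e1 : erz (l.map (rls 0)) (l'.map (rls s')) = 0 := by rw [ih]; ring
      by_cases c1 : (y.D : ℝ) * s' + y.F * s' = 0
      · rw [if_pos c1, e1]; ring
      · rw [if_neg c1, if_pos (by ring), e1]; ring
    · rcases hs'.eq_or_lt with h' | h'
      · subst h'
        have e1 : erz (l.map (rls s)) (l'.map (rls 0)) = 0 := by rw [ih]; ring
        rw [if_pos (by ring), e1]; ring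
      · have i1 : (y.D : ℝ) * s' + y.F * s' = 0 ↔ (y.D : ℝ) + y.F = 0 := by
          rw [← add_mul]
          constructor
          · intro h1
            rcases mul_eq_zero.1 h1 with h2 | h2
            · exact h2
            · exact absurd h2 h'.ne'
          · intro h1; rw [h1, zero_mul]
        have i2 : (x.D : ℝ) * s + x.F * s = 0 ↔ (x.D : ℝ) + x.F = 0 := by
          rw [← add_mul]
          constructor
          · intro h1
            rcases mul_eq_zero.1 h1 with h2 | h2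
            · exact h2
            · exact absurd h2 h.ne'
          · intro h1; rw [h1, zero_mul]
        by_cases c1 : (y.D : ℝ) + y.F = 0
        · rw [if_pos c1, if_pos (i1.2 c1), ih]
        · rw [if_neg c1, if_neg (fun h1 => c1 (i1.1 h1))]
          by_cases c2 : (x.D : ℝ) + x.F = 0
          · rw [if_pos c2, if_pos (i2.2 c2), ih]
          · rw [if_neg c2, if_neg (fun h1 => c2 (i2.1 h1)), ih]
            ring

theorem rls_one (l : List DF) : l.map (rls 1) = l.map rl := by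
  refine List.map_congr_left fun x _ => ?_
  show ((x.D : ℝ) * 1, (x.F : ℝ) * 1) = ((x.D : ℝ), (x.F : ℝ))
  rw [mul_one, mul_one]

/-- the error of the control product with scaled lists -/
theorem cov_sc (hP : PT D t) {F G : Vt D → ℂ} {l l' : List DF} {s s' : ℝ} (hs : 0 ≤ s)
    (hs' : 0 ≤ s') (hF : DL D F (l.map (rls s))) (hG : DL D G (l'.map (rls s')))
    (hl : l.length = D) (hl' : l'.length = D) :
    ‖avg (wtT D t) (mulT D F G) - avg (wtT D t) F * avg (wtT D t) G‖ ≤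
      s * s' * (Pool.Agent.Helper86.CT.er l l' : ℕ) := by
  have h := cov_leL hP.h0 hP.h1 hF hG (by rw [List.length_map, hl]) (by rw [List.length_map, hl'])
    (nn_rls hs _) (nn_rls hs' _)
  rw [erz_rls l l' hs hs'] at h
  exact h.trans (mul_le_mul_of_nonneg_left (er_le l l') (mul_nonneg hs hs'))

/-! ### rows -/

/-- `F` models the number `w` with the bounds of the row `ρ`, scaled by `σ` -/
structure RK (D : ℕ) (t : ℕ → ℝ) (ρ : Rw) (σ : ℝ) (w : ℂ) (F : Vt D → ℂ) : Prop where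
  bd : ∀ v, ‖F v‖ ≤ ρ.B * σ
  err : ‖(UU : ℂ) * w - avg (wtT D t) F‖ ≤ ρ.r * σ
  dl : DL D F (ρ.l.map (rls σ))
  len : ρ.l.length = D

theorem DL_scale : ∀ {D : ℕ} {F : Vt D → ℂ} {l : List (ℝ × ℝ)} (c : ℂ), DL D F l →
    DL D (fun v => c * F v) (l.map fun x => (‖c‖ * x.1, ‖c‖ * x.2))
  | 0, _, _, _, _ => trivial
  | _ + 1, _, [], _, h => h.elim
  | D + 1, F, x :: l, c, h => by
    obtain ⟨a1, a2, a3⟩ := h
    refine ⟨fun v => ?_, fun v => ?_, fun i => DL_scale c (a3 i)⟩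
    · have e : c * F (v, 2) - c * F (v, 0) = c * (F (v, 2) - F (v, 0)) := by ring
      refine (le_of_eq (congrArg norm e)).trans ?_
      rw [norm_mul]
      exact mul_le_mul_of_nonneg_left (a1 v) (norm_nonneg _)
    · have e : c * F (v, 1) - (c * F (v, 0) + c * F (v, 2)) / 2
          = c * (F (v, 1) - (F (v, 0) + F (v, 2)) / 2) := by ring
      refine (le_of_eq (congrArg norm e)).trans ?_
      rw [norm_mul]
      exact mul_le_mul_of_nonneg_left (a2 v) (norm_nonneg _)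

theorem DL_add' : ∀ {D : ℕ} {F G : Vt D → ℂ} {l l' : List (ℝ × ℝ)}, DL D F l → DL D G l' →
    DL D (fun v => F v + G v) (List.zipWith (fun x y => (x.1 + y.1, x.2 + y.2)) l l')
  | 0, _, _, _, _, _, _ => trivial
  | _ + 1, _, _, [], _, hF, _ => hF.elim
  | _ + 1, _, _, _ :: _, [], _, hG => hG.elim
  | D + 1, F, G, x :: l, y :: l', hF, hG => by
    obtain ⟨a1, a2, a3⟩ := hF
    obtain ⟨b1, b2, b3⟩ := hG
    refine ⟨fun v => ?_, fun v => ?_, fun i => DL_add' (a3 i) (b3 i)⟩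
    · have e : F (v, 2) + G (v, 2) - (F (v, 0) + G (v, 0))
          = (F (v, 2) - F (v, 0)) + (G (v, 2) - G (v, 0)) := by ring
      exact (le_of_eq (congrArg norm e)).trans ((norm_add_le _ _).trans (add_le_add (a1 v) (b1 v)))
    · have e : F (v, 1) + G (v, 1) - (F (v, 0) + G (v, 0) + (F (v, 2) + G (v, 2))) / 2
          = (F (v, 1) - (F (v, 0) + F (v, 2)) / 2) + (G (v, 1) - (G (v, 0) + G (v, 2)) / 2) := by
        ring
      exact (le_of_eq (congrArg norm e)).trans ((norm_add_le _ _).trans (add_le_add (a2 v) (b2 v)))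

theorem DL_re : ∀ {D : ℕ} {F : Vt D → ℂ} {l : List (ℝ × ℝ)}, DL D F l →
    DL D (fun v => ((F v).re : ℂ)) l
  | 0, _, _, _ => trivial
  | _ + 1, _, [], h => h.elim
  | D + 1, F, x :: l, h => by
    obtain ⟨a1, a2, a3⟩ := h
    refine ⟨fun v => ?_, fun v => ?_, fun i => DL_re (a3 i)⟩
    · have e : (((F (v, 2)).re : ℝ) : ℂ) - (((F (v, 0)).re : ℝ) : ℂ)
          = (((F (v, 2) - F (v, 0)).re : ℝ) : ℂ) := by
        rw [Complex.sub_re]; push_cast; ring
      refine (le_of_eq (congrArg norm e)).trans ?_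
      rw [Complex.norm_real, Real.norm_eq_abs]
      exact (Complex.abs_re_le_norm _).trans (a1 v)
    · have e : (((F (v, 1)).re : ℝ) : ℂ) - ((((F (v, 0)).re : ℝ) : ℂ) + (((F (v, 2)).re : ℝ) : ℂ)) / 2
          = (((F (v, 1) - (F (v, 0) + F (v, 2)) / 2).re : ℝ) : ℂ) := by
        have e2 : ((F (v, 0) + F (v, 2)) / 2).re = ((F (v, 0)).re + (F (v, 2)).re) / 2 := by
          have : ((F (v, 0) + F (v, 2)) / 2) = ((F (v, 0) + F (v, 2)) / ((2 : ℝ) : ℂ)) := by
            norm_num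
          rw [this, Complex.div_ofReal_re, Complex.add_re]
        rw [Complex.sub_re, e2]; push_cast; ring
      refine (le_of_eq (congrArg norm e)).trans ?_
      rw [Complex.norm_real, Real.norm_eq_abs]
      exact (Complex.abs_re_le_norm _).trans (a2 v)

theorem f2_add_rls : ∀ (l : List DF) (s s' : ℝ),
    List.zipWith (fun x y : ℝ × ℝ => (x.1 + y.1, x.2 + y.2)) (l.map (rls s)) (l.map (rls s'))
      = l.map (rls (s + s'))
  | [], _, _ => rfl
  | x :: l, s, s' => by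
    rw [List.map_cons, List.map_cons, List.zipWith_cons_cons, f2_add_rls l s s', List.map_cons]
    congr 1
    show ((x.D : ℝ) * s + x.D * s', (x.F : ℝ) * s + x.F * s') = (x.D * (s + s'), x.F * (s + s'))
    rw [← mul_add, ← mul_add]

theorem RK.add {ρ : Rw} {σ σ' : ℝ} {w w' : ℂ} {F F' : Vt D → ℂ} (h : RK D t ρ σ w F)
    (h' : RK D t ρ σ' w' F') : RK D t ρ (σ + σ') (w + w') (fun v => F v + F' v) := by
  refine ⟨fun v => ?_, ?_, ?_, h.len⟩
  · rw [mul_add]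
    exact (norm_add_le _ _).trans (add_le_add (h.bd v) (h'.bd v))
  · rw [avg_add, mul_add, mul_add]
    have e : (UU : ℂ) * w + UU * w' - (avg (wtT D t) F + avg (wtT D t) F')
        = (UU * w - avg (wtT D t) F) + (UU * w' - avg (wtT D t) F') := by ring
    rw [e]
    exact (norm_add_le _ _).trans (add_le_add h.err h'.err)
  · have := DL_add' h.dl h'.dl
    rw [f2_add_rls] at this
    exact this

theorem RK.str {ρ : Rw} {σ : ℝ} {w : ℂ} {F : Vt D → ℂ} (h : RK D t ρ σ w F) :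
    RK D t ρ σ (star w) (fun v => star (F v)) := by
  refine ⟨fun v => by rw [norm_star]; exact h.bd v, ?_, DL_star h.dl (fun _ => rfl), h.len⟩
  rw [avg_star]
  have e4 : star (UU : ℂ) = UU := Complex.conj_ofReal _
  have e3 : (UU : ℂ) * star w - star (avg (wtT D t) F) = star (UU * w - avg (wtT D t) F) := by
    rw [star_sub, star_mul, e4, mul_comm]
  rw [e3, norm_star]
  exact h.err

/-- monotonicity in the row -/
theorem RK.mono {ρ ρ' : Rw} {σ : ℝ} (hσ : 0 ≤ σ) {w : ℂ} {F : Vt D → ℂ} (h : RK D t ρ σ w F)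
    (hB : (ρ.B : ℝ) ≤ ρ'.B) (hr : (ρ.r : ℝ) ≤ ρ'.r) (hl' : ρ'.l.length = D)
    (hl : List.Forall₂ (fun x y : ℝ × ℝ => x.1 ≤ y.1 ∧ x.2 ≤ y.2) (ρ.l.map rl) (ρ'.l.map rl)) :
    RK D t ρ' σ w F := by
  refine ⟨fun v => (h.bd v).trans (mul_le_mul_of_nonneg_right hB hσ),
    h.err.trans (mul_le_mul_of_nonneg_right hr hσ), DL_mono ?_ h.dl, hl'⟩
  have : ∀ {l l' : List DF}, List.Forall₂ (fun x y : ℝ × ℝ => x.1 ≤ y.1 ∧ x.2 ≤ y.2)
      (l.map rl) (l'.map rl) → List.Forall₂ (fun x y : ℝ × ℝ => x.1 ≤ y.1 ∧ x.2 ≤ y.2)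
      (l.map (rls σ)) (l'.map (rls σ)) := by
    intro l
    induction l with
    | nil =>
      intro l' h
      cases l' with
      | nil => exact List.Forall₂.nil
      | cons => cases h
    | cons x l ih =>
      intro l' h
      cases l' with
      | nil => cases h
      | cons y l' =>
        rw [List.map_cons, List.map_cons] at h
        cases h with
        | cons h1 h2 =>
          exact List.Forall₂.cons ⟨mul_le_mul_of_nonneg_right h1.1 hσ,
            mul_le_mul_of_nonneg_right h1.2 hσ⟩ (ih h2)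
  exact this hl

theorem RK.mxl {ρ ρ' : Rw} {σ : ℝ} (hσ : 0 ≤ σ) {w : ℂ} {F : Vt D → ℂ} (h : RK D t ρ σ w F)
    (hl : ρ'.l.length = D) : RK D t (mxRw ρ ρ') σ w F :=
  h.mono hσ (mx_l _ _) (mx_l _ _) (mxL_len h.len hl) (mxL_l (h.len.trans hl.symm))

theorem RK.mxr {ρ ρ' : Rw} {σ : ℝ} (hσ : 0 ≤ σ) {w : ℂ} {F : Vt D → ℂ} (h : RK D t ρ' σ w F)
    (hl : ρ.l.length = D) : RK D t (mxRw ρ ρ') σ w F :=
  h.mono hσ (mx_r _ _) (mx_r _ _) (mxL_len hl h.len) (mxL_r (hl.trans h.len.symm))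

/-- an entry `b` times a number `z` -/
theorem RK.ent {α : Type} {lf : α → Vt D → ℂ} {b : ℝ} {M : Mo α} (h : TOK D lf t (b : ℂ) M)
    (z : ℂ) : RK D t (Pool.Agent.Helper86.CT.rw M) ‖z‖ (b * z) (fun v => ((lf M.v v).re : ℂ) * z) := by
  refine ⟨fun v => ?_, ?_, ?_, h.val.len⟩
  · rw [norm_mul, Complex.norm_real, Real.norm_eq_abs]
    exact mul_le_mul_of_nonneg_right ((Complex.abs_re_le_norm _).trans (h.val.bd v))
      (norm_nonneg _)
  · have e : avg (wtT D t) (fun v => ((lf M.v v).re : ℂ) * z)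
        = ((avg (wtT D t) (lf M.v)).re : ℂ) * z := by
      have e1 : (fun v => ((lf M.v v).re : ℂ) * z) = fun v => z * ((lf M.v v).re : ℂ) := by
        funext v; ring
      rw [e1, avg_smul, mul_comm]
      congr 1
      unfold avg
      rw [Complex.re_sum]
      push_cast
      refine Finset.sum_congr rfl fun v _ => ?_
      rw [Complex.re_ofReal_mul]
      push_cast
      ring
    rw [e]
    have e2 : (UU : ℂ) * (b * z) - ((avg (wtT D t) (lf M.v)).re : ℂ) * z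
        = (((UU : ℂ) * b - avg (wtT D t) (lf M.v)).re : ℂ) * z := by
      rw [Complex.sub_re, ← Complex.ofReal_mul, Complex.ofReal_re]
      push_cast
      ring
    rw [e2, norm_mul, Complex.norm_real, Real.norm_eq_abs]
    exact mul_le_mul_of_nonneg_right ((Complex.abs_re_le_norm _).trans h.mod) (norm_nonneg _)
  · have h1 := DL_scale z (DL_re h.val.dl)
    have e1 : (fun v => z * ((lf M.v v).re : ℂ)) = fun v => ((lf M.v v).re : ℂ) * z := by
      funext v; ring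
    rw [e1] at h1
    have e2 : (M.l.map rl).map (fun x => (‖z‖ * x.1, ‖z‖ * x.2)) = M.l.map (rls ‖z‖) := by
      rw [List.map_map]
      refine List.map_congr_left fun x _ => ?_
      show (‖z‖ * (x.D : ℝ), ‖z‖ * (x.F : ℝ)) = ((x.D : ℝ) * ‖z‖, (x.F : ℝ) * ‖z‖)
      rw [mul_comm, mul_comm ‖z‖]
    rw [e2] at h1
    exact h1

theorem RK.avg_bd (hP : PT D t) {ρ : Rw} {σ : ℝ} {w : ℂ} {F : Vt D → ℂ} (h : RK D t ρ σ w F) :
    ‖avg (wtT D t) F‖ ≤ ρ.B * σ := norm_avg_le hP.w h.bd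

theorem rr2_eq (x y : Rw) : ((rr2 x y : ℕ) : ℝ) = x.r * y.B + y.r * x.B + x.r * y.r
    + (Pool.Agent.Helper86.CT.er x.l y.l : ℕ) := by
  show ((Nat.add (Nat.add (Nat.add (Nat.mul x.r y.B) (Nat.mul y.r x.B)) (Nat.mul x.r y.r))
    (Pool.Agent.Helper86.CT.er x.l y.l) : ℕ) : ℝ) = _
  rw [c_add, c_add, c_add, c_mul, c_mul, c_mul]

/-- PRODUCT OF TWO ROWS -/
theorem RK.two (hP : PT D t) {ρ ρ' : Rw} {σ σ' : ℝ} (hσ : 0 ≤ σ) (hσ' : 0 ≤ σ') {w w' : ℂ}
    {F F' : Vt D → ℂ} (h : RK D t ρ σ w F) (h' : RK D t ρ' σ' w' F') :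
    ‖(UU : ℂ) ^ 2 * (w * w') - avg (wtT D t) (mulT D F F')‖ ≤ (rr2 ρ ρ' : ℕ) * (σ * σ') := by
  have c := cov_sc hP hσ hσ' h.dl h'.dl h.len h'.len
  have b1 := h.avg_bd hP
  have b2 := h'.avg_bd hP
  have e1 := h.err
  have e2 := h'.err
  set f := avg (wtT D t) F
  set g := avg (wtT D t) F'
  set M := avg (wtT D t) (mulT D F F')
  have e : (UU : ℂ) ^ 2 * (w * w') - M = (UU * w - f) * g + (UU * w' - g) * f
      + (UU * w - f) * (UU * w' - g) - (M - f * g) := by ring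
  rw [e, rr2_eq]
  have k1 : ‖(UU * w - f) * g‖ ≤ (ρ.r * σ) * (ρ'.B * σ') := by
    rw [norm_mul]
    exact mul_le_mul e1 b2 (norm_nonneg _) (mul_nonneg (Nat.cast_nonneg _) hσ)
  have k2 : ‖(UU * w' - g) * f‖ ≤ (ρ'.r * σ') * (ρ.B * σ) := by
    rw [norm_mul]
    exact mul_le_mul e2 b1 (norm_nonneg _) (mul_nonneg (Nat.cast_nonneg _) hσ')
  have k3 : ‖(UU * w - f) * (UU * w' - g)‖ ≤ (ρ.r * σ) * (ρ'.r * σ') := by
    rw [norm_mul]
    exact mul_le_mul e1 e2 (norm_nonneg _) (mul_nonneg (Nat.cast_nonneg _) hσ)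
  have n1 := norm_sub_le ((UU * w - f) * g + (UU * w' - g) * f + (UU * w - f) * (UU * w' - g))
    (M - f * g)
  have n2 := norm_add_le ((UU * w - f) * g + (UU * w' - g) * f) ((UU * w - f) * (UU * w' - g))
  have n3 := norm_add_le ((UU * w - f) * g) ((UU * w' - g) * f)
  have r1 : (((ρ.r : ℝ) * ρ'.B + ρ'.r * ρ.B + ρ.r * ρ'.r + (Pool.Agent.Helper86.CT.er ρ.l ρ'.l : ℕ))
      * (σ * σ')) = (ρ.r * σ) * (ρ'.B * σ') + (ρ'.r * σ') * (ρ.B * σ) + (ρ.r * σ) * (ρ'.r * σ')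
        + σ * σ' * (Pool.Agent.Helper86.CT.er ρ.l ρ'.l : ℕ) := by ring
  rw [r1]
  linarith

/-- one active variable, also under conjugation -/
theorem RK.dl2 {ρ ρ' : Rw} {σ σ' : ℝ} (hσ : 0 ≤ σ) (hσ' : 0 ≤ σ') {w w' : ℂ}
    {F F' : Vt D → ℂ} (h : RK D t ρ σ w F) (h' : RK D t ρ' σ' w' F') (hS : Sg ρ.l ρ'.l) :
    DL D (mulT D F F') ((Pool.Agent.Helper86.CT.rl ρ ρ').map (rls (σ * σ'))) :=
  DL_mulT hσ hσ' h.bd h'.bd h.dl h'.dl h.len h'.len hS

theorem ePV_eq {α : Type} (R : ℕ) (P : Mo α) (x y : Rw) : ((ePV R P x y : ℕ) : ℝ) =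
    ((P.B : ℝ) + R) * (rr2 x y : ℕ)
      + (Pool.Agent.Helper86.CT.er P.l (Pool.Agent.Helper86.CT.rl x y) : ℕ) := by
  show ((Nat.add (Nat.mul (Nat.add P.B R) (rr2 x y))
    (Pool.Agent.Helper86.CT.er P.l (Pool.Agent.Helper86.CT.rl x y)) : ℕ) : ℝ) = _
  rw [c_add, c_mul, c_add]

/-- COEFFICIENT TIMES TWO ROWS -/
theorem RK.three (hP : PT D t) {α : Type} {R : ℕ} {P : Mo α} {J : Vt D → ℂ}
    (hJ : ∀ v, ‖J v‖ ≤ P.B + R) (hJl : DL D J (P.l.map rl)) (hPl : P.l.length = D)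
    {ρ ρ' : Rw} {σ σ' : ℝ} (hσ : 0 ≤ σ) (hσ' : 0 ≤ σ') {w w' : ℂ}
    {F F' : Vt D → ℂ} (h : RK D t ρ σ w F) (h' : RK D t ρ' σ' w' F') (hS : Sg ρ.l ρ'.l) :
    ‖avg (wtT D t) J * ((UU : ℂ) ^ 2 * (w * w')) - avg (wtT D t) (mulT D J (mulT D F F'))‖ ≤
      (ePV R P ρ ρ' : ℕ) * (σ * σ') := by
  have h2 := h.two hP hσ hσ' h'
  have d2 := h.dl2 hσ hσ' h' hS
  have hl2 : (Pool.Agent.Helper86.CT.rl ρ ρ').length = D := zipDF_len _ h.len h'.len
  have c := cov_sc hP (s := 1) (s' := σ * σ') zero_le_one (mul_nonneg hσ hσ') (by rw [rls_one]; exact hJl) d2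
    hPl hl2
  have bJ : ‖avg (wtT D t) J‖ ≤ P.B + R := norm_avg_le hP.w hJ
  set j := avg (wtT D t) J
  set M := avg (wtT D t) (mulT D F F')
  set N := avg (wtT D t) (mulT D J (mulT D F F'))
  have e : j * ((UU : ℂ) ^ 2 * (w * w')) - N = j * ((UU : ℂ) ^ 2 * (w * w') - M) - (N - j * M) := by
    ring
  rw [e, ePV_eq]
  refine (norm_sub_le _ _).trans ?_
  rw [norm_mul]
  have k1 : ‖j‖ * ‖(UU : ℂ) ^ 2 * (w * w') - M‖ ≤ (P.B + R) * ((rr2 ρ ρ' : ℕ) * (σ * σ')) :=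
    mul_le_mul bJ h2 (norm_nonneg _) (by positivity)
  have r1 : (((P.B : ℝ) + R) * (rr2 ρ ρ' : ℕ)
      + (Pool.Agent.Helper86.CT.er P.l (Pool.Agent.Helper86.CT.rl ρ ρ') : ℕ)) * (σ * σ')
      = (P.B + R) * ((rr2 ρ ρ' : ℕ) * (σ * σ'))
        + 1 * (σ * σ') * (Pool.Agent.Helper86.CT.er P.l (Pool.Agent.Helper86.CT.rl ρ ρ') : ℕ) := by
    ring
  rw [r1]
  linarith

end Pool.Agent.Helper90.KMT
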