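import Pool.Agent.Helper90.CX.KM1

/-!
Row KMO, part 2: lists, models, and the arithmetic of models.
-/

set_option autoImplicit false
noncomputable section
namespace Pool.Agent.Helper90.KMO

open Pool.Agent.Helper86.CX
open Pool.Agent.Helper86.C75 (Z)
open Pool.Agent.Helper90.C75

/-! ### lists -/

theorem mapL_eq (f : C3 → C3) (l : List C3) : mapL f l = l.map f := by
  induction l with
  | nil => rfl
  | cons x l ih => rw [List.map_cons, ← ih]; rfl

theorem zipL_eq (f : C3 → C3 → C3) (l l' : List C3) : zipL f l l' = List.zipWith f l l' := by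
  induction l generalizing l' with
  | nil => cases l' <;> rfl
  | cons x l ih =>
    cases l' with
    | nil => rfl
    | cons y l' => rw [List.zipWith_cons_cons, ← ih]; rfl

theorem repL_eq (n : ℕ) (c : Cx) : repL n c = List.replicate n ⟨c, c, c⟩ := by
  induction n with
  | zero => rfl
  | succ n ih => rw [List.replicate_succ, ← ih]; rfl

/-- the control values -/
def ct (x : C3) : Fin 3 → ℂ := ![cz x.a, cz x.c, cz x.b]

/-- the entry of a list -/
def gv (l : List C3) (i : ℕ) : C3 := l.getD i zero3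

theorem gv_mem {l : List C3} {i : ℕ} (h : i < l.length) : gv l i ∈ l := by
  unfold gv
  rw [List.getD_eq_getElem _ _ h]
  exact List.getElem_mem h

theorem gv_zip (f : C3 → C3 → C3) {l l' : List C3} {i : ℕ} (h : i < l.length)
    (h' : i < l'.length) : gv (zipL f l l') i = f (gv l i) (gv l' i) := by
  unfold gv
  have h2 : i < (List.zipWith f l l').length := by
    rw [List.length_zipWith]
    exact lt_min h h'
  rw [zipL_eq, List.getD_eq_getElem _ _ h, List.getD_eq_getElem _ _ h',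
    List.getD_eq_getElem _ _ h2, List.getElem_zipWith]

theorem gv_map (f : C3 → C3) {l : List C3} {i : ℕ} (h : i < l.length) :
    gv (mapL f l) i = f (gv l i) := by
  unfold gv
  have h2 : i < (l.map f).length := by rw [List.length_map]; exact h
  rw [mapL_eq, List.getD_eq_getElem _ _ h, List.getD_eq_getElem _ _ h2, List.getElem_map]

theorem gv_rep {n : ℕ} {c : Cx} {i : ℕ} (h : i < n) : gv (repL n c) i = ⟨c, c, c⟩ := by
  unfold gv
  have h2 : i < (List.replicate n (⟨c, c, c⟩ : C3)).length := by rw [List.length_replicate]; exact h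
  rw [repL_eq, List.getD_eq_getElem _ _ h2, List.getElem_replicate]

theorem len_zip (f : C3 → C3 → C3) {l l' : List C3} {n : ℕ} (h : l.length = n)
    (h' : l'.length = n) : (zipL f l l').length = n := by
  rw [zipL_eq, List.length_zipWith, h, h', min_self]

theorem len_map (f : C3 → C3) {l : List C3} {n : ℕ} (h : l.length = n) :
    (mapL f l).length = n := by
  rw [mapL_eq, List.length_map, h]

/-- the vertex values of a list -/
def Fv (n : ℕ) (l : List C3) : Fin n × Fin 3 → ℂ := fun v => ct (gv l v.1) v.2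

theorem div_ub (a : ℕ) {b : ℕ} (hb : 0 < b) : (a : ℝ) / b ≤ (Nat.div a b : ℕ) + 1 := by
  rw [div_le_iff₀ (by exact_mod_cast hb)]
  have h2 : a < (a / b + 1) * b := by
    have := Nat.lt_div_mul_add (a := a) (b := b) hb
    linarith
  exact_mod_cast h2.le

theorem mx_l (a b : ℕ) : (a : ℝ) ≤ mx a b := by
  rw [mx_eq]; exact_mod_cast le_max_left a b

theorem mx_r (a b : ℕ) : (b : ℝ) ≤ mx a b := by
  rw [mx_eq]; exact_mod_cast le_max_right a b

theorem magL_le (l : List C3) : ∀ x ∈ l, ‖cz x.a‖ ≤ magL l ∧ ‖cz x.c‖ ≤ magL l ∧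
    ‖cz x.b‖ ≤ magL l := by
  induction l with
  | nil => intro x hx; cases hx
  | cons y l ih =>
    intro x hx
    have e : magL (y :: l) = mx (mx (nb y.a) (nb y.c)) (mx (nb y.b) (magL l)) := rfl
    rw [e]
    rcases List.mem_cons.1 hx with h | h
    · subst h
      refine ⟨?_, ?_, ?_⟩
      · exact (nb_le _).trans ((mx_l _ _).trans (mx_l _ _))
      · exact (nb_le _).trans ((mx_r _ _).trans (mx_l _ _))
      · exact (nb_le _).trans ((mx_l _ _).trans (mx_r _ _))
    · obtain ⟨h1, h2, h3⟩ := ih x h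
      have h4 : (magL l : ℝ) ≤ mx (mx (nb y.a) (nb y.c)) (mx (nb y.b) (magL l)) :=
        (mx_r _ _).trans (mx_r _ _)
      exact ⟨h1.trans h4, h2.trans h4, h3.trans h4⟩

theorem dL_le (l : List C3) : ∀ x ∈ l, ‖cz x.b - cz x.a‖ ≤ dL l := by
  induction l with
  | nil => intro x hx; cases hx
  | cons y l ih =>
    intro x hx
    have e : dL (y :: l) = mx (nb (csub y.b y.a)) (dL l) := rfl
    rw [e]
    rcases List.mem_cons.1 hx with h | h
    · subst h
      rw [← cz_sub]
      exact (nb_le _).trans (mx_l _ _)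
    · exact (ih x h).trans (mx_r _ _)

theorem fL'_le (l : List C3) : ∀ x ∈ l, ‖2 * cz x.c - (cz x.a + cz x.b)‖ ≤ fL' l := by
  induction l with
  | nil => intro x hx; cases hx
  | cons y l ih =>
    intro x hx
    have e : fL' (y :: l) = mx (f3 y) (fL' l) := rfl
    rw [e]
    rcases List.mem_cons.1 hx with h | h
    · subst h
      have e2 : 2 * cz x.c - (cz x.a + cz x.b) = cz (csub (cadd x.c x.c) (cadd x.a x.b)) := by
        rw [cz_sub, cz_add, cz_add]; ring
      rw [e2]
      exact (nb_le _).trans (mx_l _ _)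
    · exact (ih x h).trans (mx_r _ _)

theorem fL_le (l : List C3) : ∀ x ∈ l, ‖cz x.c - (cz x.a + cz x.b) / 2‖ ≤ fL l := by
  intro x hx
  have h := fL'_le l x hx
  have e : cz x.c - (cz x.a + cz x.b) / 2 = (2 * cz x.c - (cz x.a + cz x.b)) / 2 := by ring
  have h2 := div_ub (fL' l) (b := 2) (by norm_num)
  rw [e, norm_div]
  have e2 : ((fL l : ℕ) : ℝ) = (Nat.div (fL' l) 2 : ℕ) + 1 := by
    show ((Nat.div (fL' l) 2 + 1 : ℕ) : ℝ) = _
    push_cast
    rfl
  rw [e2]
  have e3 : ‖(2 : ℂ)‖ = 2 := by norm_num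
  rw [e3]
  push_cast at h2
  linarith

theorem devL_le (n : ℕ) (S : C3) (l : List C3) : ∀ x ∈ l, ‖(n : ℂ) * cz x.a - cz S.a‖ ≤ devL n S l ∧
    ‖(n : ℂ) * cz x.c - cz S.c‖ ≤ devL n S l ∧ ‖(n : ℂ) * cz x.b - cz S.b‖ ≤ devL n S l := by
  induction l with
  | nil => intro x hx; cases hx
  | cons y l ih =>
    intro x hx
    have e : devL n S (y :: l) = mx (mx (dvx n S.a y.a) (dvx n S.c y.c))
      (mx (dvx n S.b y.b) (devL n S l)) := rfl
    rw [e]
    have key : ∀ T z : Cx, ‖(n : ℂ) * cz z - cz T‖ ≤ dvx n T z := by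
      intro T z
      rw [← cz_csc, ← cz_sub]
      exact nb_le _
    rcases List.mem_cons.1 hx with h | h
    · subst h
      refine ⟨?_, ?_, ?_⟩
      · exact (key _ _).trans ((mx_l _ _).trans (mx_l _ _))
      · exact (key _ _).trans ((mx_r _ _).trans (mx_l _ _))
      · exact (key _ _).trans ((mx_l _ _).trans (mx_r _ _))
    · obtain ⟨h1, h2, h3⟩ := ih x h
      have h4 : (devL n S l : ℝ) ≤ mx (mx (dvx n S.a y.a) (dvx n S.c y.c))
        (mx (dvx n S.b y.b) (devL n S l)) := (mx_r _ _).trans (mx_r _ _)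
      exact ⟨h1.trans h4, h2.trans h4, h3.trans h4⟩

theorem kL_le {n : ℕ} (hn : 0 < n) {l : List C3} (hl : l.length = n) :
    ∃ c : Fin 3 → ℂ, ∀ v, ‖Fv n l v - c v.2‖ ≤ kL n l := by
  by_cases h1 : n = 1
  · subst h1
    refine ⟨fun j => Fv 1 l (0, j), fun v => ?_⟩
    obtain ⟨i, j⟩ := v
    have : i = 0 := Subsingleton.elim _ _
    subst this
    rw [sub_self, norm_zero]
    exact Nat.cast_nonneg _
  · have hb : Nat.beq n 1 = false := by
      cases h : Nat.beq n 1 with
      | true => exact absurd (Nat.eq_of_beq_eq_true h) h1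
      | false => rfl
    have e : kL n l = Nat.div (devL n (sumL l) l) n + 1 := by
      show ifk n _ = _
      unfold ifk
      rw [hb]
    rw [e]
    refine ⟨fun j => ct (sumL l) j / n, fun v => ?_⟩
    obtain ⟨i, j⟩ := v
    have hm : gv l i ∈ l := gv_mem (by rw [hl]; exact i.2)
    obtain ⟨a1, a2, a3⟩ := devL_le n (sumL l) l _ hm
    have h2 := div_ub (devL n (sumL l) l) hn
    have hn' : (0 : ℝ) < n := by exact_mod_cast hn
    have hn'' : (n : ℂ) ≠ 0 := by exact_mod_cast hn.ne'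
    have key : ∀ x S : ℂ, ‖(n : ℂ) * x - S‖ ≤ devL n (sumL l) l →
        ‖x - S / n‖ ≤ ((Nat.div (devL n (sumL l) l) n + 1 : ℕ) : ℝ) := by
      intro x S h
      have e2 : x - S / n = ((n : ℂ) * x - S) / n := by field_simp
      rw [e2, norm_div, Complex.norm_natCast]
      push_cast
      refine le_trans ?_ h2
      exact div_le_div_of_nonneg_right h hn'.le
    fin_cases j
    · exact key _ _ a1
    · exact key _ _ a2
    · exact key _ _ a3

/-! ### models -/

/-- the value part of a model -/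
structure VOK (n : ℕ) (M : Mo) : Prop where
  len : M.v.length = n
  bd : ∀ v, ‖Fv n M.v v‖ ≤ M.B
  dev : ∃ c : Fin 3 → ℂ, ∀ v, ‖Fv n M.v v - c v.2‖ ≤ M.k
  dif : ∀ c, ‖Fv n M.v (c, 2) - Fv n M.v (c, 0)‖ ≤ M.d
  sec : ∀ c, ‖Fv n M.v (c, 1) - (Fv n M.v (c, 0) + Fv n M.v (c, 2)) / 2‖ ≤ M.f

/-- `M` is a model of the number `f` at the point `(wc, t)` -/
structure MOK (n : ℕ) (wc : Fin n → ℝ) (t : ℝ) (f : ℂ) (M : Mo) : Prop where
  val : VOK n M
  mod : Mod (wq wc t) (UU * f) (Fv n M.v) M.r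

theorem vok_mk {n : ℕ} (hn : 0 < n) {l : List C3} (hl : l.length = n) (r : ℕ) :
    VOK n (mk n l r) := by
  refine ⟨hl, fun v => ?_, kL_le hn hl, fun c => ?_, fun c => ?_⟩
  · obtain ⟨i, j⟩ := v
    obtain ⟨a1, a2, a3⟩ := magL_le l (gv l i) (gv_mem (by rw [hl]; exact i.2))
    fin_cases j
    · exact a1
    · exact a2
    · exact a3
  · exact dL_le l (gv l c) (gv_mem (by rw [hl]; exact c.2))
  · exact fL_le l (gv l c) (gv_mem (by rw [hl]; exact c.2))

section arith

variable {n : ℕ} {wc : Fin n → ℝ} {t : ℝ}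

theorem Fv_add {l l' : List C3} (h : l.length = n) (h' : l'.length = n) (v : Fin n × Fin 3) :
    Fv n (zipL add3 l l') v = Fv n l v + Fv n l' v := by
  obtain ⟨i, j⟩ := v
  unfold Fv
  rw [gv_zip add3 (by rw [h]; exact i.2) (by rw [h']; exact i.2)]
  fin_cases j
  · exact cz_add _ _
  · exact cz_add _ _
  · exact cz_add _ _

theorem Fv_sub {l l' : List C3} (h : l.length = n) (h' : l'.length = n) (v : Fin n × Fin 3) :
    Fv n (zipL sub3 l l') v = Fv n l v - Fv n l' v := by
  obtain ⟨i, j⟩ := v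
  unfold Fv
  rw [gv_zip sub3 (by rw [h]; exact i.2) (by rw [h']; exact i.2)]
  fin_cases j
  · exact cz_sub _ _
  · exact cz_sub _ _
  · exact cz_sub _ _

theorem Fv_conj {l : List C3} (h : l.length = n) (v : Fin n × Fin 3) :
    Fv n (mapL conj3 l) v = star (Fv n l v) := by
  obtain ⟨i, j⟩ := v
  unfold Fv
  rw [gv_map conj3 (by rw [h]; exact i.2)]
  fin_cases j
  · exact cz_conj _
  · exact cz_conj _
  · exact cz_conj _

theorem vok_rec {l : List C3} (hl : l.length = n) (r k : ℕ)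
    (hk : ∃ c : Fin 3 → ℂ, ∀ v, ‖Fv n l v - c v.2‖ ≤ k) : VOK n (addM' l r k) := by
  refine ⟨hl, fun v => ?_, hk, fun c => ?_, fun c => ?_⟩
  · obtain ⟨i, j⟩ := v
    obtain ⟨a1, a2, a3⟩ := magL_le l (gv l i) (gv_mem (by rw [hl]; exact i.2))
    fin_cases j
    · exact a1
    · exact a2
    · exact a3
  · exact dL_le l (gv l c) (gv_mem (by rw [hl]; exact c.2))
  · exact fL_le l (gv l c) (gv_mem (by rw [hl]; exact c.2))

theorem MOK.add {f g : ℂ} {M N : Mo} (hf : MOK n wc t f M) (hg : MOK n wc t g N) :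
    MOK n wc t (f + g) (addM M N) := by
  have e := Fv_add (n := n) hf.val.len hg.val.len
  have c1 : ∀ a b : ℕ, ((Nat.add a b : ℕ) : ℝ) = a + b := fun a b => by
    show ((a + b : ℕ) : ℝ) = _
    push_cast; rfl
  refine ⟨vok_rec (len_zip _ hf.val.len hg.val.len) _ _ ?_, ?_⟩
  · obtain ⟨c, hc⟩ := hf.val.dev
    obtain ⟨c', hc'⟩ := hg.val.dev
    refine ⟨fun j => c j + c' j, fun v => ?_⟩
    rw [e, c1, add_sub_add_comm]
    exact (norm_add_le _ _).trans (add_le_add (hc v) (hc' v))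
  · have h := hf.mod.add hg.mod
    have e3 : (UU : ℂ) * f + UU * g = UU * (f + g) := by ring
    rw [e3] at h
    have e4 : Fv n (zipL add3 M.v N.v) = fun v => Fv n M.v v + Fv n N.v v := funext e
    show Mod (wq wc t) (UU * (f + g)) (Fv n (zipL add3 M.v N.v)) ((Nat.add M.r N.r : ℕ) : ℝ)
    rw [e4, c1]
    exact h

theorem MOK.sub {f g : ℂ} {M N : Mo} (hf : MOK n wc t f M) (hg : MOK n wc t g N) :
    MOK n wc t (f - g) (subM M N) := by
  have e := Fv_sub (n := n) hf.val.len hg.val.len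
  have c1 : ∀ a b : ℕ, ((Nat.add a b : ℕ) : ℝ) = a + b := fun a b => by
    show ((a + b : ℕ) : ℝ) = _
    push_cast; rfl
  refine ⟨vok_rec (len_zip _ hf.val.len hg.val.len) _ _ ?_, ?_⟩
  · obtain ⟨c, hc⟩ := hf.val.dev
    obtain ⟨c', hc'⟩ := hg.val.dev
    refine ⟨fun j => c j - c' j, fun v => ?_⟩
    rw [e, c1, sub_sub_sub_comm]
    exact (norm_sub_le _ _).trans (add_le_add (hc v) (hc' v))
  · have h := hf.mod.sub hg.mod
    have e3 : (UU : ℂ) * f - UU * g = UU * (f - g) := by ring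
    rw [e3] at h
    have e4 : Fv n (zipL sub3 M.v N.v) = fun v => Fv n M.v v - Fv n N.v v := funext e
    show Mod (wq wc t) (UU * (f - g)) (Fv n (zipL sub3 M.v N.v)) ((Nat.add M.r N.r : ℕ) : ℝ)
    rw [e4, c1]
    exact h

theorem MOK.conj {f : ℂ} {M : Mo} (hf : MOK n wc t f M) : MOK n wc t (star f) (conjM M) := by
  have e := Fv_conj (n := n) hf.val.len
  refine ⟨⟨len_map _ hf.val.len, fun v => ?_, ?_, fun c => ?_, fun c => ?_⟩, ?_⟩
  · show ‖Fv n (mapL conj3 M.v) v‖ ≤ M.B
    rw [e, norm_star]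
    exact hf.val.bd v
  · obtain ⟨c, hc⟩ := hf.val.dev
    refine ⟨fun j => star (c j), fun v => ?_⟩
    show ‖Fv n (mapL conj3 M.v) v - _‖ ≤ M.k
    rw [e, ← star_sub, norm_star]
    exact hc v
  · show ‖Fv n (mapL conj3 M.v) _ - Fv n (mapL conj3 M.v) _‖ ≤ M.d
    rw [e, e, ← star_sub, norm_star]
    exact hf.val.dif c
  · show ‖Fv n (mapL conj3 M.v) _ - (Fv n (mapL conj3 M.v) _ + Fv n (mapL conj3 M.v) _) / 2‖ ≤ M.f
    rw [e, e, e]
    have e2 : star (Fv n M.v (c, 1)) - (star (Fv n M.v (c, 0)) + star (Fv n M.v (c, 2))) / 2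
        = star (Fv n M.v (c, 1) - (Fv n M.v (c, 0) + Fv n M.v (c, 2)) / 2) := by
      simp
    rw [e2, norm_star]
    exact hf.val.sec c
  · have h := hf.mod.star
    have e3 : star ((UU : ℂ) * f) = UU * star f := by
      simp
    rw [e3] at h
    have e4 : Fv n (mapL conj3 M.v) = fun v => star (Fv n M.v v) := funext e
    show Mod (wq wc t) (UU * star f) (Fv n (mapL conj3 M.v)) M.r
    rw [e4]
    exact h

end arith

end Pool.Agent.Helper90.KMO
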