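import Pool.Agent.Helper90.CX.KM2

/-!
Row KMO, part 3: product and reciprocal of models.
-/

set_option autoImplicit false
noncomputable section
namespace Pool.Agent.Helper90.KMO

open Pool.Agent.Helper86.CX
open Pool.Agent.Helper86.C75 (Z)
open Pool.Agent.Helper90.C75

/-! ### the product of control values -/

section m3

variable (x y : C3)

theorem m3_a : ‖cz (mul3 x y).a - cz x.a * cz y.a / UU‖ ≤ 3 / 2 ∧
    ‖cz (mul3 x y).a‖ ≤ ‖cz x.a‖ * ‖cz y.a‖ / UU := cz_cmul _ _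

theorem m3_b : ‖cz (mul3 x y).b - cz x.b * cz y.b / UU‖ ≤ 3 / 2 ∧
    ‖cz (mul3 x y).b‖ ≤ ‖cz x.b‖ * ‖cz y.b‖ / UU := cz_cmul _ _

theorem m3_c : ‖cz (mul3 x y).c - (cz x.c * cz y.c
      - (cz x.b - cz x.a) * (cz y.b - cz y.a) / 4) / UU‖ ≤ 27 / 8 ∧
    ‖cz (mul3 x y).c‖ ≤ (‖cz x.c‖ * ‖cz y.c‖ + ‖cz x.b - cz x.a‖ * ‖cz y.b - cz y.a‖ / 4) / UU := by
  have hU := UU_pos
  have e : cz (mul3 x y).c = cz (cmul x.c y.c) - cz (cq4 (cmul (csub x.b x.a) (csub y.b y.a))) :=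
    cz_sub _ _
  obtain ⟨a1, a2⟩ := cz_cmul x.c y.c
  obtain ⟨b1, b2⟩ := cz_cmul (csub x.b x.a) (csub y.b y.a)
  obtain ⟨c1, c2⟩ := cz_cq4 (cmul (csub x.b x.a) (csub y.b y.a))
  rw [cz_sub, cz_sub] at b1 b2
  set P := cz (cmul x.c y.c)
  set Q := cz (cmul (csub x.b x.a) (csub y.b y.a))
  set T := cz (cq4 (cmul (csub x.b x.a) (csub y.b y.a)))
  set D := cz x.b - cz x.a
  set D' := cz y.b - cz y.a
  rw [e]
  constructor
  · have e1 : P - T - (cz x.c * cz y.c - D * D' / 4) / UU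
        = (P - cz x.c * cz y.c / UU) - ((T - Q / 4) + (Q - D * D' / UU) / 4) := by ring
    rw [e1]
    have h4 : ‖(Q - D * D' / UU) / 4‖ ≤ 3 / 8 := by
      rw [norm_div]
      have : ‖(4 : ℂ)‖ = 4 := by norm_num
      rw [this]
      linarith
    have h5 := norm_sub_le (P - cz x.c * cz y.c / UU) ((T - Q / 4) + (Q - D * D' / UU) / 4)
    have h6 := norm_add_le (T - Q / 4) ((Q - D * D' / UU) / 4)
    linarith
  · have h5 := norm_sub_le P T
    have e2 : (‖cz x.c‖ * ‖cz y.c‖ + ‖D‖ * ‖D'‖ / 4) / UU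
        = ‖cz x.c‖ * ‖cz y.c‖ / UU + ‖D‖ * ‖D'‖ / UU / 4 := by ring
    rw [e2]
    linarith

end m3

variable {n : ℕ} {wc : Fin n → ℝ} {t : ℝ}

/-- the integer product values are close to the exact ones -/
theorem Fv_mul {l l' : List C3} (h : l.length = n) (h' : l'.length = n) (v : Fin n × Fin 3) :
    ‖Fv n (zipL mul3 l l') v - pq (Fv n l) (Fv n l') v / UU‖ ≤ 27 / 8 := by
  obtain ⟨i, j⟩ := v
  have e : Fv n (zipL mul3 l l') (i, j) = ct (mul3 (gv l i) (gv l' i)) j := by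
    show ct (gv (zipL mul3 l l') i) j = _
    rw [gv_zip mul3 (by rw [h]; exact i.2) (by rw [h']; exact i.2)]
  rw [e]
  unfold pq
  fin_cases j
  · exact (m3_a _ _).1.trans (by norm_num)
  · exact (m3_c _ _).1
  · exact (m3_b _ _).1.trans (by norm_num)

theorem c_add (a b : ℕ) : ((Nat.add a b : ℕ) : ℝ) = a + b := by
  show ((a + b : ℕ) : ℝ) = _
  push_cast; rfl

theorem c_mul (a b : ℕ) : ((Nat.mul a b : ℕ) : ℝ) = a * b := by
  show ((a * b : ℕ) : ℝ) = _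
  push_cast; rfl

theorem c_div10 (a : ℕ) : (a : ℝ) / 10 ≤ (Nat.div a (nat_lit 10) : ℕ) + 1 := by
  have := div_ub a (b := 10) (by norm_num)
  exact_mod_cast this

theorem c_div4 (a : ℕ) : (a : ℝ) / 4 ≤ (Nat.div a (nat_lit 4) : ℕ) + 1 := by
  have := div_ub a (b := 4) (by norm_num)
  exact_mod_cast this

theorem c_div2 (a : ℕ) : (a : ℝ) / 2 ≤ (Nat.div a (nat_lit 2) : ℕ) + 1 := by
  have := div_ub a (b := 2) (by norm_num)
  exact_mod_cast this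

/-- `thd` bounds the error of the product of the interpolations -/
theorem thd_le (M N : Mo) : (M.k : ℝ) * N.k + ((M.d : ℝ) * N.f + M.f * N.d) / 10
    + M.f * N.f / 4 ≤ thd M N := by
  have e : ((thd M N : ℕ) : ℝ) = M.k * N.k + (Nat.div (Nat.add (Nat.mul M.d N.f) (Nat.mul M.f N.d))
      (nat_lit 10) : ℕ) + (Nat.div (Nat.mul M.f N.f) (nat_lit 4) : ℕ) + 2 := by
    unfold thd
    rw [c_add, c_add, c_add, c_mul]
    norm_num
  have h1 := c_div10 (Nat.add (Nat.mul M.d N.f) (Nat.mul M.f N.d))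
  have h2 := c_div4 (Nat.mul M.f N.f)
  rw [c_add, c_mul, c_mul] at h1
  rw [c_mul] at h2
  rw [e]
  linarith

theorem vok_cov (hw : Wts wc) (h0 : 0 ≤ t) (h1 : t ≤ 1) {M N : Mo} (hM : VOK n M) (hN : VOK n N) :
    ‖avg (wq wc t) (pq (Fv n M.v) (Fv n N.v)) - avg (wq wc t) (Fv n M.v) *
      avg (wq wc t) (Fv n N.v)‖ ≤ thd M N := by
  obtain ⟨c, hc⟩ := hM.dev
  obtain ⟨c', hc'⟩ := hN.dev
  refine (cov_leQ hw h0 h1 hc hc' hM.dif hN.dif hM.sec hN.sec).trans ?_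
  exact thd_le M N

/-- the value part of a product -/
theorem VOK.mul (hn : 0 < n) {M N : Mo} (hM : VOK n M) (hN : VOK n N) :
    VOK n (Pool.Agent.Helper86.CX.mulM n M N) :=
  vok_mk hn (len_zip mul3 hM.len hN.len) _

/-- PRODUCT OF MODELS -/
theorem MOK.mul (hn : 0 < n) (hw : Wts wc) (h0 : 0 ≤ t) (h1 : t ≤ 1) {f g : ℂ} {M N : Mo}
    (hf : MOK n wc t f M) (hg : MOK n wc t g N) :
    MOK n wc t (f * g) (Pool.Agent.Helper86.CX.mulM n M N) := by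
  have hU := UU_pos
  have hUc : (UU : ℂ) ≠ 0 := by exact_mod_cast hU.ne'
  refine ⟨hf.val.mul hn hg.val, ?_⟩
  have hq := hw.q h0 h1
  have h := hf.mod.mulE hq hg.mod hf.val.bd hg.val.bd (vok_cov hw h0 h1 hf.val hg.val)
  have h2 := h.cmul ((UU : ℂ)⁻¹)
  have e1 : (UU : ℂ)⁻¹ * (UU * f * (UU * g)) = UU * (f * g) := by field_simp
  rw [e1] at h2
  have h3 := h2.round hq (F' := Fv n (zipL mul3 M.v N.v)) (δ := 27 / 8) (by
    intro v
    have := Fv_mul (n := n) hf.val.len hg.val.len v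
    rw [norm_sub_rev, div_eq_inv_mul] at this
    exact this)
  show ‖_‖ ≤ ((Nat.add (Nat.shiftRight (Nat.add (Nat.add (Nat.add (Nat.mul M.r N.B)
    (Nat.mul N.r M.B)) (Nat.mul M.r N.r)) (thd M N)) (nat_lit 48)) (nat_lit 5) : ℕ) : ℝ)
  refine h3.trans ?_
  have s1 := (shr_le (Nat.add (Nat.add (Nat.add (Nat.mul M.r N.B)
    (Nat.mul N.r M.B)) (Nat.mul M.r N.r)) (thd M N))).2
  rw [c_add, c_add, c_add, c_mul, c_mul, c_mul] at s1
  have e2 : ‖(UU : ℂ)⁻¹‖ = UU⁻¹ := by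
    rw [norm_inv, Complex.norm_real, Real.norm_of_nonneg hU.le]
  have g5 : ((nat_lit 5 : ℕ) : ℝ) = 5 := by norm_num
  rw [e2, ← div_eq_inv_mul, c_add, g5]
  linarith

end Pool.Agent.Helper90.KMO
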