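import Pool.Agent.Helper39.CX.GLU
import Pool.Agent.Helper90.C75.PowS

/-!
Row NRB: all powers of the B cycle (three runs of two letters) at a frontier point.
-/

set_option autoImplicit false
noncomputable section
namespace Pool.Agent.Helper6.MONO

open Pool.Agent.Helper21.SUP (GS DG DG_nx)
open Pool.Agent.Helper90.C75 (e2 cay3 cay3_root prS prQ prN sqR sqC sq_pow3)


/-- the normalised matrix of a run of two letters -/
def Nm (k : ℝ) (o o' : ℂ) : Matrix (Fin 3) (Fin 3) ℂ :=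
  !![2 * o, 2, 2; o', 2 * o', -2 * (SbP k : ℂ) * o'; o' * (1 - 2 * o), 0, 0]

variable {p q r : ℕ}

theorem NRB_RMb_two (hp : 3 ≤ p) (hq : 3 ≤ q) (hr : 3 ≤ r) {s : GS} (hs : DG s) (w : ℂ) :
    RMb p q r s 2 w = (1 + 2 / (kk p q r s.1 s.2.1 : ℂ)) • Nm (kk p q r s.1 s.2.1)
      (omS p q r s w) (omS p q r (Pool.Agent.Helper21.SUP.nx s 2) w) := by
  have h1 : Rb (mm p q r s.1 s.2.1) 1 = 1 + 2 / kk p q r s.1 s.2.1 :=
    dth_Rb_one (LNI_mm hp hq hr _ _ hs.1)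
  have k1 := (LNI_kk hp hq hr _ _ hs.1).1
  unfold RMb Nm
  have h3 : (2 : ℕ) - 1 = 1 := rfl
  have h4 : decide ((2 : ℕ) % 2 = 1) = false := rfl
  rw [h3, h4, h1]
  generalize omS p q r s w = o at *
  generalize omS p q r (Pool.Agent.Helper21.SUP.nx s 2) w = o' at *
  generalize kk p q r s.1 s.2.1 = k at *
  have c1 : (k : ℂ) ≠ 0 := by exact_mod_cast k1.ne'
  have c3 : (2 : ℂ) + k ≠ 0 := by
    have : (0 : ℝ) < 2 + k := by linarith
    exact_mod_cast this.ne'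
  ext i j
  fin_cases i <;> fin_cases j <;>
    (simp [Cm, Bm, Matrix.mul_apply, Fin.sum_univ_three, SbP_c k1.ne']
     try field_simp
     try ring)

/-- the scalar of the cycle -/
def fBW (k h h' : ℝ) (z : ℂ) (o o' o'' : ℂ) : ℂ := 64 * z * (o * o' * o'') / (k * h * h' : ℂ)

/-- the product of the three runs -/
def Wm (k h h' : ℝ) (o o' o'' : ℂ) : Matrix (Fin 3) (Fin 3) ℂ :=
  Nm h' o'' o * (Nm h o' o'' * Nm k o o')

theorem Nm_det (k : ℝ) (hk : k ≠ 0) (o o' : ℂ) :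
    (Nm k o o').det = -16 * o' ^ 2 * (1 - 2 * o) / (k : ℂ) ^ 2 := by
  have c1 : (k : ℂ) ≠ 0 := by exact_mod_cast hk
  simp [Nm, Matrix.det_fin_three, SbP_c hk]
  field_simp
  ring

section cyc

variable {k h h' : ℝ} {z o o' o'' : ℂ}

theorem Wm_det (hk : k ≠ 0) (hh : h ≠ 0) (hh' : h' ≠ 0)
    (ho : 2 * (1 + (2 * h / (k * h') : ℝ) * z) * o = 1)
    (ho' : 2 * (1 + (2 * h' / (h * k) : ℝ) * z) * o' = 1)
    (ho'' : 2 * (1 + (2 * k / (h' * h) : ℝ) * z) * o'' = 1) :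
    (Wm k h h' o o' o'').det = -fBW k h h' z o o' o'' ^ 3 := by
  have c1 : (k : ℂ) ≠ 0 := by exact_mod_cast hk
  have c2 : (h : ℂ) ≠ 0 := by exact_mod_cast hh
  have c3 : (h' : ℂ) ≠ 0 := by exact_mod_cast hh'
  have e1 : 1 - 2 * o = 4 * h / (k * h') * z * o := by
    have := ho
    push_cast at this
    linear_combination -this
  have e2 : 1 - 2 * o' = 4 * h' / (h * k) * z * o' := by
    have := ho'
    push_cast at this
    linear_combination -this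
  have e3 : 1 - 2 * o'' = 4 * k / (h' * h) * z * o'' := by
    have := ho''
    push_cast at this
    linear_combination -this
  unfold Wm fBW
  rw [Matrix.det_mul, Matrix.det_mul, Nm_det _ hk, Nm_det _ hh, Nm_det _ hh', e1, e2, e3]
  field_simp
  ring

/-- the three parameters as fractions -/
theorem om_frac {a b c : ℝ} (ha : a ≠ 0) (hc : c ≠ 0) {z o : ℂ}
    (ho : 2 * (1 + (2 * b / (a * c) : ℝ) * z) * o = 1) :
    ∃ d : ℂ, d ≠ 0 ∧ d = a * c + 2 * b * z ∧ o = a * c / (2 * d) := by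
  have c1 : (a : ℂ) ≠ 0 := by exact_mod_cast ha
  have c3 : (c : ℂ) ≠ 0 := by exact_mod_cast hc
  have e : (2 : ℂ) * (1 + (2 * b / (a * c) : ℝ) * z) = 2 * (a * c + 2 * b * z) / (a * c) := by
    push_cast; field_simp
  have a1 : (a : ℂ) * c + 2 * b * z ≠ 0 := by
    intro h0
    rw [e, h0] at ho
    simp at ho
  refine ⟨_, a1, rfl, ?_⟩
  rw [eq_div_iff (mul_ne_zero two_ne_zero a1)]
  rw [e] at ho
  field_simp at ho
  linear_combination ho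

theorem Wm_trace (hk : k ≠ 0) (hh : h ≠ 0) (hh' : h' ≠ 0) (hz : z ≠ 0)
    (ho : 2 * (1 + (2 * h / (k * h') : ℝ) * z) * o = 1)
    (ho' : 2 * (1 + (2 * h' / (h * k) : ℝ) * z) * o' = 1)
    (ho'' : 2 * (1 + (2 * k / (h' * h) : ℝ) * z) * o'' = 1) :
    (Wm k h h' o o' o'').trace = fBW k h h' z o o' o'' *
      ((k ^ 2 + h ^ 2 + h' ^ 2 - 3 : ℝ) + (k * h * h' : ℝ) / z) := by
  have c1 : (k : ℂ) ≠ 0 := by exact_mod_cast hk
  have c2 : (h : ℂ) ≠ 0 := by exact_mod_cast hh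
  have c3 : (h' : ℂ) ≠ 0 := by exact_mod_cast hh'
  obtain ⟨d, d0, d1, d2⟩ := om_frac hk hh' ho
  obtain ⟨d', d0', d1', d2'⟩ := om_frac hh hk ho'
  obtain ⟨d'', d0'', d1'', d2''⟩ := om_frac hh' hh ho''
  rw [d2, d2', d2'']
  simp only [Wm, fBW, Nm, Matrix.trace, Matrix.diag, Fin.sum_univ_three, Matrix.mul_apply,
    Matrix.of_apply, Matrix.cons_val_zero, Matrix.cons_val_one, Matrix.cons_val, SbP_c hk,
    SbP_c hh, SbP_c hh']
  push_cast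
  field_simp
  rw [d1, d1', d1'']
  ring

theorem Wm_e2 (hk : k ≠ 0) (hh : h ≠ 0) (hh' : h' ≠ 0)
    (ho : 2 * (1 + (2 * h / (k * h') : ℝ) * z) * o = 1)
    (ho' : 2 * (1 + (2 * h' / (h * k) : ℝ) * z) * o' = 1)
    (ho'' : 2 * (1 + (2 * k / (h' * h) : ℝ) * z) * o'' = 1) :
    e2 (Wm k h h' o o' o'') = -(fBW k h h' z o o' o'' ^ 2 *
      ((k ^ 2 + h ^ 2 + h' ^ 2 - 3 : ℝ) + (k * h * h' : ℝ) * z)) := by
  have c1 : (k : ℂ) ≠ 0 := by exact_mod_cast hk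
  have c2 : (h : ℂ) ≠ 0 := by exact_mod_cast hh
  have c3 : (h' : ℂ) ≠ 0 := by exact_mod_cast hh'
  obtain ⟨d, d0, d1, d2⟩ := om_frac hk hh' ho
  obtain ⟨d', d0', d1', d2'⟩ := om_frac hh hk ho'
  obtain ⟨d'', d0'', d1'', d2''⟩ := om_frac hh' hh ho''
  rw [d2, d2', d2'']
  simp only [e2, Wm, fBW, Nm, Fin.sum_univ_three, Matrix.mul_apply,
    Matrix.of_apply, Matrix.cons_val_zero, Matrix.cons_val_one, Matrix.cons_val, SbP_c hk,
    SbP_c hh, SbP_c hh', Matrix.cons_val']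
  push_cast
  field_simp
  rw [d1, d1', d1'']
  ring

/-- trace of the normalised cycle -/
def trB (k h h' : ℝ) (z : ℂ) : ℂ :=
  (k ^ 2 + h ^ 2 + h' ^ 2 - 3 : ℝ) + (k * h * h' : ℝ) / z

/-- second coefficient of the normalised cycle -/
def esB (k h h' : ℝ) (z : ℂ) : ℂ :=
  -((k ^ 2 + h ^ 2 + h' ^ 2 - 3 : ℝ) + (k * h * h' : ℝ) * z)

/-- the normalised cycle -/
def WBn (k h h' : ℝ) (z o o' o'' : ℂ) : Matrix (Fin 3) (Fin 3) ℂ :=
  (fBW k h h' z o o' o'')⁻¹ • Wm k h h' o o' o''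

theorem fB_ne (hk : k ≠ 0) (hh : h ≠ 0) (hh' : h' ≠ 0) (hz : z ≠ 0) (o0 : o ≠ 0) (o1 : o' ≠ 0)
    (o2 : o'' ≠ 0) : fBW k h h' z o o' o'' ≠ 0 := by
  have c1 : (k : ℂ) ≠ 0 := by exact_mod_cast hk
  have c2 : (h : ℂ) ≠ 0 := by exact_mod_cast hh
  have c3 : (h' : ℂ) ≠ 0 := by exact_mod_cast hh'
  unfold fBW
  exact div_ne_zero (mul_ne_zero (mul_ne_zero (by norm_num) hz) (mul_ne_zero (mul_ne_zero o0 o1) o2))
    (mul_ne_zero (mul_ne_zero c1 c2) c3)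

theorem ne_of_frac {l : ℝ} (ho : 2 * (1 + (l : ℝ) * z) * o = 1) : o ≠ 0 := by
  rintro rfl
  rw [mul_zero] at ho
  exact zero_ne_one ho

theorem trace_smul3 (c : ℂ) (M : Matrix (Fin 3) (Fin 3) ℂ) : (c • M).trace = c * M.trace := by
  rw [Matrix.trace_smul, smul_eq_mul]

theorem e2_smul (c : ℂ) (M : Matrix (Fin 3) (Fin 3) ℂ) : e2 (c • M) = c ^ 2 * e2 M := by
  simp only [e2, Matrix.smul_apply, smul_eq_mul]
  ring

theorem WBn_coeff (hk : k ≠ 0) (hh : h ≠ 0) (hh' : h' ≠ 0) (hz : z ≠ 0)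
    (ho : 2 * (1 + (2 * h / (k * h') : ℝ) * z) * o = 1)
    (ho' : 2 * (1 + (2 * h' / (h * k) : ℝ) * z) * o' = 1)
    (ho'' : 2 * (1 + (2 * k / (h' * h) : ℝ) * z) * o'' = 1) :
    (WBn k h h' z o o' o'').trace = trB k h h' z ∧ e2 (WBn k h h' z o o' o'') = esB k h h' z ∧
      (WBn k h h' z o o' o'').det = -1 := by
  have hF := fB_ne hk hh hh' hz (ne_of_frac ho) (ne_of_frac ho') (ne_of_frac ho'')
  refine ⟨?_, ?_, ?_⟩
  · rw [WBn, trace_smul3, Wm_trace hk hh hh' hz ho ho' ho'', ← mul_assoc, inv_mul_cancel₀ hF,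
      one_mul]
    rfl
  · rw [WBn, e2_smul, Wm_e2 hk hh hh' ho ho' ho'', esB]
    field_simp
  · rw [WBn, Matrix.det_smul, Wm_det hk hh hh' ho ho' ho'', Fintype.card_fin]
    field_simp

/-- the family which contains all powers of the cycle -/
def TB (k h h' : ℝ) (z o o' o'' ν A ρ : ℂ) : Matrix (Fin 3) (Fin 3) ℂ :=
  prS (WBn k h h' z o o' o'') ν (trB k h h' z - ν) (ν ^ 2 - trB k h h' z * ν + esB k h h' z) +
    A • prQ (WBn k h h' z o o' o'') ν (trB k h h' z - ν)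
      (ν ^ 2 - trB k h h' z * ν + esB k h h' z) +
    ρ • prN (WBn k h h' z o o' o'') ν (trB k h h' z - ν)
      (ν ^ 2 - trB k h h' z * ν + esB k h h' z)

/-- the parameter of the recursion -/
def tauB (k h h' : ℝ) (z ν : ℂ) : ℂ :=
  1 - 4 * (ν ^ 2 - trB k h h' z * ν + esB k h h' z) / (trB k h h' z - ν) ^ 2

/-- ALL POWERS OF THE CYCLE -/
theorem WB_pow (hk : k ≠ 0) (hh : h ≠ 0) (hh' : h' ≠ 0) (hz : z ≠ 0)
    (ho : 2 * (1 + (2 * h / (k * h') : ℝ) * z) * o = 1)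
    (ho' : 2 * (1 + (2 * h' / (h * k) : ℝ) * z) * o' = 1)
    (ho'' : 2 * (1 + (2 * k / (h' * h) : ℝ) * z) * o'' = 1) {ν : ℂ}
    (hν : ν ^ 3 - trB k h h' z * ν ^ 2 + esB k h h' z * ν + 1 = 0)
    (hs : trB k h h' z ≠ ν) (hD : 3 * ν ^ 2 - 2 * trB k h h' z * ν + esB k h h' z ≠ 0)
    (hr : ∀ q, 1 + Pool.Agent.Helper42.CH.powA (tauB k h h' z ν) q ≠ 0) (m : ℕ) :
    ∃ c : ℂ, c ≠ 0 ∧ Wm k h h' o o' o'' ^ (m + 1) =
      c • TB k h h' z o o' o'' ν (Pool.Agent.Helper42.CH.powA (tauB k h h' z ν) m)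
        (sqR (2 * ν / (trB k h h' z - ν)) (tauB k h h' z ν) m) := by
  have hF := fB_ne hk hh hh' hz (ne_of_frac ho) (ne_of_frac ho') (ne_of_frac ho'')
  obtain ⟨h1, h2, h3⟩ := WBn_coeff hk hh hh' hz ho ho' ho''
  have e : Wm k h h' o o' o'' = fBW k h h' z o o' o'' • WBn k h h' z o o' o'' := by
    unfold WBn
    rw [smul_smul, mul_inv_cancel₀ hF, one_smul]
  obtain ⟨c, hc, h4⟩ := sq_pow3 (WBn k h h' z o o' o'') ν
    (by rw [h1, h2, h3]; linear_combination hν) (by rw [h1]; exact hs)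
    (by rw [h1, h2]; exact hD) (by rw [h1, h2]; exact hr) m
  refine ⟨fBW k h h' z o o' o'' ^ (m + 1) * c, mul_ne_zero (pow_ne_zero _ hF) hc, ?_⟩
  rw [e, smul_pow, h4, smul_smul, h1, h2]
  rfl

end cyc

/-! ### the cycle of a state -/

/-- the phase of a state -/
def zS (s : GS) (w : ℂ) : ℂ := if oriZ s then (1 + w) / (1 - w) else (1 - w) / (1 + w)

theorem zS_om {s : GS} {w : ℂ} (h : omS p q r s w ≠ 0) :
    2 * (1 + (lamS p q r s : ℝ) * zS s w) * omS p q r s w = 1 := by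
  unfold omS omW zS at *
  cases ho : oriZ s with
  | true =>
    rw [ho] at h
    simp only [if_true] at h ⊢
    have h1 : (1 : ℂ) - w ≠ 0 := fun h0 => h (by rw [h0, zero_div])
    have h2 : (1 - w) + (lamS p q r s : ℂ) * (1 + w) ≠ 0 :=
      fun h0 => h (by rw [h0, mul_zero, div_zero])
    field_simp
  | false =>
    rw [ho] at h
    simp only [Bool.false_eq_true, if_false] at h ⊢
    have h1 : (1 : ℂ) + w ≠ 0 := fun h0 => h (by rw [h0, zero_div])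
    have h2 : (1 + w) + (lamS p q r s : ℂ) * (1 - w) ≠ 0 :=
      fun h0 => h (by rw [h0, mul_zero, div_zero])
    field_simp

theorem oriZ_nx2 {s : GS} (h : DG s) : oriZ (Pool.Agent.Helper21.SUP.nx s 2) = oriZ s := by
  rw [Pool.Agent.Helper21.SUP.nx_even s 2 rfl]
  exact oriZ_rot h

theorem zS_nx2 {s : GS} (h : DG s) (w : ℂ) : zS (Pool.Agent.Helper21.SUP.nx s 2) w = zS s w := by
  unfold zS
  rw [oriZ_nx2 h]

/-- the family of a state -/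
def TBs (p q r : ℕ) (s : GS) (w ν A ρ : ℂ) : Matrix (Fin 3) (Fin 3) ℂ :=
  TB (kk p q r s.1 s.2.1) (kk p q r s.2.1 s.2.2) (kk p q r s.1 s.2.2) (zS s w)
    (omS p q r s w) (omS p q r (Pool.Agent.Helper21.SUP.nx s 2) w) (omS p q r (Pool.Agent.Helper21.SUP.nx (Pool.Agent.Helper21.SUP.nx s 2) 2) w) ν A ρ

/-- coefficients of the characteristic polynomial at a state -/
def trBs (p q r : ℕ) (s : GS) (w : ℂ) : ℂ :=
  trB (kk p q r s.1 s.2.1) (kk p q r s.2.1 s.2.2) (kk p q r s.1 s.2.2) (zS s w)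

def esBs (p q r : ℕ) (s : GS) (w : ℂ) : ℂ :=
  esB (kk p q r s.1 s.2.1) (kk p q r s.2.1 s.2.2) (kk p q r s.1 s.2.2) (zS s w)

def tauBs (p q r : ℕ) (s : GS) (w ν : ℂ) : ℂ :=
  1 - 4 * (ν ^ 2 - trBs p q r s w * ν + esBs p q r s w) / (trBs p q r s w - ν) ^ 2

/-- ALL POWERS OF THE B CYCLE of a state -/
theorem RMb_cycB (hp : 3 ≤ p) (hq : 3 ≤ q) (hr : 3 ≤ r) {s : GS} (hs : DG s) {w ν : ℂ}
    (o0 : omS p q r s w ≠ 0) (o1 : omS p q r (Pool.Agent.Helper21.SUP.nx s 2) w ≠ 0)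
    (o2 : omS p q r (Pool.Agent.Helper21.SUP.nx (Pool.Agent.Helper21.SUP.nx s 2) 2) w ≠ 0) (hz : zS s w ≠ 0)
    (hν : ν ^ 3 - trBs p q r s w * ν ^ 2 + esBs p q r s w * ν + 1 = 0)
    (hsp : trBs p q r s w ≠ ν) (hD : 3 * ν ^ 2 - 2 * trBs p q r s w * ν + esBs p q r s w ≠ 0)
    (hrr : ∀ q', 1 + Pool.Agent.Helper42.CH.powA (tauBs p q r s w ν) q' ≠ 0) (m : ℕ) :
    ∃ c : ℂ, c ≠ 0 ∧ (RMb p q r (Pool.Agent.Helper21.SUP.nx (Pool.Agent.Helper21.SUP.nx s 2) 2) 2 w * RMb p q r (Pool.Agent.Helper21.SUP.nx s 2) 2 w *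
        RMb p q r s 2 w) ^ (m + 1) =
      c • TBs p q r s w ν (Pool.Agent.Helper42.CH.powA (tauBs p q r s w ν) m)
        (sqR (2 * ν / (trBs p q r s w - ν)) (tauBs p q r s w ν) m) := by
  have hs' := DG_nx s 2 hs
  have hs'' := DG_nx _ 2 hs'
  have e3 : Pool.Agent.Helper21.SUP.nx (Pool.Agent.Helper21.SUP.nx (Pool.Agent.Helper21.SUP.nx s 2) 2) 2 = s := Pool.Agent.Helper21.SUP.nx_even3 s 2 rfl
  rw [NRB_RMb_two hp hq hr hs, NRB_RMb_two hp hq hr hs', NRB_RMb_two hp hq hr hs'', e3]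
  have z0 := zS_om o0
  have z1 := zS_om o1
  have z2 := zS_om o2
  rw [zS_nx2 hs] at z1
  rw [zS_nx2 hs', zS_nx2 hs] at z2
  have k1 := (LNI_kk hp hq hr _ _ hs.1).1
  have k2 := (LNI_kk hp hq hr _ _ hs'.1).1
  have k3 := (LNI_kk hp hq hr _ _ hs''.1).1
  have n1 : Pool.Agent.Helper21.SUP.nx s 2 = (s.2.1, s.2.2, s.1) := Pool.Agent.Helper21.SUP.nx_even s 2 rfl
  have n2 : Pool.Agent.Helper21.SUP.nx (Pool.Agent.Helper21.SUP.nx s 2) 2 = (s.2.2, s.1, s.2.1) := by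
    rw [Pool.Agent.Helper21.SUP.nx_even _ 2 rfl, n1]
  unfold TBs tauBs trBs esBs at *
  generalize omS p q r s w = o at *
  generalize omS p q r (Pool.Agent.Helper21.SUP.nx s 2) w = o' at *
  generalize omS p q r (Pool.Agent.Helper21.SUP.nx (Pool.Agent.Helper21.SUP.nx s 2) 2) w = o'' at *
  unfold lamS at z0 z1 z2
  rw [n1] at z1
  rw [n2] at z2
  rw [n1] at k2
  rw [n2] at k3
  rw [n2, n1]
  obtain ⟨n, a, b⟩ := s
  simp only at *
  rw [LNI_kk_symm p q r b n, LNI_kk_symm p q r a n] at z1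
  rw [LNI_kk_symm p q r b n, LNI_kk_symm p q r b a] at z2
  rw [LNI_kk_symm p q r b n] at k3
  rw [LNI_kk_symm p q r b n]
  generalize zS (n, a, b) w = z at *
  generalize kk p q r n a = k at *
  generalize kk p q r a b = h at *
  generalize kk p q r n b = h' at *
  obtain ⟨c, hc, e⟩ := WB_pow k1.ne' k2.ne' k3.ne' hz z0 z1 z2 hν hsp hD hrr m
  have c1 : (1 : ℂ) + 2 / k ≠ 0 := by
    have : (0 : ℝ) < 1 + 2 / k := by positivity
    exact_mod_cast this.ne'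
  have c2 : (1 : ℂ) + 2 / h ≠ 0 := by
    have : (0 : ℝ) < 1 + 2 / h := by positivity
    exact_mod_cast this.ne'
  have c3 : (1 : ℂ) + 2 / h' ≠ 0 := by
    have : (0 : ℝ) < 1 + 2 / h' := by positivity
    exact_mod_cast this.ne'
  refine ⟨((1 + 2 / (h' : ℂ)) * (1 + 2 / (h : ℂ)) * (1 + 2 / (k : ℂ))) ^ (m + 1) * c,
    mul_ne_zero (pow_ne_zero _ (mul_ne_zero (mul_ne_zero c3 c2) c1)) hc, ?_⟩
  unfold tauB at e
  rw [← smul_smul, ← e, Wm, ← smul_pow]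
  congr 1
  simp only [Matrix.smul_mul, Matrix.mul_smul, smul_smul, Matrix.mul_assoc]
  congr 1
  ring

end Pool.Agent.Helper6.MONO

namespace Pool.Agent.Helper39.SLT

open Pool.Agent.Helper6.MONO (nxD sD okD mm RMb omS kk LNI_kk LNI_mm zS trBs esBs tauBs TBs
  RMb_cycB)
open Pool.Agent.Helper21.SUP
open Pool.Agent.Helper39.C75
open Pool.Agent.Helper90.C75 (sqR)

theorem fD_alL2 {p q r : ℕ} (hp : 3 ≤ p) (hq : 3 ≤ q) (hr : 3 ≤ r) (k : ℕ) :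
    ∀ (s : GS) (f : Bool), DG s → fD p q r f s (alL 2 2 (k + 1)) = false := by
  induction k with
  | zero =>
    intro s f hs
    show decide (2 = mm p q r s.1 s.2.1) = false
    have := LNI_mm hp hq hr _ _ hs.1
    exact decide_eq_false (by omega)
  | succ k ih =>
    intro s f hs
    exact ih (nx s 2) (decide (2 = mm p q r s.1 s.2.1)) (DG_nx s 2 hs)

theorem alL2_add (a b : ℕ) : alL 2 2 (a + b) = alL 2 2 a ++ alL 2 2 b := by
  rw [alL_self, alL_self, alL_self, List.replicate_add]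

/-- `RESP_B`: a source from which `b ≤ 2` runs lead to the base state `s0` of the family. The sets
`E` and `X` are the entry and the exit set of the family. -/
theorem resp_B {p q r : ℕ} (hp : 3 ≤ p) (hq : 3 ≤ q) (hr : 3 ≤ r) {w ν : ℂ}
    {R : SSt Ty → Set (Fin 3 → ℂ)} {s0 : GS} (hs0 : DG s0)
    (o0 : omS p q r s0 w ≠ 0) (o1 : omS p q r (nx s0 2) w ≠ 0)
    (o2 : omS p q r (nx (nx s0 2) 2) w ≠ 0) (hz : zS s0 w ≠ 0)
    (hν : ν ^ 3 - trBs p q r s0 w * ν ^ 2 + esBs p q r s0 w * ν + 1 = 0)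
    (hsp : trBs p q r s0 w ≠ ν) (hD : 3 * ν ^ 2 - 2 * trBs p q r s0 w * ν + esBs p q r s0 w ≠ 0)
    (hrr : ∀ q', 1 + Pool.Agent.Helper42.CH.powA (tauBs p q r s0 w ν) q' ≠ 0)
    {J : ℕ} (D : ℕ → Set (ℂ × ℂ))
    (hDD : ∀ m, (Pool.Agent.Helper42.CH.powA (tauBs p q r s0 w ν) m,
      sqR (2 * ν / (trBs p q r s0 w - ν)) (tauBs p q r s0 w ν) m) ∈ D (min m J))
    {E X : Set (Fin 3 → ℂ)} (hX : ∀ (c : ℂ) (v : Fin 3 → ℂ), c ≠ 0 → v ∈ X → c • v ∈ X)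
    (fam : ∀ i ≤ J, ∀ d ∈ D i, ∀ v ∈ E, (TBs p q r s0 w ν d.1 d.2).mulVec v ∈ X)
    (exit : ∀ j < 3, ∀ v ∈ X, (gM (RMb p q r) s0 (alL 2 2 j) w).mulVec v ∈
      R (sD s0 (alL 2 2 j), false, some Ty.B))
    {s : GS} (hs : DG s) {f : Bool} {o : Option Ty} {b : ℕ} (hb : sD s (alL 2 2 b) = s0)
    (entry : ∀ v ∈ R (s, f, o), (gM (RMb p q r) s (alL 2 2 b) w).mulVec v ∈ E)
    (direct : ∀ n, n + 1 < b + 3 → Resp p q r (RMb p q r) w R s f o (alL 2 2 (n + 1)) Ty.B)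
    (k : ℕ) : Resp p q r (RMb p q r) w R s f o (alL 2 2 (k + 1)) Ty.B := by
  by_cases hk : k + 1 < b + 3
  · exact direct k hk
  obtain ⟨m, j, hj, e⟩ : ∃ m j : ℕ, j < 3 ∧ k + 1 = b + (3 * (m + 1) + j) := by
    refine ⟨(k + 1 - b) / 3 - 1, (k + 1 - b) % 3, Nat.mod_lt _ (by norm_num), ?_⟩
    omega
  intro v hv
  rw [fD_alL2 hp hq hr k s f hs, e, alL2_add, gM_append, sD_append, hb]
  have h1 := entry v hv
  obtain ⟨c, hc, h2⟩ := RMb_cycB hp hq hr hs0 o0 o1 o2 hz hν hsp hD hrr m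
  have h3 := hX c _ hc (fam _ (min_le_right _ _) _ (hDD m) _ h1)
  rw [← Matrix.smul_mulVec, ← h2] at h3
  have h4 := exit j hj _ h3
  have e1 : gM (RMb p q r) s0 (alL 2 2 (3 * (m + 1) + j)) w =
      gM (RMb p q r) s0 (alL 2 2 j) w *
      (RMb p q r (nx (nx s0 2) 2) 2 w * RMb p q r (nx s0 2) 2 w * RMb p q r s0 2 w) ^ (m + 1) := by
    rw [alL_self, alL_self]
    exact gM_rep_add _ s0 2 rfl w (m + 1) j
  have e2 : sD s0 (alL 2 2 (3 * (m + 1) + j)) = sD s0 (alL 2 2 j) := by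
    rw [alL2_add, sD_append, alL_self 2 (3 * (m + 1)), sD_rep s0 2 rfl]
  rw [e1, e2, ← Matrix.mulVec_mulVec, ← Matrix.mulVec_mulVec]
  exact h4

end Pool.Agent.Helper39.SLT
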