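import Pool.Agent.Helper39.CX.TSW
import Pool.Agent.Helper90.CX.NRB

/-!
Row NRB, second part: the B family in the form of the sandwich (`hfam` of `set_sw`), with the
parameter `ρ` in a disc (all phases), and the typed sandwiches for type B.
-/

set_option autoImplicit false
noncomputable section
namespace Pool.Agent.Helper39.SLT

open Pool.Agent.Helper6.MONO (nxD sD okD mm RMb omS kk zS trBs esBs tauBs TBs RMb_cycB)
open Pool.Agent.Helper21.SUP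
open Pool.Agent.Helper39.C75
open Pool.Agent.Helper90.C75 (sqR)
open Pool.Agent.Helper42.CH (powA)

/-- bounds of the geometric parameter: `‖ρ_{q+1}‖ = ‖g‖ ‖ρ_q‖ / ‖1 + A_q‖` -/
theorem sqR_le {g t : ℂ} {G : ℝ} (hg : ‖g‖ ≤ G) {J : ℕ} {D : ℕ → Set ℂ} {B : ℕ → ℝ}
    (hD : ∀ m, powA t m ∈ D (min m J)) (h0 : G ≤ B 0)
    (hB : ∀ i ≤ J, ∀ A ∈ D i, G * B i ≤ B (min (i + 1) J) * ‖1 + A‖)
    (hne : ∀ m, 1 + powA t m ≠ 0) (q : ℕ) :
    ‖sqR g t q‖ ≤ B (min q J) := by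
  have hG : 0 ≤ G := (norm_nonneg _).trans hg
  induction q with
  | zero =>
    have : min 0 J = 0 := Nat.zero_min J
    rw [this]
    exact hg.trans h0
  | succ q ih =>
    show ‖g * sqR g t q / (1 + powA t q)‖ ≤ _
    have h1 : 0 < ‖1 + powA t q‖ := norm_pos_iff.2 (hne q)
    rw [norm_div, norm_mul, div_le_iff₀ h1]
    have h2 := hB (min q J) (min_le_right _ _) _ (hD q)
    have e : min (min q J + 1) J = min (q + 1) J := by omega
    rw [e] at h2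
    refine le_trans ?_ h2
    exact mul_le_mul hg ih (norm_nonneg _) hG

/-- THE B FAMILY: all powers of the period at the state `s`, from the family -/
theorem fam_B {p q r : ℕ} (hp : 3 ≤ p) (hq : 3 ≤ q) (hr : 3 ≤ r) {w ν : ℂ} {s : GS} (hs : DG s)
    (o0 : omS p q r s w ≠ 0) (o1 : omS p q r (nx s 2) w ≠ 0)
    (o2 : omS p q r (nx (nx s 2) 2) w ≠ 0) (hz : zS s w ≠ 0)
    (hν : ν ^ 3 - trBs p q r s w * ν ^ 2 + esBs p q r s w * ν + 1 = 0)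
    (hsp : trBs p q r s w ≠ ν) (hD : 3 * ν ^ 2 - 2 * trBs p q r s w * ν + esBs p q r s w ≠ 0)
    (hrr : ∀ q', 1 + powA (tauBs p q r s w ν) q' ≠ 0)
    {J : ℕ} (D : ℕ → Set (ℂ × ℂ))
    (hDD : ∀ m, (powA (tauBs p q r s w ν) m,
      sqR (2 * ν / (trBs p q r s w - ν)) (tauBs p q r s w ν) m) ∈ D (min m J))
    {E X : Set (Fin 3 → ℂ)} (hX : ∀ (c : ℂ) (v : Fin 3 → ℂ), c ≠ 0 → v ∈ X → c • v ∈ X)
    (hT : ∀ i ≤ J, ∀ d ∈ D i, ∀ v ∈ E, (TBs p q r s w ν d.1 d.2).mulVec v ∈ X) :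
    ∀ n : ℕ, ∀ v ∈ E, (gM (RMb p q r) s (List.replicate 3 2) w ^ (n + 1)).mulVec v ∈ X := by
  intro n v hv
  obtain ⟨c, hc, e1⟩ := RMb_cycB hp hq hr hs o0 o1 o2 hz hν hsp hD hrr n
  have e2 : gM (RMb p q r) s (List.replicate 3 2) w =
      RMb p q r (nx (nx s 2) 2) 2 w * RMb p q r (nx s 2) 2 w * RMb p q r s 2 w := by
    show gM (RMb p q r) s [2, 2, 2] w = _
    simp only [gM, one_mul]
  rw [e2, e1, Matrix.smul_mulVec]
  exact hX c _ hc (hT _ (min_le_right _ _) _ (hDD n) v hv)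

variable {p q r : ℕ} {RM : GS → ℕ → ℂ → Matrix (Fin 3) (Fin 3) ℂ} {w : ℂ}

theorem gM_r1 (s : GS) : gM RM s (List.replicate 1 2) w = RM s 2 w := by
  show gM RM s [2] w = _
  simp only [gM, one_mul]

theorem gM_r2 (s : GS) : gM RM s (List.replicate 2 2) w = RM (nx s 2) 2 w * RM s 2 w := by
  show gM RM s [2, 2] w = _
  simp only [gM, one_mul]

theorem sD_r1 (s : GS) : sD s (List.replicate 1 2) = nx s 2 := by
  show sD s [2] = _
  rw [sD_cons, sD_nil]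

theorem sD_r2 (s : GS) : sD s (List.replicate 2 2) = nx (nx s 2) 2 := by
  show sD s [2, 2] = _
  rw [sD_cons, sD_cons, sD_nil]

/-- type B: source at the base state -/
theorem swB_0 {s0 : GS} {A0 E X : Set (Fin 3 → ℂ)} {T : GS → Set (Fin 3 → ℂ)}
    (hfam : ∀ n : ℕ, ∀ v ∈ E, (gM RM s0 (List.replicate 3 2) w ^ (n + 1)).mulVec v ∈ X)
    (hent : ∀ v ∈ A0, v ∈ E)
    (hex0 : ∀ v ∈ X, v ∈ T s0)
    (hex1 : ∀ v ∈ X, (RM s0 2 w).mulVec v ∈ T (nx s0 2))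
    (hex2 : ∀ v ∈ X, (RM (nx s0 2) 2 w * RM s0 2 w).mulVec v ∈ T (nx (nx s0 2) 2))
    (hd1 : ∀ v ∈ A0, (RM s0 2 w).mulVec v ∈ T (nx s0 2))
    (hd2 : ∀ v ∈ A0, (RM (nx s0 2) 2 w * RM s0 2 w).mulVec v ∈ T (nx (nx s0 2) 2)) (k : ℕ) :
    ∀ v ∈ A0, (gM RM s0 (List.replicate (k + 1) 2) w).mulVec v ∈
      T (sD s0 (List.replicate (k + 1) 2)) := by
  refine set_sw (b := 0) (by norm_num) (sD_222 s0) (sD_nil s0) hfam ?_ ?_ ?_ k
  · intro v hv
    show (gM RM s0 [] w).mulVec v ∈ E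
    simp only [gM, Matrix.one_mulVec]
    exact hent v hv
  · intro j hj v hv
    obtain rfl | rfl | rfl : j = 0 ∨ j = 1 ∨ j = 2 := by omega
    · show (gM RM s0 [] w).mulVec v ∈ T (sD s0 [])
      rw [sD_nil]
      simp only [gM, Matrix.one_mulVec]
      exact hex0 v hv
    · rw [gM_r1, sD_r1]; exact hex1 v hv
    · rw [gM_r2, sD_r2]; exact hex2 v hv
  · intro k h0 h1 v hv
    obtain rfl | rfl : k = 1 ∨ k = 2 := by omega
    · rw [gM_r1, sD_r1]; exact hd1 v hv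
    · rw [gM_r2, sD_r2]; exact hd2 v hv

/-- the exit conditions of type B at the base state `s0` -/
structure ExB (RM : GS → ℕ → ℂ → Matrix (Fin 3) (Fin 3) ℂ) (w : ℂ) (s0 : GS)
    (X : Set (Fin 3 → ℂ)) (T : GS → Set (Fin 3 → ℂ)) : Prop where
  x0 : ∀ v ∈ X, v ∈ T s0
  x1 : ∀ v ∈ X, (RM s0 2 w).mulVec v ∈ T (nx s0 2)
  x2 : ∀ v ∈ X, (RM (nx s0 2) 2 w * RM s0 2 w).mulVec v ∈ T (nx (nx s0 2) 2)

theorem ExB.hex {s0 : GS} {X : Set (Fin 3 → ℂ)} {T : GS → Set (Fin 3 → ℂ)}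
    (h : ExB RM w s0 X T) : ∀ j < 3, ∀ v ∈ X, (gM RM s0 (List.replicate j 2) w).mulVec v ∈
      T (sD s0 (List.replicate j 2)) := by
  intro j hj v hv
  obtain rfl | rfl | rfl : j = 0 ∨ j = 1 ∨ j = 2 := by omega
  · show (gM RM s0 [] w).mulVec v ∈ T (sD s0 [])
    rw [sD_nil]
    simp only [gM, Matrix.one_mulVec]
    exact h.x0 v hv
  · rw [gM_r1, sD_r1]; exact h.x1 v hv
  · rw [gM_r2, sD_r2]; exact h.x2 v hv

/-- type B: source one run before the base state `nx s 2` -/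
theorem swB_1 {s : GS} {A0 E X : Set (Fin 3 → ℂ)} {T : GS → Set (Fin 3 → ℂ)}
    (hfam : ∀ n : ℕ, ∀ v ∈ E, (gM RM (nx s 2) (List.replicate 3 2) w ^ (n + 1)).mulVec v ∈ X)
    (hent : ∀ v ∈ A0, (RM s 2 w).mulVec v ∈ E) (hex : ExB RM w (nx s 2) X T)
    (hd1 : ∀ v ∈ A0, (RM s 2 w).mulVec v ∈ T (nx s 2))
    (hd2 : ∀ v ∈ A0, (RM (nx s 2) 2 w * RM s 2 w).mulVec v ∈ T (nx (nx s 2) 2))
    (hd3 : ∀ v ∈ A0, (RM (nx (nx s 2) 2) 2 w * (RM (nx s 2) 2 w * RM s 2 w)).mulVec v ∈ T s)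
    (k : ℕ) :
    ∀ v ∈ A0, (gM RM s (List.replicate (k + 1) 2) w).mulVec v ∈
      T (sD s (List.replicate (k + 1) 2)) := by
  refine set_sw (b := 1) (s0 := nx s 2) (by norm_num) (sD_222 _) (sD_r1 s) hfam ?_ hex.hex ?_ k
  · intro v hv
    rw [gM_r1]; exact hent v hv
  · intro k h0 h1 v hv
    obtain rfl | rfl | rfl : k = 1 ∨ k = 2 ∨ k = 3 := by omega
    · rw [gM_r1, sD_r1]; exact hd1 v hv
    · rw [gM_r2, sD_r2]; exact hd2 v hv
    · rw [sD_222]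
      have e : gM RM s (List.replicate 3 2) w =
          RM (nx (nx s 2) 2) 2 w * (RM (nx s 2) 2 w * RM s 2 w) := by
        show gM RM s [2, 2, 2] w = _
        simp only [gM, one_mul, mul_assoc]
      rw [e]
      exact hd3 v hv

/-- type B: source two runs before the base state -/
theorem swB_2 {s : GS} {A0 E X : Set (Fin 3 → ℂ)} {T : GS → Set (Fin 3 → ℂ)}
    (hfam : ∀ n : ℕ, ∀ v ∈ E,
      (gM RM (nx (nx s 2) 2) (List.replicate 3 2) w ^ (n + 1)).mulVec v ∈ X)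
    (hent : ∀ v ∈ A0, (RM (nx s 2) 2 w * RM s 2 w).mulVec v ∈ E)
    (hex : ExB RM w (nx (nx s 2) 2) X T)
    (hd1 : ∀ v ∈ A0, (RM s 2 w).mulVec v ∈ T (nx s 2))
    (hd2 : ∀ v ∈ A0, (RM (nx s 2) 2 w * RM s 2 w).mulVec v ∈ T (nx (nx s 2) 2))
    (hd3 : ∀ v ∈ A0, (RM (nx (nx s 2) 2) 2 w * (RM (nx s 2) 2 w * RM s 2 w)).mulVec v ∈ T s)
    (hd4 : ∀ v ∈ A0, (RM s 2 w * (RM (nx (nx s 2) 2) 2 w * (RM (nx s 2) 2 w * RM s 2 w))).mulVec v
      ∈ T (nx s 2)) (k : ℕ) :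
    ∀ v ∈ A0, (gM RM s (List.replicate (k + 1) 2) w).mulVec v ∈
      T (sD s (List.replicate (k + 1) 2)) := by
  refine set_sw (b := 2) (s0 := nx (nx s 2) 2) (by norm_num) (sD_222 _) (sD_r2 s) hfam ?_ hex.hex
    ?_ k
  · intro v hv
    rw [gM_r2]; exact hent v hv
  · intro k h0 h1 v hv
    obtain rfl | rfl | rfl | rfl : k = 1 ∨ k = 2 ∨ k = 3 ∨ k = 4 := by omega
    · rw [gM_r1, sD_r1]; exact hd1 v hv
    · rw [gM_r2, sD_r2]; exact hd2 v hv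
    · rw [sD_222]
      have e : gM RM s (List.replicate 3 2) w =
          RM (nx (nx s 2) 2) 2 w * (RM (nx s 2) 2 w * RM s 2 w) := by
        show gM RM s [2, 2, 2] w = _
        simp only [gM, one_mul, mul_assoc]
      rw [e]
      exact hd3 v hv
    · have e3 : nx (nx (nx s 2) 2) 2 = s := nx_even3 s 2 rfl
      have e : gM RM s (List.replicate 4 2) w =
          RM s 2 w * (RM (nx (nx s 2) 2) 2 w * (RM (nx s 2) 2 w * RM s 2 w)) := by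
        show gM RM s [2, 2, 2, 2] w = _
        simp only [gM, one_mul, mul_assoc, e3]
      have e4 : sD s (List.replicate 4 2) = nx s 2 := by
        show sD s [2, 2, 2, 2] = _
        rw [sD_cons, sD_cons, sD_cons, sD_cons, sD_nil, e3]
      rw [e, e4]
      exact hd4 v hv

end Pool.Agent.Helper39.SLT
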