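import Pool.Agent.Helper86.CX.Fmt
import Pool.Agent.Helper90.CX.NRB2

/-!
Row NRB, third part: the projector of the simple eigenvalue has rank one, and all phases of the
parameter `ρ` at once (S-procedure, or vertices of a polygon).
-/

set_option autoImplicit false
noncomputable section
namespace Pool.Agent.Helper90.NRB

open Pool.Agent.Helper90.C75 (e2 prN prS prQ)
open Pool.Agent.Helper86.CX (Hm ev)
open Complex ComplexConjugate

/-! ### rank one -/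

/-- the adjugate of `ν - W`, entries in polynomial form -/
def adN (W : Matrix (Fin 3) (Fin 3) ℂ) (ν : ℂ) : Matrix (Fin 3) (Fin 3) ℂ :=
  W * W - (W.trace - ν) • W + (ν ^ 2 - W.trace * ν + e2 W) • (1 : Matrix (Fin 3) (Fin 3) ℂ)

/-- explicit cofactors -/
theorem adN_eq (W : Matrix (Fin 3) (Fin 3) ℂ) (ν : ℂ) :
    adN W ν = !![(ν - W 1 1) * (ν - W 2 2) - W 1 2 * W 2 1, W 0 1 * (ν - W 2 2) + W 0 2 * W 2 1,
        W 0 2 * (ν - W 1 1) + W 0 1 * W 1 2;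
      W 1 0 * (ν - W 2 2) + W 1 2 * W 2 0, (ν - W 0 0) * (ν - W 2 2) - W 0 2 * W 2 0,
        W 1 2 * (ν - W 0 0) + W 1 0 * W 0 2;
      W 2 0 * (ν - W 1 1) + W 2 1 * W 1 0, W 2 1 * (ν - W 0 0) + W 2 0 * W 0 1,
        (ν - W 0 0) * (ν - W 1 1) - W 0 1 * W 1 0] := by
  ext i j
  fin_cases i <;> fin_cases j <;>
    (simp [adN, e2, Matrix.trace, Matrix.mul_apply, Fin.sum_univ_three]
     ring)

/-- RANK ONE: the `2 × 2` minors with pivot `(0, 0)` vanish at a root of the characteristic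
polynomial -/
theorem adN_rank (W : Matrix (Fin 3) (Fin 3) ℂ) (ν : ℂ)
    (hν : ν ^ 3 - W.trace * ν ^ 2 + e2 W * ν - W.det = 0) (i j : Fin 3) :
    adN W ν i j * adN W ν 0 0 = adN W ν i 0 * adN W ν 0 j := by
  have hd : ν ^ 3 - (W 0 0 + W 1 1 + W 2 2) * ν ^ 2 + (W 0 0 * W 1 1 - W 0 1 * W 1 0 +
      (W 1 1 * W 2 2 - W 1 2 * W 2 1) + (W 0 0 * W 2 2 - W 0 2 * W 2 0)) * ν -
      (W 0 0 * W 1 1 * W 2 2 - W 0 0 * W 1 2 * W 2 1 - W 0 1 * W 1 0 * W 2 2 +
        W 0 1 * W 1 2 * W 2 0 + W 0 2 * W 1 0 * W 2 1 - W 0 2 * W 1 1 * W 2 0) = 0 := by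
    rw [Matrix.trace_fin_three, Matrix.det_fin_three] at hν
    exact hν
  have c00 : adN W ν 0 0 = (ν - W 1 1) * (ν - W 2 2) - W 1 2 * W 2 1 := by rw [adN_eq]; rfl
  have c01 : adN W ν 0 1 = W 0 1 * (ν - W 2 2) + W 0 2 * W 2 1 := by rw [adN_eq]; rfl
  have c02 : adN W ν 0 2 = W 0 2 * (ν - W 1 1) + W 0 1 * W 1 2 := by rw [adN_eq]; rfl
  have c10 : adN W ν 1 0 = W 1 0 * (ν - W 2 2) + W 1 2 * W 2 0 := by rw [adN_eq]; rfl
  have c11 : adN W ν 1 1 = (ν - W 0 0) * (ν - W 2 2) - W 0 2 * W 2 0 := by rw [adN_eq]; rfl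
  have c12 : adN W ν 1 2 = W 1 2 * (ν - W 0 0) + W 1 0 * W 0 2 := by rw [adN_eq]; rfl
  have c20 : adN W ν 2 0 = W 2 0 * (ν - W 1 1) + W 2 1 * W 1 0 := by rw [adN_eq]; rfl
  have c21 : adN W ν 2 1 = W 2 1 * (ν - W 0 0) + W 2 0 * W 0 1 := by rw [adN_eq]; rfl
  have c22 : adN W ν 2 2 = (ν - W 0 0) * (ν - W 1 1) - W 0 1 * W 1 0 := by rw [adN_eq]; rfl
  have key : (adN W ν 1 1 * adN W ν 0 0 = adN W ν 1 0 * adN W ν 0 1) ∧
      (adN W ν 1 2 * adN W ν 0 0 = adN W ν 1 0 * adN W ν 0 2) ∧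
      (adN W ν 2 1 * adN W ν 0 0 = adN W ν 2 0 * adN W ν 0 1) ∧
      (adN W ν 2 2 * adN W ν 0 0 = adN W ν 2 0 * adN W ν 0 2) := by
    rw [c00, c01, c02, c10, c11, c12, c20, c21, c22]
    refine ⟨?_, ?_, ?_, ?_⟩
    · linear_combination (ν - W 2 2) * hd
    · linear_combination (W 1 2) * hd
    · linear_combination (W 2 1) * hd
    · linear_combination (ν - W 1 1) * hd
  obtain ⟨k1, k2, k3, k4⟩ := key
  fin_cases i
  · exact mul_comm _ _
  · fin_cases j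
    · rfl
    · exact k1
    · exact k2
  · fin_cases j
    · rfl
    · exact k3
    · exact k4

/-- the projector as a product of a column and a row -/
theorem prN_rank (W : Matrix (Fin 3) (Fin 3) ℂ) (ν : ℂ)
    (hν : ν ^ 3 - W.trace * ν ^ 2 + e2 W * ν - W.det = 0) (h0 : adN W ν 0 0 ≠ 0)
    (v : Fin 3 → ℂ) (i : Fin 3) :
    (prN W ν (W.trace - ν) (ν ^ 2 - W.trace * ν + e2 W)).mulVec v i =
      (∑ j, adN W ν 0 j * v j) * (adN W ν i 0 /
        (adN W ν 0 0 * (3 * ν ^ 2 - 2 * W.trace * ν + e2 W))) := by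
  have hP : prN W ν (W.trace - ν) (ν ^ 2 - W.trace * ν + e2 W) =
      (3 * ν ^ 2 - 2 * W.trace * ν + e2 W)⁻¹ • adN W ν := by
    unfold prN adN
    congr 2
    ring
  have e : ∀ j, adN W ν i j = adN W ν i 0 * adN W ν 0 j / adN W ν 0 0 := by
    intro j
    rw [eq_div_iff h0]
    exact adN_rank W ν hν i j
  rw [hP, Matrix.smul_mulVec, Pi.smul_apply, smul_eq_mul]
  simp only [Matrix.mulVec, dotProduct]
  rw [Finset.sum_congr rfl fun j _ => by rw [e j], Fin.sum_univ_three, Fin.sum_univ_three]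
  simp only [div_eq_mul_inv, mul_inv]
  ring

/-! ### all phases -/

/-- S-procedure -/
theorem phases_S {H : (Fin 3 → ℂ) → ℝ} {L : (Fin 3 → ℂ) → ℝ} {M : Matrix (Fin 3) (Fin 3) ℂ}
    {a : Fin 3 → ℂ} {g : (Fin 3 → ℂ) → ℂ} {μ ρ₀ : ℝ} (hμ : 0 ≤ μ) {v : Fin 3 → ℂ}
    (h : ∀ η : ℂ, L v + μ * (ρ₀ ^ 2 * ‖g v‖ ^ 2 - ‖η‖ ^ 2) ≤ H (M.mulVec v + η • a)) {ρ : ℂ}
    (hρ : ‖ρ‖ ≤ ρ₀) : L v ≤ H (M.mulVec v + (ρ * g v) • a) := by
  refine le_trans ?_ (h (ρ * g v))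
  have h1 : ‖ρ * g v‖ ^ 2 ≤ ρ₀ ^ 2 * ‖g v‖ ^ 2 := by
    rw [norm_mul, mul_pow]
    exact mul_le_mul_of_nonneg_right (pow_le_pow_left₀ (norm_nonneg _) hρ 2) (sq_nonneg _)
  have h2 : 0 ≤ μ * (ρ₀ ^ 2 * ‖g v‖ ^ 2 - ‖ρ * g v‖ ^ 2) := mul_nonneg hμ (by linarith)
  linarith

/-- expansion of a Hermitian form on a line -/
theorem ev_line (K : Hm ℝ) (u b : Fin 3 → ℂ) (ρ : ℂ) :
    ev K (u + ρ • b) = ev K u + normSq ρ * ev K b +
      2 * (conj ρ * (conj (b 0) * (K.a * u 0 + K.x * u 1 + K.y * u 2) +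
        conj (b 1) * (conj K.x * u 0 + K.b * u 1 + K.w * u 2) +
        conj (b 2) * (conj K.y * u 0 + conj K.w * u 1 + K.c * u 2))).re := by
  simp only [ev, Hm.x, Hm.y, Hm.w, Pi.add_apply, Pi.smul_apply, smul_eq_mul]
  simp [normSq_apply]
  ring

/-- VERTICES: if the form is `≤ 0` on `b`, the minimum over a convex polygon of `ρ` is attained at a
vertex -/
theorem phases_poly {ι : Type*} [Fintype ι] {K : Hm ℝ} {u b : Fin 3 → ℂ} (hb : ev K b ≤ 0)
    {wt : ι → ℝ} (hw : ∀ i, 0 ≤ wt i) (hs : ∑ i, wt i = 1) {P : ι → ℂ} {c : ℝ}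
    (h : ∀ i, c ≤ ev K (u + P i • b)) {ρ : ℂ} (hρ : ρ = ∑ i, (wt i : ℂ) * P i) :
    c ≤ ev K (u + ρ • b) := by
  set q : ℂ := conj (b 0) * (K.a * u 0 + K.x * u 1 + K.y * u 2) +
        conj (b 1) * (conj K.x * u 0 + K.b * u 1 + K.w * u 2) +
        conj (b 2) * (conj K.y * u 0 + conj K.w * u 1 + K.c * u 2) with hq
  have e : ∀ z : ℂ, ev K (u + z • b) = ev K u + normSq z * ev K b + 2 * (conj z * q).re :=
    fun z => ev_line K u b z
  have h1 : c ≤ ∑ i, wt i * ev K (u + P i • b) := by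
    calc c = ∑ i, wt i * c := by rw [← Finset.sum_mul, hs, one_mul]
      _ ≤ _ := Finset.sum_le_sum fun i _ => mul_le_mul_of_nonneg_left (h i) (hw i)
  have h2 : ∑ i, wt i * ev K (u + P i • b) = ev K u + (∑ i, wt i * normSq (P i)) * ev K b +
      2 * (conj ρ * q).re := by
    have e2 : (conj ρ * q).re = ∑ i, wt i * (conj (P i) * q).re := by
      rw [hρ, map_sum, Finset.sum_mul, Complex.re_sum]
      refine Finset.sum_congr rfl fun i _ => ?_
      rw [map_mul, Complex.conj_ofReal, mul_assoc, Complex.re_ofReal_mul]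
    rw [e2]
    calc ∑ i, wt i * ev K (u + P i • b)
        = ∑ i, (wt i * ev K u + wt i * normSq (P i) * ev K b + 2 * (wt i * (conj (P i) * q).re)) := by
          refine Finset.sum_congr rfl fun i _ => ?_
          rw [e]; ring
      _ = _ := by
          rw [Finset.sum_add_distrib, Finset.sum_add_distrib, ← Finset.sum_mul, hs, one_mul,
            ← Finset.sum_mul, ← Finset.mul_sum]
  have h3 : normSq ρ ≤ ∑ i, wt i * normSq (P i) := by
    have h4 : 0 ≤ ∑ i, wt i * normSq (P i - ρ) :=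
      Finset.sum_nonneg fun i _ => mul_nonneg (hw i) (normSq_nonneg _)
    have h5 : ∑ i, wt i * normSq (P i - ρ) = ∑ i, wt i * normSq (P i) - normSq ρ := by
      have e3 : ∀ i, wt i * normSq (P i - ρ)
          = wt i * normSq (P i) - 2 * (wt i * (P i * conj ρ).re) + wt i * normSq ρ := by
        intro i
        rw [normSq_sub]; ring
      rw [Finset.sum_congr rfl fun i _ => e3 i, Finset.sum_add_distrib, Finset.sum_sub_distrib,
        ← Finset.mul_sum, ← Finset.sum_mul, hs, one_mul]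
      have e4 : ∑ i, wt i * (P i * conj ρ).re = normSq ρ := by
        have : ∑ i, wt i * (P i * conj ρ).re = ((∑ i, (wt i : ℂ) * P i) * conj ρ).re := by
          rw [Finset.sum_mul, Complex.re_sum]
          refine Finset.sum_congr rfl fun i _ => ?_
          rw [mul_assoc, Complex.re_ofReal_mul]
        rw [this, ← hρ, mul_conj, Complex.ofReal_re]
      rw [e4]; ring
    linarith
  rw [e]
  have h6 : (∑ i, wt i * normSq (P i)) * ev K b ≤ normSq ρ * ev K b :=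
    mul_le_mul_of_nonpos_right h3 hb
  linarith

end Pool.Agent.Helper90.NRB
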