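import Pool.Agent.Helper90.CX.KM1

/-!
Positive definiteness of integer Hermitian matrices of any size in the kernel: elimination with
truncated quotients. A matrix is the list of its rows (diagonal entry, entries to the right).
-/

set_option autoImplicit false
noncomputable section
namespace Pool.Agent.Helper90.PDN

open Pool.Agent.Helper86.C75 (Z)
open Pool.Agent.Helper86.C75.Z (opp)
open Pool.Agent.Helper86.CX (Cx andB)
open Pool.Agent.Helper90.KMO (zv zv_p zv_m zv_opp zv_add zv_sub zv_mul cz)
open Complex ComplexConjugate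

/-! ### the test -/

/-- quotient, rounded towards zero -/
def zdiv (x : Z) (a : Nat) : Z :=
  Z.rec (motive := fun _ => Z) (fun n => Z.p (Nat.div n a)) (fun n => Z.m (Nat.div n a)) x
/-- absolute value -/
def mg (x : Z) : Nat := Z.rec (motive := fun _ => Nat) (fun n => n) (fun n => n) x
/-- `conj x * y / a` -/
def cjd (a : Nat) (x y : Cx) : Cx :=
  ⟨zdiv (Z.add (Z.mul x.re y.re) (Z.mul x.im y.im)) a,
    zdiv (Z.sub (Z.mul x.re y.im) (Z.mul x.im y.re)) a⟩
/-- `|x|² / a`, rounded up -/
def nsd (a : Nat) (x : Cx) : Nat :=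
  Nat.add (Nat.div (Nat.add (Nat.mul (mg x.re) (mg x.re)) (Nat.mul (mg x.im) (mg x.im))) a)
    (nat_lit 1)

/-- a row: the diagonal entry and the entries to the right -/
structure Row where
  d : Z
  r : List Cx

def csb (x y : Cx) : Cx := ⟨Z.sub x.re y.re, Z.sub x.im y.im⟩
def cng (x : Cx) : Cx := ⟨opp x.re, opp x.im⟩

/-- `r_j - conj x * xs_j / a` -/
def rowS (a : Nat) (x : Cx) (xs : List Cx) : List Cx → List Cx :=
  List.rec (motive := fun _ => List Cx → List Cx) (fun r => r)
    (fun y _ ih r => List.rec (motive := fun _ => List Cx) (cng (cjd a x y) :: ih [])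
      (fun z t _ => csb z (cjd a x y) :: ih t) r) xs

def len {α : Type} (l : List α) : Nat :=
  List.rec (motive := fun _ => Nat) (nat_lit 0) (fun _ _ ih => Nat.add ih (nat_lit 1)) l

/-- one row of the Schur complement -/
def elR (a C : Nat) (x : Cx) (xs : List Cx) (d : Z) (r : List Cx) : Row :=
  ⟨Z.sub d (Z.p (Nat.add (nsd a x) C)), rowS a x xs r⟩

/-- the Schur complement, lowered by `C` -/
def elim (a C : Nat) (xs : List Cx) : List Row → List Row :=
  List.rec (motive := fun _ => List Row → List Row) (fun l => l)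
    (fun x xs ih l => List.rec (motive := fun _ => List Row)
      (elR a C x xs (Z.p (nat_lit 0)) [] :: ih [])
      (fun y t _ => elR a C x xs y.d y.r :: ih t) l) xs

/-- one pivot -/
def piv (f : List Row → Bool) (d : Z) (h : List Cx) (t : List Row) : Bool :=
  Z.rec (motive := fun _ => Bool)
    (fun a => andB (Nat.ble (nat_lit 1) a) (f (elim a (Nat.mul (nat_lit 2) (len h)) h t)))
    (fun _ => false) d

/-- THE TEST -/
def pd (fuel : List Row) : List Row → Bool :=
  List.rec (motive := fun _ => List Row → Bool)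
    (fun l => List.rec (motive := fun _ => Bool) true (fun _ _ _ => false) l)
    (fun _ _ ih l => List.rec (motive := fun _ => Bool) true (fun y t _ => piv ih y.d y.r t) l) fuel

def pdN (l : List Row) : Bool := pd l l

/-! ### values -/

/-- `∑ h_j v_j` -/
def rv : List Cx → List ℂ → ℂ
  | [], _ => 0
  | _ :: _, [] => 0
  | h :: hs, v :: vs => cz h * v + rv hs vs

/-- the value of a matrix -/
def F : List Row → List ℂ → ℝ
  | [], _ => 0
  | _ :: _, [] => 0
  | y :: t, v :: vs => zv y.d * normSq v + 2 * (conj v * rv y.r vs).re + F t vs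

/-- `∑_{j < k} |v_j|²` -/
def S : ℕ → List ℂ → ℝ
  | 0, _ => 0
  | _ + 1, [] => 0
  | k + 1, v :: vs => normSq v + S k vs

theorem rv_nil_left (vs : List ℂ) : rv [] vs = 0 := by cases vs <;> rfl
theorem rv_nil_right (hs : List Cx) : rv hs [] = 0 := by cases hs <;> rfl
theorem F_nil_left (vs : List ℂ) : F [] vs = 0 := by cases vs <;> rfl
theorem F_nil_right (l : List Row) : F l [] = 0 := by cases l <;> rfl
theorem S_zero (vs : List ℂ) : S 0 vs = 0 := by cases vs <;> rfl
theorem S_nil (k : ℕ) : S k [] = 0 := by cases k <;> rfl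
theorem S_nonneg : ∀ (k : ℕ) (vs : List ℂ), 0 ≤ S k vs
  | 0, vs => by rw [S_zero]
  | k + 1, [] => le_refl _
  | k + 1, v :: vs => add_nonneg (normSq_nonneg v) (S_nonneg k vs)

theorem len_eq {α : Type} (l : List α) : len l = l.length := by
  induction l with
  | nil => rfl
  | cons x l ih =>
    show len l + 1 = _
    rw [ih]
    rfl

/-! ### rounding -/

theorem nat_div_bd {n a : ℕ} (ha : 0 < a) : ((n / a : ℕ) : ℝ) ≤ n / a ∧
    (n : ℝ) / a ≤ (n / a : ℕ) + 1 := by
  have ha' : (0 : ℝ) < a := by exact_mod_cast ha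
  constructor
  · rw [le_div_iff₀ ha']
    exact_mod_cast Nat.div_mul_le_self n a
  · rw [div_le_iff₀ ha']
    have h := Nat.lt_div_mul_add (a := n) ha
    have h2 : n ≤ (n / a + 1) * a := by
      rw [add_mul, one_mul]
      exact h.le
    exact_mod_cast h2

theorem zdiv_bd {x : Z} {a : ℕ} (ha : 0 < a) : |(zv (zdiv x a) : ℝ) - zv x / a| ≤ 1 := by
  cases x with
  | p n =>
    have h := nat_div_bd (n := n) ha
    show |(((n / a : ℕ) : ℤ) : ℝ) - ((n : ℤ) : ℝ) / a| ≤ 1
    rw [Int.cast_natCast, Int.cast_natCast, abs_le]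
    constructor <;> linarith [h.1, h.2]
  | m n =>
    have h := nat_div_bd (n := n) ha
    show |((-((n / a : ℕ) : ℤ) : ℤ) : ℝ) - ((-(n : ℤ) : ℤ) : ℝ) / a| ≤ 1
    have e : -((n : ℝ)) / a = -(n / a) := by ring
    rw [Int.cast_neg, Int.cast_neg, Int.cast_natCast, Int.cast_natCast, e, abs_le]
    constructor <;> linarith [h.1, h.2]

theorem mg_sq (x : Z) : ((mg x : ℕ) : ℝ) * (mg x : ℕ) = (zv x : ℝ) * zv x := by
  cases x with
  | p n => rfl
  | m n =>
    show ((n : ℕ) : ℝ) * (n : ℕ) = ((-(n : ℤ) : ℤ) : ℝ) * ((-(n : ℤ) : ℤ) : ℝ)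
    push_cast
    ring

theorem cz_normSq (x : Cx) : normSq (cz x) = (zv x.re : ℝ) * zv x.re + (zv x.im : ℝ) * zv x.im := by
  rw [normSq_apply]
  rfl

theorem nsd_ge {a : ℕ} (ha : 0 < a) (x : Cx) : normSq (cz x) / a ≤ (nsd a x : ℕ) := by
  have h := (nat_div_bd (n := mg x.re * mg x.re + mg x.im * mg x.im) ha).2
  have e : ((mg x.re * mg x.re + mg x.im * mg x.im : ℕ) : ℝ) = normSq (cz x) := by
    push_cast
    rw [mg_sq, mg_sq, cz_normSq]
  rw [e] at h
  refine h.trans (le_of_eq ?_)
  show _ = (((mg x.re * mg x.re + mg x.im * mg x.im) / a + 1 : ℕ) : ℝ)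
  push_cast
  rfl

/-- the error of one quotient against a vector entry -/
theorem cjd_bd {a : ℕ} (ha : 0 < a) (x y : Cx) (v w : ℂ) :
    2 * (conj v * (conj (cz x) * cz y / a * w)).re ≤
      2 * (conj v * (cz (cjd a x y) * w)).re + 3 / 2 * (normSq v + normSq w) := by
  have r1 := zdiv_bd (x := Z.add (Z.mul x.re y.re) (Z.mul x.im y.im)) ha
  have r2 := zdiv_bd (x := Z.sub (Z.mul x.re y.im) (Z.mul x.im y.re)) ha
  rw [zv_add, zv_mul, zv_mul] at r1
  rw [zv_sub, zv_mul, zv_mul] at r2
  push_cast at r1 r2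
  have ha' : (a : ℝ) ≠ 0 := by
    have : (0 : ℝ) < a := by exact_mod_cast ha
    exact this.ne'
  set e : ℂ := conj (cz x) * cz y / a - cz (cjd a x y) with he
  have e1 : e.re = ((zv x.re : ℝ) * zv y.re + (zv x.im : ℝ) * zv y.im) / a -
      zv (zdiv (Z.add (Z.mul x.re y.re) (Z.mul x.im y.im)) a) := by
    rw [he, Complex.sub_re, show (a : ℂ) = ((a : ℝ) : ℂ) by push_cast; rfl, Complex.div_ofReal_re,
      Complex.mul_re, Complex.conj_re, Complex.conj_im]
    show ((zv x.re : ℝ) * zv y.re - -(zv x.im : ℝ) * zv y.im) / a - _ = _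
    rw [neg_mul, sub_neg_eq_add]
    rfl
  have e2 : e.im = ((zv x.re : ℝ) * zv y.im - (zv x.im : ℝ) * zv y.re) / a -
      zv (zdiv (Z.sub (Z.mul x.re y.im) (Z.mul x.im y.re)) a) := by
    rw [he, Complex.sub_im, show (a : ℂ) = ((a : ℝ) : ℂ) by push_cast; rfl, Complex.div_ofReal_im,
      Complex.mul_im, Complex.conj_re, Complex.conj_im]
    show ((zv x.re : ℝ) * zv y.im + -(zv x.im : ℝ) * zv y.re) / a - _ = _
    rw [neg_mul, ← sub_eq_add_neg]
    rfl
  have h1 : |e.re| ≤ 1 := by rw [e1, abs_sub_comm]; exact r1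
  have h2 : |e.im| ≤ 1 := by rw [e2, abs_sub_comm]; exact r2
  have hn : ‖e‖ ≤ 3 / 2 := by
    have hs : normSq e ≤ 2 := by
      rw [normSq_apply]
      have a1 := abs_le.1 h1
      have a2 := abs_le.1 h2
      nlinarith [a1.1, a1.2, a2.1, a2.2]
    rw [Complex.normSq_eq_norm_sq] at hs
    nlinarith [norm_nonneg e]
  have hk : 2 * (conj v * (e * w)).re ≤ 3 / 2 * (normSq v + normSq w) := by
    have h3 : (conj v * (e * w)).re ≤ ‖v‖ * (3 / 2 * ‖w‖) := by
      refine (Complex.re_le_norm _).trans ?_
      rw [norm_mul, norm_mul, Complex.norm_conj]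
      exact mul_le_mul_of_nonneg_left (mul_le_mul_of_nonneg_right hn (norm_nonneg _))
        (norm_nonneg _)
    rw [Complex.normSq_eq_norm_sq, Complex.normSq_eq_norm_sq]
    nlinarith [sq_nonneg (‖v‖ - ‖w‖)]
  have e3 : conj v * (conj (cz x) * cz y / a * w) =
      conj v * (cz (cjd a x y) * w) + conj v * (e * w) := by
    rw [he]; ring
  rw [e3, Complex.add_re]
  linarith

theorem cz_cng (x : Cx) : cz (cng x) = -cz x := by
  apply Complex.ext
  · show ((zv (opp x.re) : ℤ) : ℝ) = -(zv x.re : ℝ)
    rw [zv_opp]; push_cast; rfl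
  · show ((zv (opp x.im) : ℤ) : ℝ) = -(zv x.im : ℝ)
    rw [zv_opp]; push_cast; rfl

theorem cz_csb (x y : Cx) : cz (csb x y) = cz x - cz y := by
  apply Complex.ext
  · show ((zv (Z.sub x.re y.re) : ℤ) : ℝ) = (zv x.re : ℝ) - zv y.re
    rw [zv_sub]; push_cast; rfl
  · show ((zv (Z.sub x.im y.im) : ℤ) : ℝ) = (zv x.im : ℝ) - zv y.im
    rw [zv_sub]; push_cast; rfl

/-! ### one row -/

theorem rowS_le {a : ℕ} (ha : 0 < a) (x : Cx) (v : ℂ) : ∀ (xs r : List Cx) (vs : List ℂ),
    2 * (conj v * rv (rowS a x xs r) vs).re ≤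
      2 * (conj v * (rv r vs - conj (cz x) * rv xs vs / a)).re +
        3 / 2 * (xs.length * normSq v + S xs.length vs)
  | [], r, vs => by
    show 2 * (conj v * rv r vs).re ≤ _
    rw [rv_nil_left, List.length_nil, S_zero]
    simp
  | y :: xs, r, [] => by
    rw [rv_nil_right, rv_nil_right, rv_nil_right]
    have h1 := S_nonneg (y :: xs).length []
    have h2 := mul_nonneg (Nat.cast_nonneg (α := ℝ) (y :: xs).length) (normSq_nonneg v)
    simp only [mul_zero, zero_div, sub_zero, Complex.zero_re]
    linarith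
  | y :: xs, [], w :: vs => by
    have ih := rowS_le ha x v xs [] vs
    have hc := cjd_bd ha x y v (-w)
    have e1 : rv (rowS a x (y :: xs) []) (w :: vs) =
        cz (cjd a x y) * (-w) + rv (rowS a x xs []) vs := by
      show cz (cng (cjd a x y)) * w + rv (rowS a x xs []) vs = _
      rw [cz_cng]; ring
    have e2 : rv (y :: xs) (w :: vs) = cz y * w + rv xs vs := rfl
    have e3 : rv [] (w :: vs) = 0 := rfl
    have e4 : rv [] vs = 0 := rv_nil_left vs
    have e5 : S (y :: xs).length (w :: vs) = normSq w + S xs.length vs := rfl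
    have e6 : (((y :: xs).length : ℕ) : ℝ) = xs.length + 1 := by
      rw [List.length_cons]; push_cast; rfl
    rw [e1, e2, e3, e5, e6]
    rw [e4] at ih
    rw [normSq_neg] at hc
    have f1 : (conj v * (cz (cjd a x y) * -w + rv (rowS a x xs []) vs)).re =
        (conj v * (cz (cjd a x y) * -w)).re + (conj v * rv (rowS a x xs []) vs).re := by
      rw [← Complex.add_re]; congr 1; ring
    have f2 : (conj v * (0 - conj (cz x) * (cz y * w + rv xs vs) / a)).re =
        (conj v * (conj (cz x) * cz y / a * -w)).re +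
          (conj v * (0 - conj (cz x) * rv xs vs / a)).re := by
      rw [← Complex.add_re]; congr 1; ring
    rw [f1, f2]
    -- the error has the other sign
    have hc' := cjd_bd ha x y v w
    have g1 : (conj v * (cz (cjd a x y) * -w)).re = -(conj v * (cz (cjd a x y) * w)).re := by
      rw [← Complex.neg_re]; congr 1; ring
    have g2 : (conj v * (conj (cz x) * cz y / a * -w)).re =
        -(conj v * (conj (cz x) * cz y / a * w)).re := by
      rw [← Complex.neg_re]; congr 1; ring
    rw [g1, g2]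
    linarith
  | y :: xs, z :: t, w :: vs => by
    have ih := rowS_le ha x v xs t vs
    have hc' := cjd_bd ha x y v w
    have e1 : rv (rowS a x (y :: xs) (z :: t)) (w :: vs) =
        (cz z - cz (cjd a x y)) * w + rv (rowS a x xs t) vs := by
      show cz (csb z (cjd a x y)) * w + rv (rowS a x xs t) vs = _
      rw [cz_csb]
    have e2 : rv (y :: xs) (w :: vs) = cz y * w + rv xs vs := rfl
    have e3 : rv (z :: t) (w :: vs) = cz z * w + rv t vs := rfl
    have e5 : S (y :: xs).length (w :: vs) = normSq w + S xs.length vs := rfl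
    have e6 : (((y :: xs).length : ℕ) : ℝ) = xs.length + 1 := by
      rw [List.length_cons]; push_cast; rfl
    rw [e1, e2, e3, e5, e6]
    have f1 : (conj v * ((cz z - cz (cjd a x y)) * w + rv (rowS a x xs t) vs)).re =
        (conj v * (cz z * w)).re - (conj v * (cz (cjd a x y) * w)).re +
          (conj v * rv (rowS a x xs t) vs).re := by
      rw [← Complex.sub_re, ← Complex.add_re]; congr 1; ring
    have f2 : (conj v * (cz z * w + rv t vs - conj (cz x) * (cz y * w + rv xs vs) / a)).re =
        (conj v * (cz z * w)).re - (conj v * (conj (cz x) * cz y / a * w)).re +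
          (conj v * (rv t vs - conj (cz x) * rv xs vs / a)).re := by
      rw [← Complex.sub_re, ← Complex.add_re]; congr 1; ring
    rw [f1, f2]
    linarith

/-! ### the Schur complement -/

theorem sq_exp (x v w : ℂ) : normSq (x * v + w) =
    normSq x * normSq v + 2 * (conj v * (conj x * w)).re + normSq w := by
  simp only [normSq_apply, Complex.add_re, Complex.add_im, Complex.mul_re, Complex.mul_im,
    Complex.conj_re, Complex.conj_im]
  ring

theorem elR_le {a : ℕ} (ha : 0 < a) (C : ℕ) (x : Cx) (xs : List Cx) (d : Z) (r : List Cx)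
    (v : ℂ) (vs : List ℂ) {G G' : ℝ} (hG : G ≤ G' - normSq (rv xs vs) / a -
      (C - 2 * xs.length) * S xs.length vs) :
    zv (elR a C x xs d r).d * normSq v + 2 * (conj v * rv (elR a C x xs d r).r vs).re + G ≤
      (zv d * normSq v + 2 * (conj v * rv r vs).re + G') -
        normSq (cz x * v + rv xs vs) / a -
        (C - 2 * ((x :: xs).length : ℕ)) * S (x :: xs).length (v :: vs) := by
  have h1 := rowS_le ha x v xs r vs
  have h2 := nsd_ge ha x
  have ha' : (0 : ℝ) < a := by exact_mod_cast ha
  have e1 : ((zv (elR a C x xs d r).d : ℤ) : ℝ) = zv d - ((nsd a x : ℕ) + C) := by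
    show ((zv (Z.sub d (Z.p (nsd a x + C))) : ℤ) : ℝ) = _
    rw [zv_sub, zv_p]
    push_cast
    ring
  have e2 : (elR a C x xs d r).r = rowS a x xs r := rfl
  have e3 : S (x :: xs).length (v :: vs) = normSq v + S xs.length vs := rfl
  have e4 : (((x :: xs).length : ℕ) : ℝ) = xs.length + 1 := by
    rw [List.length_cons]; push_cast; rfl
  rw [e1, e2, e3, e4, sq_exp]
  have nv := normSq_nonneg v
  have h3 := mul_le_mul_of_nonneg_right h2 nv
  have e5 : (conj v * (rv r vs - conj (cz x) * rv xs vs / a)).re =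
      (conj v * rv r vs).re - (conj v * (conj (cz x) * rv xs vs)).re / a := by
    have h4 : conj v * (rv r vs - conj (cz x) * rv xs vs / a) =
        conj v * rv r vs - conj v * (conj (cz x) * rv xs vs) / ((a : ℝ) : ℂ) := by
      push_cast; ring
    rw [h4, Complex.sub_re, Complex.div_ofReal_re]
  rw [e5] at h1
  have e6 : (normSq (cz x) * normSq v + 2 * (conj v * (conj (cz x) * rv xs vs)).re +
      normSq (rv xs vs)) / a = normSq (cz x) / a * normSq v +
      2 * ((conj v * (conj (cz x) * rv xs vs)).re / a) + normSq (rv xs vs) / a := by ring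
  rw [e6]
  have k0 : (0 : ℝ) ≤ xs.length := Nat.cast_nonneg _
  have s0 := S_nonneg xs.length vs
  nlinarith [mul_nonneg k0 nv]

/-- THE SCHUR COMPLEMENT -/
theorem elim_le {a : ℕ} (ha : 0 < a) (C : ℕ) : ∀ (xs : List Cx) (l : List Row) (vs : List ℂ),
    F (elim a C xs l) vs ≤ F l vs - normSq (rv xs vs) / a -
      (C - 2 * (xs.length : ℕ)) * S xs.length vs
  | [], l, vs => by
    show F l vs ≤ _
    rw [rv_nil_left, List.length_nil, S_zero]
    simp
  | x :: xs, l, [] => by
    rw [F_nil_right, F_nil_right, rv_nil_right, S_nil]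
    simp
  | x :: xs, [], v :: vs => by
    have ih := elim_le ha C xs [] vs
    have h := elR_le ha C x xs (Z.p (nat_lit 0)) [] v vs ih
    have e0 : ((zv (Z.p (nat_lit 0)) : ℤ) : ℝ) = 0 := by rw [zv_p]; norm_num
    rw [e0, rv_nil_left, F_nil_left] at h
    have e1 : F (elim a C (x :: xs) []) (v :: vs) =
      zv (elR a C x xs (Z.p (nat_lit 0)) []).d * normSq v +
        2 * (conj v * rv (elR a C x xs (Z.p (nat_lit 0)) []).r vs).re + F (elim a C xs []) vs := rfl
    have e2 : rv (x :: xs) (v :: vs) = cz x * v + rv xs vs := rfl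
    rw [e1, e2, F_nil_left]
    simp only [zero_mul, mul_zero, Complex.zero_re, add_zero] at h
    exact h
  | x :: xs, y :: t, v :: vs => by
    have ih := elim_le ha C xs t vs
    exact elR_le ha C x xs y.d y.r v vs ih

/-! ### the test -/

theorem andB_t {x y : Bool} (h : andB x y = true) : x = true ∧ y = true := by
  cases x with
  | false => cases h
  | true => exact ⟨rfl, h⟩

theorem sq_le {a : ℝ} (ha : 0 < a) (v w : ℂ) :
    0 ≤ a * normSq v + 2 * (conj v * w).re + normSq w / a := by
  have h := normSq_nonneg ((a : ℂ) * v + w)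
  rw [sq_exp] at h
  have e1 : normSq (a : ℂ) = a * a := normSq_ofReal a
  have e2 : (conj v * (conj (a : ℂ) * w)).re = a * (conj v * w).re := by
    rw [Complex.conj_ofReal]
    have : conj v * ((a : ℂ) * w) = (a : ℂ) * (conj v * w) := by ring
    rw [this, Complex.re_ofReal_mul]
  rw [e1, e2] at h
  have h2 := div_nonneg h ha.le
  have e3 : (a * a * normSq v + 2 * (a * (conj v * w).re) + normSq w) / a =
      a * normSq v + 2 * (conj v * w).re + normSq w / a := by
    field_simp
  rw [e3] at h2
  exact h2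

theorem pd_sound : ∀ (fuel l : List Row), pd fuel l = true → ∀ vs : List ℂ, 0 ≤ F l vs
  | [], [], _, vs => by rw [F_nil_left]
  | [], _ :: _, h, _ => by cases h
  | _ :: _, [], _, vs => by rw [F_nil_left]
  | f :: fuel, y :: t, h, vs => by
    cases vs with
    | nil => rw [F_nil_right]
    | cons v vs =>
      have h' : piv (pd fuel) y.d y.r t = true := h
      cases hd : y.d with
      | m n =>
        rw [hd] at h'
        cases h'
      | p a =>
        rw [hd] at h'
        obtain ⟨h1, h2⟩ := andB_t (show andB (Nat.ble (nat_lit 1) a)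
          (pd fuel (elim a (Nat.mul (nat_lit 2) (len y.r)) y.r t)) = true from h')
        have ha : 0 < a := Nat.le_of_ble_eq_true h1
        have ih := pd_sound fuel _ h2 vs
        have hl := elim_le ha (Nat.mul (nat_lit 2) (len y.r)) y.r t vs
        have e1 : ((Nat.mul (nat_lit 2) (len y.r) : ℕ) : ℝ) = 2 * (y.r.length : ℕ) := by
          rw [len_eq]
          show ((2 * y.r.length : ℕ) : ℝ) = _
          push_cast
          rfl
        rw [e1, sub_self, zero_mul, sub_zero] at hl
        have ha' : (0 : ℝ) < a := by exact_mod_cast ha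
        have hs := sq_le ha' v (rv y.r vs)
        have e2 : F (y :: t) (v :: vs) = zv y.d * normSq v + 2 * (conj v * rv y.r vs).re + F t vs :=
          rfl
        rw [e2, hd, zv_p]
        have e3 : (((a : ℕ) : ℤ) : ℝ) = (a : ℝ) := Int.cast_natCast a
        rw [e3]
        linarith

/-- **POSITIVE SEMIDEFINITE** -/
theorem pdN_sound {l : List Row} (h : pdN l = true) (vs : List ℂ) : 0 ≤ F l vs :=
  pd_sound l l h vs

end Pool.Agent.Helper90.PDN
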