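import Pool.Agent.Helper90.CX.PDN1
import Pool.Agent.Helper86.CX.Fmt

/-!
Hermitian matrices as lists of rows: sums, multiples, the form `2 Re (X v) conj (Y v)`, products of
two `3 x 3` forms on tensors.
-/

set_option autoImplicit false
noncomputable section
namespace Pool.Agent.Helper90.PDN

open Pool.Agent.Helper86.C75 (Z)
open Pool.Agent.Helper86.C75.Z (opp)
open Pool.Agent.Helper86.CX (Cx andB Hm ev)
open Pool.Agent.Helper90.KMO (zv zv_p zv_m zv_opp zv_add zv_sub zv_mul cz)
open Complex ComplexConjugate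

/-! ### sums -/

def cad (x y : Cx) : Cx := ⟨Z.add x.re y.re, Z.add x.im y.im⟩
/-- `conj x * y` -/
def cjm (x y : Cx) : Cx :=
  ⟨Z.add (Z.mul x.re y.re) (Z.mul x.im y.im), Z.sub (Z.mul x.re y.im) (Z.mul x.im y.re)⟩
/-- `x * y` -/
def cmu (x y : Cx) : Cx :=
  ⟨Z.sub (Z.mul x.re y.re) (Z.mul x.im y.im), Z.add (Z.mul x.re y.im) (Z.mul x.im y.re)⟩
/-- real multiple -/
def csm (c : Z) (x : Cx) : Cx := ⟨Z.mul c x.re, Z.mul c x.im⟩

def addL (l : List Cx) : List Cx → List Cx :=
  List.rec (motive := fun _ => List Cx → List Cx) (fun r => r)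
    (fun x xs ih r => List.rec (motive := fun _ => List Cx) (x :: xs)
      (fun y t _ => cad x y :: ih t) r) l
def addR (l : List Row) : List Row → List Row :=
  List.rec (motive := fun _ => List Row → List Row) (fun r => r)
    (fun x xs ih r => List.rec (motive := fun _ => List Row) (x :: xs)
      (fun y t _ => ⟨Z.add x.d y.d, addL x.r y.r⟩ :: ih t) r) l
def smL (c : Z) (l : List Cx) : List Cx :=
  List.rec (motive := fun _ => List Cx) [] (fun x _ ih => csm c x :: ih) l
def smR (c : Z) (l : List Row) : List Row :=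
  List.rec (motive := fun _ => List Row) [] (fun x _ ih => ⟨Z.mul c x.d, smL c x.r⟩ :: ih) l

theorem cz_cad (x y : Cx) : cz (cad x y) = cz x + cz y := by
  apply Complex.ext
  · show ((zv (Z.add x.re y.re) : ℤ) : ℝ) = (zv x.re : ℝ) + zv y.re
    rw [zv_add]; push_cast; rfl
  · show ((zv (Z.add x.im y.im) : ℤ) : ℝ) = (zv x.im : ℝ) + zv y.im
    rw [zv_add]; push_cast; rfl

theorem cz_cjm (x y : Cx) : cz (cjm x y) = conj (cz x) * cz y := by
  apply Complex.ext
  · rw [Complex.mul_re, Complex.conj_re, Complex.conj_im]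
    show ((zv (Z.add (Z.mul x.re y.re) (Z.mul x.im y.im)) : ℤ) : ℝ) =
      (zv x.re : ℝ) * zv y.re - -(zv x.im : ℝ) * zv y.im
    rw [zv_add, zv_mul, zv_mul]; push_cast; ring
  · rw [Complex.mul_im, Complex.conj_re, Complex.conj_im]
    show ((zv (Z.sub (Z.mul x.re y.im) (Z.mul x.im y.re)) : ℤ) : ℝ) =
      (zv x.re : ℝ) * zv y.im + -(zv x.im : ℝ) * zv y.re
    rw [zv_sub, zv_mul, zv_mul]; push_cast; ring

theorem cz_cmu (x y : Cx) : cz (cmu x y) = cz x * cz y := by
  apply Complex.ext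
  · rw [Complex.mul_re]
    show ((zv (Z.sub (Z.mul x.re y.re) (Z.mul x.im y.im)) : ℤ) : ℝ) =
      (zv x.re : ℝ) * zv y.re - (zv x.im : ℝ) * zv y.im
    rw [zv_sub, zv_mul, zv_mul]; push_cast; ring
  · rw [Complex.mul_im]
    show ((zv (Z.add (Z.mul x.re y.im) (Z.mul x.im y.re)) : ℤ) : ℝ) =
      (zv x.re : ℝ) * zv y.im + (zv x.im : ℝ) * zv y.re
    rw [zv_add, zv_mul, zv_mul]; push_cast; ring

theorem cz_csm (c : Z) (x : Cx) : cz (csm c x) = (zv c : ℂ) * cz x := by
  apply Complex.ext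
  · rw [Complex.mul_re, Complex.intCast_re, Complex.intCast_im]
    show ((zv (Z.mul c x.re) : ℤ) : ℝ) = (zv c : ℝ) * zv x.re - 0 * _
    rw [zv_mul]; push_cast; ring
  · rw [Complex.mul_im, Complex.intCast_re, Complex.intCast_im]
    show ((zv (Z.mul c x.im) : ℤ) : ℝ) = (zv c : ℝ) * zv x.im + 0 * _
    rw [zv_mul]; push_cast; ring

theorem rv_add : ∀ (l r : List Cx) (vs : List ℂ), rv (addL l r) vs = rv l vs + rv r vs
  | [], r, vs => by
    show rv r vs = _
    rw [rv_nil_left, zero_add]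
  | x :: xs, [], vs => by
    show rv (x :: xs) vs = _
    rw [rv_nil_left, add_zero]
  | x :: xs, y :: t, [] => by rw [rv_nil_right, rv_nil_right, rv_nil_right, add_zero]
  | x :: xs, y :: t, v :: vs => by
    have ih := rv_add xs t vs
    show cz (cad x y) * v + rv (addL xs t) vs = (cz x * v + rv xs vs) + (cz y * v + rv t vs)
    rw [cz_cad, ih]
    ring

theorem F_add : ∀ (l r : List Row) (vs : List ℂ), F (addR l r) vs = F l vs + F r vs
  | [], r, vs => by
    show F r vs = _
    rw [F_nil_left, zero_add]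
  | x :: xs, [], vs => by
    show F (x :: xs) vs = _
    rw [F_nil_left, add_zero]
  | x :: xs, y :: t, [] => by rw [F_nil_right, F_nil_right, F_nil_right, add_zero]
  | x :: xs, y :: t, v :: vs => by
    have ih := F_add xs t vs
    show (zv (Z.add x.d y.d) : ℝ) * normSq v + 2 * (conj v * rv (addL x.r y.r) vs).re +
      F (addR xs t) vs = (zv x.d * normSq v + 2 * (conj v * rv x.r vs).re + F xs vs) +
        (zv y.d * normSq v + 2 * (conj v * rv y.r vs).re + F t vs)
    rw [zv_add, rv_add, ih, mul_add, Complex.add_re]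
    push_cast
    ring

theorem rv_sm (c : Z) : ∀ (l : List Cx) (vs : List ℂ), rv (smL c l) vs = (zv c : ℂ) * rv l vs
  | [], vs => by
    show rv [] vs = _
    rw [rv_nil_left, mul_zero]
  | x :: xs, [] => by rw [rv_nil_right, rv_nil_right, mul_zero]
  | x :: xs, v :: vs => by
    have ih := rv_sm c xs vs
    show cz (csm c x) * v + rv (smL c xs) vs = (zv c : ℂ) * (cz x * v + rv xs vs)
    rw [cz_csm, ih]
    ring

theorem F_sm (c : Z) : ∀ (l : List Row) (vs : List ℂ), F (smR c l) vs = (zv c : ℝ) * F l vs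
  | [], vs => by
    show F [] vs = _
    rw [F_nil_left, mul_zero]
  | x :: xs, [] => by rw [F_nil_right, F_nil_right, mul_zero]
  | x :: xs, v :: vs => by
    have ih := F_sm c xs vs
    show (zv (Z.mul c x.d) : ℝ) * normSq v + 2 * (conj v * rv (smL c x.r) vs).re +
      F (smR c xs) vs = (zv c : ℝ) * (zv x.d * normSq v + 2 * (conj v * rv x.r vs).re + F xs vs)
    have e : (conj v * ((zv c : ℂ) * rv x.r vs)).re = (zv c : ℝ) * (conj v * rv x.r vs).re := by
      have : conj v * ((zv c : ℂ) * rv x.r vs) = ((zv c : ℝ) : ℂ) * (conj v * rv x.r vs) := by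
        push_cast; ring
      rw [this, Complex.re_ofReal_mul]
    rw [zv_mul, rv_sm, ih, e]
    push_cast
    ring

/-! ### the form `2 Re (X v) conj (Y v)` -/

/-- `conj y X_b + conj x Y_b` -/
def rkL (x y : Cx) (X : List Cx) : List Cx → List Cx :=
  List.rec (motive := fun _ => List Cx → List Cx) (fun _ => [])
    (fun a _ ih Y => List.rec (motive := fun _ => List Cx) []
      (fun b t _ => cad (cjm y a) (cjm x b) :: ih t) Y) X
/-- twice the real part of a real number -/
def dbl (x : Z) : Z := Z.add x x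
def rkR (X : List Cx) : List Cx → List Row :=
  List.rec (motive := fun _ => List Cx → List Row) (fun _ => [])
    (fun x X ih Y => List.rec (motive := fun _ => List Row) []
      (fun y Y _ => ⟨dbl (cjm y x).re, rkL x y X Y⟩ :: ih Y) Y) X

theorem rkL_eq (x y : Cx) : ∀ (X Y : List Cx) (vs : List ℂ), X.length = Y.length →
    rv (rkL x y X Y) vs = conj (cz y) * rv X vs + conj (cz x) * rv Y vs
  | [], [], vs, _ => by
    show rv [] vs = _
    rw [rv_nil_left]; ring
  | a :: X, b :: Y, [], _ => by rw [rv_nil_right, rv_nil_right, rv_nil_right]; ring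
  | a :: X, b :: Y, v :: vs, h => by
    have ih := rkL_eq x y X Y vs (by simpa using h)
    show cz (cad (cjm y a) (cjm x b)) * v + rv (rkL x y X Y) vs =
      conj (cz y) * (cz a * v + rv X vs) + conj (cz x) * (cz b * v + rv Y vs)
    rw [cz_cad, cz_cjm, cz_cjm, ih]
    ring

theorem rkR_eq : ∀ (X Y : List Cx) (vs : List ℂ), X.length = Y.length →
    F (rkR X Y) vs = 2 * (rv X vs * conj (rv Y vs)).re
  | [], [], vs, _ => by
    show F [] vs = _
    rw [F_nil_left, rv_nil_left]
    simp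
  | x :: X, y :: Y, [], _ => by
    rw [F_nil_right, rv_nil_right]
    simp
  | x :: X, y :: Y, v :: vs, h => by
    have h' : X.length = Y.length := by simpa using h
    have ih := rkR_eq X Y vs h'
    show (zv (dbl (cjm y x).re) : ℝ) * normSq v + 2 * (conj v * rv (rkL x y X Y) vs).re +
      F (rkR X Y) vs = 2 * ((cz x * v + rv X vs) * conj (cz y * v + rv Y vs)).re
    rw [ih, rkL_eq x y X Y vs h']
    have e1 : (zv (dbl (cjm y x).re) : ℝ) = 2 * (conj (cz y) * cz x).re := by
      rw [← cz_cjm]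
      show (zv (Z.add _ _) : ℝ) = 2 * ((zv (cjm y x).re : ℤ) : ℝ)
      rw [zv_add]; push_cast; ring
    rw [e1]
    generalize cz x = a
    generalize cz y = b
    generalize rv X vs = A
    generalize rv Y vs = B
    simp only [normSq_apply, Complex.mul_re, Complex.mul_im, Complex.add_re, Complex.add_im,
      Complex.conj_re, Complex.conj_im]
    ring

/-! ### products of two forms -/

/-- a Hermitian `3 x 3` matrix of integers -/
structure H3 where
  a : Z
  b : Z
  c : Z
  x : Cx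
  y : Cx
  w : Cx

def cj (x : Cx) : Cx := ⟨x.re, opp x.im⟩
/-- a real number as a complex number -/
def rc (x : Z) : Cx := ⟨x, Z.p (nat_lit 0)⟩

theorem cz_cj (x : Cx) : cz (cj x) = conj (cz x) := by
  apply Complex.ext
  · rfl
  · rw [Complex.conj_im]
    show ((zv (opp x.im) : ℤ) : ℝ) = -(zv x.im : ℝ)
    rw [zv_opp]; push_cast; rfl

theorem cz_rc (x : Z) : cz (rc x) = ((zv x : ℝ) : ℂ) := by
  apply Complex.ext
  · rfl
  · rw [Complex.ofReal_im]
    show ((zv (Z.p (nat_lit 0)) : ℤ) : ℝ) = 0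
    rw [zv_p]
    norm_num

/-- `m` times the full row `j` of `B` -/
def fr0 (B : H3) (m : Cx) : List Cx := [csm B.a m, cmu m B.x, cmu m B.y]
def fr1 (B : H3) (m : Cx) : List Cx := [cjm B.x m, csm B.b m, cmu m B.w]
def fr2 (B : H3) (m : Cx) : List Cx := [cjm B.y m, cjm B.w m, csm B.c m]

def app (l r : List Cx) : List Cx :=
  List.rec (motive := fun _ => List Cx) r (fun x _ ih => x :: ih) l

/-- `A ⊗ B` in the order `w_0 u_0, w_0 u_1, .., w_2 u_2` -/
def kr (A B : H3) : List Row :=
  [⟨Z.mul A.a B.a, csm A.a B.x :: csm A.a B.y :: app (fr0 B A.x) (fr0 B A.y)⟩,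
   ⟨Z.mul A.a B.b, csm A.a B.w :: app (fr1 B A.x) (fr1 B A.y)⟩,
   ⟨Z.mul A.a B.c, app (fr2 B A.x) (fr2 B A.y)⟩,
   ⟨Z.mul A.b B.a, csm A.b B.x :: csm A.b B.y :: fr0 B A.w⟩,
   ⟨Z.mul A.b B.b, csm A.b B.w :: fr1 B A.w⟩,
   ⟨Z.mul A.b B.c, fr2 B A.w⟩,
   ⟨Z.mul A.c B.a, csm A.c B.x :: csm A.c B.y :: []⟩,
   ⟨Z.mul A.c B.b, csm A.c B.w :: []⟩,
   ⟨Z.mul A.c B.c, []⟩]

/-- the value of a form -/
def hv (B : H3) (u : Fin 3 → ℂ) : ℝ :=
  zv B.a * normSq (u 0) + zv B.b * normSq (u 1) + zv B.c * normSq (u 2) +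
    2 * (conj (u 0) * cz B.x * u 1).re + 2 * (conj (u 0) * cz B.y * u 2).re +
    2 * (conj (u 1) * cz B.w * u 2).re

/-- the tensor -/
def tens (w u : Fin 3 → ℂ) : List ℂ :=
  [w 0 * u 0, w 0 * u 1, w 0 * u 2, w 1 * u 0, w 1 * u 1, w 1 * u 2, w 2 * u 0, w 2 * u 1,
    w 2 * u 2]

/-- one block row: `2 Re conj (w_0 u_j) (m w_1 (B u)_j)` summed -/
theorem kr_eq (A B : H3) (w u : Fin 3 → ℂ) : F (kr A B) (tens w u) = hv A w * hv B u := by
  unfold tens kr
  have ap : ∀ (a b c d e f : Cx), app [a, b, c] [d, e, f] = [a, b, c, d, e, f] :=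
    fun _ _ _ _ _ _ => rfl
  simp only [fr0, fr1, fr2, ap, F, rv, zv_mul, cz_csm, cz_cmu, cz_cjm, hv]
  generalize cz A.x = Ax
  generalize cz A.y = Ay
  generalize cz A.w = Aw
  generalize cz B.x = Bx
  generalize cz B.y = By
  generalize cz B.w = Bw
  generalize zv A.a = Aa
  generalize zv A.b = Ab
  generalize zv A.c = Ac
  generalize zv B.a = Ba
  generalize zv B.b = Bb
  generalize zv B.c = Bc
  generalize w 0 = w0
  generalize w 1 = w1
  generalize w 2 = w2
  generalize u 0 = u0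
  generalize u 1 = u1
  generalize u 2 = u2
  simp only [normSq_apply, Complex.mul_re, Complex.mul_im, Complex.add_re, Complex.add_im,
    Complex.conj_re, Complex.conj_im, Complex.intCast_re, Complex.intCast_im, Complex.zero_re,
    Complex.zero_im, map_mul]
  push_cast
  ring

/-! ### THE TEST (ii): one block, one point -/

/-- pairs of forms -/
structure HP where
  A : H3
  B : H3

def krs (T : List HP) : List Row :=
  List.rec (motive := fun _ => List Row) [] (fun x _ ih => addR (kr x.A x.B) ih) T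
/-- the matrix of `2 Re (w X u) conj (w Y u) + ∑ A(w) B(u)` -/
def m9 (X Y : List Cx) (T : List HP) : List Row := addR (rkR X Y) (krs T)

/-- `∑ A(w) B(u)` -/
def sv : List HP → (Fin 3 → ℂ) → (Fin 3 → ℂ) → ℝ
  | [], _, _ => 0
  | x :: T, w, u => hv x.A w * hv x.B u + sv T w u

theorem krs_eq : ∀ (T : List HP) (w u : Fin 3 → ℂ), F (krs T) (tens w u) = sv T w u
  | [], w, u => F_nil_left _
  | x :: T, w, u => by
    have ih := krs_eq T w u
    show F (addR (kr x.A x.B) (krs T)) (tens w u) = hv x.A w * hv x.B u + sv T w u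
    rw [F_add, kr_eq, ih]

theorem m9_eq {X Y : List Cx} (h : X.length = Y.length) (T : List HP) (w u : Fin 3 → ℂ) :
    F (m9 X Y T) (tens w u) =
      2 * (rv X (tens w u) * conj (rv Y (tens w u))).re + sv T w u := by
  unfold m9
  rw [F_add, rkR_eq X Y _ h, krs_eq]

theorem m9_sound {X Y : List Cx} (h : X.length = Y.length) {T : List HP}
    (hp : pdN (m9 X Y T) = true) (w u : Fin 3 → ℂ) :
    0 ≤ 2 * (rv X (tens w u) * conj (rv Y (tens w u))).re + sv T w u := by
  rw [← m9_eq h]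
  exact pdN_sound hp _

end Pool.Agent.Helper90.PDN
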